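import Pool.Agent.Helper48.BK.StD

/-!
# Project BK, module PS (helper24): partial summation
-/

set_option autoImplicit false

namespace Pool.Agent.Helper48.BK

open Finset ArithmeticFunction

theorem ex_add_PS (s t : ℝ) : ex (s + t) = ex s * ex t := by
  unfold ex
  rw [← Complex.exp_add]
  congr 1
  push_cast
  ring

theorem norm_ex_PS (t : ℝ) : ‖ex t‖ = 1 := by
  unfold ex
  have : (2 * (Real.pi : ℂ) * (t : ℂ) * Complex.I) = ((2 * Real.pi * t : ℝ) : ℂ) * Complex.I := by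
    push_cast
    ring
  rw [this, Complex.norm_exp_ofReal_mul_I]

theorem ex_int_PS (k : ℤ) : ex (k : ℝ) = 1 := by
  unfold ex
  rw [Complex.exp_eq_one_iff]
  exact ⟨k, by push_cast; ring⟩

theorem ex_diff_PS (s β : ℝ) : ‖ex (s + β) - ex s‖ ≤ 2 * Real.pi * |β| := by
  rw [ex_add_PS, show ex s * ex β - ex s = ex s * (ex β - 1) by ring, norm_mul, norm_ex_PS,
    one_mul]
  unfold ex
  have h1 : (2 * (Real.pi : ℂ) * (β : ℂ) * Complex.I) =
      Complex.I * ((2 * Real.pi * β : ℝ) : ℂ) := by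
    push_cast
    ring
  rw [h1]
  refine (Real.norm_exp_I_mul_ofReal_sub_one_le).trans ?_
  rw [Real.norm_eq_abs, abs_mul, abs_of_pos (by positivity : (0 : ℝ) < 2 * Real.pi)]

/-- Abel summation -/
theorem abel_PS (g : ℕ → ℝ) (β R : ℝ) (hR : 0 ≤ R) (y : ℕ)
    (h : ∀ m ≤ y, |∑ n ∈ Ioc 0 m, g n| ≤ R) :
    ‖∑ n ∈ Ioc 0 y, (g n : ℂ) * ex (n * β)‖ ≤ R * (1 + 2 * Real.pi * |β| * y) := by
  have key : ∀ m ≤ y, ‖∑ n ∈ Ioc 0 m, (g n : ℂ) * ex (n * β) -
      ((∑ n ∈ Ioc 0 m, g n : ℝ) : ℂ) * ex (m * β)‖ ≤ R * (2 * Real.pi * |β| * m) := by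
    intro m
    induction m with
    | zero => intro _; simp
    | succ m ih =>
      intro hm
      have h1 := ih (by omega)
      rw [sum_Ioc_succ_top (Nat.zero_le m), sum_Ioc_succ_top (Nat.zero_le m)]
      have e : ∑ n ∈ Ioc 0 m, (g n : ℂ) * ex (n * β) +
          (g (m + 1) : ℂ) * ex (((m + 1 : ℕ) : ℝ) * β) -
          ((∑ n ∈ Ioc 0 m, g n + g (m + 1) : ℝ) : ℂ) * ex (((m + 1 : ℕ) : ℝ) * β) =
          (∑ n ∈ Ioc 0 m, (g n : ℂ) * ex (n * β) -
            ((∑ n ∈ Ioc 0 m, g n : ℝ) : ℂ) * ex (m * β)) -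
          ((∑ n ∈ Ioc 0 m, g n : ℝ) : ℂ) * (ex (m * β + β) - ex (m * β)) := by
        have e1 : ((m + 1 : ℕ) : ℝ) * β = m * β + β := by push_cast; ring
        rw [e1]
        push_cast
        ring
      rw [e]
      refine (norm_sub_le _ _).trans ?_
      have h2 := ex_diff_PS (m * β) β
      have h3 := h m (by omega)
      have h4 : ‖((∑ n ∈ Ioc 0 m, g n : ℝ) : ℂ) * (ex (m * β + β) - ex (m * β))‖ ≤
          R * (2 * Real.pi * |β|) := by
        rw [norm_mul, Complex.norm_real, Real.norm_eq_abs]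
        exact mul_le_mul h3 h2 (norm_nonneg _) hR
      calc _ ≤ R * (2 * Real.pi * |β| * m) + R * (2 * Real.pi * |β|) := add_le_add h1 h4
        _ = R * (2 * Real.pi * |β| * ((m + 1 : ℕ) : ℝ)) := by push_cast; ring
  have h1 := key y le_rfl
  have h2 : ‖((∑ n ∈ Ioc 0 y, g n : ℝ) : ℂ) * ex (y * β)‖ ≤ R := by
    rw [norm_mul, norm_ex_PS, mul_one, Complex.norm_real, Real.norm_eq_abs]
    exact h y le_rfl
  have h3 := norm_add_le (∑ n ∈ Ioc 0 y, (g n : ℂ) * ex (n * β) -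
      ((∑ n ∈ Ioc 0 y, g n : ℝ) : ℂ) * ex (y * β)) (((∑ n ∈ Ioc 0 y, g n : ℝ) : ℂ) * ex (y * β))
  rw [sub_add_cancel] at h3
  calc _ ≤ _ := h3
    _ ≤ R * (2 * Real.pi * |β| * y) + R := add_le_add h1 h2
    _ = _ := by ring

theorem hPS : StPS := by
  intro f x q h β R hq hyp y hy
  classical
  have hq0 : 0 < q := by omega
  have hqR : (q : ℝ) ≠ 0 := by exact_mod_cast hq0.ne'
  have hR : 0 ≤ R := (abs_nonneg _).trans (hyp y hy 0 hq0)
  have hdec : Sx f y (h / q + β) = ∑ u ∈ range q, ex (u * (h / q)) *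
      ∑ n ∈ Ioc 0 y, (((if n ≡ u [MOD q] then f n else 0) : ℝ) : ℂ) * ex (n * β) := by
    unfold Sx
    simp_rw [mul_sum]
    rw [sum_comm]
    apply sum_congr rfl
    intro n _
    rw [sum_eq_single (n % q)]
    · rw [if_pos (Nat.mod_modEq n q).symm]
      have h1 : ex ((n : ℝ) * (h / q + β)) = ex (((n % q : ℕ) : ℝ) * (h / q)) * ex (n * β) := by
        have h2 : (n : ℝ) = ((n % q : ℕ) : ℝ) + q * ((n / q : ℕ) : ℝ) := by
          exact_mod_cast (Nat.mod_add_div n q).symm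
        have h3 : (n : ℝ) * (h / q + β) = ((h * (n / q : ℕ) : ℤ) : ℝ) +
            (((n % q : ℕ) : ℝ) * (h / q) + n * β) := by
          have h4 : (n : ℝ) * (h / q) = ((h * (n / q : ℕ) : ℤ) : ℝ) +
              ((n % q : ℕ) : ℝ) * (h / q) := by
            have h5 : ((h * (n / q : ℕ) : ℤ) : ℝ) = (h : ℝ) * ((n / q : ℕ) : ℝ) := by
              rw [Int.cast_mul, Int.cast_natCast]
            rw [h5]
            nth_rewrite 1 [h2]
            field_simp
            ring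
          rw [mul_add, h4]
          ring
        rw [h3, ex_add_PS, ex_int_PS, one_mul, ex_add_PS]
      rw [h1]
      ring
    · intro u hu hne
      rw [if_neg]
      · simp
      · intro hc
        apply hne
        have h1 : n % q = u % q := hc
        rw [h1, Nat.mod_eq_of_lt (mem_range.1 hu)]
    · intro hc
      exact absurd (mem_range.2 (Nat.mod_lt n hq0)) hc
  rw [hdec]
  refine (norm_sum_le _ _).trans ?_
  have hb : ∀ u ∈ range q, ‖ex (u * (h / q)) *
      ∑ n ∈ Ioc 0 y, (((if n ≡ u [MOD q] then f n else 0) : ℝ) : ℂ) * ex (n * β)‖ ≤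
      R * (1 + 2 * Real.pi * |β| * x) := by
    intro u hu
    rw [norm_mul, norm_ex_PS, one_mul]
    refine (abel_PS (fun n => if n ≡ u [MOD q] then f n else 0) β R hR y ?_).trans ?_
    · intro m hm
      have h1 := hyp m (hm.trans hy) u (mem_range.1 hu)
      rw [sum_filter] at h1
      exact h1
    · have h1 : (y : ℝ) ≤ x := by exact_mod_cast hy
      have h2 : 0 ≤ 2 * Real.pi * |β| := by positivity
      apply mul_le_mul_of_nonneg_left _ hR
      have h3 := mul_le_mul_of_nonneg_left h1 h2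
      linarith
  refine (sum_le_sum hb).trans ?_
  rw [sum_const, card_range, nsmul_eq_mul]
  exact le_of_eq (by ring)

end Pool.Agent.Helper48.BK
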