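import Pool.Agent.Helper48.BK.StD

/-!
# Project BK, module Th (helper24): prime powers
-/

set_option autoImplicit false

namespace Pool.Agent.Helper48.BK

open Finset ArithmeticFunction

theorem hTh : StTh := by
  have hth : ∀ n, 0 ≤ th n ∧ th n ≤ Λ n ∧ th n ≤ Real.log n := by
    intro n
    unfold th
    by_cases h : n.Prime
    · rw [if_pos h]
      have h1 : (0 : ℝ) ≤ Real.log n := Real.log_natCast_nonneg n
      refine ⟨h1, ?_, le_rfl⟩
      rw [vonMangoldt_apply_prime h]
    · rw [if_neg h]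
      exact ⟨le_rfl, vonMangoldt_nonneg, Real.log_natCast_nonneg n⟩
  refine ⟨hth, 2, by norm_num, fun x hx => ?_⟩
  have hx1 : (1 : ℝ) ≤ (x : ℝ) := by exact_mod_cast (by omega : 1 ≤ x)
  have h1 := Chebyshev.psi_sub_theta_le hx1
  rw [Chebyshev.psi_sub_theta_eq_sum_not_prime, Nat.floor_natCast] at h1
  have h2 : ∑ n ∈ Ioc 0 x, (Λ n - th n) = ∑ n ∈ Ioc 0 x with ¬ n.Prime, Λ n := by
    rw [sum_filter]
    apply sum_congr rfl
    intro n _
    unfold th
    by_cases h : n.Prime
    · rw [if_pos h, if_neg (not_not.2 h), vonMangoldt_apply_prime h, sub_self]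
    · rw [if_neg h, if_pos h, sub_zero]
  rw [h2]
  refine h1.trans ?_
  have h3 : (1 : ℝ) ≤ Real.log x := by
    rw [Real.le_log_iff_exp_le (by positivity)]
    have h4 := Real.exp_one_lt_d9
    have h5 : (3 : ℝ) ≤ x := by exact_mod_cast hx
    linarith
  have h4 : Real.log x ≤ Real.log x ^ 2 := by nlinarith
  have h5 : 0 ≤ 2 * √(x : ℝ) := by positivity
  exact mul_le_mul_of_nonneg_left h4 h5

end Pool.Agent.Helper48.BK
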