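import Pool.Agent.Helper48.BK.StB

/-!
# Project BK: statements, exponential sums (V, M, D)
-/

set_option autoImplicit false

namespace Pool.Agent.Helper48.BK

open Finset ArithmeticFunction

/-- `α` is within `1/q²` of the reduced fraction `h/q` -/
def Apx (α : ℝ) (h : ℤ) (q : ℕ) : Prop :=
  1 ≤ q ∧ IsCoprime h (q : ℤ) ∧ |α - h / q| ≤ 1 / (q : ℝ) ^ 2

/-! ### V: minor arcs for the primes -/

/-- V1: geometric sums -/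
def StGeo1 : Prop := (∀ (u N : ℕ) (t : ℝ), ‖∑ n ∈ Ioc u (u + N), ex (n * t)‖ ≤ gs N t) ∧
  (∀ (N N' t : ℝ), 0 ≤ N → N ≤ N' → gs N t ≤ gs N' t) ∧ (∀ (N t : ℝ), 0 ≤ N → 0 ≤ gs N t) ∧
  (∀ (N t : ℝ), 0 ≤ N → gs N (-t) = gs N t)

/-- V2: sums of `min (N, 1/‖k α‖)` -/
def StGeo2 : Prop := ∃ C : ℝ, 0 < C ∧ ∀ (K q : ℕ) (N : ℝ) (h : ℤ) (α : ℝ), 1 ≤ N → Apx α h q →
  ∑ k ∈ Icc 1 K, gs N (k * α) ≤ C * ((K : ℝ) / q + 1) * (N + q * (1 + Real.log q))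

/-- V3: type one sums -/
def StTI : Prop := ∃ C : ℝ, 0 < C ∧ ∀ (x J q : ℕ) (h : ℤ) (α : ℝ), 3 ≤ x → q ≤ x → Apx α h q →
  1 ≤ J → J ≤ x →
  ∑ j ∈ Icc 1 J, gs ((x : ℝ) / j) (j * α) ≤ C * ((x : ℝ) / q + J + q) * Real.log x ^ 2

/-- V4: type two sums -/
def StTII : Prop := ∃ C : ℝ, 0 < C ∧ ∀ (x y P V q : ℕ) (h : ℤ) (α : ℝ) (a b : ℕ → ℝ), 3 ≤ x →
  y ≤ x → 1 ≤ P → P ≤ x → q ≤ x → Apx α h q →
  ‖∑ u ∈ Ioc P (2 * P), ∑ v ∈ Ioc V (y / u), ((a u * b v : ℝ) : ℂ) * ex (u * v * α)‖ ^ 2 ≤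
    C * (∑ u ∈ Ioc P (2 * P), a u ^ 2) * (∑ v ∈ Ioc 0 (x / P), b v ^ 2) *
      ((P : ℝ) + (x : ℝ) / q + (x : ℝ) / P + q) * Real.log x

/-- V5: minor arcs for the von Mangoldt function -/
def StVau : Prop := ∃ C : ℝ, 0 < C ∧ ∀ (x y U q : ℕ) (h : ℤ) (α : ℝ), 3 ≤ x → y ≤ x → 1 ≤ U →
  U ^ 2 ≤ x → q ≤ x → Apx α h q →
  ‖Sx (fun n => Λ n) y α‖ ≤ C * ((x : ℝ) / √q + x / √U + √((x : ℝ) * q) + (U : ℝ) ^ 2) *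
    Real.log x ^ 6

/-! ### M: the model -/

open Classical in
/-- M1: Bonferroni inequalities -/
def StBrun : Prop := ∀ (P : Finset ℕ) (r n : ℕ),
  |(if ∀ p ∈ P, ¬ p ∣ n then (1 : ℝ) else 0) -
    ∑ T ∈ P.powerset.filter (fun T => T.card ≤ r ∧ ∀ p ∈ T, p ∣ n), (-1 : ℝ) ^ T.card| ≤
    ((P.powerset.filter (fun T => T.card = r + 1 ∧ ∀ p ∈ T, p ∣ n)).card : ℝ)

/-- M2: elementary symmetric functions of `1/p` -/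
def StTail : Prop := ∀ z r : ℕ, 2 ≤ z →
  ∑ T ∈ (Pz z).powerset.filter (fun T => T.card = r), (1 : ℝ) / ((∏ p ∈ T, p : ℕ) : ℝ) ≤
    (1 + Real.log z) ^ r / r.factorial

/-- M3: minor arcs for the model -/
def StMinZ : Prop := ∀ A B : ℕ, ∃ (x₀ : ℕ) (C : ℝ), 0 < C ∧ ∀ (x y z q : ℕ) (h : ℤ) (α : ℝ),
  x₀ ≤ x → y ≤ x → 2 ≤ z → (z : ℝ) ≤ Real.log x ^ B → q ≤ x → Apx α h q →
  ‖Sx (lz z) y α‖ ≤ C * ((x : ℝ) / q + √x + q) * Real.log x ^ 3 + x / Real.log x ^ A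

/-- M4: the model in residue classes -/
def StAPZ : Prop := ∀ A B : ℕ, ∃ x₀ : ℕ, ∀ x y z q u : ℕ, x₀ ≤ x → y ≤ x → 2 ≤ z →
  (z : ℝ) ≤ Real.log x ^ B → 1 ≤ q → q ≤ z →
  |∑ n ∈ (Ioc 0 y).filter (fun n => n ≡ u [MOD q]), lz z n -
    (if Nat.Coprime u q then (y : ℝ) / Nat.totient q else 0)| ≤ x / Real.log x ^ A

/-! ### D: major arcs and assembly -/

/-- W: primes in residue classes (Siegel-Walfisz) -/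
def StSW : Prop := ∀ A B : ℕ, ∃ x₀ : ℕ, ∀ x y q u : ℕ, x₀ ≤ x → y ≤ x → 1 ≤ q →
  (q : ℝ) ≤ Real.log x ^ B →
  |∑ n ∈ (Ioc 0 y).filter (fun n => n ≡ u [MOD q]), th n -
    (if Nat.Coprime u q then (y : ℝ) / Nat.totient q else 0)| ≤ x / Real.log x ^ A

/-- D1: partial summation -/
def StPS : Prop := ∀ (f : ℕ → ℝ) (x q : ℕ) (h : ℤ) (β R : ℝ), 1 ≤ q →
  (∀ y ≤ x, ∀ u < q, |∑ n ∈ (Ioc 0 y).filter (fun n => n ≡ u [MOD q]), f n| ≤ R) →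
  ∀ y ≤ x, ‖Sx f y (h / q + β)‖ ≤ q * R * (1 + 2 * Real.pi * |β| * x)

/-- D2: prime powers -/
def StTh : Prop := (∀ n, 0 ≤ th n ∧ th n ≤ Λ n ∧ th n ≤ Real.log n) ∧ ∃ C : ℝ, 0 < C ∧
  ∀ x : ℕ, 3 ≤ x → ∑ n ∈ Ioc 0 x, (Λ n - th n) ≤ C * √x * Real.log x ^ 2

end Pool.Agent.Helper48.BK
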