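import Pool.Agent.Helper48.BK.StW

/-! BK module Uns: removing the smooth weight. -/

set_option autoImplicit false

namespace Pool.Agent.Helper48.BK

open Finset

theorem log3_Uns : (1 : ℝ) ≤ Real.log 3 := by
  have h := Real.exp_one_lt_d9
  rw [Real.le_log_iff_exp_le (by norm_num)]
  linarith

theorem hUns : StUns := by
  intro A
  refine ⟨7 + 3 * ((A + 1).factorial : ℝ), by positivity, ?_⟩
  intro f N K hN hK hf hS
  obtain ⟨L, hL⟩ : ∃ L : ℝ, L = Real.log N := ⟨_, rfl⟩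
  rw [← hL] at hS ⊢
  have hN0 : (0 : ℝ) < N := by exact_mod_cast (show 0 < N by omega)
  have hN3 : (3 : ℝ) ≤ N := by exact_mod_cast hN
  have hL1 : 1 ≤ L := by
    rw [hL]
    exact log3_Uns.trans (Real.log_le_log (by norm_num) hN3)
  have hL0 : 0 < L := by linarith
  obtain ⟨δ, hδ⟩ : ∃ δ : ℝ, δ = 1 / L ^ (A + 1) := ⟨_, rfl⟩
  have hδ0 : 0 < δ := by rw [hδ]; positivity
  have hδ1 : δ ≤ 1 := by
    rw [hδ, div_le_one (by positivity)]
    exact one_le_pow₀ hL1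
  obtain ⟨H, hH⟩ : ∃ H : ℕ, H = ⌈(N : ℝ) * δ⌉₊ := ⟨_, rfl⟩
  have hH1 : (N : ℝ) * δ ≤ H := by rw [hH]; exact Nat.le_ceil _
  have hH2 : (H : ℝ) ≤ N * δ + 1 := by rw [hH]; exact (Nat.ceil_lt_add_one (by positivity)).le
  have hHN : H ≤ N := by
    rw [hH]
    refine Nat.ceil_le.2 ?_
    nlinarith
  have hHN' : (H : ℝ) ≤ N := by exact_mod_cast hHN
  have hS1 := hS N (Finset.mem_Icc.2 ⟨le_rfl, by omega⟩)
  have hS2 := hS (N + H) (Finset.mem_Icc.2 ⟨by omega, by omega⟩)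
  have hNH0 : (0 : ℝ) < ((N + H : ℕ) : ℝ) := by exact_mod_cast (show 0 < N + H by omega)
  obtain ⟨l, hl⟩ : ∃ l : ℝ, l = Real.log (((N + H : ℕ) : ℝ) / N) := ⟨_, rfl⟩
  have hratio : ((N + H : ℕ) : ℝ) / N = 1 + H / N := by
    push_cast
    field_simp
  have hHN0 : 0 ≤ (H : ℝ) / N := by positivity
  have hHN1 : (H : ℝ) / N ≤ 1 := by rw [div_le_one hN0]; exact hHN'
  have hlδ : δ / 2 ≤ l := by
    have h1 : 1 - (1 + (H : ℝ) / N)⁻¹ ≤ Real.log (1 + H / N) := by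
      have := Real.one_sub_inv_le_log_of_pos (show 0 < 1 + (H : ℝ) / N by positivity)
      exact this
    have h2 : δ ≤ (H : ℝ) / N := by rw [le_div_iff₀ hN0]; linarith
    have h3 : δ / 2 ≤ 1 - (1 + (H : ℝ) / N)⁻¹ := by
      have h4 : 1 - (1 + (H : ℝ) / N)⁻¹ = (H / N) / (1 + H / N) := by field_simp; ring
      rw [h4, div_le_div_iff₀ (by norm_num) (by positivity)]
      nlinarith
    rw [hl, hratio]
    linarith
  have hl0 : 0 < l := by linarith
  -- the identity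
  have e1 : ∑ n ∈ Ioc 0 N, f n * ((Real.posLog ((N : ℝ) / n) : ℝ) : ℂ) =
      ∑ n ∈ Ioc 0 N, f n * ((Real.log ((N : ℝ) / n) : ℝ) : ℂ) := by
    refine Finset.sum_congr rfl fun n hn => ?_
    rw [mem_Ioc] at hn
    have hn0 : (0 : ℝ) < n := by exact_mod_cast hn.1
    have hnN : (n : ℝ) ≤ N := by exact_mod_cast hn.2
    rw [Real.posLog_eq_log]
    rw [abs_of_pos (by positivity), le_div_iff₀ hn0]
    linarith
  have e2 : ∑ n ∈ Ioc 0 (N + H), f n * ((Real.posLog (((N + H : ℕ) : ℝ) / n) : ℝ) : ℂ) =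
      ∑ n ∈ Ioc 0 (N + H), f n * ((Real.log (((N + H : ℕ) : ℝ) / n) : ℝ) : ℂ) := by
    refine Finset.sum_congr rfl fun n hn => ?_
    rw [mem_Ioc] at hn
    have hn0 : (0 : ℝ) < n := by exact_mod_cast hn.1
    have hnN : (n : ℝ) ≤ ((N + H : ℕ) : ℝ) := by exact_mod_cast hn.2
    rw [Real.posLog_eq_log]
    rw [abs_of_pos (by positivity), le_div_iff₀ hn0]
    linarith
  have e3 : ∑ n ∈ Ioc 0 (N + H), f n * ((Real.log (((N + H : ℕ) : ℝ) / n) : ℝ) : ℂ) =
      ∑ n ∈ Ioc 0 N, f n * ((Real.log (((N + H : ℕ) : ℝ) / n) : ℝ) : ℂ) +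
      ∑ n ∈ Ioc N (N + H), f n * ((Real.log (((N + H : ℕ) : ℝ) / n) : ℝ) : ℂ) := by
    rw [Finset.sum_Ioc_consecutive _ (Nat.zero_le N) (Nat.le_add_right N H)]
  have e4 : ∑ n ∈ Ioc 0 N, f n * ((Real.log (((N + H : ℕ) : ℝ) / n) : ℝ) : ℂ) =
      ∑ n ∈ Ioc 0 N, f n * ((Real.log ((N : ℝ) / n) : ℝ) : ℂ) + (∑ n ∈ Ioc 0 N, f n) * (l : ℂ) := by
    rw [Finset.sum_mul, ← Finset.sum_add_distrib]
    refine Finset.sum_congr rfl fun n hn => ?_
    rw [mem_Ioc] at hn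
    have hn0 : (0 : ℝ) < n := by exact_mod_cast hn.1
    rw [← mul_add, ← Complex.ofReal_add, hl, Real.log_div hNH0.ne' hn0.ne',
      Real.log_div hN0.ne' hn0.ne', Real.log_div hNH0.ne' hN0.ne']
    congr 2
    ring
  have hE : ‖∑ n ∈ Ioc N (N + H), f n * ((Real.log (((N + H : ℕ) : ℝ) / n) : ℝ) : ℂ)‖ ≤
      H * ((3 * L) * l) := by
    refine (norm_sum_le _ _).trans ?_
    refine (Finset.sum_le_card_nsmul _ _ ((3 * L) * l) fun n hn => ?_).trans (le_of_eq ?_)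
    · rw [mem_Ioc] at hn
      have hn1 : (N : ℝ) < n := by exact_mod_cast hn.1
      have hn2 : (n : ℝ) ≤ ((N + H : ℕ) : ℝ) := by exact_mod_cast hn.2
      have hn0 : (0 : ℝ) < n := by linarith
      rw [norm_mul, Complex.norm_real, Real.norm_eq_abs]
      have hlogn : Real.log n ≤ L + 1 := by
        have h2N : (n : ℝ) ≤ 2 * N := by
          refine hn2.trans ?_
          push_cast
          linarith
        have hlog2 : Real.log 2 ≤ 1 := by
          have := Real.log_two_lt_d9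
          linarith
        calc Real.log n ≤ Real.log (2 * N) := Real.log_le_log hn0 h2N
          _ = Real.log 2 + L := by rw [Real.log_mul (by norm_num) hN0.ne', hL]
          _ ≤ _ := by linarith
      have hf1 : ‖f n‖ ≤ 3 * L := by
        refine (hf n (by omega)).trans ?_
        linarith
      have hlog0 : 0 ≤ Real.log (((N + H : ℕ) : ℝ) / n) := by
        apply Real.log_nonneg
        rw [le_div_iff₀ hn0]
        linarith
      have hlog1 : Real.log (((N + H : ℕ) : ℝ) / n) ≤ l := by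
        rw [hl]
        apply Real.log_le_log (by positivity)
        gcongr
      rw [abs_of_nonneg hlog0]
      exact mul_le_mul hf1 hlog1 hlog0 (by linarith)
    · rw [Nat.card_Ioc, nsmul_eq_mul]
      congr 2
      omega
  have hmain : ‖∑ n ∈ Ioc 0 N, f n‖ * l ≤ 2 * (K * N / L ^ (2 * A + 2)) + H * ((3 * L) * l) := by
    rw [e1] at hS1
    rw [e2, e3, e4] at hS2
    have h5 : ‖(∑ n ∈ Ioc 0 N, f n) * (l : ℂ)‖ = ‖∑ n ∈ Ioc 0 N, f n‖ * l := by
      rw [norm_mul, Complex.norm_real, Real.norm_eq_abs, abs_of_pos hl0]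
    rw [← h5]
    have h6 : (∑ n ∈ Ioc 0 N, f n) * (l : ℂ) =
        (∑ n ∈ Ioc 0 N, f n * ((Real.log ((N : ℝ) / n) : ℝ) : ℂ) + (∑ n ∈ Ioc 0 N, f n) * (l : ℂ) +
        ∑ n ∈ Ioc N (N + H), f n * ((Real.log (((N + H : ℕ) : ℝ) / n) : ℝ) : ℂ)) -
        ∑ n ∈ Ioc 0 N, f n * ((Real.log ((N : ℝ) / n) : ℝ) : ℂ) -
        ∑ n ∈ Ioc N (N + H), f n * ((Real.log (((N + H : ℕ) : ℝ) / n) : ℝ) : ℂ) := by ring
    rw [h6]
    refine (norm_sub_le _ _).trans ?_
    have h7 := (norm_sub_le (∑ n ∈ Ioc 0 N, f n * ((Real.log ((N : ℝ) / n) : ℝ) : ℂ) +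
      (∑ n ∈ Ioc 0 N, f n) * (l : ℂ) +
        ∑ n ∈ Ioc N (N + H), f n * ((Real.log (((N + H : ℕ) : ℝ) / n) : ℝ) : ℂ))
        (∑ n ∈ Ioc 0 N, f n * ((Real.log ((N : ℝ) / n) : ℝ) : ℂ)))
    linarith
  -- division
  have hfin : ‖∑ n ∈ Ioc 0 N, f n‖ ≤ 4 * K * N / L ^ (A + 1) + H * (3 * L) := by
    have h8 : 2 * (K * N / L ^ (2 * A + 2)) ≤ (4 * K * N / L ^ (A + 1)) * l := by
      have h9 : (4 * K * N / L ^ (A + 1)) * (δ / 2) = 2 * (K * N / L ^ (2 * A + 2)) := by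
        rw [hδ]
        have : L ^ (2 * A + 2) = L ^ (A + 1) * L ^ (A + 1) := by rw [← pow_add]; congr 1; ring
        rw [this]
        field_simp
        ring
      rw [← h9]
      exact mul_le_mul_of_nonneg_left hlδ (by positivity)
    have h10 : ‖∑ n ∈ Ioc 0 N, f n‖ * l ≤ (4 * K * N / L ^ (A + 1) + H * (3 * L)) * l := by
      nlinarith
    exact le_of_mul_le_mul_right h10 hl0
  refine hfin.trans ?_
  have hLA : 0 < L ^ A := by positivity
  have hfact : L ^ (A + 1) ≤ ((A + 1).factorial : ℝ) * N := by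
    have h11 := Real.pow_div_factorial_le_exp L hL0.le (A + 1)
    rw [hL, Real.exp_log hN0, ← hL] at h11
    rw [div_le_iff₀ (by positivity)] at h11
    linarith
  have t1 : 4 * K * N / L ^ (A + 1) ≤ 4 * K * N / L ^ A := by
    apply div_le_div_of_nonneg_left (by positivity) hLA
    exact pow_le_pow_right₀ hL1 (by omega)
  have t2 : (H : ℝ) * (3 * L) ≤ (3 + 3 * ((A + 1).factorial : ℝ)) * N / L ^ A := by
    rw [le_div_iff₀ hLA]
    have h12 : (H : ℝ) * (3 * L) * L ^ A = 3 * H * L ^ (A + 1) := by ring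
    have h13 : δ * L ^ (A + 1) = 1 := by rw [hδ]; field_simp
    rw [h12]
    calc 3 * (H : ℝ) * L ^ (A + 1) ≤ 3 * (N * δ + 1) * L ^ (A + 1) := by gcongr
      _ = 3 * N * (δ * L ^ (A + 1)) + 3 * L ^ (A + 1) := by ring
      _ ≤ 3 * N * 1 + 3 * (((A + 1).factorial : ℝ) * N) := by rw [h13]; linarith
      _ = _ := by ring
  have hNL : 0 ≤ (N : ℝ) / L ^ A := by positivity
  calc 4 * K * N / L ^ (A + 1) + H * (3 * L) ≤
        4 * K * N / L ^ A + (3 + 3 * ((A + 1).factorial : ℝ)) * N / L ^ A := add_le_add t1 t2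
    _ = (4 * K + (3 + 3 * ((A + 1).factorial : ℝ))) * (N / L ^ A) := by ring
    _ ≤ ((7 + 3 * ((A + 1).factorial : ℝ)) * (K + 1)) * (N / L ^ A) := by
        apply mul_le_mul_of_nonneg_right _ hNL
        have hfac0 : (0 : ℝ) ≤ ((A + 1).factorial : ℝ) := by positivity
        nlinarith [mul_nonneg hfac0 hK]
    _ = _ := by ring

end Pool.Agent.Helper48.BK
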