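import Mathlib
import Pool.Agent.Helper48.BK.StD

/-!
# Project BK, module APZ: the model in residue classes
-/

set_option autoImplicit false

namespace Pool.Agent.Helper48.BK

open Finset

/-- integers in an interval in a residue class -/
theorem cnt_class_APZ (y q v : ℕ) (hq : 1 ≤ q) :
    |((((Ioc 0 y).filter (fun n => n ≡ v [MOD q])).card : ℕ) : ℝ) - (y : ℝ) / q| ≤ 1 := by
  have h := Nat.Ioc_filter_modEq_card 0 y (r := q) hq v
  have hq0 : (0 : ℚ) < q := by exact_mod_cast hq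
  set a : ℚ := ((y : ℚ) - v) / q with ha
  set b : ℚ := (((0 : ℕ) : ℚ) - v) / q with hb
  have hab : a - b = (y : ℚ) / q := by rw [ha, hb]; push_cast; ring
  have h1 : (⌊b⌋ : ℤ) ≤ ⌊a⌋ := Int.floor_le_floor (by
    have : 0 ≤ (y : ℚ) / q := by positivity
    linarith)
  rw [max_eq_left (by linarith)] at h
  have h2 : ((((Ioc 0 y).filter (fun n => n ≡ v [MOD q])).card : ℕ) : ℚ) = (⌊a⌋ : ℚ) - ⌊b⌋ := by
    exact_mod_cast congrArg (fun x : ℤ => (x : ℚ)) h
  have h3 := Int.floor_le a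
  have h4 := Int.lt_floor_add_one a
  have h5 := Int.floor_le b
  have h6 := Int.lt_floor_add_one b
  have h7 : |((((Ioc 0 y).filter (fun n => n ≡ v [MOD q])).card : ℕ) : ℚ) - (y : ℚ) / q| ≤ 1 := by
    rw [h2, ← hab, abs_le]
    constructor <;> linarith
  have h8 : ((|((((Ioc 0 y).filter (fun n => n ≡ v [MOD q])).card : ℕ) : ℚ) - (y : ℚ) / q| : ℚ) : ℝ)
      ≤ ((1 : ℚ) : ℝ) := by exact_mod_cast h7
  push_cast at h8
  exact h8

/-- a residue class and divisibility -/
theorem cnt_APZ (y q u d : ℕ) (hq : 1 ≤ q) (hd : 1 ≤ d) (hqd : Nat.Coprime q d) :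
    |((((Ioc 0 y).filter (fun n => n ≡ u [MOD q] ∧ d ∣ n)).card : ℕ) : ℝ) -
      (y : ℝ) / (q * d)| ≤ 1 := by
  obtain ⟨w, hw1, hw2⟩ := Nat.chineseRemainder hqd u 0
  have h : (Ioc 0 y).filter (fun n => n ≡ u [MOD q] ∧ d ∣ n) =
      (Ioc 0 y).filter (fun n => n ≡ w [MOD q * d]) := by
    refine Finset.filter_congr fun n _ => ?_
    rw [← Nat.modEq_and_modEq_iff_modEq_mul hqd]
    constructor
    · rintro ⟨h1, h2⟩
      exact ⟨h1.trans hw1.symm, ((Nat.modEq_zero_iff_dvd.2 h2).trans hw2.symm)⟩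
    · rintro ⟨h1, h2⟩
      exact ⟨h1.trans hw1, Nat.modEq_zero_iff_dvd.1 (h2.trans hw2)⟩
  rw [h]
  have := cnt_class_APZ y (q * d) w (Nat.mul_pos hq hd)
  push_cast at this ⊢
  exact this

theorem dvd_prod_APZ (T : Finset ℕ) (hT : ∀ p ∈ T, p.Prime) (n : ℕ) :
    (∀ p ∈ T, p ∣ n) ↔ (∏ p ∈ T, p) ∣ n := by
  constructor
  · intro h
    exact Finset.prod_primes_dvd n (fun p hp => (hT p hp).prime) h
  · intro h p hp
    exact (Finset.dvd_prod_of_mem _ hp).trans h

/-- Rankin's trick for the tail -/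
theorem tail_APZ (P : Finset ℕ) (R : ℕ) (L : ℝ)
    (hL : ∑ p ∈ P, (1 : ℝ) / p ≤ L) :
    ∑ T ∈ P.powerset.filter (fun T => R ≤ T.card), (1 : ℝ) / ((∏ p ∈ T, p : ℕ) : ℝ) ≤
      Real.exp (3 * L - R) := by
  have hL0 : 0 ≤ L := le_trans (Finset.sum_nonneg fun p _ => by positivity) hL
  have h1 : ∀ T ∈ P.powerset.filter (fun T => R ≤ T.card),
      (1 : ℝ) / ((∏ p ∈ T, p : ℕ) : ℝ) ≤ Real.exp (-R) * ∏ p ∈ T, (Real.exp 1 * (1 / (p : ℝ))) := by
    intro T hT
    have hc := (Finset.mem_filter.1 hT).2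
    rw [Finset.prod_mul_distrib, Finset.prod_const, ← mul_assoc]
    have h2 : (1 : ℝ) ≤ Real.exp (-R) * Real.exp 1 ^ T.card := by
      rw [← Real.exp_nat_mul, ← Real.exp_add]
      refine Real.one_le_exp ?_
      have : (R : ℝ) ≤ T.card := by exact_mod_cast hc
      linarith
    have h3 : (1 : ℝ) / ((∏ p ∈ T, p : ℕ) : ℝ) = ∏ p ∈ T, (1 / (p : ℝ)) := by
      push_cast
      rw [Finset.prod_div_distrib]
      simp
    rw [h3]
    exact le_mul_of_one_le_left (Finset.prod_nonneg fun p _ => by positivity) h2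
  calc ∑ T ∈ P.powerset.filter (fun T => R ≤ T.card), (1 : ℝ) / ((∏ p ∈ T, p : ℕ) : ℝ)
      ≤ ∑ T ∈ P.powerset.filter (fun T => R ≤ T.card),
          Real.exp (-R) * ∏ p ∈ T, (Real.exp 1 * (1 / (p : ℝ))) := Finset.sum_le_sum h1
    _ ≤ ∑ T ∈ P.powerset, Real.exp (-R) * ∏ p ∈ T, (Real.exp 1 * (1 / (p : ℝ))) :=
        Finset.sum_le_sum_of_subset_of_nonneg (Finset.filter_subset _ _) fun T _ _ => by positivity
    _ = Real.exp (-R) * ∏ p ∈ P, (1 + Real.exp 1 * (1 / (p : ℝ))) := by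
        rw [← Finset.mul_sum, Finset.prod_one_add]
    _ ≤ Real.exp (-R) * Real.exp (3 * L) := by
        refine mul_le_mul_of_nonneg_left ?_ (Real.exp_nonneg _)
        calc ∏ p ∈ P, (1 + Real.exp 1 * (1 / (p : ℝ)))
            ≤ ∏ p ∈ P, Real.exp (Real.exp 1 * (1 / (p : ℝ))) := by
              refine Finset.prod_le_prod (fun p _ => by positivity) fun p _ => ?_
              have := Real.add_one_le_exp (Real.exp 1 * (1 / (p : ℝ)))
              linarith
          _ = Real.exp (Real.exp 1 * ∑ p ∈ P, (1 / (p : ℝ))) := by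
              rw [← Real.exp_sum, Finset.mul_sum]
          _ ≤ Real.exp (3 * L) := by
              refine Real.exp_le_exp.2 ?_
              have h3 : Real.exp 1 ≤ 3 := by
                have := Real.exp_one_lt_d9
                linarith
              exact mul_le_mul h3 hL (Finset.sum_nonneg fun p _ => by positivity) (by norm_num)
    _ = Real.exp (3 * L - R) := by rw [← Real.exp_add]; ring_nf

/-- the number of small subsets -/
theorem num_APZ (P : Finset ℕ) (R z : ℕ) (hz : 1 ≤ z) (hP : P.card ≤ z) :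
    ((P.powerset.filter (fun T => T.card ≤ R)).card : ℝ) ≤ 3 * (z : ℝ) ^ R := by
  have hz0 : (0 : ℝ) < z := by exact_mod_cast hz
  have hz1 : (1 : ℝ) ≤ z := by exact_mod_cast hz
  have h1 : ∀ T ∈ P.powerset.filter (fun T => T.card ≤ R),
      (1 : ℝ) ≤ (z : ℝ) ^ R * ∏ p ∈ T, (1 / (z : ℝ)) := by
    intro T hT
    have hc := (Finset.mem_filter.1 hT).2
    rw [Finset.prod_const, one_div, inv_pow, ← div_eq_mul_inv, le_div_iff₀ (by positivity), one_mul]
    exact pow_le_pow_right₀ hz1 hc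
  calc ((P.powerset.filter (fun T => T.card ≤ R)).card : ℝ)
      = ∑ T ∈ P.powerset.filter (fun T => T.card ≤ R), (1 : ℝ) := by simp
    _ ≤ ∑ T ∈ P.powerset.filter (fun T => T.card ≤ R), (z : ℝ) ^ R * ∏ p ∈ T, (1 / (z : ℝ)) :=
        Finset.sum_le_sum h1
    _ ≤ ∑ T ∈ P.powerset, (z : ℝ) ^ R * ∏ p ∈ T, (1 / (z : ℝ)) :=
        Finset.sum_le_sum_of_subset_of_nonneg (Finset.filter_subset _ _) fun T _ _ => by positivity
    _ = (z : ℝ) ^ R * ∏ p ∈ P, (1 + 1 / (z : ℝ)) := by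
        rw [← Finset.mul_sum, Finset.prod_one_add]
    _ ≤ (z : ℝ) ^ R * 3 := by
        refine mul_le_mul_of_nonneg_left ?_ (by positivity)
        rw [Finset.prod_const]
        calc (1 + 1 / (z : ℝ)) ^ P.card ≤ Real.exp (1 / (z : ℝ)) ^ P.card := by
              refine pow_le_pow_left₀ (by positivity) ?_ _
              have := Real.add_one_le_exp (1 / (z : ℝ))
              linarith
          _ = Real.exp (P.card * (1 / (z : ℝ))) := by rw [← Real.exp_nat_mul]
          _ ≤ Real.exp 1 := by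
              refine Real.exp_le_exp.2 ?_
              have : (P.card : ℝ) ≤ z := by exact_mod_cast hP
              rw [mul_one_div, div_le_one hz0]
              exact this
          _ ≤ 3 := by
              have := Real.exp_one_lt_d9
              linarith
    _ = 3 * (z : ℝ) ^ R := by ring

open Classical in
/-- the sieve with Bonferroni inequalities in a residue class -/
theorem sieve_APZ (ha : StBrun) (P : Finset ℕ) (q : ℕ) (hP : ∀ p ∈ P, p.Prime ∧ Nat.Coprime p q)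
    (hq : 1 ≤ q) (y u r : ℕ) :
    |∑ n ∈ (Ioc 0 y).filter (fun n => n ≡ u [MOD q]), (if ∀ p ∈ P, ¬ p ∣ n then (1 : ℝ) else 0) -
      (y : ℝ) / q * ∏ p ∈ P, (1 - 1 / (p : ℝ))| ≤
    ((P.powerset.filter (fun T => T.card ≤ r + 1)).card : ℝ) + 2 * ((y : ℝ) / q) *
      ∑ T ∈ P.powerset.filter (fun T => r + 1 ≤ T.card), (1 : ℝ) / ((∏ p ∈ T, p : ℕ) : ℝ) := by
  set S := (Ioc 0 y).filter (fun n => n ≡ u [MOD q]) with hS
  set N : Finset ℕ → ℝ := fun T => ((S.filter (fun n => ∀ p ∈ T, p ∣ n)).card : ℝ) with hNd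
  have hN : ∀ T ∈ P.powerset, |N T - (y : ℝ) / q * (1 / ((∏ p ∈ T, p : ℕ) : ℝ))| ≤ 1 := by
    intro T hT
    have hTP := Finset.mem_powerset.1 hT
    have h1 : S.filter (fun n => ∀ p ∈ T, p ∣ n) =
        (Ioc 0 y).filter (fun n => n ≡ u [MOD q] ∧ (∏ p ∈ T, p) ∣ n) := by
      rw [hS, Finset.filter_filter]
      refine Finset.filter_congr fun n _ => ?_
      rw [dvd_prod_APZ T (fun p hp => (hP p (hTP hp)).1)]
    have h2 := cnt_APZ y q u (∏ p ∈ T, p) hq
      (Nat.one_le_iff_ne_zero.2 (Finset.prod_ne_zero_iff.2 fun p hp => (hP p (hTP hp)).1.ne_zero))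
      (Nat.Coprime.prod_right fun p hp => (hP p (hTP hp)).2.symm)
    rw [← h1] at h2
    rw [div_mul_div_comm, mul_one]
    exact h2
  -- step A
  have hA : |∑ n ∈ S, (if ∀ p ∈ P, ¬ p ∣ n then (1 : ℝ) else 0) -
      ∑ T ∈ P.powerset.filter (fun T => T.card ≤ r), (-1 : ℝ) ^ T.card * N T| ≤
      ∑ T ∈ P.powerset.filter (fun T => T.card = r + 1), N T := by
    have h1 : ∀ (Q : Finset ℕ → Prop) [DecidablePred Q] (w : Finset ℕ → ℝ),
        ∑ n ∈ S, ∑ T ∈ P.powerset.filter (fun T => Q T ∧ ∀ p ∈ T, p ∣ n), w T =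
        ∑ T ∈ P.powerset.filter Q, w T * N T := by
      intro Q _ w
      have h2 : ∀ n ∈ S, ∑ T ∈ P.powerset.filter (fun T => Q T ∧ ∀ p ∈ T, p ∣ n), w T =
          ∑ T ∈ P.powerset.filter Q, if ∀ p ∈ T, p ∣ n then w T else 0 := by
        intro n _
        rw [← Finset.filter_filter, Finset.sum_filter]
      rw [Finset.sum_congr rfl h2, Finset.sum_comm]
      refine Finset.sum_congr rfl fun T _ => ?_
      rw [← Finset.sum_filter, Finset.sum_const, nsmul_eq_mul, mul_comm]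
    rw [← h1 (fun T => T.card ≤ r) (fun T => (-1 : ℝ) ^ T.card), ← Finset.sum_sub_distrib]
    refine (Finset.abs_sum_le_sum_abs _ _).trans ?_
    have h3 : ∑ T ∈ P.powerset.filter (fun T => T.card = r + 1), N T =
        ∑ T ∈ P.powerset.filter (fun T => T.card = r + 1), (fun _ => (1 : ℝ)) T * N T := by
      simp
    rw [h3, ← h1 (fun T => T.card = r + 1) (fun _ => (1 : ℝ))]
    refine Finset.sum_le_sum fun n _ => ?_
    refine (ha P r n).trans (le_of_eq ?_)
    simp
  -- the main term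
  have hM : (y : ℝ) / q * ∏ p ∈ P, (1 - 1 / (p : ℝ)) =
      ∑ T ∈ P.powerset, (-1 : ℝ) ^ T.card * ((y : ℝ) / q * (1 / ((∏ p ∈ T, p : ℕ) : ℝ))) := by
    have h1 : ∏ p ∈ P, (1 - 1 / (p : ℝ)) = ∏ p ∈ P, (1 + (-1) * (1 / (p : ℝ))) :=
      Finset.prod_congr rfl fun p _ => by ring
    rw [h1, Finset.prod_one_add, Finset.mul_sum]
    refine Finset.sum_congr rfl fun T _ => ?_
    rw [Finset.prod_mul_distrib, Finset.prod_const]
    have h3 : (1 : ℝ) / ((∏ p ∈ T, p : ℕ) : ℝ) = ∏ p ∈ T, (1 / (p : ℝ)) := by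
      push_cast
      rw [Finset.prod_div_distrib]
      simp
    rw [h3]
    ring
  have hsplit := Finset.sum_filter_add_sum_filter_not P.powerset (fun T => T.card ≤ r)
    (fun T => (-1 : ℝ) ^ T.card * ((y : ℝ) / q * (1 / ((∏ p ∈ T, p : ℕ) : ℝ))))
  have hnot : P.powerset.filter (fun T => ¬ T.card ≤ r) =
      P.powerset.filter (fun T => r + 1 ≤ T.card) :=
    Finset.filter_congr fun T _ => by omega
  rw [hnot] at hsplit
  have habs : ∀ T : Finset ℕ, |(-1 : ℝ) ^ T.card| = 1 := fun T => by simp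
  have hB : |∑ T ∈ P.powerset.filter (fun T => T.card ≤ r), (-1 : ℝ) ^ T.card * N T -
      ∑ T ∈ P.powerset.filter (fun T => T.card ≤ r),
        (-1 : ℝ) ^ T.card * ((y : ℝ) / q * (1 / ((∏ p ∈ T, p : ℕ) : ℝ)))| ≤
      ((P.powerset.filter (fun T => T.card ≤ r)).card : ℝ) := by
    rw [← Finset.sum_sub_distrib]
    refine (Finset.abs_sum_le_sum_abs _ _).trans ?_
    rw [← nsmul_one (P.powerset.filter (fun T => T.card ≤ r)).card, ← Finset.sum_const]
    refine Finset.sum_le_sum fun T hT => ?_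
    rw [← mul_sub, abs_mul, habs, one_mul]
    exact hN T (Finset.mem_filter.1 hT).1
  have hC : |∑ T ∈ P.powerset.filter (fun T => r + 1 ≤ T.card),
      (-1 : ℝ) ^ T.card * ((y : ℝ) / q * (1 / ((∏ p ∈ T, p : ℕ) : ℝ)))| ≤
      (y : ℝ) / q * ∑ T ∈ P.powerset.filter (fun T => r + 1 ≤ T.card),
        (1 : ℝ) / ((∏ p ∈ T, p : ℕ) : ℝ) := by
    refine (Finset.abs_sum_le_sum_abs _ _).trans ?_
    rw [Finset.mul_sum]
    refine Finset.sum_le_sum fun T _ => ?_
    rw [abs_mul, habs, one_mul, abs_of_nonneg (by positivity)]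
  have hD : ∑ T ∈ P.powerset.filter (fun T => T.card = r + 1), N T ≤
      ((P.powerset.filter (fun T => T.card = r + 1)).card : ℝ) +
      (y : ℝ) / q * ∑ T ∈ P.powerset.filter (fun T => r + 1 ≤ T.card),
        (1 : ℝ) / ((∏ p ∈ T, p : ℕ) : ℝ) := by
    have h1 : ∑ T ∈ P.powerset.filter (fun T => T.card = r + 1), N T ≤
        ∑ T ∈ P.powerset.filter (fun T => T.card = r + 1),
          (1 + (y : ℝ) / q * (1 / ((∏ p ∈ T, p : ℕ) : ℝ))) := by
      refine Finset.sum_le_sum fun T hT => ?_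
      have := (abs_le.1 (hN T (Finset.mem_filter.1 hT).1)).2
      linarith
    refine h1.trans ?_
    rw [Finset.sum_add_distrib, Finset.sum_const, nsmul_one, ← Finset.mul_sum]
    refine add_le_add le_rfl (mul_le_mul_of_nonneg_left ?_ (by positivity))
    refine Finset.sum_le_sum_of_subset_of_nonneg ?_ fun T _ _ => by positivity
    intro T hT
    rw [Finset.mem_filter] at hT ⊢
    exact ⟨hT.1, hT.2.ge⟩
  have hE : ((P.powerset.filter (fun T => T.card ≤ r)).card : ℝ) +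
      ((P.powerset.filter (fun T => T.card = r + 1)).card : ℝ) =
      ((P.powerset.filter (fun T => T.card ≤ r + 1)).card : ℝ) := by
    rw [← Nat.cast_add, ← Finset.card_union_of_disjoint]
    · congr 2
      ext T
      simp only [Finset.mem_union, Finset.mem_filter]
      constructor
      · rintro (⟨h1, h2⟩ | ⟨h1, h2⟩)
        · exact ⟨h1, by omega⟩
        · exact ⟨h1, by omega⟩
      · rintro ⟨h1, h2⟩
        rcases Nat.lt_or_ge r T.card with h | h
        · exact Or.inr ⟨h1, by omega⟩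
        · exact Or.inl ⟨h1, h⟩
    · rw [Finset.disjoint_filter]
      intro T _ h1 h2
      omega
  rw [hM, ← hsplit]
  rw [abs_le] at hA hB hC ⊢
  constructor <;> linarith [hA.1, hA.2, hB.1, hB.2, hC.1, hC.2, hD, hE]

theorem mem_Pz_APZ (z p : ℕ) : p ∈ Pz z ↔ p ≤ z ∧ p.Prime := by
  rw [Pz, Finset.mem_filter, Finset.mem_range, Nat.lt_succ_iff]

theorem sum_inv_APZ (z : ℕ) : ∑ p ∈ Pz z, (1 : ℝ) / p ≤ 1 + Real.log z := by
  have h1 : ∑ p ∈ Pz z, (1 : ℝ) / p ≤ ∑ p ∈ Icc 1 z, (1 : ℝ) / p := by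
    refine Finset.sum_le_sum_of_subset_of_nonneg ?_ fun p _ _ => by positivity
    intro p hp
    rw [mem_Pz_APZ] at hp
    exact Finset.mem_Icc.2 ⟨hp.2.one_lt.le, hp.1⟩
  have h2 := harmonic_le_one_add_log z
  have h3 : ((harmonic z : ℚ) : ℝ) = ∑ p ∈ Icc 1 z, (1 : ℝ) / p := by
    rw [harmonic_eq_sum_Icc]
    push_cast
    refine Finset.sum_congr rfl fun p _ => ?_
    rw [one_div]
  rw [h3] at h2
  exact h1.trans h2

theorem card_Pz_APZ (z : ℕ) : (Pz z).card ≤ z := by
  have h : Pz z ⊆ Icc 1 z := by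
    intro p hp
    rw [mem_Pz_APZ] at hp
    exact Finset.mem_Icc.2 ⟨hp.2.one_lt.le, hp.1⟩
  have := Finset.card_le_card h
  rwa [Nat.card_Icc, Nat.add_sub_cancel] at this

theorem Vz_pos_APZ (z : ℕ) : 0 < Vz z := by
  refine Finset.prod_pos fun p hp => ?_
  have h1 : (1 : ℝ) < p := by exact_mod_cast ((mem_Pz_APZ z p).1 hp).2.one_lt
  rw [sub_pos, div_lt_one (by linarith)]
  exact h1

/-- the product over the primes not dividing `q` -/
theorem tot_APZ (z q : ℕ) (hq : 1 ≤ q) (hqz : q ≤ z) :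
    1 / Vz z * (1 / (q : ℝ) * ∏ p ∈ (Pz z).filter (fun p => ¬ p ∣ q), (1 - 1 / (p : ℝ))) =
      1 / (Nat.totient q : ℝ) := by
  have h1 : Vz z = (∏ p ∈ (Pz z).filter (fun p => p ∣ q), (1 - 1 / (p : ℝ))) *
      ∏ p ∈ (Pz z).filter (fun p => ¬ p ∣ q), (1 - 1 / (p : ℝ)) := by
    rw [Vz, Finset.prod_filter_mul_prod_filter_not]
  have h2 : (Pz z).filter (fun p => p ∣ q) = q.primeFactors := by
    ext p
    rw [Finset.mem_filter, mem_Pz_APZ, Nat.mem_primeFactors]
    constructor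
    · rintro ⟨⟨_, h4⟩, h5⟩
      exact ⟨h4, h5, by omega⟩
    · rintro ⟨h4, h5, _⟩
      exact ⟨⟨(Nat.le_of_dvd hq h5).trans hqz, h4⟩, h5⟩
  have h3 : (Nat.totient q : ℝ) = q * ∏ p ∈ q.primeFactors, (1 - 1 / (p : ℝ)) := by
    have h4 := Nat.totient_eq_mul_prod_factors q
    have h5 : ((Nat.totient q : ℚ) : ℝ) = ((q * ∏ p ∈ q.primeFactors, (1 - (p : ℚ)⁻¹) : ℚ) : ℝ) := by
      rw [h4]
    push_cast at h5
    rw [h5]
    congr 1
    exact Finset.prod_congr rfl fun p _ => by rw [one_div]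
  rw [h2] at h1
  have hV := Vz_pos_APZ z
  have hne : (∏ p ∈ (Pz z).filter (fun p => ¬ p ∣ q), (1 - 1 / (p : ℝ))) ≠ 0 := by
    intro h0
    rw [h1, h0, mul_zero] at hV
    exact lt_irrefl _ hV
  have hne' : (∏ p ∈ q.primeFactors, (1 - 1 / (p : ℝ))) ≠ 0 := by
    intro h0
    rw [h1, h0, zero_mul] at hV
    exact lt_irrefl _ hV
  have hq0 : (q : ℝ) ≠ 0 := by
    have : (1 : ℝ) ≤ q := by exact_mod_cast hq
    linarith
  rw [h1, h3]
  field_simp

open Filter in
theorem ev_APZ (D E : ℝ) : ∀ᶠ x : ℕ in atTop, 1 ≤ Real.log (Real.log x) ∧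
    D * Real.log (Real.log x) ^ 2 ≤ Real.log x ∧ E ≤ Real.log x := by
  have hx : Tendsto (fun x : ℕ => Real.log (x : ℝ)) atTop atTop :=
    Real.tendsto_log_atTop.comp tendsto_natCast_atTop_atTop
  have h1 : ∀ᶠ l : ℝ in atTop, 1 ≤ Real.log l := Real.tendsto_log_atTop.eventually_ge_atTop 1
  have h2 : ∀ᶠ l : ℝ in atTop, D * Real.log l ^ 2 ≤ l := by
    have h3 := (Real.isLittleO_pow_log_id_atTop (n := 2)).def (c := (|D| + 1)⁻¹) (by positivity)
    filter_upwards [h3, eventually_ge_atTop 0] with l hl hl0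
    rw [Real.norm_of_nonneg (by positivity), id, Real.norm_of_nonneg hl0] at hl
    have hD : D ≤ |D| + 1 := (le_abs_self D).trans (by linarith)
    calc D * Real.log l ^ 2 ≤ (|D| + 1) * Real.log l ^ 2 := by
          exact mul_le_mul_of_nonneg_right hD (by positivity)
      _ ≤ (|D| + 1) * ((|D| + 1)⁻¹ * l) := mul_le_mul_of_nonneg_left hl (by positivity)
      _ = l := by
          have : |D| + 1 ≠ 0 := by positivity
          field_simp
  filter_upwards [hx.eventually h1, hx.eventually h2, hx.eventually_ge_atTop E] with x a b c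
  exact ⟨a, b, c⟩

theorem hAPZ (ha : StBrun) (_hb : StTail) (hc : StVz) : StAPZ := by
  obtain ⟨c, hc0, hc⟩ := hc
  intro A B
  obtain ⟨K, hK⟩ : ∃ K : ℕ, K = 3 * B + A + 2 := ⟨_, rfl⟩
  obtain ⟨D, hD⟩ : ∃ D : ℝ, D = (A + 1) + B * (K + 2) + Real.log (6 * (B + 1) / c + 1) := ⟨_, rfl⟩
  obtain ⟨x₀, hx₀⟩ := Filter.eventually_atTop.1 (ev_APZ D (100 * (B + 1) / c))
  refine ⟨x₀, fun x y z q u hx hyx hz hzx hq hqz => ?_⟩
  obtain ⟨ht1, hDt, hE⟩ := hx₀ x hx
  set l := Real.log x with hl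
  set t := Real.log l with ht
  have hB0 : (0 : ℝ) ≤ B := Nat.cast_nonneg B
  have hl0 : 0 < l := lt_of_lt_of_le (by positivity) hE
  have hx1 : 1 < x := by
    by_contra h
    have : (x : ℝ) ≤ 1 := by exact_mod_cast not_lt.1 h
    have := Real.log_nonpos (Nat.cast_nonneg x) this
    linarith
  have hxpos : (0 : ℝ) < x := by
    have : (1 : ℝ) < x := by exact_mod_cast hx1
    linarith
  have hexp : Real.exp t = l := Real.exp_log hl0
  have hexl : Real.exp l = x := Real.exp_log hxpos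
  have htl : t ≤ l := (Real.log_le_sub_one_of_pos hl0).trans (by linarith)
  have hz0 : (0 : ℝ) < z := by
    have : (2 : ℝ) ≤ z := by exact_mod_cast hz
    linarith
  have hlz : Real.log z ≤ B * t := by
    have := Real.log_le_log hz0 hzx
    rwa [Real.log_pow] at this
  have hlz0 : 0 ≤ Real.log z := Real.log_nonneg (by
    have : (2 : ℝ) ≤ z := by exact_mod_cast hz
    linarith)
  have hX : (0 : ℝ) ≤ x / l ^ A := by positivity
  by_cases hcop : Nat.Coprime u q
  swap
  · rw [if_neg hcop, sub_zero]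
    have hzero : ∑ n ∈ (Ioc 0 y).filter (fun n => n ≡ u [MOD q]), lz z n = 0 := by
      refine Finset.sum_eq_zero fun n hn => ?_
      have hnu := (Finset.mem_filter.1 hn).2
      obtain ⟨p, hp, hpu, hpq⟩ := Nat.Prime.not_coprime_iff_dvd.1 hcop
      rw [lz, if_neg]
      intro h
      refine h p ((mem_Pz_APZ z p).2 ⟨(Nat.le_of_dvd hq hpq).trans hqz, hp⟩) ?_
      exact ((hnu.of_dvd hpq).dvd_iff dvd_rfl).2 hpu
    rw [hzero, abs_zero]
    exact hX
  rw [if_pos hcop]
  set P := (Pz z).filter (fun p => ¬ p ∣ q) with hPd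
  have hP : ∀ p ∈ P, p.Prime ∧ Nat.Coprime p q := by
    intro p hp
    rw [hPd, Finset.mem_filter, mem_Pz_APZ] at hp
    exact ⟨hp.1.2, (Nat.Prime.coprime_iff_not_dvd hp.1.2).2 hp.2⟩
  obtain ⟨r, hr⟩ : ∃ r : ℕ, r = ⌈K * t⌉₊ := ⟨_, rfl⟩
  have hr1 : (K : ℝ) * t ≤ r := by rw [hr]; exact Nat.le_ceil _
  have hr2 : (r : ℝ) ≤ K * t + 1 := by
    rw [hr]
    exact (Nat.ceil_lt_add_one (by positivity)).le
  have hsv := sieve_APZ ha P q hP hq y u r
  have hV := Vz_pos_APZ z
  -- the sum of the model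
  have hsum : ∑ n ∈ (Ioc 0 y).filter (fun n => n ≡ u [MOD q]), lz z n =
      1 / Vz z * ∑ n ∈ (Ioc 0 y).filter (fun n => n ≡ u [MOD q]),
        (if ∀ p ∈ P, ¬ p ∣ n then (1 : ℝ) else 0) := by
    rw [Finset.mul_sum]
    refine Finset.sum_congr rfl fun n hn => ?_
    have hnu := (Finset.mem_filter.1 hn).2
    have hiff : (∀ p ∈ Pz z, ¬ p ∣ n) ↔ ∀ p ∈ P, ¬ p ∣ n := by
      constructor
      · intro h p hp
        exact h p (Finset.mem_filter.1 hp).1
      · intro h p hp hpn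
        by_cases hpq : p ∣ q
        · have hpu : p ∣ u := ((hnu.of_dvd hpq).dvd_iff dvd_rfl).1 hpn
          exact (Nat.Prime.not_coprime_iff_dvd.2 ⟨p, ((mem_Pz_APZ z p).1 hp).2, hpu, hpq⟩) hcop
        · exact h p (Finset.mem_filter.2 ⟨hp, hpq⟩) hpn
    rw [lz]
    by_cases h : ∀ p ∈ Pz z, ¬ p ∣ n
    · rw [if_pos h, if_pos (hiff.1 h), mul_one]
    · rw [if_neg h, if_neg (fun h' => h (hiff.2 h')), mul_zero]
  have hmain : (y : ℝ) / Nat.totient q = 1 / Vz z * ((y : ℝ) / q * ∏ p ∈ P, (1 - 1 / (p : ℝ))) := by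
    have h1 := tot_APZ z q hq hqz
    calc (y : ℝ) / Nat.totient q = y * (1 / (Nat.totient q : ℝ)) := by ring
      _ = y * (1 / Vz z * (1 / (q : ℝ) * ∏ p ∈ P, (1 - 1 / (p : ℝ)))) := by rw [← h1]
      _ = _ := by ring
  rw [hsum, hmain, ← mul_sub, abs_mul, abs_of_pos (by positivity : (0 : ℝ) < 1 / Vz z)]
  have hVinv : 1 / Vz z ≤ Real.log z / c := by
    have h1 := hc z hz
    have hlz1 : 0 < Real.log z := Real.log_pos (by
      have : (2 : ℝ) ≤ z := by exact_mod_cast hz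
      linarith)
    rw [div_le_div_iff₀ hV hc0, one_mul]
    rw [div_le_iff₀ hlz1] at h1
    linarith
  have hnum := num_APZ P (r + 1) z (by omega)
    ((Finset.card_le_card (Finset.filter_subset _ _)).trans (card_Pz_APZ z))
  have htail := tail_APZ P (r + 1) (1 + Real.log z)
    ((Finset.sum_le_sum_of_subset_of_nonneg (Finset.filter_subset _ _)
      fun p _ _ => by positivity).trans (sum_inv_APZ z))
  have hyq : (y : ℝ) / q ≤ x := by
    have h1 : (1 : ℝ) ≤ q := by exact_mod_cast hq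
    have h2 : (y : ℝ) ≤ x := by exact_mod_cast hyx
    exact (div_le_self (Nat.cast_nonneg y) h1).trans h2
  -- first term
  have hT1 : Real.log z / c * (3 * (z : ℝ) ^ (r + 1)) ≤ x / (2 * l ^ A) := by
    have h1 : (z : ℝ) ^ (r + 1) ≤ Real.exp (B * (K * t + 2) * t) := by
      calc (z : ℝ) ^ (r + 1) ≤ (l ^ B) ^ (r + 1) := pow_le_pow_left₀ hz0.le hzx _
        _ = Real.exp ((B * (r + 1) : ℕ) * t) := by
            rw [Real.exp_nat_mul, hexp, pow_mul]
        _ ≤ Real.exp (B * (K * t + 2) * t) := by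
            refine Real.exp_le_exp.2 ?_
            push_cast
            refine mul_le_mul_of_nonneg_right ?_ (by linarith)
            exact mul_le_mul_of_nonneg_left (by linarith) hB0
    have h2 : Real.log z / c ≤ B / c * l := by
      rw [div_mul_eq_mul_div]
      exact div_le_div_of_nonneg_right (hlz.trans (mul_le_mul_of_nonneg_left htl hB0)) hc0.le
    rw [le_div_iff₀ (by positivity)]
    calc Real.log z / c * (3 * (z : ℝ) ^ (r + 1)) * (2 * l ^ A)
        ≤ B / c * l * (3 * Real.exp (B * (K * t + 2) * t)) * (2 * l ^ A) := by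
          gcongr
      _ = 6 * B / c * (Real.exp t ^ (A + 1) * Real.exp (B * (K * t + 2) * t)) := by
          rw [hexp]; ring
      _ = 6 * B / c * Real.exp ((A + 1) * t + B * (K * t + 2) * t) := by
          rw [← Real.exp_nat_mul, ← Real.exp_add]
          push_cast
          rfl
      _ ≤ (6 * (B + 1) / c + 1) * Real.exp ((A + 1) * t + B * (K * t + 2) * t) := by
          refine mul_le_mul_of_nonneg_right ?_ (Real.exp_nonneg _)
          have : 6 * (B : ℝ) / c ≤ 6 * (B + 1) / c := by gcongr; linarith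
          linarith
      _ = Real.exp (Real.log (6 * (B + 1) / c + 1) + ((A + 1) * t + B * (K * t + 2) * t)) := by
          rw [Real.exp_add (Real.log _), Real.exp_log (by positivity)]
      _ ≤ Real.exp (D * t ^ 2) := by
          refine Real.exp_le_exp.2 ?_
          have hM : 0 ≤ Real.log (6 * (B + 1) / c + 1) := Real.log_nonneg (by
            have : 0 ≤ 6 * ((B : ℝ) + 1) / c := by positivity
            linarith)
          have ht2 : 1 ≤ t ^ 2 := one_le_pow₀ ht1
          have htt : t ≤ t ^ 2 := by nlinarith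
          have hA0 : (0 : ℝ) ≤ A := Nat.cast_nonneg A
          rw [hD]
          have e1 : Real.log (6 * (B + 1) / c + 1) ≤ Real.log (6 * (B + 1) / c + 1) * t ^ 2 :=
            le_mul_of_one_le_right hM ht2
          have e2 : ((A : ℝ) + 1) * t ≤ (A + 1) * t ^ 2 :=
            mul_le_mul_of_nonneg_left htt (by linarith)
          have e3 : (B : ℝ) * (K * t + 2) * t ≤ B * (K + 2) * t ^ 2 := by
            have : (B : ℝ) * (K + 2) * t ^ 2 - B * (K * t + 2) * t = 2 * B * (t ^ 2 - t) := by ring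
            have h5 : 0 ≤ 2 * (B : ℝ) * (t ^ 2 - t) := mul_nonneg (by linarith) (by linarith)
            linarith
          nlinarith [e1, e2, e3]
      _ ≤ Real.exp l := Real.exp_le_exp.2 hDt
      _ = x := hexl
  -- second term
  have hT2 : Real.log z / c * (2 * x * Real.exp (3 * (1 + Real.log z) - ((r + 1 : ℕ) : ℝ))) ≤
      x / (2 * l ^ A) := by
    have h1 : Real.exp (3 * (1 + Real.log z) - ((r + 1 : ℕ) : ℝ)) ≤
        21 / l ^ (A + 2) := by
      have h2 : 3 * (1 + Real.log z) - ((r + 1 : ℕ) : ℝ) ≤ 3 - (A + 2 : ℕ) * t := by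
        push_cast
        have h3 : (K : ℝ) = 3 * B + A + 2 := by rw [hK]; push_cast; ring
        rw [h3] at hr1
        nlinarith [hr1, hlz]
      have h4 : Real.exp 3 ≤ 21 := by
        have h5 := Real.exp_one_lt_d9
        have h6 : Real.exp 3 = Real.exp 1 ^ 3 := by
          rw [← Real.exp_nat_mul]; norm_num
        rw [h6]
        calc Real.exp 1 ^ 3 ≤ 2.7182818286 ^ 3 := pow_le_pow_left₀ (Real.exp_nonneg _) h5.le 3
          _ ≤ 21 := by norm_num
      refine (Real.exp_le_exp.2 h2).trans ?_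
      rw [Real.exp_sub, Real.exp_nat_mul, hexp]
      exact div_le_div_of_nonneg_right h4 (by positivity)
    have h2 : Real.log z / c ≤ B / c * l := by
      rw [div_mul_eq_mul_div]
      exact div_le_div_of_nonneg_right (hlz.trans (mul_le_mul_of_nonneg_left htl hB0)) hc0.le
    calc Real.log z / c * (2 * x * Real.exp (3 * (1 + Real.log z) - ((r + 1 : ℕ) : ℝ)))
        ≤ B / c * l * (2 * x * (21 / l ^ (A + 2))) := by gcongr
      _ = (42 * B / c / l) * (x / l ^ A) := by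
          field_simp
          ring
      _ ≤ (1 / 2) * (x / l ^ A) := by
          refine mul_le_mul_of_nonneg_right ?_ hX
          rw [div_le_iff₀ hl0]
          have h3 : 42 * (B : ℝ) / c ≤ 1 / 2 * (100 * (B + 1) / c) := by
            have h4 : 1 / 2 * (100 * ((B : ℝ) + 1) / c) = 50 * (B + 1) / c := by ring
            rw [h4]
            exact div_le_div_of_nonneg_right (by linarith) hc0.le
          linarith [h3, hE]
      _ = x / (2 * l ^ A) := by
          field_simp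
  calc 1 / Vz z * |∑ n ∈ (Ioc 0 y).filter (fun n => n ≡ u [MOD q]),
        (if ∀ p ∈ P, ¬ p ∣ n then (1 : ℝ) else 0) - (y : ℝ) / q * ∏ p ∈ P, (1 - 1 / (p : ℝ))|
      ≤ Real.log z / c * (3 * (z : ℝ) ^ (r + 1) +
          2 * x * Real.exp (3 * (1 + Real.log z) - ((r + 1 : ℕ) : ℝ))) := by
        refine mul_le_mul hVinv (hsv.trans ?_) (abs_nonneg _) (by positivity)
        refine add_le_add hnum ?_
        refine mul_le_mul ?_ htail (Finset.sum_nonneg fun T _ => by positivity) (by positivity)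
        linarith
    _ = Real.log z / c * (3 * (z : ℝ) ^ (r + 1)) + Real.log z / c *
          (2 * x * Real.exp (3 * (1 + Real.log z) - ((r + 1 : ℕ) : ℝ))) := by ring
    _ ≤ x / (2 * l ^ A) + x / (2 * l ^ A) := add_le_add hT1 hT2
    _ = x / l ^ A := by
        field_simp
        ring

end Pool.Agent.Helper48.BK
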