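import Pool.Agent.Helper48.BK.StB

/-!
# Project BK, module Par: fourth moment of an exponential sum
-/

set_option autoImplicit false

namespace Pool.Agent.Helper48.BK

open Finset

lemma ex_add_Par (s t : ℝ) : ex (s + t) = ex s * ex t := by
  unfold ex
  rw [← Complex.exp_add]
  congr 1
  push_cast
  ring

lemma ex_conj_Par (t : ℝ) : (starRingEnd ℂ) (ex t) = ex (-t) := by
  unfold ex
  rw [← Complex.exp_conj]
  congr 1
  simp only [map_mul, Complex.conj_ofReal, Complex.conj_I, map_ofNat]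
  push_cast
  ring

lemma ex_pow_Par (t : ℝ) (n : ℕ) : ex t ^ n = ex (n * t) := by
  unfold ex
  rw [← Complex.exp_nat_mul]
  congr 1
  push_cast
  ring

lemma ex_int_Par (h : ℤ) : ex (h : ℝ) = 1 := by
  unfold ex
  rw [Complex.exp_eq_one_iff]
  exact ⟨h, by push_cast; ring⟩

lemma orth_Par (N : ℕ) (hN : 1 ≤ N) (h : ℤ) (hh : |h| < N) :
    ∑ j ∈ range N, ex ((h : ℝ) * ((j : ℝ) / N)) = if h = 0 then (N : ℂ) else 0 := by
  have hN0 : (N : ℝ) ≠ 0 := by
    have : (0 : ℝ) < N := by exact_mod_cast hN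
    exact this.ne'
  split_ifs with h0
  · subst h0
    simp [ex]
  · have hne : ex ((h : ℝ) / N) ≠ 1 := by
      intro he
      unfold ex at he
      rw [Complex.exp_eq_one_iff] at he
      obtain ⟨n, hn⟩ := he
      have h1 : (((h : ℝ) / N : ℝ) : ℂ) = ((n : ℝ) : ℂ) := by
        have h2 : (2 * Real.pi * Complex.I : ℂ) ≠ 0 := Complex.two_pi_I_ne_zero
        apply mul_left_cancel₀ h2
        rw [show (2 * (Real.pi : ℂ) * Complex.I) * (((h : ℝ) / N : ℝ) : ℂ) =
          2 * Real.pi * (((h : ℝ) / N : ℝ) : ℂ) * Complex.I by ring, hn]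
        push_cast
        ring
      have h3 : (h : ℝ) / N = n := by exact_mod_cast h1
      have h4 : (h : ℝ) = n * N := by
        rw [← h3]
        field_simp
      have h5 : h = n * N := by exact_mod_cast h4
      rcases eq_or_ne n 0 with h6 | h6
      · apply h0
        rw [h5, h6, zero_mul]
      · have h7 : 1 ≤ |n| := Int.one_le_abs h6
        have h8 : |h| = |n| * N := by
          rw [h5, abs_mul, Nat.abs_cast]
        rw [h8] at hh
        have h9 : (0 : ℤ) ≤ N := Int.natCast_nonneg N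
        nlinarith
    have h1 : ∀ j ∈ range N, ex ((h : ℝ) * ((j : ℝ) / N)) = ex ((h : ℝ) / N) ^ j := by
      intro j _
      rw [ex_pow_Par]
      congr 1
      ring
    rw [Finset.sum_congr rfl h1, geom_sum_eq hne, ex_pow_Par]
    have h2 : ex ((N : ℝ) * ((h : ℝ) / N)) = 1 := by
      have : (N : ℝ) * ((h : ℝ) / N) = h := by field_simp
      rw [this]
      exact ex_int_Par h
    rw [h2]
    simp

/-- grouping a quadratic form over the fibres of a map -/
lemma fib_Par {α : Type} (V : Finset α) (F : α → ℝ) (φ : α → ℤ) (T : Finset ℤ)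
    (hT : ∀ v ∈ V, φ v ∈ T) :
    ∑ v ∈ V, ∑ w ∈ V, (if φ v = φ w then F v * F w else 0) =
      ∑ h ∈ T, (∑ v ∈ V.filter (fun v => φ v = h), F v) ^ 2 := by
  have h1 : ∀ h ∈ T, (∑ v ∈ V.filter (fun v => φ v = h), F v) ^ 2 =
      ∑ v ∈ V.filter (fun v => φ v = h), ∑ w ∈ V, (if φ v = φ w then F v * F w else 0) := by
    intro h _
    rw [sq, Finset.sum_mul_sum]
    apply Finset.sum_congr rfl
    intro v hv
    rw [Finset.mem_filter] at hv
    rw [Finset.sum_filter]
    apply Finset.sum_congr rfl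
    intro w _
    rw [hv.2]
    by_cases hw : φ w = h
    · rw [if_pos hw, if_pos hw.symm]
    · rw [if_neg hw, if_neg (fun h2 => hw h2.symm)]
  rw [Finset.sum_congr rfl h1, Finset.sum_fiberwise_of_maps_to hT]

lemma natAbs_sum_Par (g : ℕ → ℝ) (X : ℕ) :
    ∑ h ∈ Icc (-(X : ℤ)) X, g h.natAbs = g 0 + 2 * ∑ h ∈ Icc 1 X, g h := by
  induction X with
  | zero => simp
  | succ X ih =>
    have h1 : Icc (-((X + 1 : ℕ) : ℤ)) ((X + 1 : ℕ) : ℤ) =
        insert (-((X + 1 : ℕ) : ℤ)) (insert ((X + 1 : ℕ) : ℤ) (Icc (-(X : ℤ)) X)) := by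
      ext h
      simp only [Finset.mem_insert, Finset.mem_Icc]
      push_cast
      omega
    rw [h1, Finset.sum_insert, Finset.sum_insert, ih, Finset.sum_Icc_succ_top (by omega)]
    · have h2 : (-((X + 1 : ℕ) : ℤ)).natAbs = X + 1 := by omega
      have h3 : (((X + 1 : ℕ) : ℤ)).natAbs = X + 1 := by omega
      rw [h2, h3]
      ring
    · simp only [Finset.mem_Icc]
      push_cast
      omega
    · simp only [Finset.mem_insert, Finset.mem_Icc]
      push_cast
      omega

lemma rr_fib_Par (f : ℕ → ℝ) (X : ℕ) (h : ℤ) (hh : h ∈ Icc (-(X : ℤ)) X) :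
    ∑ v ∈ ((Ioc 0 X) ×ˢ (Ioc 0 X)).filter (fun v : ℕ × ℕ => (v.1 : ℤ) - v.2 = h),
      f v.1 * f v.2 = rr f X h.natAbs := by
  rw [Finset.mem_Icc] at hh
  unfold rr
  rcases le_total 0 h with h0 | h0
  · apply Finset.sum_bij' (fun v _ => v.2) (fun n _ => (n + h.natAbs, n))
    · intro v hv
      simp only [Finset.mem_filter, Finset.mem_product, Finset.mem_Ioc] at hv ⊢
      omega
    · intro n hn
      simp only [Finset.mem_filter, Finset.mem_product, Finset.mem_Ioc] at hn ⊢
      omega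
    · intro v hv
      simp only [Finset.mem_filter, Finset.mem_product, Finset.mem_Ioc] at hv
      ext
      · simp only
        omega
      · rfl
    · intro n hn
      rfl
    · intro v hv
      simp only [Finset.mem_filter, Finset.mem_product, Finset.mem_Ioc] at hv
      have h1 : v.2 + h.natAbs = v.1 := by omega
      rw [h1]
      ring
  · apply Finset.sum_bij' (fun v _ => v.1) (fun n _ => (n, n + h.natAbs))
    · intro v hv
      simp only [Finset.mem_filter, Finset.mem_product, Finset.mem_Ioc] at hv ⊢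
      omega
    · intro n hn
      simp only [Finset.mem_filter, Finset.mem_product, Finset.mem_Ioc] at hn ⊢
      omega
    · intro v hv
      simp only [Finset.mem_filter, Finset.mem_product, Finset.mem_Ioc] at hv
      ext
      · rfl
      · simp only
        omega
    · intro n hn
      rfl
    · intro v hv
      simp only [Finset.mem_filter, Finset.mem_product, Finset.mem_Ioc] at hv
      have h1 : v.1 + h.natAbs = v.2 := by omega
      rw [h1]

/-- the square of the absolute value of the exponential sum -/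
lemma sq_Par (f : ℕ → ℝ) (X : ℕ) (t : ℝ) :
    ((‖Sx f X t‖ ^ 2 : ℝ) : ℂ) = ∑ v ∈ (Ioc 0 X) ×ˢ (Ioc 0 X),
      ((f v.1 * f v.2 : ℝ) : ℂ) * ex ((((v.1 : ℤ) - v.2 : ℤ) : ℝ) * t) := by
  have h1 : ((‖Sx f X t‖ ^ 2 : ℝ) : ℂ) = Sx f X t * (starRingEnd ℂ) (Sx f X t) := by
    rw [Complex.mul_conj, Complex.normSq_eq_norm_sq]
  rw [h1]
  unfold Sx
  rw [map_sum, Finset.sum_mul_sum, Finset.sum_product]
  apply Finset.sum_congr rfl
  intro n _
  apply Finset.sum_congr rfl
  intro m _
  rw [map_mul, Complex.conj_ofReal, ex_conj_Par]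
  have h2 : (((n : ℤ) - (m : ℤ) : ℤ) : ℝ) * t = n * t + -(m * t) := by
    push_cast
    ring
  rw [h2, ex_add_Par]
  push_cast
  ring

theorem hPar : StPar := by
  intro f X D hD
  set V : Finset (ℕ × ℕ) := (Ioc 0 X) ×ˢ (Ioc 0 X) with hV
  set F : ℕ × ℕ → ℝ := fun v => f v.1 * f v.2 with hF
  set φ : ℕ × ℕ → ℤ := fun v => (v.1 : ℤ) - v.2 with hφ
  set N : ℕ := 4 * X + 1 with hN
  have hN1 : 1 ≤ N := by omega
  have hN0 : (0 : ℝ) < N := by exact_mod_cast hN1
  have hφV : ∀ v ∈ V, |φ v| ≤ X := by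
    intro v hv
    simp only [hV, Finset.mem_product, Finset.mem_Ioc] at hv
    simp only [hφ]
    rw [abs_le]
    omega
  have hD0 : 0 ≤ D := le_trans (norm_nonneg _) (hD 0)
  -- left side
  have hL : rr f X 0 ^ 2 + 2 * ∑ h ∈ Icc 1 X, rr f X h ^ 2 =
      ∑ v ∈ V, ∑ w ∈ V, (if φ v = φ w then F v * F w else 0) := by
    rw [fib_Par V F φ (Icc (-(X : ℤ)) X) (fun v hv => by
      have := abs_le.1 (hφV v hv)
      rw [Finset.mem_Icc]
      exact this)]
    rw [← natAbs_sum_Par (fun h => rr f X h ^ 2) X]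
    apply Finset.sum_congr rfl
    intro h hh
    rw [← rr_fib_Par f X h hh]
  -- second moment
  have h2 : ∑ j ∈ range N, ‖Sx f X ((j : ℝ) / N)‖ ^ 2 = N * ∑ n ∈ Ioc 0 X, f n ^ 2 := by
    have h3 : ((∑ j ∈ range N, ‖Sx f X ((j : ℝ) / N)‖ ^ 2 : ℝ) : ℂ) =
        ((N * ∑ n ∈ Ioc 0 X, f n ^ 2 : ℝ) : ℂ) := by
      rw [Complex.ofReal_sum]
      rw [Finset.sum_congr rfl (fun (j : ℕ) _ => sq_Par f X ((j : ℝ) / N))]
      rw [Finset.sum_comm]
      have h4 : ∀ v ∈ V, ∑ j ∈ range N, ((f v.1 * f v.2 : ℝ) : ℂ) *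
          ex ((((v.1 : ℤ) - v.2 : ℤ) : ℝ) * ((j : ℝ) / N)) =
          if v.1 = v.2 then ((f v.1 * f v.2 : ℝ) : ℂ) * N else 0 := by
        intro v hv
        rw [← Finset.mul_sum, orth_Par N hN1]
        · by_cases h5 : v.1 = v.2
          · rw [if_pos h5, if_pos (by omega)]
          · rw [if_neg h5, if_neg (by omega), mul_zero]
        · have := hφV v hv
          simp only [hφ] at this
          refine lt_of_le_of_lt this ?_
          push_cast [hN]
          omega
      rw [Finset.sum_congr rfl h4, hV, Finset.sum_product]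
      push_cast
      rw [Finset.mul_sum]
      apply Finset.sum_congr rfl
      intro n hn
      rw [Finset.sum_ite_eq, if_pos hn]
      ring
    exact_mod_cast h3
  -- fourth moment
  have h4 : ∑ j ∈ range N, (‖Sx f X ((j : ℝ) / N)‖ ^ 2) ^ 2 =
      N * ∑ v ∈ V, ∑ w ∈ V, (if φ v = φ w then F v * F w else 0) := by
    have h3 : ((∑ j ∈ range N, (‖Sx f X ((j : ℝ) / N)‖ ^ 2) ^ 2 : ℝ) : ℂ) =
        ((N * ∑ v ∈ V, ∑ w ∈ V, (if φ v = φ w then F v * F w else 0) : ℝ) : ℂ) := by
      rw [Complex.ofReal_sum]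
      have h5 : ∀ j ∈ range N, (((‖Sx f X ((j : ℝ) / N)‖ ^ 2) ^ 2 : ℝ) : ℂ) =
          ∑ v ∈ V, ∑ w ∈ V, ((F v * F w : ℝ) : ℂ) *
            ex (((φ v - φ w : ℤ) : ℝ) * ((j : ℝ) / N)) := by
        intro j _
        have h6 : (((‖Sx f X ((j : ℝ) / N)‖ ^ 2) ^ 2 : ℝ) : ℂ) =
            ((‖Sx f X ((j : ℝ) / N)‖ ^ 2 : ℝ) : ℂ) *
              (starRingEnd ℂ) ((‖Sx f X ((j : ℝ) / N)‖ ^ 2 : ℝ) : ℂ) := by
          rw [Complex.conj_ofReal]
          push_cast
          ring
        rw [h6, sq_Par, map_sum, Finset.sum_mul_sum]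
        apply Finset.sum_congr rfl
        intro v _
        apply Finset.sum_congr rfl
        intro w _
        rw [map_mul, Complex.conj_ofReal, ex_conj_Par]
        have h7 : ((φ v - φ w : ℤ) : ℝ) * ((j : ℝ) / N) =
            (((v.1 : ℤ) - v.2 : ℤ) : ℝ) * ((j : ℝ) / N) +
              -((((w.1 : ℤ) - w.2 : ℤ) : ℝ) * ((j : ℝ) / N)) := by
          simp only [hφ]
          push_cast
          ring
        rw [h7, ex_add_Par]
        simp only [hF]
        push_cast
        ring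
      rw [Finset.sum_congr rfl h5, Finset.sum_comm]
      push_cast
      rw [Finset.mul_sum]
      apply Finset.sum_congr rfl
      intro v hv
      rw [Finset.sum_comm, Finset.mul_sum]
      apply Finset.sum_congr rfl
      intro w hw
      have h8 := orth_Par N hN1 (φ v - φ w) (by
        have h9 := abs_le.1 (hφV v hv)
        have h10 := abs_le.1 (hφV w hw)
        rw [abs_lt]
        push_cast [hN]
        omega)
      rw [← Finset.mul_sum]
      push_cast at h8
      rw [h8]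
      by_cases h11 : φ v = φ w
      · rw [if_pos (by omega), if_pos h11]
        push_cast
        ring
      · rw [if_neg (by omega), if_neg h11]
        simp
    exact_mod_cast h3
  rw [hL]
  have h5 : (N : ℝ) * ∑ v ∈ V, ∑ w ∈ V, (if φ v = φ w then F v * F w else 0) ≤
      N * (D ^ 2 * ∑ n ∈ Ioc 0 X, f n ^ 2) := by
    rw [← h4, mul_left_comm, ← h2, Finset.mul_sum]
    apply Finset.sum_le_sum
    intro j _
    rw [sq (‖Sx f X ((j : ℝ) / N)‖ ^ 2)]
    apply mul_le_mul_of_nonneg_right _ (sq_nonneg _)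
    exact pow_le_pow_left₀ (norm_nonneg _) (hD _) 2
  exact le_of_mul_le_mul_left h5 hN0

end Pool.Agent.Helper48.BK
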