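import Pool.Agent.Helper48.BK.StD

set_option autoImplicit false

namespace Pool.Agent.Helper48.BK

open Finset

lemma ex_norm_Geo1 (t : ℝ) : ‖ex t‖ = 1 := by
  unfold ex
  have : (2 * (Real.pi : ℂ) * (t : ℂ) * Complex.I) = ((2 * Real.pi * t : ℝ) : ℂ) * Complex.I := by
    push_cast; ring
  rw [this]
  exact Complex.norm_exp_ofReal_mul_I _

lemma ex_pow_Geo1 (n : ℕ) (t : ℝ) : ex (n * t) = ex t ^ n := by
  unfold ex
  rw [← Complex.exp_nat_mul]
  congr 1
  push_cast
  ring

lemma nd_nonneg_Geo1 (t : ℝ) : 0 ≤ nd t := abs_nonneg _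

lemma nd_neg_le_Geo1 (t : ℝ) : nd (-t) ≤ nd t := by
  unfold nd
  have h := round_le (-t) (-round t)
  refine h.trans (le_of_eq ?_)
  push_cast
  rw [show -t - -(round t : ℝ) = -(t - round t) by ring, abs_neg]

lemma nd_neg_Geo1 (t : ℝ) : nd (-t) = nd t := by
  apply le_antisymm (nd_neg_le_Geo1 t)
  have := nd_neg_le_Geo1 (-t)
  rwa [neg_neg] at this

lemma low_Geo1 (t : ℝ) : 4 * nd t ≤ ‖ex t - 1‖ := by
  have h1 : ex t = Complex.exp (Complex.I * ((2 * Real.pi * (t - round t) : ℝ) : ℂ)) := by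
    unfold ex
    rw [Complex.exp_eq_exp_iff_exists_int]
    refine ⟨round t, ?_⟩
    push_cast
    ring
  rw [h1, Complex.norm_exp_I_mul_ofReal_sub_one]
  have h2 : |Real.pi * (t - round t)| ≤ Real.pi / 2 := by
    rw [abs_mul, abs_of_pos Real.pi_pos]
    have := abs_sub_round t
    nlinarith [Real.pi_pos]
  have h3 := Real.mul_abs_le_abs_sin h2
  rw [show 2 * Real.pi * (t - round t) / 2 = Real.pi * (t - round t) by ring]
  rw [norm_mul, Real.norm_eq_abs, Real.norm_eq_abs, abs_of_pos (by norm_num : (0:ℝ) < 2)]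
  rw [abs_mul, abs_of_pos Real.pi_pos] at h3
  have h4 : 2 / Real.pi * (Real.pi * |t - round t|) = 2 * |t - round t| := by
    field_simp
  rw [h4] at h3
  unfold nd
  linarith

lemma geo_Geo1 (u N : ℕ) (z : ℂ) :
    (∑ n ∈ Ioc u (u + N), z ^ n) * (z - 1) = z ^ (u + N + 1) - z ^ (u + 1) := by
  induction N with
  | zero => simp
  | succ N ih =>
    have : Ioc u (u + (N + 1)) = insert (u + (N + 1)) (Ioc u (u + N)) := by
      ext k; simp only [Finset.mem_Ioc, Finset.mem_insert]; omega
    rw [this, Finset.sum_insert (by simp), add_mul, ih]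
    ring

theorem hGeo1 : StGeo1 := by
  refine ⟨?_, ?_, ?_, ?_⟩
  · intro u N t
    have hT : ‖∑ n ∈ Ioc u (u + N), ex (n * t)‖ ≤ N := by
      refine (norm_sum_le _ _).trans ?_
      simp [ex_norm_Geo1]
    unfold gs
    split_ifs with h
    · exact hT
    · have h0 := nd_nonneg_Geo1 t
      have hpos : 0 < nd t := by
        rcases h0.lt_or_eq with h1 | h1
        · exact h1
        · exfalso; apply h; rw [← h1]; simp
      rw [le_div_iff₀ hpos]
      have e1 : ∑ n ∈ Ioc u (u + N), ex (n * t) = ∑ n ∈ Ioc u (u + N), ex t ^ n :=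
        Finset.sum_congr rfl (fun n _ => ex_pow_Geo1 n t)
      have e2 := geo_Geo1 u N (ex t)
      have e3 : ‖∑ n ∈ Ioc u (u + N), ex (n * t)‖ * ‖ex t - 1‖ ≤ 2 := by
        rw [e1, ← norm_mul, e2]
        refine (norm_sub_le _ _).trans ?_
        rw [norm_pow, norm_pow, ex_norm_Geo1]
        norm_num
      have e4 := low_Geo1 t
      have e5 := norm_nonneg (∑ n ∈ Ioc u (u + N), ex (n * t))
      nlinarith
  · intro N N' t h0 h1
    have hn := nd_nonneg_Geo1 t
    unfold gs
    split_ifs with h2 h3 h4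
    · exact h1
    · push Not at h3
      have hpos : 0 < nd t := by
        rcases hn.lt_or_eq with h5 | h5
        · exact h5
        · rw [← h5] at h3; norm_num at h3
      rw [le_div_iff₀ hpos]; exact h2
    · push Not at h2
      nlinarith
    · exact le_rfl
  · intro N t h0
    unfold gs
    split_ifs
    · exact h0
    · exact one_div_nonneg.mpr (nd_nonneg_Geo1 t)
  · intro N t _
    unfold gs
    rw [nd_neg_Geo1]

end Pool.Agent.Helper48.BK
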