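import Pool.Agent.Helper48.BK.StW
import Pool.Agent.Helper2.Characters

/-! # Project BK, module Ldisc: Dirichlet L-functions on the disc `|s - 2| ≤ 3/2` -/

set_option autoImplicit false

namespace Pool.Agent.Helper48.BK

open Finset MeasureTheory Complex Filter Topology

/-- partial sums of a character -/
noncomputable def P_Ldisc {q : ℕ} (χ : DirichletCharacter ℂ q) (t : ℝ) : ℂ :=
  ∑ k ∈ Finset.Icc 1 ⌊t⌋₊, χ (k : ZMod q)

theorem norm_P_Ldisc {q : ℕ} [NeZero q] (χ : DirichletCharacter ℂ q) (hχ : χ ≠ 1) (t : ℝ) :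
    ‖P_Ldisc χ t‖ ≤ q := by
  have h := Pool.Agent.Helper2.norm_sum_char_le χ hχ ⌊t⌋₊
  have e : Finset.Ioc 0 ⌊t⌋₊ = Finset.Icc 1 ⌊t⌋₊ := by
    ext k
    simp only [Finset.mem_Ioc, Finset.mem_Icc]
    omega
  rw [e] at h
  exact h

theorem meas_P_Ldisc {q : ℕ} (χ : DirichletCharacter ℂ q) : Measurable (P_Ldisc χ) := by
  have h : Measurable (fun n : ℕ => ∑ k ∈ Finset.Icc 1 n, χ (k : ZMod q)) := measurable_from_nat
  exact h.comp Nat.measurable_floor

theorem zero_P_Ldisc {q : ℕ} (χ : DirichletCharacter ℂ q) {t : ℝ} (ht : t < 1) :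
    P_Ldisc χ t = 0 := by
  unfold P_Ldisc
  rw [Nat.floor_eq_zero.2 ht]
  simp

theorem diff_Ldisc {q : ℕ} [NeZero q] (χ : DirichletCharacter ℂ q) (hχ : χ ≠ 1) {z : ℂ}
    (hz : z.re < 0) : DifferentiableAt ℂ (mellin (P_Ldisc χ)) z := by
  refine mellin_differentiableAt_of_isBigO_rpow (a := 0) (b := z.re - 1) ?_ ?_ hz ?_ (by linarith)
  · refine LocallyIntegrable.locallyIntegrableOn ?_ _
    refine (locallyIntegrable_const (q : ℝ)).mono (meas_P_Ldisc χ).aestronglyMeasurable ?_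
    refine Eventually.of_forall fun t => ?_
    rw [Real.norm_of_nonneg (Nat.cast_nonneg q)]
    exact norm_P_Ldisc χ hχ t
  · refine Asymptotics.IsBigO.of_bound q (Eventually.of_forall fun t => ?_)
    rw [neg_zero, Real.rpow_zero, norm_one, mul_one]
    exact norm_P_Ldisc χ hχ t
  · have h : P_Ldisc χ =ᶠ[𝓝[>] 0] fun _ => (0 : ℂ) := by
      filter_upwards [mem_nhdsWithin_of_mem_nhds (Iio_mem_nhds (zero_lt_one' ℝ))] with t ht
      exact zero_P_Ldisc χ ht
    exact h.trans_isBigO (Asymptotics.isBigO_zero _ _)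

theorem mellin_Ldisc {q : ℕ} (χ : DirichletCharacter ℂ q) (s : ℂ) :
    mellin (P_Ldisc χ) (-s) = ∫ t in Set.Ioi (1 : ℝ), P_Ldisc χ t * (t : ℂ) ^ (-(s + 1)) := by
  unfold mellin
  rw [← integral_Ici_eq_integral_Ioi (x := (1 : ℝ))]
  have h := setIntegral_eq_of_subset_of_forall_sdiff_eq_zero (μ := volume)
    (f := fun t : ℝ => (t : ℂ) ^ (-s - 1) • P_Ldisc χ t)
    (s := Set.Ici 1) (t := Set.Ioi 0) measurableSet_Ioi
    (fun t ht => lt_of_lt_of_le zero_lt_one (Set.mem_Ici.1 ht))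
    (fun t ht => by
      have h1 : t < 1 := not_le.1 fun h => ht.2 (Set.mem_Ici.2 h)
      rw [zero_P_Ldisc χ h1, smul_zero])
  rw [h]
  refine setIntegral_congr_fun measurableSet_Ici fun t _ => ?_
  simp only [smul_eq_mul]
  rw [mul_comm, neg_add']

theorem bound_Ldisc {q : ℕ} [NeZero q] (χ : DirichletCharacter ℂ q) (hχ : χ ≠ 1) {s : ℂ}
    (hs : 0 < s.re) : ‖mellin (P_Ldisc χ) (-s)‖ ≤ q / s.re := by
  rw [mellin_Ldisc]
  have hi := integrableOn_Ioi_rpow_of_lt (a := -(s.re + 1)) (by linarith) zero_lt_one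
  have h := norm_integral_le_of_norm_le (μ := volume.restrict (Set.Ioi (1 : ℝ)))
    (f := fun t : ℝ => P_Ldisc χ t * (t : ℂ) ^ (-(s + 1)))
    (g := fun t : ℝ => (q : ℝ) * t ^ (-(s.re + 1))) (hi.const_mul (q : ℝ))
    (by
      refine (ae_restrict_iff' measurableSet_Ioi).2 (Eventually.of_forall fun t ht => ?_)
      have ht0 : (0 : ℝ) < t := lt_trans zero_lt_one ht
      rw [norm_mul, norm_cpow_eq_rpow_re_of_pos ht0]
      have e : (-(s + 1)).re = -(s.re + 1) := by simp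
      rw [e]
      exact mul_le_mul_of_nonneg_right (norm_P_Ldisc χ hχ t) (Real.rpow_nonneg ht0.le _))
  refine h.trans (le_of_eq ?_)
  rw [integral_const_mul, integral_Ioi_rpow_of_lt (by linarith) zero_lt_one]
  have e : -(s.re + 1) + 1 = -s.re := by ring
  rw [e, Real.one_rpow, neg_div_neg_eq]
  ring

theorem eq_Ldisc {q : ℕ} [NeZero q] (χ : DirichletCharacter ℂ q) (hχ : χ ≠ 1) {s : ℂ}
    (hs : 0 < s.re) : DirichletCharacter.LFunction χ s = s * mellin (P_Ldisc χ) (-s) := by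
  have hopen : IsOpen {z : ℂ | 0 < z.re} := isOpen_lt continuous_const continuous_re
  have hopen1 : IsOpen {z : ℂ | 1 < z.re} := isOpen_lt continuous_const continuous_re
  have h1 : AnalyticOnNhd ℂ (DirichletCharacter.LFunction χ) {z : ℂ | 0 < z.re} :=
    (DirichletCharacter.differentiable_LFunction hχ).differentiableOn.analyticOnNhd hopen
  have h2 : AnalyticOnNhd ℂ (fun z => z * mellin (P_Ldisc χ) (-z)) {z : ℂ | 0 < z.re} := by
    refine DifferentiableOn.analyticOnNhd (fun z hz => ?_) hopen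
    have h3 : DifferentiableAt ℂ (mellin (P_Ldisc χ)) (-z) := diff_Ldisc χ hχ (by
      have : 0 < z.re := hz
      simp [this])
    have h4 : DifferentiableAt ℂ (mellin (P_Ldisc χ) ∘ fun z : ℂ => -z) z :=
      DifferentiableAt.comp z h3 differentiableAt_id.neg
    exact (differentiableAt_id.mul h4).differentiableWithinAt
  have hpre : IsPreconnected {z : ℂ | 0 < z.re} := (convex_halfSpace_re_gt 0).isPreconnected
  refine h1.eqOn_of_preconnected_of_eventuallyEq h2 hpre (z₀ := 2) (by simp) ?_ hs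
  filter_upwards [hopen1.mem_nhds (by simp : (2 : ℂ) ∈ {z : ℂ | 1 < z.re})] with z hz
  have hz1 : 1 < z.re := hz
  rw [DirichletCharacter.LFunction_eq_LSeries χ hz1]
  rw [LSeries_eq_mul_integral (fun n : ℕ => χ (n : ZMod q)) (r := 0) le_rfl (by linarith)
    (DirichletCharacter.LSeriesSummable_of_one_lt_re χ hz1) ?_, mellin_Ldisc]
  · rfl
  · refine Asymptotics.IsBigO.of_bound q (Eventually.of_forall fun n => ?_)
    have h := norm_P_Ldisc χ hχ (n : ℝ)
    unfold P_Ldisc at h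
    rw [Nat.floor_natCast] at h
    rw [Real.rpow_zero, norm_one, mul_one]
    exact h

theorem hLdisc : StLdisc := by
  refine ⟨7, by norm_num, ?_⟩
  intro q _ χ s hχ hs
  have hre : 1 / 2 ≤ s.re := by
    have h1 := (abs_re_le_norm (s - 2)).trans hs
    have h2 : (s - 2).re = s.re - 2 := by simp
    rw [h2, abs_le] at h1
    linarith [h1.1]
  have hnorm : ‖s‖ ≤ 7 / 2 := by
    have h1 : ‖s‖ ≤ ‖s - 2‖ + ‖(2 : ℂ)‖ := by
      have := norm_add_le (s - 2) 2
      rwa [sub_add_cancel] at this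
    have h2 : ‖(2 : ℂ)‖ = 2 := by simp
    rw [h2] at h1
    linarith
  have hs0 : 0 < s.re := by linarith
  rw [eq_Ldisc χ hχ hs0, norm_mul]
  have hb := bound_Ldisc χ hχ hs0
  have hq : (0 : ℝ) ≤ q := Nat.cast_nonneg q
  have h3 : (q : ℝ) / s.re ≤ 2 * q := by
    rw [div_le_iff₀ hs0]
    nlinarith
  calc ‖s‖ * ‖mellin (P_Ldisc χ) (-s)‖ ≤ 7 / 2 * (2 * q) :=
        mul_le_mul hnorm (hb.trans h3) (norm_nonneg _) (by norm_num)
    _ = 7 * q := by ring

end Pool.Agent.Helper48.BK
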