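import Pool.Agent.Helper48.BK.StB

/-!
# Project BK, module Bil: average of the second moments of binary forms
-/

set_option autoImplicit false

namespace Pool.Agent.Helper48.BK

open Finset

theorem rr_eq_zero_Bil (f : ℕ → ℝ) {X h : ℕ} (hh : X ≤ h) : rr f X h = 0 := by
  simp [rr, Nat.sub_eq_zero_of_le hh]

theorem abs_rr_le_Bil (f : ℕ → ℝ) (X h : ℕ) (M : ℝ) (hf : ∀ n, |f n| ≤ M) :
    |rr f X h| ≤ X * M ^ 2 := by
  have hM : 0 ≤ M := le_trans (abs_nonneg _) (hf 0)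
  calc |rr f X h| ≤ ∑ n ∈ Ioc 0 (X - h), |f n * f (n + h)| := abs_sum_le_sum_abs _ _
    _ ≤ ∑ _n ∈ Ioc 0 (X - h), M ^ 2 := by
        refine sum_le_sum fun n _ => ?_
        rw [abs_mul, pow_two]
        exact mul_le_mul (hf _) (hf _) (abs_nonneg _) hM
    _ = ((X - h : ℕ) : ℝ) * M ^ 2 := by
        rw [sum_const, Nat.card_Ioc, nsmul_eq_mul, Nat.sub_zero]
    _ ≤ X * M ^ 2 := by
        refine mul_le_mul_of_nonneg_right ?_ (by positivity)
        exact_mod_cast Nat.sub_le X h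

theorem dil_Bil (φ : ℕ → ℝ) (hφ : ∀ h, 0 ≤ φ h) (X e : ℕ) (he : 1 ≤ e)
    (hX : ∀ h, X < h → φ h = 0) :
    ∑ k ∈ Icc 1 X, φ (e * k) ≤ ∑ h ∈ (Icc 1 X).filter (fun h => e ∣ h), φ h := by
  have h1 : ∑ k ∈ Icc 1 X, φ (e * k) = ∑ k ∈ (Icc 1 X).filter (fun k => e * k ≤ X), φ (e * k) := by
    symm
    refine sum_subset (filter_subset _ _) fun k hk hk' => ?_
    refine hX _ (Nat.lt_of_not_le fun h2 => hk' (mem_filter.2 ⟨hk, h2⟩))
  rw [h1, ← sum_image (f := φ) (g := fun k => e * k)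
    (fun x _ y _ hxy => Nat.eq_of_mul_eq_mul_left (by omega) hxy)]
  refine sum_le_sum_of_subset_of_nonneg (fun h hh => ?_) fun _ _ _ => hφ _
  obtain ⟨k, hk, rfl⟩ := mem_image.1 hh
  obtain ⟨hk1, hk2⟩ := mem_filter.1 hk
  refine mem_filter.2 ⟨mem_Icc.2 ⟨?_, hk2⟩, dvd_mul_right _ _⟩
  exact Nat.mul_pos (by omega) (mem_Icc.1 hk1).1

theorem count_Bil (φ : ℕ → ℝ) (hφ : ∀ h, 0 ≤ φ h) (X m a : ℕ) (ha : 1 ≤ a)
    (hX : ∀ h, X < h → φ h = 0) :
    ∑ b ∈ Icc 1 m, ∑ k ∈ Icc 1 X, φ (b / Nat.gcd a b * k) ≤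
      (a.divisors.card : ℝ) * ∑ h ∈ Icc 1 X, (h.divisors.card : ℝ) * φ h := by
  set ψ : ℕ → ℝ := fun e => ∑ h ∈ (Icc 1 X).filter (fun h => e ∣ h), φ h with hψ
  have hψ0 : ∀ e, 0 ≤ ψ e := fun e => sum_nonneg fun _ _ => hφ _
  have hg : ∀ b ∈ Icc 1 m, 1 ≤ b / Nat.gcd a b := by
    intro b hb
    have hb1 := (mem_Icc.1 hb).1
    exact Nat.div_pos (Nat.le_of_dvd (by omega) (Nat.gcd_dvd_right a b))
      (Nat.gcd_pos_of_pos_left b (by omega))
  have h1 : ∑ b ∈ Icc 1 m, ∑ k ∈ Icc 1 X, φ (b / Nat.gcd a b * k) ≤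
      ∑ b ∈ Icc 1 m, ψ (b / Nat.gcd a b) :=
    sum_le_sum fun b hb => dil_Bil φ hφ X _ (hg b hb) hX
  have h2 : ∑ b ∈ Icc 1 m, ψ (b / Nat.gcd a b) ≤ ∑ x ∈ a.divisors ×ˢ Icc 1 m, ψ x.2 := by
    have hinj : Set.InjOn (fun b : ℕ => (Nat.gcd a b, b / Nat.gcd a b))
        ((Icc 1 m : Finset ℕ) : Set ℕ) := by
      intro b _ b' _ hbb
      have e1 : Nat.gcd a b = Nat.gcd a b' := congrArg Prod.fst hbb
      have e2 : b / Nat.gcd a b = b' / Nat.gcd a b' := congrArg Prod.snd hbb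
      rw [← Nat.mul_div_cancel' (Nat.gcd_dvd_right a b), e2, e1,
        Nat.mul_div_cancel' (Nat.gcd_dvd_right a b')]
    have h3 : ∑ b ∈ Icc 1 m, ψ (b / Nat.gcd a b) =
        ∑ x ∈ (Icc 1 m).image (fun b : ℕ => (Nat.gcd a b, b / Nat.gcd a b)), ψ x.2 :=
      (sum_image (f := fun x : ℕ × ℕ => ψ x.2) hinj).symm
    rw [h3]
    refine sum_le_sum_of_subset_of_nonneg (fun x hx => ?_) fun _ _ _ => hψ0 _
    obtain ⟨b, hb, rfl⟩ := mem_image.1 hx
    refine mem_product.2 ⟨Nat.mem_divisors.2 ⟨Nat.gcd_dvd_left a b, by omega⟩,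
      mem_Icc.2 ⟨hg b hb, ?_⟩⟩
    exact (Nat.div_le_self _ _).trans (mem_Icc.1 hb).2
  have h4 : ∑ x ∈ a.divisors ×ˢ Icc 1 m, ψ x.2 = (a.divisors.card : ℝ) * ∑ e ∈ Icc 1 m, ψ e := by
    rw [sum_product]
    change ∑ _x ∈ a.divisors, ∑ y ∈ Icc 1 m, ψ y = _
    rw [sum_const, nsmul_eq_mul]
  have h5 : ∑ e ∈ Icc 1 m, ψ e ≤ ∑ h ∈ Icc 1 X, (h.divisors.card : ℝ) * φ h := by
    have h6 : ∑ e ∈ Icc 1 m, ψ e = ∑ h ∈ Icc 1 X, ∑ e ∈ Icc 1 m, if e ∣ h then φ h else 0 := by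
      rw [sum_comm]
      exact sum_congr rfl fun e _ => by rw [hψ]; exact sum_filter _ _
    rw [h6]
    refine sum_le_sum fun h hh => ?_
    rw [← sum_filter, sum_const, nsmul_eq_mul]
    refine mul_le_mul_of_nonneg_right ?_ (hφ h)
    have : ((Icc 1 m).filter fun e => e ∣ h) ⊆ h.divisors := by
      intro e he
      have hh1 := (mem_Icc.1 hh).1
      exact Nat.mem_divisors.2 ⟨(mem_filter.1 he).2, by omega⟩
    exact_mod_cast card_le_card this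
  calc _ ≤ _ := h1
    _ ≤ _ := h2
    _ = _ := h4
    _ ≤ _ := mul_le_mul_of_nonneg_left h5 (by positivity)

theorem le_of_sq_le_sq_Bil {x y : ℝ} (h : x ^ 2 ≤ y ^ 2) (hy : 0 ≤ y) : x ≤ y :=
  (le_abs_self x).trans (abs_le_of_sq_le_sq h hy)

theorem hBil (ha : StPar) (hb : StCor) (hc : StDiv) : StBil := by
  intro F G X m M δ σ hX hmX hM hδ hσ hF hG hS
  rcases Nat.eq_zero_or_pos m with rfl | hm
  · simp
  have hX1 : (1 : ℝ) ≤ X := by exact_mod_cast hX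
  set L : ℝ := 1 + Real.log X with hL
  have hL1 : 1 ≤ L := by
    have := Real.log_nonneg hX1
    linarith
  have hm1 : (1 : ℝ) ≤ m := by exact_mod_cast hm
  have hmL : (m : ℝ) * (1 + Real.log m) ≤ m * L := by
    refine mul_le_mul_of_nonneg_left ?_ (by positivity)
    have : Real.log m ≤ Real.log X := Real.log_le_log (by linarith) (by exact_mod_cast hmX)
    linarith
  have hM0 : 0 ≤ M := by linarith
  -- the divisor sums
  obtain ⟨hd1, hd2⟩ := hc X hX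
  have hdm := (hc m hm).1.trans hmL
  -- one function, first factor
  have hT : ∀ a ∈ Icc 1 m, ∑ h ∈ Icc 1 X, (h.divisors.card : ℝ) * rr (F a) X h ^ 2 ≤
      δ * X ^ 3 * M ^ 3 * L ^ 2 := by
    intro a hma
    have h1 : (∑ h ∈ Icc 1 X, (h.divisors.card : ℝ) * rr (F a) X h ^ 2) ^ 2 ≤
        (∑ h ∈ Icc 1 X, ((h.divisors.card : ℝ) * rr (F a) X h) ^ 2) *
          ∑ h ∈ Icc 1 X, rr (F a) X h ^ 2 := by
      have := sum_mul_sq_le_sq_mul_sq (Icc 1 X)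
        (fun h => (h.divisors.card : ℝ) * rr (F a) X h) (fun h => rr (F a) X h)
      refine le_trans (le_of_eq ?_) this
      congr 1
      exact sum_congr rfl fun h _ => by ring
    have h2 : ∑ h ∈ Icc 1 X, ((h.divisors.card : ℝ) * rr (F a) X h) ^ 2 ≤
        (X * M ^ 2) ^ 2 * (X * L ^ 3) := by
      calc _ ≤ ∑ h ∈ Icc 1 X, (X * M ^ 2) ^ 2 * (h.divisors.card : ℝ) ^ 2 := by
            refine sum_le_sum fun h _ => ?_
            rw [mul_pow, mul_comm]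
            refine mul_le_mul_of_nonneg_right ?_ (by positivity)
            rw [← sq_abs]
            exact pow_le_pow_left₀ (abs_nonneg _) (abs_rr_le_Bil _ _ _ M (hF a)) 2
        _ = (X * M ^ 2) ^ 2 * ∑ h ∈ Icc 1 X, (h.divisors.card : ℝ) ^ 2 := by rw [mul_sum]
        _ ≤ _ := mul_le_mul_of_nonneg_left hd2 (by positivity)
    have h3 : ∑ h ∈ Icc 1 X, rr (F a) X h ^ 2 ≤ (δ * X) ^ 2 * (X * M ^ 2) := by
      have h4 := ha (F a) X (δ * X) (hS a hma)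
      have h5 : ∑ n ∈ Ioc 0 X, F a n ^ 2 ≤ X * M ^ 2 := by
        calc _ ≤ ∑ _n ∈ Ioc 0 X, M ^ 2 := by
              refine sum_le_sum fun n _ => ?_
              rw [← sq_abs]
              exact pow_le_pow_left₀ (abs_nonneg _) (hF a n) 2
          _ = X * M ^ 2 := by rw [sum_const, Nat.card_Ioc, nsmul_eq_mul, Nat.sub_zero]
      have h6 : 0 ≤ ∑ h ∈ Icc 1 X, rr (F a) X h ^ 2 := sum_nonneg fun _ _ => sq_nonneg _
      have h7 := mul_le_mul_of_nonneg_left h5 (sq_nonneg (δ * X))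
      nlinarith [sq_nonneg (rr (F a) X 0)]
    have h8 : (∑ h ∈ Icc 1 X, (h.divisors.card : ℝ) * rr (F a) X h ^ 2) ^ 2 ≤
        (δ * X ^ 3 * M ^ 3 * L ^ 2) ^ 2 := by
      calc _ ≤ _ := h1
        _ ≤ ((X * M ^ 2) ^ 2 * (X * L ^ 3)) * ((δ * X) ^ 2 * (X * M ^ 2)) :=
            mul_le_mul h2 h3 (sum_nonneg fun _ _ => sq_nonneg _) (by positivity)
        _ = (δ * X ^ 3 * M ^ 3) ^ 2 * L ^ 3 := by ring
        _ ≤ (δ * X ^ 3 * M ^ 3) ^ 2 * L ^ 4 :=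
            mul_le_mul_of_nonneg_left (pow_le_pow_right₀ hL1 (by norm_num)) (by positivity)
        _ = _ := by ring
    exact le_of_sq_le_sq_Bil h8 (by positivity)
  -- first factor
  have hS1 : ∑ a ∈ Icc 1 m, ∑ b ∈ Icc 1 m, ∑ k ∈ Icc 1 X,
      rr (F a) X (b / Nat.gcd a b * k) ^ 2 ≤ m * L * (δ * X ^ 3 * M ^ 3 * L ^ 2) := by
    calc _ ≤ ∑ a ∈ Icc 1 m, (a.divisors.card : ℝ) * (δ * X ^ 3 * M ^ 3 * L ^ 2) := by
          refine sum_le_sum fun a hma => ?_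
          refine (count_Bil (fun h => rr (F a) X h ^ 2) (fun _ => sq_nonneg _) X m a
            (mem_Icc.1 hma).1 fun h hh => ?_).trans ?_
          · rw [rr_eq_zero_Bil _ hh.le]; norm_num
          · exact mul_le_mul_of_nonneg_left (hT a hma) (by positivity)
      _ = (∑ a ∈ Icc 1 m, (a.divisors.card : ℝ)) * (δ * X ^ 3 * M ^ 3 * L ^ 2) := by
          rw [sum_mul]
      _ ≤ _ := mul_le_mul_of_nonneg_right hdm (by positivity)
  -- second factor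
  have hS2 : ∑ a ∈ Icc 1 m, ∑ b ∈ Icc 1 m, ∑ k ∈ Icc 1 X,
      rr (G b) X (a / Nat.gcd a b * k) ^ 2 ≤ m * L * (X ^ 3 * M ^ 4 * L) := by
    rw [sum_comm]
    calc _ ≤ ∑ b ∈ Icc 1 m, (b.divisors.card : ℝ) * (X ^ 3 * M ^ 4 * L) := by
          refine sum_le_sum fun b hmb => ?_
          have h1 := count_Bil (fun h => rr (G b) X h ^ 2) (fun _ => sq_nonneg _) X m b
            (mem_Icc.1 hmb).1 fun h hh => by rw [rr_eq_zero_Bil _ hh.le]; norm_num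
          simp only [Nat.gcd_comm b] at h1
          refine h1.trans (mul_le_mul_of_nonneg_left ?_ (by positivity))
          calc _ ≤ ∑ h ∈ Icc 1 X, (X * M ^ 2) ^ 2 * (h.divisors.card : ℝ) := by
                refine sum_le_sum fun h _ => ?_
                rw [mul_comm]
                refine mul_le_mul_of_nonneg_right ?_ (by positivity)
                rw [← sq_abs]
                exact pow_le_pow_left₀ (abs_nonneg _) (abs_rr_le_Bil _ _ _ M (hG b)) 2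
            _ = (X * M ^ 2) ^ 2 * ∑ h ∈ Icc 1 X, (h.divisors.card : ℝ) := by rw [mul_sum]
            _ ≤ (X * M ^ 2) ^ 2 * (X * L) := mul_le_mul_of_nonneg_left hd1 (by positivity)
            _ = _ := by ring
      _ = (∑ b ∈ Icc 1 m, (b.divisors.card : ℝ)) * (X ^ 3 * M ^ 4 * L) := by
          rw [sum_mul]
      _ ≤ _ := mul_le_mul_of_nonneg_right hdm (by positivity)
  -- Cauchy
  have hC : ∑ a ∈ Icc 1 m, ∑ b ∈ Icc 1 m, ∑ k ∈ Icc 1 X,
      |rr (F a) X (b / Nat.gcd a b * k)| * |rr (G b) X (a / Nat.gcd a b * k)| ≤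
      m * X ^ 3 * M ^ 4 * L ^ 3 * √δ := by
    have h1 := Real.sum_mul_le_sqrt_mul_sqrt (Icc 1 m ×ˢ Icc 1 m ×ˢ Icc 1 X)
      (fun x : ℕ × ℕ × ℕ => |rr (F x.1) X (x.2.1 / Nat.gcd x.1 x.2.1 * x.2.2)|)
      (fun x : ℕ × ℕ × ℕ => |rr (G x.2.1) X (x.1 / Nat.gcd x.1 x.2.1 * x.2.2)|)
    simp only [sum_product, sq_abs] at h1
    refine h1.trans ?_
    rw [← Real.sqrt_mul (sum_nonneg fun _ _ => sum_nonneg fun _ _ => sum_nonneg fun _ _ =>
      sq_nonneg _)]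
    have h2 : (∑ a ∈ Icc 1 m, ∑ b ∈ Icc 1 m, ∑ k ∈ Icc 1 X,
        rr (F a) X (b / Nat.gcd a b * k) ^ 2) * (∑ a ∈ Icc 1 m, ∑ b ∈ Icc 1 m, ∑ k ∈ Icc 1 X,
        rr (G b) X (a / Nat.gcd a b * k) ^ 2) ≤ (m * X ^ 3 * M ^ 4 * L ^ 3) ^ 2 * δ := by
      calc _ ≤ (m * L * (δ * X ^ 3 * M ^ 3 * L ^ 2)) * (m * L * (X ^ 3 * M ^ 4 * L)) :=
            mul_le_mul hS1 hS2 (sum_nonneg fun _ _ => sum_nonneg fun _ _ => sum_nonneg fun _ _ =>
              sq_nonneg _) (by positivity)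
        _ = (m * X ^ 3) ^ 2 * δ * (M ^ 7 * L ^ 5) := by ring
        _ ≤ (m * X ^ 3) ^ 2 * δ * (M ^ 8 * L ^ 6) := by
            refine mul_le_mul_of_nonneg_left ?_ (by positivity)
            exact mul_le_mul (pow_le_pow_right₀ hM (by norm_num))
              (pow_le_pow_right₀ hL1 (by norm_num)) (by positivity) (by positivity)
        _ = _ := by ring
    refine (Real.sqrt_le_sqrt h2).trans (le_of_eq ?_)
    rw [Real.sqrt_mul (by positivity), Real.sqrt_sq (by positivity)]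
  -- assembly
  calc ∑ a ∈ Icc 1 m, ∑ b ∈ Icc 1 m, QQ (F a) (G b) X a b σ
      ≤ ∑ a ∈ Icc 1 m, ∑ b ∈ Icc 1 m, ((X * M ^ 2) ^ 2 + 2 * ∑ k ∈ Icc 1 X,
        |rr (F a) X (b / Nat.gcd a b * k)| * |rr (G b) X (a / Nat.gcd a b * k)|) := by
        refine sum_le_sum fun a hma => sum_le_sum fun b hmb => ?_
        refine (hb (F a) (G b) X a b σ (mem_Icc.1 hma).1 (mem_Icc.1 hmb).1 hσ).2.trans ?_
        refine add_le_add_left ?_ _
        rw [pow_two]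
        exact mul_le_mul ((le_abs_self _).trans (abs_rr_le_Bil _ _ _ M (hF a)))
          ((le_abs_self _).trans (abs_rr_le_Bil _ _ _ M (hG b)))
          (by
            rw [rr]
            exact sum_nonneg fun n _ => by rw [add_zero]; exact mul_self_nonneg _)
          (by positivity)
    _ = m ^ 2 * (X * M ^ 2) ^ 2 + 2 * ∑ a ∈ Icc 1 m, ∑ b ∈ Icc 1 m, ∑ k ∈ Icc 1 X,
        |rr (F a) X (b / Nat.gcd a b * k)| * |rr (G b) X (a / Nat.gcd a b * k)| := by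
        simp only [sum_add_distrib, sum_const, Nat.card_Icc, nsmul_eq_mul, mul_sum,
          Nat.add_sub_cancel]
        ring
    _ ≤ m ^ 2 * (X * M ^ 2) ^ 2 + 2 * (m * X ^ 3 * M ^ 4 * L ^ 3 * √δ) := by
        linarith
    _ = _ := by ring

end Pool.Agent.Helper48.BK
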