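import Pool.Agent.Helper48.BK.StD

/-! Project BK, module Brun (helper27). -/

set_option autoImplicit false
namespace Pool.Agent.Helper48.BK
open Finset ArithmeticFunction

open Classical in
theorem hBrun : StBrun := by
  intro P r n
  set S := P.filter (fun p => p ∣ n) with hS
  have e1 : P.powerset.filter (fun T => T.card ≤ r ∧ ∀ p ∈ T, p ∣ n) =
      (range (r + 1)).biUnion (fun j => S.powersetCard j) := by
    ext T
    simp only [mem_filter, mem_powerset, mem_biUnion, mem_range, mem_powersetCard, hS,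
      subset_iff]
    constructor
    · rintro ⟨h1, h2, h3⟩
      exact ⟨T.card, by omega, fun p hp => ⟨h1 hp, h3 p hp⟩, rfl⟩
    · rintro ⟨j, hj, h1, h2⟩
      exact ⟨fun p hp => (h1 hp).1, by omega, fun p hp => (h1 hp).2⟩
  have e2 : P.powerset.filter (fun T => T.card = r + 1 ∧ ∀ p ∈ T, p ∣ n) =
      S.powersetCard (r + 1) := by
    ext T
    simp only [mem_filter, mem_powerset, mem_powersetCard, hS, subset_iff]
    constructor
    · rintro ⟨h1, h2, h3⟩
      exact ⟨fun p hp => ⟨h1 hp, h3 p hp⟩, h2⟩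
    · rintro ⟨h1, h2⟩
      exact ⟨fun p hp => (h1 hp).1, h2, fun p hp => (h1 hp).2⟩
  have e3 : ∑ T ∈ (range (r + 1)).biUnion (fun j => S.powersetCard j), (-1 : ℝ) ^ T.card =
      ∑ j ∈ range (r + 1), (-1 : ℝ) ^ j * (S.card.choose j : ℝ) := by
    rw [sum_biUnion]
    · refine sum_congr rfl fun j _ => ?_
      rw [sum_congr rfl (g := fun _ => (-1 : ℝ) ^ j)
        (fun T hT => by rw [(mem_powersetCard.1 hT).2]), sum_const, card_powersetCard,
        nsmul_eq_mul, mul_comm]
    · intro i _ j _ hij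
      exact pairwise_disjoint_powersetCard S hij
  rw [e1, e2, e3, card_powersetCard]
  rcases Nat.eq_zero_or_pos S.card with h0 | h0
  · have hn : ∀ p ∈ P, ¬ p ∣ n := by
      intro p hp hd
      have := card_eq_zero.1 h0
      exact (Finset.notMem_empty p) (this ▸ mem_filter.2 ⟨hp, hd⟩)
    rw [if_pos hn, h0, sum_range_succ']
    simp
  · have hn : ¬ ∀ p ∈ P, ¬ p ∣ n := by
      intro h
      obtain ⟨p, hp⟩ := card_pos.1 h0
      exact h p (mem_filter.1 hp).1 (mem_filter.1 hp).2
    obtain ⟨k, hk⟩ : ∃ k, S.card = k + 1 := ⟨S.card - 1, by omega⟩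
    rw [if_neg hn, hk]
    have h := Int.alternating_sum_range_choose_eq_choose (n := k) (m := r)
    have h' : ∑ j ∈ range (r + 1), (-1 : ℝ) ^ j * ((k + 1).choose j : ℝ) =
        (-1) ^ r * (k.choose r : ℝ) := by
      exact_mod_cast h
    rw [h', zero_sub, abs_neg, abs_mul, abs_pow, abs_neg, abs_one, one_pow, one_mul,
      abs_of_nonneg (Nat.cast_nonneg _)]
    have : k.choose r ≤ (k + 1).choose (r + 1) := by
      rw [Nat.choose_succ_succ]
      exact Nat.le_add_right _ _
    exact_mod_cast this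

end Pool.Agent.Helper48.BK
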