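import Pool.Agent.Helper48.BK.StT

set_option autoImplicit false

namespace Pool.Agent.Helper48.BK

open Finset

lemma cop_C30 (x y : ℕ) (hx : x < 3) (hy : y < 5) (h3 : ¬ 3 ∣ x) (h5 : ¬ 5 ∣ y) :
    Nat.Coprime (10 * x + 6 * y + 15) 30 := by
  have hx' : x = 1 ∨ x = 2 := by omega
  have hy' : y = 1 ∨ y = 2 ∨ y = 3 ∨ y = 4 := by omega
  rcases hx' with rfl | rfl <;> rcases hy' with rfl | rfl | rfl | rfl <;> decide

lemma ex_C30 (ha : StLoc) (a b c : ℕ) (d : ℤ) (h : AdN a b c d) (p : ℕ) (hp : p.Prime)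
    (h3 : 3 ≤ p) : ∃ x y z : ℕ, x < p ∧ y < p ∧ z < p ∧ ¬ p ∣ x ∧ ¬ p ∣ y ∧ ¬ p ∣ z ∧
      (p : ℤ) ∣ a * x + b * y - c * z - d := by
  have h1 := (ha a b c d p h hp h3).2.2
  have hpos : 0 < ((Cl a b c d p).filter (fun u => ¬ p ∣ u.1 * u.2.1 * u.2.2)).card := by
    have : 0 < (p - 1) * (p - 2) := Nat.mul_pos (by omega) (by omega)
    omega
  obtain ⟨u, hu⟩ := Finset.card_pos.mp hpos
  rw [Finset.mem_filter, Cl, Finset.mem_filter, Finset.mem_product, Finset.mem_product] at hu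
  obtain ⟨⟨⟨q1, q2, q3⟩, q4⟩, q5⟩ := hu
  refine ⟨u.1, u.2.1, u.2.2, Finset.mem_range.mp q1, Finset.mem_range.mp q2,
    Finset.mem_range.mp q3, ?_, ?_, ?_, q4⟩
  · intro hd
    exact q5 (Dvd.dvd.mul_right (Dvd.dvd.mul_right hd _) _)
  · intro hd
    exact q5 (Dvd.dvd.mul_right (Dvd.dvd.mul_left hd _) _)
  · intro hd
    exact q5 (Dvd.dvd.mul_left hd _)

theorem hC30 (ha : StLoc) : StC30 := by
  intro a b c d h
  obtain ⟨x1, x2, x3, l1, l2, l3, n1, n2, n3, hd3⟩ :=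
    ex_C30 ha a b c d h 3 Nat.prime_three le_rfl
  obtain ⟨y1, y2, y3, m1, m2, m3, o1, o2, o3, hd5⟩ :=
    ex_C30 ha a b c d h 5 Nat.prime_five (by norm_num)
  refine ⟨10 * x1 + 6 * y1 + 15, 10 * x2 + 6 * y2 + 15, 10 * x3 + 6 * y3 + 15,
    cop_C30 x1 y1 l1 m1 n1 o1, cop_C30 x2 y2 l2 m2 n2 o2, cop_C30 x3 y3 l3 m3 n3 o3, ?_⟩
  obtain ⟨k3, hk3⟩ := hd3
  obtain ⟨k5, hk5⟩ := hd5
  obtain ⟨m, hm⟩ := h.1
  refine ⟨k3 + k5 + (m - c), ?_⟩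
  push_cast at hk3 hk5 ⊢
  linear_combination 10 * hk3 + 6 * hk5 + 15 * hm

end Pool.Agent.Helper48.BK
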