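import Pool.Agent.Helper48.BK.StT

/-!
# Project BK, module Cls
-/

set_option autoImplicit false

namespace Pool.Agent.Helper48.BK

open Finset

theorem crt_Cls (m n : ℕ) (hm : 0 < m) (hn : 0 < n) (h : Nat.Coprime m n)
    (A B : ℕ × ℕ × ℕ → Prop) [DecidablePred A] [DecidablePred B] :
    (((range (m * n)) ×ˢ (range (m * n)) ×ˢ (range (m * n))).filter
      (fun u => A (u.1 % m, u.2.1 % m, u.2.2 % m) ∧ B (u.1 % n, u.2.1 % n, u.2.2 % n))).card =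
    (((range m) ×ˢ (range m) ×ˢ (range m)).filter A).card *
    (((range n) ×ˢ (range n) ×ˢ (range n)).filter B).card := by
  rw [← card_product]
  have hlt : ∀ y z : ℕ, (Nat.chineseRemainder h y z : ℕ) < m * n := fun y z =>
    Nat.chineseRemainder_lt_mul h y z hm.ne' hn.ne'
  have hmod : ∀ y z : ℕ, y < m → (Nat.chineseRemainder h y z : ℕ) % m = y := fun y z hy => by
    have := (Nat.chineseRemainder h y z).2.1
    rw [Nat.ModEq, Nat.mod_eq_of_lt hy] at this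
    exact this
  have hmod2 : ∀ y z : ℕ, z < n → (Nat.chineseRemainder h y z : ℕ) % n = z := fun y z hz => by
    have := (Nat.chineseRemainder h y z).2.2
    rw [Nat.ModEq, Nat.mod_eq_of_lt hz] at this
    exact this
  have hinv : ∀ x : ℕ, x < m * n → (Nat.chineseRemainder h (x % m) (x % n) : ℕ) = x := fun x hx => by
    have h1 : (Nat.chineseRemainder h (x % m) (x % n) : ℕ) ≡ x [MOD m * n] := by
      rw [← Nat.modEq_and_modEq_iff_modEq_mul h]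
      exact ⟨(Nat.chineseRemainder h (x % m) (x % n)).2.1.trans (Nat.mod_modEq x m),
        (Nat.chineseRemainder h (x % m) (x % n)).2.2.trans (Nat.mod_modEq x n)⟩
    rw [Nat.ModEq, Nat.mod_eq_of_lt hx, Nat.mod_eq_of_lt (hlt _ _)] at h1
    exact h1
  apply Finset.card_bij'
    (i := fun (u : ℕ × ℕ × ℕ) _ => ((u.1 % m, u.2.1 % m, u.2.2 % m), (u.1 % n, u.2.1 % n, u.2.2 % n)))
    (j := fun (w : (ℕ × ℕ × ℕ) × (ℕ × ℕ × ℕ)) _ => ((Nat.chineseRemainder h w.1.1 w.2.1 : ℕ),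
      (Nat.chineseRemainder h w.1.2.1 w.2.2.1 : ℕ), (Nat.chineseRemainder h w.1.2.2 w.2.2.2 : ℕ)))
  · rintro ⟨x, y, z⟩ hu
    simp only [mem_filter, mem_product, mem_range] at hu ⊢
    exact ⟨⟨⟨Nat.mod_lt _ hm, Nat.mod_lt _ hm, Nat.mod_lt _ hm⟩, hu.2.1⟩,
      ⟨Nat.mod_lt _ hn, Nat.mod_lt _ hn, Nat.mod_lt _ hn⟩, hu.2.2⟩
  · rintro ⟨⟨x, y, z⟩, x', y', z'⟩ hu
    simp only [mem_filter, mem_product, mem_range] at hu ⊢
    obtain ⟨⟨⟨h1, h2, h3⟩, hA⟩, ⟨h1', h2', h3'⟩, hB⟩ := hu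
    refine ⟨⟨hlt _ _, hlt _ _, hlt _ _⟩, ?_, ?_⟩
    · rw [hmod _ _ h1, hmod _ _ h2, hmod _ _ h3]; exact hA
    · rw [hmod2 _ _ h1', hmod2 _ _ h2', hmod2 _ _ h3']; exact hB
  · rintro ⟨x, y, z⟩ hu
    simp only [mem_filter, mem_product, mem_range] at hu
    simp only
    rw [hinv _ hu.1.1, hinv _ hu.1.2.1, hinv _ hu.1.2.2]
  · rintro ⟨⟨x, y, z⟩, x', y', z'⟩ hu
    simp only [mem_filter, mem_product, mem_range] at hu
    obtain ⟨⟨⟨h1, h2, h3⟩, hA⟩, ⟨h1', h2', h3'⟩, hB⟩ := hu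
    simp only
    rw [hmod _ _ h1, hmod _ _ h2, hmod _ _ h3, hmod2 _ _ h1', hmod2 _ _ h2', hmod2 _ _ h3']

theorem red_Cls (a b c : ℕ) (d : ℤ) (M x y z : ℕ) :
    ((M : ℤ) ∣ a * x + b * y - c * z - d) ↔
    ((M : ℤ) ∣ a * ((x % M : ℕ) : ℤ) + b * ((y % M : ℕ) : ℤ) - c * ((z % M : ℕ) : ℤ) - d) := by
  have e1 : ((x % M : ℕ) : ℤ) ≡ x [ZMOD M] := by
    rw [Int.natCast_mod]; exact Int.mod_modEq _ _
  have e2 : ((y % M : ℕ) : ℤ) ≡ y [ZMOD M] := by
    rw [Int.natCast_mod]; exact Int.mod_modEq _ _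
  have e3 : ((z % M : ℕ) : ℤ) ≡ z [ZMOD M] := by
    rw [Int.natCast_mod]; exact Int.mod_modEq _ _
  have e : a * ((x % M : ℕ) : ℤ) + b * ((y % M : ℕ) : ℤ) - c * ((z % M : ℕ) : ℤ) - d ≡
      a * x + b * y - c * z - d [ZMOD M] :=
    (((e1.mul_left _).add (e2.mul_left _)).sub (e3.mul_left _)).sub_right _
  rw [← Int.modEq_zero_iff_dvd, ← Int.modEq_zero_iff_dvd]
  exact ⟨fun h => e.trans h, fun h => e.symm.trans h⟩

theorem prd_Cls (p M x y z : ℕ) (h : p ∣ M) :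
    (p ∣ x * y * z) ↔ (p ∣ (x % M) * (y % M) * (z % M)) := by
  have e : (x % M) * (y % M) * (z % M) ≡ x * y * z [MOD p] :=
    ((((Nat.mod_modEq x M).of_dvd h).mul ((Nat.mod_modEq y M).of_dvd h)).mul
      ((Nat.mod_modEq z M).of_dvd h))
  exact (e.dvd_iff dvd_rfl).symm

theorem hCls : StCls := by
  intro a b c d T
  induction T using Finset.induction_on with
  | empty =>
    intro _
    simp only [Finset.prod_empty]
    rw [Finset.card_eq_one]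
    refine ⟨(0, 0, 0), ?_⟩
    ext ⟨x, y, z⟩
    simp [Cl]
  | insert q T hq ih =>
    intro hT
    have hTp : ∀ p ∈ T, p.Prime := fun p hp => hT p (mem_insert_of_mem hp)
    have hqp : q.Prime := hT q (mem_insert_self _ _)
    rw [Finset.prod_insert hq, Finset.prod_insert hq, ← ih hTp]
    set N := ∏ p ∈ T, p with hN
    have hNpos : 0 < N := Finset.prod_pos (fun p hp => (hTp p hp).pos)
    have hco : Nat.Coprime q N := by
      rw [hN]
      apply Nat.Coprime.prod_right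
      intro p hp
      exact (Nat.coprime_primes hqp (hTp p hp)).mpr (fun h => hq (h ▸ hp))
    have hc := crt_Cls q N hqp.pos hNpos hco
      (fun u => (q : ℤ) ∣ a * u.1 + b * u.2.1 - c * u.2.2 - d ∧ q ∣ u.1 * u.2.1 * u.2.2)
      (fun u => (N : ℤ) ∣ a * u.1 + b * u.2.1 - c * u.2.2 - d ∧
        ∀ p ∈ T, p ∣ u.1 * u.2.1 * u.2.2)
    have e1 : (Cl a b c d (q * N)).filter (fun u => ∀ p ∈ insert q T, p ∣ u.1 * u.2.1 * u.2.2) =
        ((range (q * N)) ×ˢ (range (q * N)) ×ˢ (range (q * N))).filter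
      (fun u => ((q : ℤ) ∣ a * ((u.1 % q : ℕ) : ℤ) + b * ((u.2.1 % q : ℕ) : ℤ) -
        c * ((u.2.2 % q : ℕ) : ℤ) - d ∧ q ∣ (u.1 % q) * (u.2.1 % q) * (u.2.2 % q)) ∧
        ((N : ℤ) ∣ a * ((u.1 % N : ℕ) : ℤ) + b * ((u.2.1 % N : ℕ) : ℤ) -
        c * ((u.2.2 % N : ℕ) : ℤ) - d ∧ ∀ p ∈ T, p ∣ (u.1 % N) * (u.2.1 % N) * (u.2.2 % N))) := by
      rw [Cl, Finset.filter_filter]
      apply Finset.filter_congr
      rintro ⟨x, y, z⟩ _
      simp only
      rw [← red_Cls, ← red_Cls, ← prd_Cls q q x y z dvd_rfl]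
      have hcoZ : IsCoprime (q : ℤ) (N : ℤ) := Nat.isCoprime_iff_coprime.mpr hco
      have e2 : ((q * N : ℕ) : ℤ) ∣ a * x + b * y - c * z - d ↔
          (q : ℤ) ∣ a * x + b * y - c * z - d ∧ (N : ℤ) ∣ a * x + b * y - c * z - d := by
        push_cast
        exact ⟨fun h => ⟨(Dvd.intro _ rfl).trans h, (Dvd.intro_left _ rfl).trans h⟩,
          fun h => hcoZ.mul_dvd h.1 h.2⟩
      have e3 : (∀ p ∈ T, p ∣ (x % N) * (y % N) * (z % N)) ↔ ∀ p ∈ T, p ∣ x * y * z :=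
        forall₂_congr (fun p hp => (prd_Cls p N x y z (Finset.dvd_prod_of_mem _ hp)).symm)
      rw [e2, e3, Finset.forall_mem_insert]
      tauto
    rw [e1, hc]
    congr 1
    · rw [kp, Cl, Finset.filter_filter]
    · rw [Cl, Finset.filter_filter]

end Pool.Agent.Helper48.BK
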