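import Pool.Agent.Helper48.BK.StB

/-!
# Project BK, module Cnt: the dual count
-/

set_option autoImplicit false

namespace Pool.Agent.Helper48.BK

open Finset

theorem card_class_Cnt (X q v : ℕ) (hq : 0 < q) :
    (((Ioc 0 X).filter fun x => x ≡ v [MOD q]).card : ℝ) ≤ X / q + 1 := by
  have h := Nat.Ioc_filter_modEq_card 0 X hq v
  have hq' : (0 : ℚ) < q := by exact_mod_cast hq
  have h1 : ((((Ioc 0 X).filter fun x => x ≡ v [MOD q]).card : ℤ) : ℚ) ≤ X / q + 1 := by
    rw [h]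
    push_cast
    refine max_le ?_ (by positivity)
    have a1 := Int.floor_le (((X : ℚ) - v) / q)
    have a2 := Int.lt_floor_add_one (((0 : ℚ) - v) / q)
    have e : ((X : ℚ) - v) / q - (0 - v) / q = X / q := by
      field_simp
      ring
    linarith
  have h2 : (((((Ioc 0 X).filter fun x => x ≡ v [MOD q]).card : ℚ)) : ℝ) ≤
      (((X : ℚ) / q + 1 : ℚ) : ℝ) := by
    exact_mod_cast h1
  push_cast at h2
  exact h2

theorem hCnt : StCnt := by
  intro X c c' D hc hc'
  set S := ((Ioc 0 X) ×ˢ (Ioc 0 X)).filter (fun v : ℕ × ℕ => (c : ℤ) * v.1 - c' * v.2 = D) with hS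
  rcases S.eq_empty_or_nonempty with h0 | ⟨⟨n₀, n₀'⟩, h0⟩
  · rw [h0]
    simp only [card_empty, Nat.cast_zero]
    positivity
  have e0 : (c : ℤ) * n₀ - c' * n₀' = D := (mem_filter.1 h0).2
  set g := Nat.gcd c c' with hg
  have hg0 : 0 < g := Nat.gcd_pos_of_pos_left c' (show 0 < c by exact hc)
  obtain ⟨u, hu⟩ : g ∣ c := Nat.gcd_dvd_left c c'
  obtain ⟨q, hq⟩ : g ∣ c' := Nat.gcd_dvd_right c c'
  have hq0 : 0 < q := by
    rcases Nat.eq_zero_or_pos q with h | h
    · rw [h, mul_zero] at hq; omega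
    · exact h
  have hcop : Nat.Coprime u q := by
    have h1 : Nat.gcd (g * u) (g * q) = g := by rw [← hu, ← hq]
    rw [Nat.gcd_mul_left] at h1
    exact Nat.eq_of_mul_eq_mul_left hg0 (by rw [h1, mul_one])
  have hcard : S.card ≤ ((Ioc 0 X).filter fun x => x ≡ n₀ [MOD q]).card := by
    refine card_le_card_of_injOn Prod.fst (fun v hv => ?_) ?_
    · obtain ⟨hv1, hv2⟩ := mem_filter.1 hv
      have hv3 := (mem_product.1 hv1).1
      refine mem_coe.2 (mem_filter.2 ⟨hv3, ?_⟩)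
      have h1 : (u : ℤ) * ((v.1 : ℤ) - n₀) = q * ((v.2 : ℤ) - n₀') := by
        have h2 : (g : ℤ) * ((u : ℤ) * ((v.1 : ℤ) - n₀)) = g * (q * ((v.2 : ℤ) - n₀')) := by
          have e1 : (c : ℤ) = g * u := by exact_mod_cast hu
          have e2 : (c' : ℤ) = g * q := by exact_mod_cast hq
          rw [e1, e2] at hv2 e0
          linear_combination hv2 - e0
        exact mul_left_cancel₀ (by exact_mod_cast hg0.ne') h2
      have h3 : (q : ℤ) ∣ (v.1 : ℤ) - n₀ := by
        have h4 : (q : ℤ) ∣ (u : ℤ) * ((v.1 : ℤ) - n₀) := ⟨_, h1⟩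
        exact (Nat.isCoprime_iff_coprime.2 hcop.symm).dvd_of_dvd_mul_left h4
      exact ((Nat.modEq_iff_dvd.2 h3).symm)
    · intro v hv w hw hvw
      have hv2 := (mem_filter.1 (mem_coe.1 hv)).2
      have hw2 := (mem_filter.1 (mem_coe.1 hw)).2
      refine Prod.ext hvw ?_
      rw [hvw] at hv2
      have h1 : (c' : ℤ) * v.2 = c' * w.2 := by linear_combination hw2 - hv2
      have h2 := mul_left_cancel₀ (show (c' : ℤ) ≠ 0 by exact_mod_cast (show c' ≠ 0 by omega)) h1
      exact_mod_cast h2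
  have h5 := card_class_Cnt X q n₀ hq0
  calc (S.card : ℝ) ≤ (((Ioc 0 X).filter fun x => x ≡ n₀ [MOD q]).card : ℝ) := by
        exact_mod_cast hcard
    _ ≤ X / q + 1 := h5
    _ = X * g / c' + 1 := by
        have hg' : (g : ℝ) ≠ 0 := by exact_mod_cast hg0.ne'
        have hq' : (q : ℝ) ≠ 0 := by exact_mod_cast hq0.ne'
        rw [hq]
        push_cast
        field_simp

end Pool.Agent.Helper48.BK
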