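import Pool.Agent.Helper48.BK.StT

/-!
# Project BK: module Cnt7
-/

set_option autoImplicit false

namespace Pool.Agent.Helper48.BK

open Finset

theorem eqd_Cnt7 {p k x y : ℕ} (hp : p.Prime) (hk : ¬ p ∣ k) (hx : x < p) (hy : y < p)
    (h : (p : ℤ) ∣ (k : ℤ) * ((x : ℤ) - y)) : x = y := by
  rcases (Nat.prime_iff_prime_int.mp hp).dvd_or_dvd h with h1 | h1
  · exact absurd (Int.natCast_dvd_natCast.mp h1) hk
  · have h2 : (x : ℤ) - y = 0 := by
      apply Int.eq_zero_of_abs_lt_dvd h1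
      rw [abs_lt]
      constructor <;> omega
    omega

theorem kp_le_Cnt7 (a b c : ℕ) (d : ℤ) (p : ℕ) (hp : p.Prime)
    (hg : Nat.gcd a (Nat.gcd b c) = 1) : kp a b c d p ≤ p ^ 2 := by
  unfold kp
  refine (card_filter_le _ _).trans ?_
  have hpp : (range p ×ˢ range p).card = p ^ 2 := by
    rw [card_product, card_range, sq]
  rw [← hpp]
  by_cases ha : p ∣ a
  · by_cases hb : p ∣ b
    · have hc : ¬ p ∣ c := by
        intro hc
        have : p ∣ 1 := by
          rw [← hg]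
          exact Nat.dvd_gcd ha (Nat.dvd_gcd hb hc)
        exact hp.one_lt.ne' (Nat.dvd_one.mp this)
      refine card_le_card_of_injOn (fun u => (u.1, u.2.1)) ?_ ?_
      · intro u hu
        simp only [Cl, coe_filter, mem_product, mem_range, Set.mem_ofPred_eq] at hu
        simp only [coe_product, Set.mem_prod, mem_coe, mem_range]
        exact ⟨hu.1.1, hu.1.2.1⟩
      · intro u hu v hv huv
        simp only [Cl, coe_filter, mem_product, mem_range, Set.mem_ofPred_eq] at hu hv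
        simp only [Prod.mk.injEq] at huv
        obtain ⟨u1, u2, u3⟩ := u
        obtain ⟨v1, v2, v3⟩ := v
        simp only at hu hv huv
        obtain ⟨h1, h2⟩ := huv
        subst h1 h2
        have h3 : u3 = v3 := by
          apply eqd_Cnt7 hp hc hu.1.2.2 hv.1.2.2
          have e : (c : ℤ) * ((u3 : ℤ) - v3) = (a * u1 + b * u2 - c * v3 - d) -
              (a * u1 + b * u2 - c * u3 - d) := by ring
          rw [e]
          exact dvd_sub hv.2 hu.2
        rw [h3]
    · refine card_le_card_of_injOn (fun u => (u.1, u.2.2)) ?_ ?_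
      · intro u hu
        simp only [Cl, coe_filter, mem_product, mem_range, Set.mem_ofPred_eq] at hu
        simp only [coe_product, Set.mem_prod, mem_coe, mem_range]
        exact ⟨hu.1.1, hu.1.2.2⟩
      · intro u hu v hv huv
        simp only [Cl, coe_filter, mem_product, mem_range, Set.mem_ofPred_eq] at hu hv
        simp only [Prod.mk.injEq] at huv
        obtain ⟨u1, u2, u3⟩ := u
        obtain ⟨v1, v2, v3⟩ := v
        simp only at hu hv huv
        obtain ⟨h1, h2⟩ := huv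
        subst h1 h2
        have h3 : u2 = v2 := by
          apply eqd_Cnt7 hp hb hu.1.2.1 hv.1.2.1
          have e : (b : ℤ) * ((u2 : ℤ) - v2) = (a * u1 + b * u2 - c * u3 - d) -
              (a * u1 + b * v2 - c * u3 - d) := by ring
          rw [e]
          exact dvd_sub hu.2 hv.2
        rw [h3]
  · refine card_le_card_of_injOn (fun u => (u.2.1, u.2.2)) ?_ ?_
    · intro u hu
      simp only [Cl, coe_filter, mem_product, mem_range, Set.mem_ofPred_eq] at hu
      simp only [coe_product, Set.mem_prod, mem_coe, mem_range]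
      exact ⟨hu.1.2.1, hu.1.2.2⟩
    · intro u hu v hv huv
      simp only [Cl, coe_filter, mem_product, mem_range, Set.mem_ofPred_eq] at hu hv
      simp only [Prod.mk.injEq] at huv
      obtain ⟨u1, u2, u3⟩ := u
      obtain ⟨v1, v2, v3⟩ := v
      simp only at hu hv huv
      obtain ⟨h1, h2⟩ := huv
      subst h1 h2
      have h3 : u1 = v1 := by
        apply eqd_Cnt7 hp ha hu.1.1 hv.1.1
        have e : (a : ℤ) * ((u1 : ℤ) - v1) = (a * u1 + b * u2 - c * u3 - d) -
            (a * v1 + b * u2 - c * u3 - d) := by ring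
        rw [e]
        exact dvd_sub hu.2 hv.2
      rw [h3]

theorem crt_Cnt7 (P : ℕ) (h : Nat.Coprime 30 P) (x y : ℤ) :
    ∃ w : ℤ, (30 : ℤ) ∣ w - x ∧ (P : ℤ) ∣ w - y := by
  have h1 : IsCoprime ((30 : ℕ) : ℤ) (P : ℤ) := Nat.isCoprime_iff_coprime.mpr h
  obtain ⟨s, t, hst⟩ := h1
  push_cast at hst
  refine ⟨x * (t * P) + y * (s * 30), ⟨(y - x) * s, ?_⟩, ⟨(x - y) * t, ?_⟩⟩
  · have : t * P = 1 - s * 30 := by linarith
    rw [this]; ring
  · have : s * 30 = 1 - t * P := by linarith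
    rw [this]; ring

/-- combined congruence -/
theorem comb_Cnt7 (P : ℕ) (h : Nat.Coprime 30 P) (v x y w : ℤ) (hx : (30 : ℤ) ∣ w - x)
    (hy : (P : ℤ) ∣ w - y) :
    (((30 * P : ℕ) : ℤ) ∣ v - w) ↔ ((30 : ℤ) ∣ v - x ∧ (P : ℤ) ∣ v - y) := by
  have h1 : IsCoprime ((30 : ℕ) : ℤ) (P : ℤ) := Nat.isCoprime_iff_coprime.mpr h
  constructor
  · intro hM
    push_cast at hM
    constructor
    · have h2 : (30 : ℤ) ∣ v - w := (Dvd.intro _ rfl).trans hM
      have := dvd_add h2 hx
      rwa [sub_add_sub_cancel] at this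
    · have h2 : (P : ℤ) ∣ v - w := (Dvd.intro_left _ rfl).trans hM
      have := dvd_add h2 hy
      rwa [sub_add_sub_cancel] at this
  · rintro ⟨h2, h3⟩
    push_cast
    apply IsCoprime.mul_dvd (by exact_mod_cast h1)
    · have := dvd_sub h2 hx
      convert this using 1
      ring
    · have := dvd_sub h3 hy
      convert this using 1
      ring

theorem cop_Cnt7 (T : Finset ℕ) (hT : ∀ p ∈ T, p.Prime ∧ 7 ≤ p) :
    Nat.Coprime 30 (∏ p ∈ T, p) := by
  apply Nat.Coprime.prod_right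
  intro p hp
  rw [Nat.coprime_comm, Nat.Prime.coprime_iff_not_dvd (hT p hp).1]
  intro h
  have h7 := (hT p hp).2
  have hpr := (hT p hp).1
  have : p ∈ Nat.primeFactors 30 := Nat.mem_primeFactors.mpr ⟨hpr, h, by norm_num⟩
  have h30 : Nat.primeFactors 30 = {2, 3, 5} := by
    have : (30 : ℕ) = 2 * (3 * 5) := by norm_num
    rw [this, Nat.primeFactors_mul (by norm_num) (by norm_num),
      Nat.primeFactors_mul (by norm_num) (by norm_num), Nat.Prime.primeFactors Nat.prime_two,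
      Nat.Prime.primeFactors Nat.prime_three, Nat.Prime.primeFactors Nat.prime_five]
    rfl
  rw [h30] at this
  simp only [mem_insert, mem_singleton] at this
  omega

theorem hCnt7 (ha : StRes) (hb : StCls) : StCnt7 := by
  intro H a b c d u₁ u₂ u₃ T h1a h1b h1c hAd h30 hT
  set P : ℕ := ∏ p ∈ T, p with hP
  have hPpos : 1 ≤ P := Finset.prod_pos (fun p hp => (hT p hp).1.pos)
  have hcop : Nat.Coprime 30 P := cop_Cnt7 T hT
  have hg : Nat.gcd a (Nat.gcd b c) = 1 := hAd.2.1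
  have hc0 : (c : ℤ) ≠ 0 := by positivity
  set F := (Sol H a b c d).filter (fun v => ((30 : ℤ) ∣ (v.1 : ℤ) - u₁ ∧ (30 : ℤ) ∣ (v.2 : ℤ) - u₂ ∧
      (30 : ℤ) ∣ thd a b c d v - u₃) ∧ ∀ p ∈ T, (p : ℤ) ∣ v.1 * v.2 * thd a b c d v) with hF
  set C := (Cl a b c d P).filter (fun u => ∀ p ∈ T, p ∣ u.1 * u.2.1 * u.2.2) with hC
  have hCcard : C.card = ∏ p ∈ T, kp a b c d p := hb a b c d T (fun p hp => (hT p hp).1)
  have hCle : C.card ≤ P ^ 2 := by
    rw [hCcard, hP, ← Finset.prod_pow]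
    exact Finset.prod_le_prod' (fun p hp => kp_le_Cnt7 a b c d p (hT p hp).1 hg)
  have hPz : (0 : ℤ) < P := by exact_mod_cast hPpos
  -- the exact equation
  have heq : ∀ v ∈ Sol H a b c d, (a : ℤ) * v.1 + b * v.2 - c * thd a b c d v - d = 0 := by
    intro v hv
    have hv' := (mem_filter.mp hv).2.2.2.2.2
    have : (c : ℤ) * thd a b c d v = (a : ℤ) * v.1 + b * v.2 - d := by
      unfold thd
      exact Int.mul_ediv_cancel' hv'
    rw [this]; ring
  have hpd : ∀ p ∈ T, (p : ℤ) ∣ (P : ℤ) := fun p hp =>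
    Int.natCast_dvd_natCast.mpr (Finset.dvd_prod_of_mem _ hp)
  let f : ℕ × ℕ → ℕ × ℕ × ℕ := fun v => (v.1 % P, v.2 % P, (thd a b c d v % (P : ℤ)).toNat)
  have hmod3 : ∀ v : ℕ × ℕ, (((thd a b c d v % (P : ℤ)).toNat : ℕ) : ℤ) = thd a b c d v % P := by
    intro v
    exact Int.toNat_of_nonneg (Int.emod_nonneg _ hPz.ne')
  have hmaps : ∀ v ∈ F, f v ∈ C := by
    intro v hv
    rw [hF, mem_filter] at hv
    obtain ⟨hv, _, hvT⟩ := hv
    rw [hC, mem_filter]
    have hd1 : (P : ℤ) ∣ ((v.1 % P : ℕ) : ℤ) - v.1 := by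
      push_cast
      exact (Int.mod_modEq (v.1 : ℤ) P).symm.dvd
    have hd2 : (P : ℤ) ∣ ((v.2 % P : ℕ) : ℤ) - v.2 := by
      push_cast
      exact (Int.mod_modEq (v.2 : ℤ) P).symm.dvd
    have hd3 : (P : ℤ) ∣ (((thd a b c d v % (P : ℤ)).toNat : ℕ) : ℤ) - thd a b c d v := by
      rw [hmod3]
      exact (Int.mod_modEq (thd a b c d v) P).symm.dvd
    constructor
    · simp only [Cl, mem_filter, mem_product, mem_range, f]
      refine ⟨⟨Nat.mod_lt _ hPpos, Nat.mod_lt _ hPpos, ?_⟩, ?_⟩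
      · have := Int.emod_lt_of_pos (thd a b c d v) hPz
        have h2 := hmod3 v
        omega
      · have h0 := heq v hv
        have : (a : ℤ) * ((v.1 % P : ℕ) : ℤ) + b * ((v.2 % P : ℕ) : ℤ) -
            c * (((thd a b c d v % (P : ℤ)).toNat : ℕ) : ℤ) - d =
            a * (((v.1 % P : ℕ) : ℤ) - v.1) + b * (((v.2 % P : ℕ) : ℤ) - v.2) -
            c * ((((thd a b c d v % (P : ℤ)).toNat : ℕ) : ℤ) - thd a b c d v) := by
          linear_combination h0
        rw [this]
        exact dvd_sub (dvd_add (hd1.mul_left _) (hd2.mul_left _)) (hd3.mul_left _)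
    · intro p hp
      have h0 := hvT p hp
      rw [← Int.natCast_dvd_natCast]
      simp only [f]
      have e1 := (hpd p hp).trans hd1
      have e2 := (hpd p hp).trans hd2
      have e3 := (hpd p hp).trans hd3
      have m1 := (Int.modEq_iff_dvd.mpr e1)
      have m2 := (Int.modEq_iff_dvd.mpr e2)
      have m3 := (Int.modEq_iff_dvd.mpr e3)
      have m := (m1.mul m2).mul m3
      have := (Int.ModEq.dvd m)
      have h4 := dvd_add this h0
      rw [sub_add_cancel] at h4
      push_cast at h4 ⊢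
      exact h4
  have hfib := Finset.card_eq_sum_card_fiberwise hmaps
  -- each fibre
  set E : ℝ := 4 * ((H : ℝ) / a + (H : ℝ) / b + 1) with hE
  set N : ℝ := (H / a : ℝ) * (H / b : ℝ) / (c * 900) / (P : ℝ) ^ 2 with hN
  have hfibre : ∀ u ∈ C, |((F.filter (fun v => f v = u)).card : ℝ) - N| ≤ E := by
    intro u hu
    rw [hC, mem_filter] at hu
    obtain ⟨hu, huT⟩ := hu
    simp only [Cl, mem_filter, mem_product, mem_range] at hu
    obtain ⟨⟨hu1, hu2, hu3⟩, hud⟩ := hu
    obtain ⟨w₁, hw1, hw1'⟩ := crt_Cnt7 P hcop u₁ u.1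
    obtain ⟨w₂, hw2, hw2'⟩ := crt_Cnt7 P hcop u₂ u.2.1
    obtain ⟨w₃, hw3, hw3'⟩ := crt_Cnt7 P hcop u₃ u.2.2
    have hM : 1 ≤ 30 * P := by omega
    have hdv : ((30 * P : ℕ) : ℤ) ∣ a * w₁ + b * w₂ - c * w₃ - d := by
      push_cast
      have h1 : IsCoprime ((30 : ℕ) : ℤ) (P : ℤ) := Nat.isCoprime_iff_coprime.mpr hcop
      apply IsCoprime.mul_dvd (by exact_mod_cast h1)
      · have : (a : ℤ) * w₁ + b * w₂ - c * w₃ - d = (a * (w₁ - u₁) + b * (w₂ - u₂) -
            c * (w₃ - u₃)) + (a * u₁ + b * u₂ - c * u₃ - d) := by ring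
        rw [this]
        exact dvd_add (dvd_sub (dvd_add (hw1.mul_left _) (hw2.mul_left _)) (hw3.mul_left _)) h30
      · have : (a : ℤ) * w₁ + b * w₂ - c * w₃ - d = (a * (w₁ - u.1) + b * (w₂ - u.2.1) -
            c * (w₃ - u.2.2)) + (a * u.1 + b * u.2.1 - c * u.2.2 - d) := by ring
        rw [this]
        exact dvd_add (dvd_sub (dvd_add (hw1'.mul_left _) (hw2'.mul_left _)) (hw3'.mul_left _)) hud
    have hset : F.filter (fun v => f v = u) = (Sol H a b c d).filter (fun v =>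
        ((30 * P : ℕ) : ℤ) ∣ (v.1 : ℤ) - w₁ ∧ ((30 * P : ℕ) : ℤ) ∣ (v.2 : ℤ) - w₂ ∧
        ((30 * P : ℕ) : ℤ) ∣ thd a b c d v - w₃) := by
      ext v
      rw [mem_filter, hF, mem_filter, mem_filter, comb_Cnt7 P hcop _ _ _ _ hw1 hw1',
        comb_Cnt7 P hcop _ _ _ _ hw2 hw2', comb_Cnt7 P hcop _ _ _ _ hw3 hw3']
      have hnat : ∀ x y : ℕ, y < P → (x % P = y ↔ (P : ℤ) ∣ (x : ℤ) - y) := by
        intro x y hy
        constructor
        · intro h
          have : ((y : ℕ) : ℤ) = (x : ℤ) % P := by rw [← h]; push_cast; rfl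
          rw [this]
          have h2 := (Int.mod_modEq (x : ℤ) P).dvd
          exact h2
        · intro h
          have h2 : (y : ℤ) ≡ x [ZMOD P] := Int.modEq_iff_dvd.mpr h
          have h3 : y ≡ x [MOD P] := by exact_mod_cast (Int.natCast_modEq_iff.mp h2)
          have h4 : y % P = x % P := h3
          rw [← h4, Nat.mod_eq_of_lt hy]
      have hint : (thd a b c d v % (P : ℤ)).toNat = u.2.2 ↔
          (P : ℤ) ∣ thd a b c d v - u.2.2 := by
        constructor
        · intro h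
          have h5 : ((u.2.2 : ℕ) : ℤ) = thd a b c d v % P := by
            rw [← h]; exact hmod3 v
          rw [h5]
          exact (Int.mod_modEq (thd a b c d v) P).dvd
        · intro h
          have h2 : ((u.2.2 : ℕ) : ℤ) ≡ thd a b c d v [ZMOD P] := Int.modEq_iff_dvd.mpr h
          have h4 : ((u.2.2 : ℕ) : ℤ) % P = thd a b c d v % P := h2
          rw [← h4, Int.emod_eq_of_lt (by positivity) (by exact_mod_cast hu3)]
          simp
      have hfv : f v = u ↔ ((P : ℤ) ∣ (v.1 : ℤ) - u.1 ∧ (P : ℤ) ∣ (v.2 : ℤ) - u.2.1 ∧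
          (P : ℤ) ∣ thd a b c d v - u.2.2) := by
        rw [← hnat v.1 u.1 hu1, ← hnat v.2 u.2.1 hu2, ← hint]
        constructor
        · intro h
          rw [← h]
          exact ⟨rfl, rfl, rfl⟩
        · rintro ⟨g1, g2, g3⟩
          simp only [f, g1, g2, g3]
      rw [hfv]
      constructor
      · rintro ⟨⟨hv, ⟨k1, k2, k3⟩, _⟩, g1, g2, g3⟩
        exact ⟨hv, ⟨k1, g1⟩, ⟨k2, g2⟩, ⟨k3, g3⟩⟩
      · rintro ⟨hv, ⟨k1, g1⟩, ⟨k2, g2⟩, ⟨k3, g3⟩⟩
        refine ⟨⟨hv, ⟨k1, k2, k3⟩, ?_⟩, g1, g2, g3⟩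
        intro p hp
        have h0 : (p : ℤ) ∣ (u.1 : ℤ) * u.2.1 * u.2.2 := by
          have := Int.natCast_dvd_natCast.mpr (huT p hp)
          push_cast at this
          exact this
        have m1 := Int.modEq_iff_dvd.mpr ((hpd p hp).trans g1)
        have m2 := Int.modEq_iff_dvd.mpr ((hpd p hp).trans g2)
        have m3 := Int.modEq_iff_dvd.mpr ((hpd p hp).trans g3)
        have h4 := dvd_add ((m1.mul m2).mul m3).dvd h0
        rw [sub_add_cancel] at h4
        exact h4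
    rw [hset]
    have hR := ha H a b c (30 * P) d w₁ w₂ w₃ h1a h1b h1c hM hg hdv
    have hNe : (H / a : ℝ) * (H / b : ℝ) / (c * ((30 * P : ℕ) : ℝ) ^ 2) = N := by
      rw [hN]
      push_cast
      rw [mul_pow, div_div]
      congr 1
      norm_num
      ring
    rw [hNe] at hR
    refine hR.trans ?_
    rw [hE]
    have hM1 : (1 : ℝ) ≤ ((30 * P : ℕ) : ℝ) := by exact_mod_cast hM
    have ha0 : (0 : ℝ) < a := by exact_mod_cast h1a
    have hb0 : (0 : ℝ) < b := by exact_mod_cast h1b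
    have hH0 : (0 : ℝ) ≤ H := by positivity
    have g1 : (H : ℝ) / (a * ((30 * P : ℕ) : ℝ)) ≤ (H : ℝ) / a := by
      apply div_le_div_of_nonneg_left hH0 ha0
      nlinarith
    have g2 : (H : ℝ) / (b * ((30 * P : ℕ) : ℝ)) ≤ (H : ℝ) / b := by
      apply div_le_div_of_nonneg_left hH0 hb0
      nlinarith
    linarith
  have hsum : (F.card : ℝ) - C.card * N = ∑ u ∈ C, (((F.filter (fun v => f v = u)).card : ℝ) - N) := by
    rw [Finset.sum_sub_distrib, Finset.sum_const, nsmul_eq_mul, hfib]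
    push_cast
    rfl
  have hmain : (H / a : ℝ) * (H / b : ℝ) / (c * 900) * ∏ p ∈ T, ((kp a b c d p : ℝ) / (p : ℝ) ^ 2) =
      C.card * N := by
    rw [hCcard, hN, Finset.prod_div_distrib, Finset.prod_pow]
    push_cast
    rw [hP]
    push_cast
    ring
  rw [hmain, hsum]
  refine (Finset.abs_sum_le_sum_abs _ _).trans ?_
  refine (Finset.sum_le_sum hfibre).trans ?_
  rw [Finset.sum_const, nsmul_eq_mul]
  have hE0 : 0 ≤ E := by rw [hE]; positivity
  have hCr : (C.card : ℝ) ≤ (P : ℝ) ^ 2 := by exact_mod_cast hCle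
  calc (C.card : ℝ) * E ≤ (P : ℝ) ^ 2 * E := mul_le_mul_of_nonneg_right hCr hE0
    _ = _ := by rw [hE]; ring

end Pool.Agent.Helper48.BK
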