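import Pool.Agent.Helper48.BK.M_Par

/-!
# Project BK, module Cor: second moment of a binary form in terms of correlations
-/

set_option autoImplicit false

namespace Pool.Agent.Helper48.BK

open Finset

lemma rr_fib_Cor (f : ℕ → ℝ) (X : ℕ) (h : ℤ) :
    ∑ v ∈ ((Ioc 0 X) ×ˢ (Ioc 0 X)).filter (fun v : ℕ × ℕ => (v.1 : ℤ) - v.2 = h),
      f v.1 * f v.2 = rr f X h.natAbs := by
  unfold rr
  rcases le_total 0 h with h0 | h0
  · apply Finset.sum_bij' (fun v _ => v.2) (fun n _ => (n + h.natAbs, n))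
    · intro v hv
      simp only [Finset.mem_filter, Finset.mem_product, Finset.mem_Ioc] at hv ⊢
      omega
    · intro n hn
      simp only [Finset.mem_filter, Finset.mem_product, Finset.mem_Ioc] at hn ⊢
      omega
    · intro v hv
      simp only [Finset.mem_filter, Finset.mem_product, Finset.mem_Ioc] at hv
      ext
      · simp only
        omega
      · rfl
    · intro n hn
      rfl
    · intro v hv
      simp only [Finset.mem_filter, Finset.mem_product, Finset.mem_Ioc] at hv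
      have h1 : v.2 + h.natAbs = v.1 := by omega
      rw [h1]
      ring
  · apply Finset.sum_bij' (fun v _ => v.1) (fun n _ => (n, n + h.natAbs))
    · intro v hv
      simp only [Finset.mem_filter, Finset.mem_product, Finset.mem_Ioc] at hv ⊢
      omega
    · intro n hn
      simp only [Finset.mem_filter, Finset.mem_product, Finset.mem_Ioc] at hn ⊢
      omega
    · intro v hv
      simp only [Finset.mem_filter, Finset.mem_product, Finset.mem_Ioc] at hv
      ext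
      · rfl
      · simp only
        omega
    · intro n hn
      rfl
    · intro v hv
      simp only [Finset.mem_filter, Finset.mem_product, Finset.mem_Ioc] at hv
      have h1 : v.1 + h.natAbs = v.2 := by omega
      rw [h1]

lemma rr_fib'_Cor (f : ℕ → ℝ) (X : ℕ) (h : ℤ) :
    ∑ v ∈ (Ioc 0 X) ×ˢ (Ioc 0 X),
      (if (v.1 : ℤ) - v.2 = h then f v.1 * f v.2 else 0) = rr f X h.natAbs := by
  rw [← rr_fib_Cor, Finset.sum_filter]

/-- reordering of the quadruple sum -/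
lemma QQ_eq_Cor (f g : ℕ → ℝ) (X a b : ℕ) (σ : ℤ) :
    QQ f g X a b σ = ∑ v ∈ (Ioc 0 X) ×ˢ (Ioc 0 X), ∑ w ∈ (Ioc 0 X) ×ˢ (Ioc 0 X),
      if (a : ℤ) * ((v.1 : ℤ) - v.2) = σ * b * ((w.1 : ℤ) - w.2) then
        (f v.1 * f v.2) * (g w.1 * g w.2) else 0 := by
  unfold QQ
  rw [Finset.sum_product]
  apply Finset.sum_congr rfl
  intro n _
  rw [Finset.sum_comm]
  apply Finset.sum_congr rfl
  intro n' _
  rw [Finset.sum_product, Finset.sum_comm]
  apply Finset.sum_congr rfl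
  intro m' _
  apply Finset.sum_congr rfl
  intro m _
  have h1 : ((a : ℤ) * n + σ * (b * m) = a * n' + σ * (b * m')) ↔
      ((a : ℤ) * ((n : ℤ) - n') = σ * b * ((m' : ℤ) - m)) := by
    constructor
    · intro h
      linear_combination h
    · intro h
      linear_combination h
  by_cases h2 : (a : ℤ) * ((n : ℤ) - n') = σ * b * ((m' : ℤ) - m)
  · rw [if_pos (h1.2 h2), if_pos h2]
    ring
  · rw [if_neg (fun h => h2 (h1.1 h)), if_neg h2]

lemma QQ_nonneg_Cor (f g : ℕ → ℝ) (X a b : ℕ) (σ : ℤ) : 0 ≤ QQ f g X a b σ := by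
  classical
  have h1 : QQ f g X a b σ = ∑ v ∈ (Ioc 0 X) ×ˢ (Ioc 0 X), ∑ w ∈ (Ioc 0 X) ×ˢ (Ioc 0 X),
      if (fun v : ℕ × ℕ => (a : ℤ) * v.1 + σ * (b * v.2)) v =
        (fun v : ℕ × ℕ => (a : ℤ) * v.1 + σ * (b * v.2)) w then
        (fun v : ℕ × ℕ => f v.1 * g v.2) v * (fun v : ℕ × ℕ => f v.1 * g v.2) w else 0 := by
    unfold QQ
    simp only [Finset.sum_product]
  rw [h1, fib_Par _ _ _ (((Ioc 0 X) ×ˢ (Ioc 0 X)).image
    (fun v : ℕ × ℕ => (a : ℤ) * v.1 + σ * (b * v.2)))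
    (fun v hv => Finset.mem_image_of_mem _ hv)]
  exact Finset.sum_nonneg (fun h _ => sq_nonneg _)

lemma QQ_sum_Cor (f g : ℕ → ℝ) (X a b : ℕ) (σ : ℤ) (ha : 1 ≤ a) (hb : 1 ≤ b)
    (hσ : σ = 1 ∨ σ = -1) :
    QQ f g X a b σ = ∑ k ∈ Icc (-(X : ℤ)) X,
      rr f X (b / Nat.gcd a b * k.natAbs) * rr g X (a / Nat.gcd a b * k.natAbs) := by
  obtain ⟨a', ha'⟩ := Nat.gcd_dvd_left a b
  obtain ⟨b', hb'⟩ := Nat.gcd_dvd_right a b
  have hg : 0 < Nat.gcd a b := Nat.gcd_pos_of_pos_left b ha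
  have hdb : b / Nat.gcd a b = b' := by
    rw [Nat.div_eq_iff_eq_mul_right hg (Nat.gcd_dvd_right a b)]
    exact hb'
  have hda : a / Nat.gcd a b = a' := by
    rw [Nat.div_eq_iff_eq_mul_right hg (Nat.gcd_dvd_left a b)]
    exact ha'
  have hcop : Nat.Coprime a' b' := by
    have h := Nat.coprime_div_gcd_div_gcd hg
    rw [hda, hdb] at h
    exact h
  have ha'0 : 1 ≤ a' := by
    rcases Nat.eq_zero_or_pos a' with h | h
    · rw [h, mul_zero] at ha'
      omega
    · exact h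
  have hb'0 : 1 ≤ b' := by
    rcases Nat.eq_zero_or_pos b' with h | h
    · rw [h, mul_zero] at hb'
      omega
    · exact h
  rw [hdb, hda]
  have hσ2 : σ * σ = 1 := by
    rcases hσ with h | h <;> rw [h] <;> norm_num
  have hσa : ∀ k : ℤ, (σ * a' * k).natAbs = a' * k.natAbs := by
    intro k
    rw [Int.natAbs_mul, Int.natAbs_mul, Int.natAbs_natCast]
    rcases hσ with h | h <;> rw [h] <;> simp
  have hbk : ∀ k : ℤ, ((b' : ℤ) * k).natAbs = b' * k.natAbs := by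
    intro k
    rw [Int.natAbs_mul, Int.natAbs_natCast]
  have hR : ∀ k ∈ Icc (-(X : ℤ)) X, rr f X (b' * k.natAbs) * rr g X (a' * k.natAbs) =
      ∑ v ∈ (Ioc 0 X) ×ˢ (Ioc 0 X), ∑ w ∈ (Ioc 0 X) ×ˢ (Ioc 0 X),
        (if (v.1 : ℤ) - v.2 = b' * k then f v.1 * f v.2 else 0) *
        (if (w.1 : ℤ) - w.2 = σ * a' * k then g w.1 * g w.2 else 0) := by
    intro k _
    rw [← hσa, ← hbk, ← rr_fib'_Cor f, ← rr_fib'_Cor g, Finset.sum_mul_sum]
  rw [Finset.sum_congr rfl hR, QQ_eq_Cor, Finset.sum_comm (s := Icc (-(X : ℤ)) X)]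
  apply Finset.sum_congr rfl
  intro v hv
  rw [Finset.sum_comm (s := Icc (-(X : ℤ)) X)]
  apply Finset.sum_congr rfl
  intro w hw
  simp only [Finset.mem_product, Finset.mem_Ioc] at hv hw
  have hgz : ((Nat.gcd a b : ℕ) : ℤ) ≠ 0 := by exact_mod_cast hg.ne'
  have haz : (a : ℤ) = (Nat.gcd a b : ℕ) * a' := by exact_mod_cast ha'
  have hbz : (b : ℤ) = (Nat.gcd a b : ℕ) * b' := by exact_mod_cast hb'
  have hb'z : (b' : ℤ) ≠ 0 := by
    have : b' ≠ 0 := by omega
    exact_mod_cast this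
  have key : ∀ k : ℤ, (v.1 : ℤ) - v.2 = b' * k → ((w.1 : ℤ) - w.2 = σ * a' * k ↔
      (a : ℤ) * ((v.1 : ℤ) - v.2) = σ * b * ((w.1 : ℤ) - w.2)) := by
    intro k hk
    constructor
    · intro h
      rw [hk, h, haz, hbz]
      linear_combination (-((Nat.gcd a b : ℕ) : ℤ) * a' * b' * k) * hσ2
    · intro h
      rw [hk, haz, hbz] at h
      have h2 : ((Nat.gcd a b : ℕ) : ℤ) * b' * ((w.1 : ℤ) - w.2) =
          ((Nat.gcd a b : ℕ) : ℤ) * b' * (σ * a' * k) := by
        linear_combination (-σ) * h +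
          (-((Nat.gcd a b : ℕ) : ℤ) * b' * ((w.1 : ℤ) - w.2)) * hσ2
      exact mul_left_cancel₀ (mul_ne_zero hgz hb'z) h2
  by_cases hE : (a : ℤ) * ((v.1 : ℤ) - v.2) = σ * b * ((w.1 : ℤ) - w.2)
  · rw [if_pos hE]
    have hdvd : (b' : ℤ) ∣ (v.1 : ℤ) - v.2 := by
      have h1 : (a' : ℤ) * ((v.1 : ℤ) - v.2) = b' * (σ * ((w.1 : ℤ) - w.2)) := by
        rw [haz, hbz] at hE
        apply mul_left_cancel₀ hgz
        linear_combination hE
      have h2 : (b' : ℤ) ∣ (a' : ℤ) * ((v.1 : ℤ) - v.2) := ⟨_, h1⟩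
      have h3 : IsCoprime (b' : ℤ) (a' : ℤ) := by
        exact_mod_cast Nat.isCoprime_iff_coprime.2 hcop.symm
      exact h3.dvd_of_dvd_mul_left h2
    obtain ⟨k, hk⟩ := hdvd
    have hkX : k ∈ Icc (-(X : ℤ)) X := by
      rw [Finset.mem_Icc, ← abs_le]
      have h1 : |(v.1 : ℤ) - v.2| ≤ X := by
        rw [abs_le]
        omega
      rw [hk, abs_mul, Nat.abs_cast] at h1
      have h2 : (1 : ℤ) ≤ b' := by exact_mod_cast hb'0
      nlinarith [abs_nonneg k]
    rw [Finset.sum_eq_single_of_mem k hkX]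
    · rw [if_pos hk, if_pos ((key k hk).2 hE)]
    · intro k2 _ hne
      rw [if_neg, zero_mul]
      intro h
      apply hne
      rw [hk] at h
      exact (mul_left_cancel₀ hb'z h).symm
  · rw [if_neg hE]
    symm
    apply Finset.sum_eq_zero
    intro k _
    by_cases hk : (v.1 : ℤ) - v.2 = b' * k
    · rw [if_neg (fun h => hE ((key k hk).1 h)), mul_zero]
    · rw [if_neg hk, zero_mul]

theorem hCor : StCor := by
  intro f g X a b σ ha hb hσ
  refine ⟨QQ_nonneg_Cor f g X a b σ, ?_⟩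
  rw [QQ_sum_Cor f g X a b σ ha hb hσ,
    natAbs_sum_Par (fun k => rr f X (b / Nat.gcd a b * k) * rr g X (a / Nat.gcd a b * k)) X]
  simp only [mul_zero]
  have h1 : ∑ k ∈ Icc 1 X, rr f X (b / Nat.gcd a b * k) * rr g X (a / Nat.gcd a b * k) ≤
      ∑ k ∈ Icc 1 X, |rr f X (b / Nat.gcd a b * k)| * |rr g X (a / Nat.gcd a b * k)| := by
    apply Finset.sum_le_sum
    intro k _
    rw [← abs_mul]
    exact le_abs_self _
  linarith

end Pool.Agent.Helper48.BK
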