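import Pool.Agent.Helper48.BK.StD

set_option autoImplicit false

namespace Pool.Agent.Helper48.BK

open Finset ArithmeticFunction Filter

theorem Sx_sub_Dav (f g : ℕ → ℝ) (y : ℕ) (α : ℝ) :
    Sx (fun n => f n - g n) y α = Sx f y α - Sx g y α := by
  unfold Sx
  rw [← Finset.sum_sub_distrib]
  refine Finset.sum_congr rfl fun n _ => ?_
  push_cast; ring

theorem norm_ex_Dav (t : ℝ) : ‖ex t‖ = 1 := by
  unfold ex
  have : (2 * Real.pi * t * Complex.I : ℂ) = ((2 * Real.pi * t : ℝ) : ℂ) * Complex.I := by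
    push_cast; ring
  rw [this, Complex.norm_exp_ofReal_mul_I]

theorem Sx_le_Dav (f : ℕ → ℝ) (hf : ∀ n, 0 ≤ f n) (y : ℕ) (α : ℝ) :
    ‖Sx f y α‖ ≤ ∑ n ∈ Ioc 0 y, f n := by
  unfold Sx
  refine (norm_sum_le _ _).trans (Finset.sum_le_sum fun n _ => ?_)
  rw [norm_mul, norm_ex_Dav, mul_one, Complex.norm_real, Real.norm_of_nonneg (hf n)]

/-- for large `x` the logarithm is large and its powers are small compared with `√x` -/
theorem ev_Dav (K : ℝ) (n : ℕ) : ∃ x₀ : ℕ, ∀ x : ℕ, x₀ ≤ x → K ≤ Real.log x ∧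
    Real.log x ^ n ≤ √(x : ℝ) := by
  have h1 : Tendsto (fun x : ℕ => Real.log (x : ℝ)) atTop atTop :=
    Real.tendsto_log_atTop.comp tendsto_natCast_atTop_atTop
  have h2 : ∀ᶠ x : ℝ in atTop, ‖Real.log x ^ n‖ ≤ 1 * ‖√x‖ := by
    have h := (Real.isLittleO_pow_log_id_atTop (n := 2 * n)).bound (c := 1) (by norm_num)
    filter_upwards [h, eventually_ge_atTop 1] with x hx hx1
    have hl : 0 ≤ Real.log x := Real.log_nonneg hx1
    rw [Real.norm_of_nonneg (by positivity), Real.norm_of_nonneg (Real.sqrt_nonneg _), one_mul]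
    rw [id, Real.norm_of_nonneg (by positivity), Real.norm_of_nonneg (by linarith), one_mul] at hx
    apply Real.le_sqrt_of_sq_le
    rw [← pow_mul, mul_comm]; exact hx
  have h3 := (h1.eventually_ge_atTop K).and (tendsto_natCast_atTop_atTop.eventually h2)
  obtain ⟨x₀, hx₀⟩ := eventually_atTop.1 h3
  refine ⟨max x₀ 1, fun x hx => ?_⟩
  obtain ⟨a, b⟩ := hx₀ x ((le_max_left _ _).trans hx)
  have hx1 : (1 : ℝ) ≤ x := by exact_mod_cast (le_max_right x₀ 1).trans hx
  have hl : 0 ≤ Real.log (x : ℝ) := Real.log_nonneg hx1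
  rw [Real.norm_of_nonneg (by positivity), Real.norm_of_nonneg (Real.sqrt_nonneg _), one_mul] at b
  exact ⟨a, b⟩

theorem hDav (ha : StVau) (hb : StMinZ) (hc : StAPZ) (hd : StSW) (he : StPS) (hf : StTh) :
    StDav := by
  intro A
  obtain ⟨C₁, hC₁, hVau⟩ := ha
  obtain ⟨hth, C₂, hC₂, hTh⟩ := hf
  set B : ℕ := 2 * A + 20 with hB
  obtain ⟨xb, C₃, hC₃, hMin⟩ := hb (A + 1) (B + 1)
  obtain ⟨xc, hAPZ⟩ := hc (A + 2 * B + 1) (B + 1)
  obtain ⟨xd, hSW⟩ := hd (A + 2 * B + 1) B
  obtain ⟨x₁, hx₁⟩ := ev_Dav (max 18 (5 * C₁ + C₂ + 3 * C₃ + 1)) (2 * B)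
  refine ⟨B, max (max xb xc) (max xd (max x₁ 3)), fun x z hx hz1 hz2 α y hy => ?_⟩
  have hxb : xb ≤ x := by omega
  have hxc : xc ≤ x := by omega
  have hxd : xd ≤ x := by omega
  have hx3 : 3 ≤ x := by omega
  obtain ⟨hL0, hLx⟩ := hx₁ x (by omega)
  set L : ℝ := Real.log x with hL
  have hL16 : 18 ≤ L := (le_max_left _ _).trans hL0
  have hLC : 5 * C₁ + C₂ + 3 * C₃ + 1 ≤ L := (le_max_right _ _).trans hL0
  have hL1 : 1 ≤ L := by linarith
  have hLpos : 0 < L := by linarith
  have hxr : (3 : ℝ) ≤ x := by exact_mod_cast hx3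
  have hx0 : (0 : ℝ) < x := by linarith
  have hsx : √(x : ℝ) * √(x : ℝ) = x := Real.mul_self_sqrt hx0.le
  have hsx1 : 1 ≤ √(x : ℝ) := Real.one_le_sqrt.2 (by linarith)
  have hpow : ∀ i j : ℕ, i ≤ j → L ^ i ≤ L ^ j := fun i j h => pow_le_pow_right₀ hL1 h
  have hLB : L ^ B ≤ x := by
    have h1 : L ^ B ≤ √(x : ℝ) := (hpow B (2 * B) (by omega)).trans hLx
    nlinarith
  have hz2' : 2 ≤ z := by
    have h1 : (16 : ℝ) ≤ L ^ B := by
      calc (16 : ℝ) ≤ L := by linarith
        _ = L ^ 1 := (pow_one L).symm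
        _ ≤ L ^ B := hpow 1 B (by omega)
    have h2 : (2 : ℝ) ≤ z := by linarith
    exact_mod_cast h2
  -- Dirichlet approximation
  set Q : ℕ := ⌊(x : ℝ) / L ^ B⌋₊ with hQ
  have hQ1 : 0 < Q := Nat.floor_pos.2 ((one_le_div (by positivity)).2 hLB)
  have hQle : (Q : ℝ) ≤ (x : ℝ) / L ^ B := Nat.floor_le (by positivity)
  have hQlt : (x : ℝ) / L ^ B < Q + 1 := Nat.lt_floor_add_one _
  obtain ⟨r, hr1, hr2⟩ := Real.exists_rat_abs_sub_le_and_den_le α hQ1
  set q : ℕ := r.den with hq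
  set h : ℤ := r.num with hh
  have hq1 : 1 ≤ q := r.den_pos
  have hq0 : (0 : ℝ) < q := by exact_mod_cast hq1
  have hrq : (r : ℝ) = (h : ℝ) / q := by
    rw [hh, hq]
    exact (Rat.cast_def r)
  rw [hrq] at hr1
  have hqQ : (q : ℝ) ≤ (x : ℝ) / L ^ B := by
    have : (q : ℝ) ≤ Q := by exact_mod_cast hr2
    linarith
  have hqx : q ≤ x := by
    have h1 : (x : ℝ) / L ^ B ≤ x := div_le_self hx0.le (one_le_pow₀ hL1)
    have : (q : ℝ) ≤ x := by linarith
    exact_mod_cast this
  have hcop : IsCoprime h (q : ℤ) := by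
    rw [Int.isCoprime_iff_nat_coprime]
    exact r.reduced
  have hApx : Apx α h q := by
    refine ⟨hq1, hcop, hr1.trans ?_⟩
    rw [div_le_div_iff₀ (by positivity) (by positivity), one_mul, one_mul, pow_two]
    apply mul_le_mul_of_nonneg_right _ hq0.le
    have : (q : ℝ) ≤ Q := by exact_mod_cast hr2
    linarith
  by_cases hmaj : (q : ℝ) ≤ L ^ B
  · -- major arcs
    set β : ℝ := α - h / q with hβ
    have hαβ : α = h / q + β := by rw [hβ]; ring
    have hβx : |β| * x ≤ L ^ B := by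
      have h1 : |β| ≤ 1 / ((Q : ℝ) + 1) := by
        refine hr1.trans ?_
        apply div_le_div_of_nonneg_left (by norm_num) (by positivity)
        have : (1 : ℝ) ≤ q := by exact_mod_cast hq1
        nlinarith [(Nat.cast_nonneg Q : (0 : ℝ) ≤ Q)]
      calc |β| * x ≤ 1 / ((Q : ℝ) + 1) * x := mul_le_mul_of_nonneg_right h1 hx0.le
        _ ≤ L ^ B := by
          rw [one_div_mul_eq_div, div_le_iff₀ (by positivity)]
          rw [div_lt_iff₀ (by positivity)] at hQlt
          linarith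
    set R : ℝ := 2 * (x / L ^ (A + 2 * B + 1)) with hR
    have hR0 : 0 ≤ R := by positivity
    have hqz : q ≤ z := by
      have : (q : ℝ) ≤ z := hmaj.trans hz1
      exact_mod_cast this
    have hbd : ∀ y ≤ x, ∀ u < q,
        |∑ n ∈ (Ioc 0 y).filter (fun n => n ≡ u [MOD q]), (th n - lz z n)| ≤ R := by
      intro y hy u _
      have h1 := hSW x y q u hxd hy hq1 hmaj
      have h2 := hAPZ x y z q u hxc hy hz2' hz2 hq1 hqz
      rw [Finset.sum_sub_distrib]
      rw [hR]
      rw [abs_le] at h1 h2 ⊢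
      constructor <;> linarith [h1.1, h1.2, h2.1, h2.2]
    have h1 := he (fun n => th n - lz z n) x q h β R hq1 hbd y hy
    rw [← hαβ] at h1
    refine h1.trans ?_
    have hpi : Real.pi ≤ 4 := Real.pi_le_four
    have h2 : 1 + 2 * Real.pi * |β| * x ≤ 9 * L ^ B := by
      have e : 2 * Real.pi * |β| * x = 2 * Real.pi * (|β| * x) := by ring
      rw [e]
      have h3 : 2 * Real.pi * (|β| * x) ≤ 8 * L ^ B := by
        apply mul_le_mul (by linarith) hβx (by positivity) (by norm_num)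
      have h4 : 1 ≤ L ^ B := one_le_pow₀ hL1
      linarith
    calc (q : ℝ) * R * (1 + 2 * Real.pi * |β| * x) ≤ L ^ B * R * (9 * L ^ B) := by
          apply mul_le_mul _ h2 (by positivity) (by positivity)
          exact mul_le_mul_of_nonneg_right hmaj hR0
      _ = 18 * (x / L ^ (A + 2 * B + 1)) * (L ^ B * L ^ B) := by rw [hR]; ring
      _ = 18 / L * (x / L ^ A) := by
          rw [show A + 2 * B + 1 = A + (B + B) + 1 by ring, pow_succ, pow_add L A, pow_add L B]
          field_simp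
      _ ≤ x / L ^ A := by
          have h4 : 18 / L ≤ 1 := (div_le_one hLpos).2 hL16
          have h5 : 0 ≤ x / L ^ A := by positivity
          nlinarith
  · -- minor arcs
    push Not at hmaj
    have hsq : L ^ (A + 10) ≤ √(q : ℝ) := by
      apply Real.le_sqrt_of_sq_le
      rw [← pow_mul]
      refine le_trans (le_of_eq ?_) hmaj.le
      rw [hB]; ring_nf
    have hT1 : x / √(q : ℝ) ≤ x / L ^ (A + 10) :=
      div_le_div_of_nonneg_left hx0.le (by positivity) hsq
    set U : ℕ := ⌊L ^ B⌋₊ with hU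
    have hU1 : 1 ≤ U := Nat.le_floor (by simpa using one_le_pow₀ hL1)
    have hUle : (U : ℝ) ≤ L ^ B := Nat.floor_le (by positivity)
    have hUge : L ^ B ≤ 4 * U := by
      have h1 := Nat.lt_floor_add_one (L ^ B)
      have h2 : (1 : ℝ) ≤ U := by exact_mod_cast hU1
      linarith
    have hsU : L ^ (A + 10) ≤ 2 * √(U : ℝ) := by
      have h1 : √(L ^ B) ≤ √(4 * U) := Real.sqrt_le_sqrt hUge
      rw [Real.sqrt_mul (by norm_num), show √(4 : ℝ) = 2 by
        rw [show (4 : ℝ) = 2 ^ 2 by norm_num]; exact Real.sqrt_sq (by norm_num)] at h1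
      have h2 : √(L ^ B) = L ^ (A + 10) := by
        rw [show B = (A + 10) * 2 by rw [hB]; ring, pow_mul]
        exact Real.sqrt_sq (by positivity)
      rwa [h2] at h1
    have hsU0 : 0 < √(U : ℝ) := Real.sqrt_pos.2 (by exact_mod_cast hU1)
    have hT2 : x / √(U : ℝ) ≤ 2 * (x / L ^ (A + 10)) := by
      rw [← mul_div_assoc, div_le_div_iff₀ hsU0 (by positivity)]
      nlinarith
    have hT3 : √((x : ℝ) * q) ≤ x / L ^ (A + 10) := by
      rw [Real.sqrt_le_left (by positivity), div_pow, ← pow_mul,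
        show (A + 10) * 2 = B by rw [hB]; ring, pow_two, mul_div_assoc]
      exact mul_le_mul_of_nonneg_left hqQ hx0.le
    have hU2 : (U : ℝ) ^ 2 ≤ √(x : ℝ) := by
      calc (U : ℝ) ^ 2 ≤ (L ^ B) ^ 2 := by gcongr
        _ = L ^ (2 * B) := by rw [← pow_mul, mul_comm]
        _ ≤ _ := hLx
    have hsxL : ∀ i : ℕ, i ≤ 2 * B → √(x : ℝ) ≤ x / L ^ i := by
      intro i hi
      rw [le_div_iff₀ (by positivity)]
      calc √(x : ℝ) * L ^ i ≤ √(x : ℝ) * √(x : ℝ) := by
            apply mul_le_mul_of_nonneg_left _ (by positivity)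
            exact (hpow i (2 * B) hi).trans hLx
        _ = x := hsx
    have hU2x : U ^ 2 ≤ x := by
      have : (U : ℝ) ^ 2 ≤ x := hU2.trans (by nlinarith)
      exact_mod_cast this
    have hT4 : (U : ℝ) ^ 2 ≤ x / L ^ (A + 10) := hU2.trans (hsxL _ (by omega))
    have h1 := hVau x y U q h α hx3 hy hU1 hU2x hqx hApx
    have h2 := hMin x y z q h α hxb hy hz2' hz2 hqx hApx
    -- the sum over primes
    have h3 : ‖Sx th y α‖ ≤ ‖Sx (fun n => Λ n) y α‖ + C₂ * √x * L ^ 2 := by
      have e : Sx th y α = Sx (fun n => Λ n) y α - Sx (fun n => Λ n - th n) y α := by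
        rw [Sx_sub_Dav]; ring
      rw [e]
      refine (norm_sub_le _ _).trans ?_
      have h4 : ‖Sx (fun n => Λ n - th n) y α‖ ≤ C₂ * √x * L ^ 2 := by
        refine (Sx_le_Dav _ (fun n => by linarith [(hth n).2.1]) y α).trans ?_
        refine le_trans ?_ (hTh x hx3)
        apply Finset.sum_le_sum_of_subset_of_nonneg
        · exact Finset.Ioc_subset_Ioc_right hy
        · intro n _ _; linarith [(hth n).2.1]
      linarith
    have h5 : ‖Sx (fun n => Λ n) y α‖ ≤ 5 * C₁ * (x / L ^ (A + 4)) := by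
      refine h1.trans ?_
      calc C₁ * ((x : ℝ) / √q + x / √U + √((x : ℝ) * q) + (U : ℝ) ^ 2) * L ^ 6
          ≤ C₁ * (5 * (x / L ^ (A + 10))) * L ^ 6 := by
            apply mul_le_mul_of_nonneg_right _ (by positivity)
            apply mul_le_mul_of_nonneg_left _ hC₁.le
            linarith
        _ = 5 * C₁ * (x / L ^ (A + 4)) := by
            rw [show A + 10 = (A + 4) + 6 by ring, pow_add L (A + 4) 6]
            field_simp
    have h6 : C₂ * √x * L ^ 2 ≤ C₂ * (x / L ^ (A + 1)) := by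
      have h7 := hsxL (A + 3) (by omega)
      calc C₂ * √x * L ^ 2 ≤ C₂ * (x / L ^ (A + 3)) * L ^ 2 := by
            apply mul_le_mul_of_nonneg_right _ (by positivity)
            exact mul_le_mul_of_nonneg_left h7 hC₂.le
        _ = C₂ * (x / L ^ (A + 1)) := by
            rw [show A + 3 = (A + 1) + 2 by ring, pow_add L (A + 1) 2]
            field_simp
    have hq3 : (x : ℝ) / q ≤ x / L ^ (A + 10) := by
      apply div_le_div_of_nonneg_left hx0.le (by positivity)
      exact (hpow _ _ (by omega)).trans hmaj.le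
    have hq4 : (q : ℝ) ≤ x / L ^ (A + 10) := by
      refine hqQ.trans ?_
      apply div_le_div_of_nonneg_left hx0.le (by positivity)
      exact hpow _ _ (by omega)
    have h8 : ‖Sx (lz z) y α‖ ≤ 3 * C₃ * (x / L ^ (A + 7)) + x / L ^ (A + 1) := by
      refine h2.trans ?_
      have : C₃ * ((x : ℝ) / q + √x + q) * L ^ 3 ≤ 3 * C₃ * (x / L ^ (A + 7)) := by
        calc C₃ * ((x : ℝ) / q + √x + q) * L ^ 3 ≤ C₃ * (3 * (x / L ^ (A + 10))) * L ^ 3 := by
              apply mul_le_mul_of_nonneg_right _ (by positivity)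
              apply mul_le_mul_of_nonneg_left _ hC₃.le
              have := hsxL (A + 10) (by omega)
              linarith
          _ = 3 * C₃ * (x / L ^ (A + 7)) := by
              rw [show A + 10 = (A + 7) + 3 by ring, pow_add L (A + 7) 3]
              field_simp
      linarith
    have hmono : ∀ i : ℕ, x / L ^ (A + 1 + i) ≤ x / L ^ (A + 1) := fun i => by
      apply div_le_div_of_nonneg_left hx0.le (by positivity)
      exact hpow _ _ (by omega)
    have m4 := hmono 3
    have m7 := hmono 6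
    rw [show A + 1 + 3 = A + 4 by ring] at m4
    rw [show A + 1 + 6 = A + 7 by ring] at m7
    have hfin : ‖Sx (fun n => th n - lz z n) y α‖ ≤
        (5 * C₁ + C₂ + 3 * C₃ + 1) * (x / L ^ (A + 1)) := by
      rw [Sx_sub_Dav]
      refine (norm_sub_le _ _).trans ?_
      have i1 := mul_le_mul_of_nonneg_left m4 (by positivity : (0 : ℝ) ≤ 5 * C₁)
      have i2 := mul_le_mul_of_nonneg_left m7 (by positivity : (0 : ℝ) ≤ 3 * C₃)
      linarith
    refine hfin.trans ?_
    calc (5 * C₁ + C₂ + 3 * C₃ + 1) * (x / L ^ (A + 1)) ≤ L * (x / L ^ (A + 1)) := by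
          apply mul_le_mul_of_nonneg_right hLC; positivity
      _ = x / L ^ A := by
          rw [pow_succ]; field_simp

end Pool.Agent.Helper48.BK
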