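import Pool.Agent.Helper48.BK.StB

/-!
# Project BK, module Div: moments of the divisor function
-/

set_option autoImplicit false

namespace Pool.Agent.Helper48.BK

open Finset

theorem harm_Div (X : ℕ) : ∑ u ∈ Icc 1 X, (1 : ℝ) / u ≤ 1 + Real.log X := by
  have h := harmonic_le_one_add_log X
  rw [harmonic_eq_sum_Icc] at h
  push_cast at h
  simpa only [one_div] using h

theorem card_mult_Div (X u : ℕ) : ((Icc 1 X).filter fun h => u ∣ h).card = X / u := by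
  have h1 : (Icc 1 X : Finset ℕ) = Ioc 0 X := by
    ext x; simp [Nat.succ_le_iff]
  rw [h1, Nat.Ioc_filter_dvd_card_eq_div]

theorem div_eq_sum_Div {X h : ℕ} (hh : h ∈ Icc 1 X) :
    (h.divisors.card : ℝ) = ∑ u ∈ Icc 1 X, if u ∣ h then (1 : ℝ) else 0 := by
  obtain ⟨h1, h2⟩ := mem_Icc.1 hh
  rw [← sum_filter, sum_const, nsmul_eq_mul, mul_one]
  congr 2
  ext u
  rw [Nat.mem_divisors, mem_filter, mem_Icc]
  constructor
  · rintro ⟨hu, -⟩
    exact ⟨⟨Nat.pos_of_dvd_of_pos hu (by omega), (Nat.le_of_dvd (by omega) hu).trans h2⟩, hu⟩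
  · rintro ⟨-, hu⟩
    exact ⟨hu, by omega⟩

theorem gcd_sum_Div (X : ℕ) : ∑ u ∈ Icc 1 X, ∑ v ∈ Icc 1 X, (Nat.gcd u v : ℝ) / (u * v) ≤
    (1 + Real.log X) ^ 3 := by
  set F : ℕ × ℕ × ℕ → ℝ := fun x => 1 / (x.1 : ℝ) * (1 / (x.2.1 : ℝ) * (1 / (x.2.2 : ℝ))) with hF
  have h1 : ∑ u ∈ Icc 1 X, ∑ v ∈ Icc 1 X, (Nat.gcd u v : ℝ) / (u * v) =
      ∑ x ∈ Icc 1 X ×ˢ Icc 1 X,
        F (Nat.gcd x.1 x.2, x.1 / Nat.gcd x.1 x.2, x.2 / Nat.gcd x.1 x.2) := by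
    rw [sum_product]
    refine sum_congr rfl fun u hu => sum_congr rfl fun v hv => ?_
    have hu1 := (mem_Icc.1 hu).1
    have hv1 := (mem_Icc.1 hv).1
    have hg : (Nat.gcd u v : ℝ) ≠ 0 := by
      have := Nat.gcd_pos_of_pos_left v (show 0 < u by omega)
      exact_mod_cast this.ne'
    have e1 : (u : ℝ) = Nat.gcd u v * (u / Nat.gcd u v : ℕ) := by
      exact_mod_cast (Nat.mul_div_cancel' (Nat.gcd_dvd_left u v)).symm
    have e2 : (v : ℝ) = Nat.gcd u v * (v / Nat.gcd u v : ℕ) := by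
      exact_mod_cast (Nat.mul_div_cancel' (Nat.gcd_dvd_right u v)).symm
    have hu0 : ((u / Nat.gcd u v : ℕ) : ℝ) ≠ 0 := by
      intro h
      rw [h, mul_zero] at e1
      exact (show (u : ℝ) ≠ 0 by exact_mod_cast (show u ≠ 0 by omega)) e1
    have hv0 : ((v / Nat.gcd u v : ℕ) : ℝ) ≠ 0 := by
      intro h
      rw [h, mul_zero] at e2
      exact (show (v : ℝ) ≠ 0 by exact_mod_cast (show v ≠ 0 by omega)) e2
    have key : ∀ g x y : ℝ, g ≠ 0 → x ≠ 0 → y ≠ 0 →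
        g / (g * x * (g * y)) = 1 / g * (1 / x * (1 / y)) := by
      intro g x y hg hx hy
      field_simp
    calc (Nat.gcd u v : ℝ) / (u * v) = (Nat.gcd u v : ℝ) /
          (Nat.gcd u v * (u / Nat.gcd u v : ℕ) * (Nat.gcd u v * (v / Nat.gcd u v : ℕ))) := by
          rw [← e1, ← e2]
      _ = _ := key _ _ _ hg hu0 hv0
  have hinj : Set.InjOn (fun x : ℕ × ℕ =>
      (Nat.gcd x.1 x.2, x.1 / Nat.gcd x.1 x.2, x.2 / Nat.gcd x.1 x.2))
      ((Icc 1 X ×ˢ Icc 1 X : Finset (ℕ × ℕ)) : Set (ℕ × ℕ)) := by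
    rintro ⟨u, v⟩ _ ⟨u', v'⟩ _ h
    simp only [Prod.mk.injEq] at h
    obtain ⟨e0, e1, e2⟩ := h
    have a1 := Nat.mul_div_cancel' (Nat.gcd_dvd_left u v)
    have a2 := Nat.mul_div_cancel' (Nat.gcd_dvd_left u' v')
    have b1 := Nat.mul_div_cancel' (Nat.gcd_dvd_right u v)
    have b2 := Nat.mul_div_cancel' (Nat.gcd_dvd_right u' v')
    rw [e1, e0] at a1
    rw [e2, e0] at b1
    exact Prod.ext (a1.symm.trans a2) (b1.symm.trans b2)
  have h2 : ∑ x ∈ Icc 1 X ×ˢ Icc 1 X,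
      F (Nat.gcd x.1 x.2, x.1 / Nat.gcd x.1 x.2, x.2 / Nat.gcd x.1 x.2) ≤
      ∑ x ∈ Icc 1 X ×ˢ Icc 1 X ×ˢ Icc 1 X, F x := by
    rw [← sum_image (f := F) hinj]
    refine sum_le_sum_of_subset_of_nonneg (fun x hx => ?_) fun x _ _ => by positivity
    obtain ⟨⟨u, v⟩, huv, rfl⟩ := mem_image.1 hx
    obtain ⟨hu, hv⟩ := mem_product.1 huv
    obtain ⟨hu1, hu2⟩ := mem_Icc.1 hu
    obtain ⟨hv1, hv2⟩ := mem_Icc.1 hv
    have hg := Nat.gcd_pos_of_pos_left v (show 0 < u by exact hu1)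
    refine mem_product.2 ⟨mem_Icc.2 ⟨hg, (Nat.gcd_le_left v hu1).trans hu2⟩, mem_product.2
      ⟨mem_Icc.2 ⟨Nat.div_pos (Nat.gcd_le_left v hu1) hg, (Nat.div_le_self _ _).trans hu2⟩,
        mem_Icc.2 ⟨Nat.div_pos (Nat.gcd_le_right u hv1) hg, (Nat.div_le_self _ _).trans hv2⟩⟩⟩
  have h3 : ∑ x ∈ Icc 1 X ×ˢ Icc 1 X ×ˢ Icc 1 X, F x =
      (∑ u ∈ Icc 1 X, (1 : ℝ) / u) ^ 3 := by
    rw [sum_product]
    simp only [sum_product, hF]
    have : (∑ u ∈ Icc 1 X, (1 : ℝ) / u) ^ 3 = (∑ u ∈ Icc 1 X, (1 : ℝ) / u) *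
        ((∑ u ∈ Icc 1 X, (1 : ℝ) / u) * (∑ u ∈ Icc 1 X, (1 : ℝ) / u)) := by ring
    rw [this, sum_mul_sum, sum_mul]
    refine sum_congr rfl fun x _ => ?_
    rw [mul_sum]
    exact sum_congr rfl fun y _ => by rw [mul_sum]
  rw [h1]
  refine h2.trans ?_
  rw [h3]
  exact pow_le_pow_left₀ (sum_nonneg fun _ _ => by positivity) (harm_Div X) 3

theorem hDiv : StDiv := by
  intro X hX
  have hX0 : (0 : ℝ) < X := by exact_mod_cast hX
  constructor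
  · have h1 : ∑ h ∈ Icc 1 X, (h.divisors.card : ℝ) = ∑ u ∈ Icc 1 X, ((X / u : ℕ) : ℝ) := by
      rw [sum_congr rfl fun h hh => div_eq_sum_Div hh, sum_comm]
      refine sum_congr rfl fun u _ => ?_
      rw [← sum_filter, sum_const, nsmul_eq_mul, mul_one, card_mult_Div]
    rw [h1]
    calc ∑ u ∈ Icc 1 X, ((X / u : ℕ) : ℝ) ≤ ∑ u ∈ Icc 1 X, (X : ℝ) * (1 / u) := by
          refine sum_le_sum fun u _ => ?_
          rw [mul_one_div]
          exact Nat.cast_div_le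
      _ = X * ∑ u ∈ Icc 1 X, (1 : ℝ) / u := by rw [mul_sum]
      _ ≤ _ := mul_le_mul_of_nonneg_left (harm_Div X) hX0.le
  · have h1 : ∑ h ∈ Icc 1 X, (h.divisors.card : ℝ) ^ 2 =
        ∑ u ∈ Icc 1 X, ∑ v ∈ Icc 1 X, ((X / Nat.lcm u v : ℕ) : ℝ) := by
      have h2 : ∀ h ∈ Icc 1 X, (h.divisors.card : ℝ) ^ 2 =
          ∑ u ∈ Icc 1 X, ∑ v ∈ Icc 1 X, if Nat.lcm u v ∣ h then (1 : ℝ) else 0 := by
        intro h hh
        rw [pow_two, div_eq_sum_Div hh, sum_mul_sum]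
        refine sum_congr rfl fun u _ => sum_congr rfl fun v _ => ?_
        by_cases hu : u ∣ h <;> by_cases hv : v ∣ h <;> simp [Nat.lcm_dvd_iff, hu, hv]
      rw [sum_congr rfl h2, sum_comm]
      refine sum_congr rfl fun u _ => ?_
      rw [sum_comm]
      refine sum_congr rfl fun v _ => ?_
      rw [← sum_filter, sum_const, nsmul_eq_mul, mul_one, card_mult_Div]
    rw [h1]
    calc ∑ u ∈ Icc 1 X, ∑ v ∈ Icc 1 X, ((X / Nat.lcm u v : ℕ) : ℝ)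
        ≤ ∑ u ∈ Icc 1 X, ∑ v ∈ Icc 1 X, (X : ℝ) * ((Nat.gcd u v : ℝ) / (u * v)) := by
          refine sum_le_sum fun u hu => sum_le_sum fun v hv => ?_
          have hu1 := (mem_Icc.1 hu).1
          have hv1 := (mem_Icc.1 hv).1
          refine Nat.cast_div_le.trans (le_of_eq ?_)
          have e : (Nat.gcd u v : ℝ) * Nat.lcm u v = u * v := by
            exact_mod_cast Nat.gcd_mul_lcm u v
          have hl : (Nat.lcm u v : ℝ) ≠ 0 := by
            have := Nat.lcm_pos (show 0 < u by exact hu1) (show 0 < v by exact hv1)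
            exact_mod_cast this.ne'
          have hg : (Nat.gcd u v : ℝ) ≠ 0 := by
            have := Nat.gcd_pos_of_pos_left v (show 0 < u by exact hu1)
            exact_mod_cast this.ne'
          rw [← e]
          field_simp
      _ = X * ∑ u ∈ Icc 1 X, ∑ v ∈ Icc 1 X, (Nat.gcd u v : ℝ) / (u * v) := by
          simp only [mul_sum]
      _ ≤ _ := mul_le_mul_of_nonneg_left (gcd_sum_Div X) hX0.le

end Pool.Agent.Helper48.BK
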