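import Pool.Agent.Helper48.BK.StB

/-!
# Project BK: B6, duality
-/

set_option autoImplicit false

namespace Pool.Agent.Helper48.BK

open Finset

theorem expand_Dual {α β : Type*} (P : Finset α) (Q : Finset β) (p : α → ℤ) (q : β → ℤ)
    (w : α → ℝ) (z : β → ℝ) (NN : Finset ℤ) (hP : ∀ v ∈ P, p v ∈ NN) :
    ∑ v ∈ P, ∑ u ∈ Q, (if p v = q u then w v * z u else 0) =
      ∑ N ∈ NN, (∑ v ∈ P, if p v = N then w v else 0) * (∑ u ∈ Q, if q u = N then z u else 0) := by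
  have h1 : ∀ N ∈ NN, (∑ v ∈ P, if p v = N then w v else 0) *
      (∑ u ∈ Q, if q u = N then z u else 0) =
      ∑ v ∈ P, ∑ u ∈ Q, if p v = N then (if q u = N then w v * z u else 0) else 0 := by
    intro N _
    rw [Finset.sum_mul_sum]
    refine Finset.sum_congr rfl fun v _ => ?_
    refine Finset.sum_congr rfl fun u _ => ?_
    split_ifs <;> simp
  rw [Finset.sum_congr rfl h1, Finset.sum_comm (s := NN) (t := P)]
  refine Finset.sum_congr rfl fun v hv => ?_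
  rw [Finset.sum_comm (s := NN) (t := Q)]
  refine Finset.sum_congr rfl fun u _ => ?_
  rw [Finset.sum_eq_single (p v)]
  · rw [if_pos rfl]
    by_cases h : p v = q u
    · rw [if_pos h, if_pos h.symm]
    · rw [if_neg h, if_neg (Ne.symm h)]
  · intro N _ hN
    rw [if_neg (Ne.symm hN)]
  · intro h
    exact absurd (hP v hv) h

theorem cs_Dual {α β : Type*} [DecidableEq α] [DecidableEq β] (P : Finset α) (Q : Finset β)
    (p : α → ℤ) (q : β → ℤ) (w : α → ℝ) (z : β → ℝ) :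
    ∑ v ∈ P, ∑ u ∈ Q, (if p v = q u then w v * z u else 0) ≤
      √(∑ v ∈ P, ∑ v' ∈ P, if p v = p v' then w v * w v' else 0) *
        √(∑ u ∈ Q, ∑ u' ∈ Q, if q u = q u' then z u * z u' else 0) := by
  set NN : Finset ℤ := P.image p ∪ Q.image q with hNN
  have hP : ∀ v ∈ P, p v ∈ NN := fun v hv =>
    Finset.mem_union_left _ (Finset.mem_image_of_mem _ hv)
  have hQ : ∀ u ∈ Q, q u ∈ NN := fun u hu =>
    Finset.mem_union_right _ (Finset.mem_image_of_mem _ hu)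
  rw [expand_Dual P Q p q w z NN hP, expand_Dual P P p p w w NN hP, expand_Dual Q Q q q z z NN hQ]
  simp only [← sq]
  exact Real.sum_mul_le_sqrt_mul_sqrt _ _ _

/-- the second moment, over pairs -/
theorem QQ_eq_Dual (f g : ℕ → ℝ) (X a b : ℕ) (σ : ℤ) :
    QQ f g X a b σ = ∑ v ∈ (Ioc 0 X) ×ˢ (Ioc 0 X), ∑ v' ∈ (Ioc 0 X) ×ˢ (Ioc 0 X),
      if ((a : ℤ) * v.1 + σ * (b * v.2)) = (a : ℤ) * v'.1 + σ * (b * v'.2) then
        f v.1 * g v.2 * (f v'.1 * g v'.2) else 0 := by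
  rw [Finset.sum_product, QQ]
  refine Finset.sum_congr rfl fun n _ => Finset.sum_congr rfl fun k _ => ?_
  rw [Finset.sum_product]

theorem QQ_nonneg_Dual (f g : ℕ → ℝ) (X a b : ℕ) (σ : ℤ) : 0 ≤ QQ f g X a b σ := by
  rw [QQ_eq_Dual, expand_Dual (α := ℕ × ℕ) (β := ℕ × ℕ) ((Ioc 0 X) ×ˢ (Ioc 0 X))
    ((Ioc 0 X) ×ˢ (Ioc 0 X)) (fun v => (a : ℤ) * v.1 + σ * (b * v.2))
    (fun v => (a : ℤ) * v.1 + σ * (b * v.2)) (fun v => f v.1 * g v.2) (fun v => f v.1 * g v.2)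
    (((Ioc 0 X) ×ˢ (Ioc 0 X)).image (fun v => (a : ℤ) * v.1 + σ * (b * v.2)))
    (fun v hv => Finset.mem_image_of_mem _ hv)]
  exact Finset.sum_nonneg fun N _ => mul_self_nonneg _

/-- the sum over `c` for fixed `a`, `b` -/
theorem fix_Dual (hb : StCnt) (hc : StGcd) (f g : ℕ → ℝ) (H : ℕ → ℕ → ℝ) (X lo m a b : ℕ) (M : ℝ)
    (s t : ℤ) (D : ℕ → ℤ) (hlo : 1 ≤ lo) (hlm : lo ≤ m) (hM : 0 ≤ M)
    (ht : t = 1 ∨ t = -1) (hH : ∀ c n, |H c n| ≤ M) :
    ∑ c ∈ Icc lo m, |TT f g (H c) X a (s * b) (t * c) (D c)| ≤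
      √(QQ f g X a b s) * (M * √(m ^ 2 * (1 + Real.log m) * X / lo + m ^ 2)) := by
  set P : Finset (ℕ × ℕ) := (Ioc 0 X) ×ˢ (Ioc 0 X) with hP
  set Q : Finset (ℕ × ℕ) := (Icc lo m) ×ˢ (Ioc 0 X) with hQ
  set ε : ℕ → ℝ := fun c => if 0 ≤ TT f g (H c) X a (s * b) (t * c) (D c) then 1 else -1 with hε
  have hε1 : ∀ c, |ε c| ≤ 1 := by
    intro c
    simp only [hε]
    split_ifs <;> simp
  have h1 : ∑ c ∈ Icc lo m, |TT f g (H c) X a (s * b) (t * c) (D c)| =
      ∑ v ∈ P, ∑ u ∈ Q, if ((a : ℤ) * v.1 + s * (b * v.2)) = (D u.1 - t * u.1 * u.2) then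
        (f v.1 * g v.2) * (ε u.1 * H u.1 u.2) else 0 := by
    have h2 : ∀ c ∈ Icc lo m, |TT f g (H c) X a (s * b) (t * c) (D c)| =
        ∑ v ∈ P, ∑ l ∈ Ioc 0 X, if ((a : ℤ) * v.1 + s * (b * v.2)) = (D c - t * c * l) then
        (f v.1 * g v.2) * (ε c * H c l) else 0 := by
      intro c _
      have h3 : |TT f g (H c) X a (s * b) (t * c) (D c)| =
          ε c * TT f g (H c) X a (s * b) (t * c) (D c) := by
        simp only [hε]
        split_ifs with h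
        · rw [abs_of_nonneg h, one_mul]
        · rw [abs_of_neg (not_le.1 h), neg_one_mul]
      rw [h3, TT, Finset.mul_sum, hP, Finset.sum_product]
      refine Finset.sum_congr rfl fun n _ => ?_
      rw [Finset.mul_sum]
      refine Finset.sum_congr rfl fun k _ => ?_
      rw [Finset.mul_sum]
      refine Finset.sum_congr rfl fun l _ => ?_
      have h4 : ((a : ℤ) * n + s * b * k + t * c * l = D c) ↔
          ((a : ℤ) * n + s * (b * k) = D c - t * c * l) := by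
        constructor <;> intro h <;> linarith
      by_cases h5 : ((a : ℤ) * n + s * b * k + t * c * l = D c)
      · rw [if_pos h5, if_pos (h4.1 h5)]
        ring
      · rw [if_neg h5, if_neg (fun h => h5 (h4.2 h)), mul_zero]
    rw [Finset.sum_congr rfl h2, Finset.sum_comm]
    refine Finset.sum_congr rfl fun v _ => ?_
    rw [hQ, Finset.sum_product]
  rw [h1]
  refine (cs_Dual P Q _ _ _ _).trans ?_
  rw [QQ_eq_Dual]
  refine mul_le_mul_of_nonneg_left ?_ (Real.sqrt_nonneg _)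
  rw [← Real.sqrt_sq hM, ← Real.sqrt_mul (sq_nonneg M)]
  apply Real.sqrt_le_sqrt
  have h6 : ∀ u ∈ Q, ∀ u' ∈ Q, (if D u.1 - t * u.1 * u.2 = D u'.1 - t * u'.1 * u'.2 then
      ε u.1 * H u.1 u.2 * (ε u'.1 * H u'.1 u'.2) else 0) ≤
      M ^ 2 * (if (u.1 : ℤ) * u.2 - u'.1 * u'.2 = t * (D u.1 - D u'.1) then 1 else 0) := by
    intro u _ u' _
    have h7 : (D u.1 - t * u.1 * u.2 = D u'.1 - t * u'.1 * u'.2) ↔
        ((u.1 : ℤ) * u.2 - u'.1 * u'.2 = t * (D u.1 - D u'.1)) := by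
      rcases ht with rfl | rfl
      · constructor <;> intro h <;> linarith
      · constructor <;> intro h <;> linarith
    by_cases h8 : (D u.1 - t * u.1 * u.2 = D u'.1 - t * u'.1 * u'.2)
    · rw [if_pos h8, if_pos (h7.1 h8), mul_one]
      refine (le_abs_self _).trans ?_
      rw [abs_mul, abs_mul, abs_mul]
      have ha := hH u.1 u.2
      have hb := hH u'.1 u'.2
      have ha1 := hε1 u.1
      have hb1 := hε1 u'.1
      have h9 : |ε u.1| * |H u.1 u.2| ≤ M := by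
        calc |ε u.1| * |H u.1 u.2| ≤ 1 * M :=
              mul_le_mul ha1 ha (abs_nonneg _) zero_le_one
          _ = M := one_mul M
      have h10 : |ε u'.1| * |H u'.1 u'.2| ≤ M := by
        calc |ε u'.1| * |H u'.1 u'.2| ≤ 1 * M :=
              mul_le_mul hb1 hb (abs_nonneg _) zero_le_one
          _ = M := one_mul M
      rw [sq]
      exact mul_le_mul h9 h10 (mul_nonneg (abs_nonneg _) (abs_nonneg _)) hM
    · rw [if_neg h8, if_neg (fun h => h8 (h7.2 h)), mul_zero]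
  refine (Finset.sum_le_sum fun u hu => Finset.sum_le_sum fun u' hu' => h6 u hu u' hu').trans ?_
  simp only [← Finset.mul_sum]
  refine mul_le_mul_of_nonneg_left ?_ (sq_nonneg M)
  -- counting
  have hcount : ∀ c ∈ Icc lo m, ∀ c' ∈ Icc lo m,
      ∑ l ∈ Ioc 0 X, ∑ l' ∈ Ioc 0 X,
        (if (c : ℤ) * l - c' * l' = t * (D c - D c') then (1 : ℝ) else 0) ≤
      X / lo * Nat.gcd c c' + 1 := by
    intro c hc1 c' hc1'
    have h11 := hb X c c' (t * (D c - D c')) (hlo.trans (Finset.mem_Icc.1 hc1).1)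
      (hlo.trans (Finset.mem_Icc.1 hc1').1)
    have h12 : ∑ l ∈ Ioc 0 X, ∑ l' ∈ Ioc 0 X,
        (if (c : ℤ) * l - c' * l' = t * (D c - D c') then (1 : ℝ) else 0) =
        ((((Ioc 0 X) ×ˢ (Ioc 0 X)).filter
          (fun v => (c : ℤ) * v.1 - c' * v.2 = t * (D c - D c'))).card : ℝ) := by
      rw [Finset.card_filter, Finset.sum_product]
      push_cast
      rfl
    rw [h12]
    refine h11.trans ?_
    have h13 : (lo : ℝ) ≤ c' := by exact_mod_cast (Finset.mem_Icc.1 hc1').1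
    have h14 : (0 : ℝ) < lo := by exact_mod_cast hlo
    have h15 : (X : ℝ) * Nat.gcd c c' / c' ≤ X * Nat.gcd c c' / lo :=
      div_le_div_of_nonneg_left (by positivity) h14 h13
    have h16 : (X : ℝ) * Nat.gcd c c' / lo = X / lo * Nat.gcd c c' := by ring
    linarith
  have h17 : ∑ u ∈ Q, ∑ u' ∈ Q,
      (if (u.1 : ℤ) * u.2 - u'.1 * u'.2 = t * (D u.1 - D u'.1) then (1 : ℝ) else 0) =
      ∑ c ∈ Icc lo m, ∑ c' ∈ Icc lo m, ∑ l ∈ Ioc 0 X, ∑ l' ∈ Ioc 0 X,
        (if (c : ℤ) * l - c' * l' = t * (D c - D c') then (1 : ℝ) else 0) := by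
    rw [hQ, Finset.sum_product]
    refine Finset.sum_congr rfl fun c _ => ?_
    rw [Finset.sum_comm]
    rw [Finset.sum_product]
    refine Finset.sum_congr rfl fun c' _ => ?_
    rw [Finset.sum_comm]
  rw [h17]
  refine (Finset.sum_le_sum fun c hc1 => Finset.sum_le_sum fun c' hc1' =>
    hcount c hc1 c' hc1').trans ?_
  have hm1 : 1 ≤ m := hlo.trans hlm
  have h18 : ∑ c ∈ Icc lo m, ∑ c' ∈ Icc lo m, (Nat.gcd c c' : ℝ) ≤
      m ^ 2 * (1 + Real.log m) := by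
    refine le_trans ?_ (hc m hm1)
    have hsub : Icc lo m ⊆ Icc 1 m := Finset.Icc_subset_Icc_left hlo
    refine (Finset.sum_le_sum_of_subset_of_nonneg hsub fun c _ _ =>
      Finset.sum_nonneg fun _ _ => Nat.cast_nonneg _).trans ?_
    exact Finset.sum_le_sum fun c _ => Finset.sum_le_sum_of_subset_of_nonneg hsub
      fun _ _ _ => Nat.cast_nonneg _
  have h19 : ((Icc lo m).card : ℝ) ≤ m := by
    rw [Nat.card_Icc]
    have : m + 1 - lo ≤ m := by omega
    exact_mod_cast this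
  have h20 : ∑ c ∈ Icc lo m, ∑ c' ∈ Icc lo m, ((X : ℝ) / lo * Nat.gcd c c' + 1) =
      X / lo * ∑ c ∈ Icc lo m, ∑ c' ∈ Icc lo m, (Nat.gcd c c' : ℝ) +
        (Icc lo m).card * (Icc lo m).card := by
    simp only [Finset.sum_add_distrib, ← Finset.mul_sum, Finset.sum_const, nsmul_eq_mul, mul_one]
  rw [h20]
  have h21 : (0 : ℝ) ≤ X / lo := by positivity
  have h22 : ((Icc lo m).card : ℝ) * (Icc lo m).card ≤ m ^ 2 := by
    rw [sq]
    exact mul_le_mul h19 h19 (Nat.cast_nonneg _) (Nat.cast_nonneg _)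
  have h23 := mul_le_mul_of_nonneg_left h18 h21
  have h24 : (m : ℝ) ^ 2 * (1 + Real.log m) * X / lo = X / lo * (m ^ 2 * (1 + Real.log m)) := by
    ring
  rw [h24]
  linarith

theorem hDual (_ha : StCor) (hb : StCnt) (hc : StGcd) : StDual := by
  intro F G H X lo m M s t D hlo hlm hM _ ht hH
  set K : ℝ := M * √(m ^ 2 * (1 + Real.log m) * X / lo + m ^ 2) with hK
  have hK0 : 0 ≤ K := mul_nonneg hM (Real.sqrt_nonneg _)
  have h1 : ∑ a ∈ Icc lo m, ∑ b ∈ Icc lo m, ∑ c ∈ Icc lo m,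
      |TT (F a) (G b) (H c) X a (s * b) (t * c) (D a b c)| ≤
      ∑ a ∈ Icc lo m, ∑ b ∈ Icc lo m, √(QQ (F a) (G b) X a b s) * K :=
    Finset.sum_le_sum fun a _ => Finset.sum_le_sum fun b _ =>
      fix_Dual hb hc (F a) (G b) H X lo m a b M s t (D a b) hlo hlm hM ht hH
  refine h1.trans ?_
  simp only [← Finset.sum_mul]
  refine mul_le_mul_of_nonneg_right ?_ hK0
  apply Real.le_sqrt_of_sq_le
  have h2 : ∑ a ∈ Icc lo m, ∑ b ∈ Icc lo m, √(QQ (F a) (G b) X a b s) =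
      ∑ v ∈ (Icc lo m) ×ˢ (Icc lo m), √(QQ (F v.1) (G v.2) X v.1 v.2 s) := by
    rw [Finset.sum_product]
  have h3 : ∑ a ∈ Icc lo m, ∑ b ∈ Icc lo m, QQ (F a) (G b) X a b s =
      ∑ v ∈ (Icc lo m) ×ˢ (Icc lo m), √(QQ (F v.1) (G v.2) X v.1 v.2 s) ^ 2 := by
    rw [Finset.sum_product]
    refine Finset.sum_congr rfl fun a _ => Finset.sum_congr rfl fun b _ => ?_
    rw [Real.sq_sqrt (QQ_nonneg_Dual _ _ _ _ _ _)]
  rw [h2, h3]
  refine sq_sum_le_card_mul_sum_sq.trans ?_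
  refine mul_le_mul_of_nonneg_right ?_ (Finset.sum_nonneg fun _ _ => sq_nonneg _)
  rw [Finset.card_product, Nat.card_Icc]
  have : m + 1 - lo ≤ m := by omega
  have h4 : ((m + 1 - lo : ℕ) : ℝ) ≤ m := by exact_mod_cast this
  push_cast
  rw [sq]
  exact mul_le_mul h4 h4 (Nat.cast_nonneg _) (Nat.cast_nonneg _)

end Pool.Agent.Helper48.BK
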