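import Pool.Agent.Helper48.BK.StT

/-! Project BK, module EP (helper27). -/

set_option autoImplicit false
namespace Pool.Agent.Helper48.BK
open Finset

open Classical in
theorem low_EP (z : ℕ) : 5 / 6 ≤ ∏ p ∈ range (z + 1),
    (if p.Prime ∧ 7 ≤ p then 1 - 1 / ((p : ℝ) - 1) ^ 2 else 1) := by
  rcases lt_or_ge z 6 with h | h
  · have : ∏ p ∈ range (z + 1),
        (if p.Prime ∧ 7 ≤ p then 1 - 1 / ((p : ℝ) - 1) ^ 2 else 1) = 1 := by
      refine prod_eq_one fun p hp => ?_
      rw [mem_range] at hp
      rw [if_neg]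
      omega
    rw [this]
    norm_num
  · have key : (5 / 6 : ℝ) * (z / ((z : ℝ) - 1)) ≤ ∏ p ∈ range (z + 1),
        (if p.Prime ∧ 7 ≤ p then 1 - 1 / ((p : ℝ) - 1) ^ 2 else 1) := by
      induction z, h using Nat.le_induction with
      | base =>
        have : ∏ p ∈ range (6 + 1),
            (if p.Prime ∧ 7 ≤ p then 1 - 1 / ((p : ℝ) - 1) ^ 2 else 1) = 1 := by
          refine prod_eq_one fun p hp => ?_
          rw [mem_range] at hp
          rw [if_neg]
          omega
        rw [this]
        norm_num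
      | succ z hz ih =>
        rw [prod_range_succ]
        have hz' : (6 : ℝ) ≤ z := by exact_mod_cast hz
        have h1 : (0 : ℝ) < z := by linarith
        have h2 : (0 : ℝ) < (z : ℝ) - 1 := by linarith
        have e1 : (((z + 1 : ℕ) : ℝ)) - 1 = z := by push_cast; ring
        rw [e1]
        split_ifs with hp
        · have h3 : (5 / 6 : ℝ) * (((z + 1 : ℕ) : ℝ) / z) =
              (5 / 6 : ℝ) * (z / ((z : ℝ) - 1)) * (1 - 1 / (z : ℝ) ^ 2) := by
            push_cast
            field_simp
            ring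
          rw [h3]
          refine mul_le_mul_of_nonneg_right ih ?_
          have : 1 / (z : ℝ) ^ 2 ≤ 1 := by
            rw [div_le_one (by positivity)]
            nlinarith
          linarith
        · rw [mul_one]
          refine le_trans ?_ ih
          refine mul_le_mul_of_nonneg_left ?_ (by norm_num)
          rw [div_le_div_iff₀ h1 h2]
          push_cast
          nlinarith
    refine le_trans ?_ key
    have hz' : (6 : ℝ) ≤ z := by exact_mod_cast h
    have h2 : (0 : ℝ) < (z : ℝ) - 1 := by linarith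
    have : 1 ≤ (z : ℝ) / ((z : ℝ) - 1) := by
      rw [le_div_iff₀ h2]
      linarith
    linarith

theorem hEP : StEP := by
  classical
  intro z
  have h1 : (1 / Vz z) ^ 3 *
      ∏ p ∈ (Pz z).filter (fun p => 7 ≤ p), ((1 - 1 / (p : ℝ)) * (1 - 2 / (p : ℝ))) =
      ∏ p ∈ Pz z, ((1 / (1 - 1 / (p : ℝ))) ^ 3 *
        (if 7 ≤ p then ((1 - 1 / (p : ℝ)) * (1 - 2 / (p : ℝ))) else 1)) := by
    symm
    rw [prod_mul_distrib, prod_pow, ← prod_filter, prod_div_distrib, prod_const_one]
    rfl
  have h2 : ∏ p ∈ Pz z, (if 7 ≤ p then 1 - 1 / ((p : ℝ) - 1) ^ 2 else 1) =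
      ∏ p ∈ range (z + 1), (if p.Prime ∧ 7 ≤ p then 1 - 1 / ((p : ℝ) - 1) ^ 2 else 1) := by
    unfold Pz
    rw [prod_filter]
    refine prod_congr rfl fun p _ => ?_
    split_ifs with a b c d <;> first | rfl | (exfalso; tauto)
  have h3 := low_EP z
  rw [h1]
  refine le_trans (by norm_num : (1 : ℝ) / 2 ≤ 5 / 6) (h3.trans ?_)
  rw [← h2]
  refine prod_le_prod ?_ ?_
  · intro p hp
    split_ifs with h
    · have : (7 : ℝ) ≤ p := by exact_mod_cast h
      have h4 : 1 / ((p : ℝ) - 1) ^ 2 ≤ 1 := by
        rw [div_le_one (by nlinarith)]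
        nlinarith
      linarith
    · exact zero_le_one
  · intro p hp
    have hp2 : 2 ≤ p := (mem_filter.1 hp).2.two_le
    have hp2' : (2 : ℝ) ≤ p := by exact_mod_cast hp2
    have h0 : (0 : ℝ) < p := by linarith
    have h1' : (0 : ℝ) < (p : ℝ) - 1 := by linarith
    have e0 : (1 : ℝ) - 1 / p = (p - 1) / p := by field_simp
    split_ifs with h
    · rw [e0]
      apply le_of_eq
      field_simp
      ring
    · rw [mul_one, e0, one_div_div]
      refine one_le_pow₀ ?_
      rw [le_div_iff₀ h1']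
      linarith

end Pool.Agent.Helper48.BK
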