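import Pool.Agent.Helper48.BK.StB

/-!
# Project BK, module Err: comparison of two functions with close exponential sums
-/

set_option autoImplicit false

namespace Pool.Agent.Helper48.BK

open Finset

/-- the windowed function, cut off for `a < lo` -/
noncomputable def cut_Err (lo : ℕ) (f : ℕ → ℝ) (p q H a n : ℕ) : ℝ :=
  if lo ≤ a then win f p q H a n else 0

lemma TT_swap_Err (f g h : ℕ → ℝ) (X : ℕ) (u v w D : ℤ) :
    TT f g h X u v w D = TT g f h X v u w D := by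
  unfold TT
  rw [Finset.sum_comm]
  refine Finset.sum_congr rfl (fun m _ => Finset.sum_congr rfl (fun n _ =>
    Finset.sum_congr rfl (fun l _ => ?_)))
  have h1 : (u * (n : ℤ) + v * m + w * l = D) ↔ (v * (m : ℤ) + u * n + w * l = D) := by
    constructor <;> intro h <;> linear_combination h
  by_cases h2 : v * (m : ℤ) + u * n + w * l = D
  · rw [if_pos (h1.2 h2), if_pos h2]
    ring
  · rw [if_neg (fun h => h2 (h1.1 h)), if_neg h2]

lemma TT_rot_Err (f g h : ℕ → ℝ) (X : ℕ) (u v w D : ℤ) :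
    TT f g h X u v w D = TT h f g X (-w) (-u) (-v) (-D) := by
  unfold TT
  have h0 : ∀ n ∈ Ioc 0 X, (∑ m ∈ Ioc 0 X, ∑ l ∈ Ioc 0 X,
      if u * (n : ℤ) + v * m + w * l = D then f n * g m * h l else 0) =
      ∑ l ∈ Ioc 0 X, ∑ m ∈ Ioc 0 X,
      if u * (n : ℤ) + v * m + w * l = D then f n * g m * h l else 0 :=
    fun n _ => Finset.sum_comm
  rw [Finset.sum_congr rfl h0, Finset.sum_comm]
  refine Finset.sum_congr rfl (fun l _ => Finset.sum_congr rfl (fun n _ =>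
    Finset.sum_congr rfl (fun m _ => ?_)))
  have h1 : (u * (n : ℤ) + v * m + w * l = D) ↔
      (-w * (l : ℤ) + -u * n + -v * m = -D) := by
    constructor <;> intro h <;> linear_combination (-1) * h
  by_cases h2 : -w * (l : ℤ) + -u * n + -v * m = -D
  · rw [if_pos (h1.2 h2), if_pos h2]
    ring
  · rw [if_neg (fun h => h2 (h1.1 h)), if_neg h2]

lemma TT_tel_Err (f1 f2 f3 g1 g2 g3 : ℕ → ℝ) (X : ℕ) (u v w D : ℤ) :
    TT f1 f2 f3 X u v w D - TT g1 g2 g3 X u v w D =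
      TT (fun n => f1 n - g1 n) f2 f3 X u v w D + TT g1 (fun n => f2 n - g2 n) f3 X u v w D +
        TT g1 g2 (fun n => f3 n - g3 n) X u v w D := by
  unfold TT
  rw [← Finset.sum_sub_distrib, ← Finset.sum_add_distrib, ← Finset.sum_add_distrib]
  refine Finset.sum_congr rfl (fun n _ => ?_)
  rw [← Finset.sum_sub_distrib, ← Finset.sum_add_distrib, ← Finset.sum_add_distrib]
  refine Finset.sum_congr rfl (fun m _ => ?_)
  rw [← Finset.sum_sub_distrib, ← Finset.sum_add_distrib, ← Finset.sum_add_distrib]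
  refine Finset.sum_congr rfl (fun l _ => ?_)
  by_cases h : u * (n : ℤ) + v * m + w * l = D
  · simp only [if_pos h]
    ring
  · simp only [if_neg h]
    ring

lemma win_sub_Err (f g : ℕ → ℝ) (p q H a : ℕ) :
    (fun n => win f p q H a n - win g p q H a n) = win (fun n => f n - g n) p q H a := by
  funext n
  unfold win
  split_ifs <;> ring

lemma cut_bd_Err (f : ℕ → ℝ) (X H lo p q : ℕ) (M : ℝ) (hlo : 1 ≤ lo) (hq : q ≤ 11)
    (hH : 11 * H ≤ lo * X) (hM : 0 ≤ M) (hf : ∀ n ≤ X, |f n| ≤ M) (a n : ℕ) :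
    |cut_Err lo f p q H a n| ≤ M := by
  unfold cut_Err win
  split_ifs with h1 h2
  · apply hf
    have h3 : a * n ≤ a * X :=
      calc a * n ≤ q * H := h2.2
        _ ≤ 11 * H := Nat.mul_le_mul_right _ hq
        _ ≤ lo * X := hH
        _ ≤ a * X := Nat.mul_le_mul_right _ h1
    exact Nat.le_of_mul_le_mul_left h3 (by omega)
  · simpa using hM
  · simpa using hM

lemma cut_Sx_Err (E : ℕ → ℝ) (X H lo p q : ℕ) (δ : ℝ) (hlo : 1 ≤ lo) (hpq : p ≤ q)
    (hq : q ≤ 11) (hH : 11 * H ≤ lo * X) (hδ : 0 ≤ δ)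
    (hE : ∀ y ≤ X, ∀ α, ‖Sx E y α‖ ≤ δ * X) (a : ℕ) (α : ℝ) :
    ‖Sx (cut_Err lo E p q H a) X α‖ ≤ 2 * δ * X := by
  have hX0 : (0 : ℝ) ≤ X := Nat.cast_nonneg X
  by_cases ha : lo ≤ a
  · have ha0 : 0 < a := by omega
    have hy2 : q * H / a ≤ X := by
      apply Nat.div_le_of_le_mul
      calc q * H ≤ 11 * H := Nat.mul_le_mul_right _ hq
        _ ≤ lo * X := hH
        _ ≤ a * X := Nat.mul_le_mul_right _ ha
    have hy1 : p * H / a ≤ q * H / a := Nat.div_le_div_right (Nat.mul_le_mul_right _ hpq)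
    have h1 : Sx (cut_Err lo E p q H a) X α = Sx E (q * H / a) α - Sx E (p * H / a) α := by
      unfold Sx
      have h2 : Ioc 0 (q * H / a) = Ioc 0 (p * H / a) ∪ Ioc (p * H / a) (q * H / a) := by
        rw [Finset.Ioc_union_Ioc_eq_Ioc (Nat.zero_le _) hy1]
      have h3 : Disjoint (Ioc 0 (p * H / a)) (Ioc (p * H / a) (q * H / a)) := by
        rw [Finset.disjoint_left]
        intro n hn hn2
        rw [Finset.mem_Ioc] at hn hn2
        omega
      have h4 : Ioc (p * H / a) (q * H / a) =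
          (Ioc 0 X).filter (fun n => p * H < a * n ∧ a * n ≤ q * H) := by
        ext n
        rw [Finset.mem_filter, Finset.mem_Ioc, Finset.mem_Ioc, Nat.div_lt_iff_lt_mul ha0,
          Nat.le_div_iff_mul_le ha0, mul_comm n a]
        constructor
        · rintro ⟨h5, h6⟩
          refine ⟨⟨?_, ?_⟩, h5, h6⟩
          · rcases Nat.eq_zero_or_pos n with h7 | h7
            · rw [h7] at h5
              omega
            · exact h7
          · have h8 : n ≤ q * H / a := by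
              rw [Nat.le_div_iff_mul_le ha0, mul_comm]
              exact h6
            exact h8.trans hy2
        · rintro ⟨_, h5⟩
          exact h5
      rw [h2, Finset.sum_union h3, add_sub_cancel_left, h4, Finset.sum_filter]
      apply Finset.sum_congr rfl
      intro n _
      unfold cut_Err win
      rw [if_pos ha]
      split_ifs
      · rfl
      · simp
    rw [h1]
    calc ‖Sx E (q * H / a) α - Sx E (p * H / a) α‖ ≤
        ‖Sx E (q * H / a) α‖ + ‖Sx E (p * H / a) α‖ := norm_sub_le _ _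
      _ ≤ δ * X + δ * X := add_le_add (hE _ hy2 α) (hE _ (hy1.trans hy2) α)
      _ = 2 * δ * X := by ring
  · have h1 : Sx (cut_Err lo E p q H a) X α = 0 := by
      unfold Sx
      apply Finset.sum_eq_zero
      intro n _
      unfold cut_Err
      rw [if_neg ha]
      simp
    rw [h1, norm_zero]
    positivity

lemma core_Err (hCor : StCor) (hBil : StBil) (hDual : StDual) (E : ℕ → ℝ) (G W : ℕ → ℕ → ℝ)
    (X H lo m K p q : ℕ) (M δ : ℝ) (s t : ℤ) (D : ℕ → ℕ → ℕ → ℤ) (hlo : 1 ≤ lo) (hlm : lo ≤ m)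
    (hmK : m ≤ lo * K) (hmX : m ≤ X) (hH : 11 * H ≤ lo * X) (hM : 1 ≤ M) (hδ : 0 ≤ δ)
    (hpq : p ≤ q) (hq : q ≤ 11) (hs : s = 1 ∨ s = -1) (ht : t = 1 ∨ t = -1)
    (hE : ∀ n ≤ X, |E n| ≤ 2 * M) (hG : ∀ b n, |G b n| ≤ M) (hW : ∀ c n, |W c n| ≤ M)
    (hSx : ∀ y ≤ X, ∀ α, ‖Sx E y α‖ ≤ δ * X) :
    ∑ a ∈ Icc lo m, ∑ b ∈ Icc lo m, ∑ c ∈ Icc lo m,
      |TT (cut_Err lo E p q H a) (G b) (W c) X a (s * b) (t * c) (D a b c)| ≤
    20 * M ^ 3 * K * (1 + Real.log X) ^ 2 * m ^ 2 * X ^ 2 * √(m / X + √δ) := by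
  have hm1 : 1 ≤ m := hlo.trans hlm
  have hX1 : 1 ≤ X := hm1.trans hmX
  have hK1 : 1 ≤ K := by
    rcases Nat.eq_zero_or_pos K with h | h
    · rw [h, mul_zero] at hmK
      omega
    · exact h
  have hM0 : 0 ≤ M := by linarith
  have hmR : (1 : ℝ) ≤ m := by exact_mod_cast hm1
  have hXR : (1 : ℝ) ≤ X := by exact_mod_cast hX1
  have hKR : (1 : ℝ) ≤ K := by exact_mod_cast hK1
  have hloR : (1 : ℝ) ≤ lo := by exact_mod_cast hlo
  have hmXR : (m : ℝ) ≤ X := by exact_mod_cast hmX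
  have hmKR : (m : ℝ) ≤ lo * K := by exact_mod_cast hmK
  set L : ℝ := 1 + Real.log X with hL
  have hL1 : 1 ≤ L := by
    have := Real.log_nonneg hXR
    linarith
  set Θ : ℝ := m / X + √δ with hΘ
  have hΘ0 : 0 ≤ Θ := by positivity
  have hd := hDual (cut_Err lo E p q H) G W X lo m M s t D hlo hlm hM0 hs ht hW
  refine hd.trans ?_
  -- the second moments
  have hS : ∑ a ∈ Icc lo m, ∑ b ∈ Icc lo m, QQ (cut_Err lo E p q H a) (G b) X a b s ≤
      64 * M ^ 4 * m * X ^ 3 * L ^ 3 * Θ := by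
    have h1 : ∑ a ∈ Icc lo m, ∑ b ∈ Icc lo m, QQ (cut_Err lo E p q H a) (G b) X a b s ≤
        ∑ a ∈ Icc 1 m, ∑ b ∈ Icc 1 m, QQ (cut_Err lo E p q H a) (G b) X a b s := by
      have hsub : Icc lo m ⊆ Icc 1 m := Finset.Icc_subset_Icc_left hlo
      have h2 : ∀ a ∈ Icc 1 m, ∀ b ∈ Icc 1 m,
          0 ≤ QQ (cut_Err lo E p q H a) (G b) X a b s := by
        intro a ha b hb
        rw [Finset.mem_Icc] at ha hb
        exact (hCor _ _ X a b s ha.1 hb.1 hs).1
      calc ∑ a ∈ Icc lo m, ∑ b ∈ Icc lo m, QQ (cut_Err lo E p q H a) (G b) X a b s ≤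
          ∑ a ∈ Icc lo m, ∑ b ∈ Icc 1 m, QQ (cut_Err lo E p q H a) (G b) X a b s := by
            apply Finset.sum_le_sum
            intro a ha
            apply Finset.sum_le_sum_of_subset_of_nonneg hsub
            intro b hb _
            exact h2 a (hsub ha) b hb
        _ ≤ _ := by
            apply Finset.sum_le_sum_of_subset_of_nonneg hsub
            intro a ha _
            exact Finset.sum_nonneg (h2 a ha)
    have h2 := hBil (cut_Err lo E p q H) G X m (2 * M) (2 * δ) s hX1 hmX (by linarith)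
      (by linarith) hs
      (cut_bd_Err E X H lo p q (2 * M) hlo hq hH (by linarith) hE)
      (fun b n => (hG b n).trans (by linarith))
      (fun a _ α => cut_Sx_Err E X H lo p q δ hlo hpq hq hH hδ hSx a α)
    refine h1.trans (h2.trans ?_)
    rw [← hL]
    have h3 : √(2 * δ) ≤ 2 * √δ := by
      rw [Real.sqrt_le_left (by positivity), mul_pow, Real.sq_sqrt hδ]
      linarith
    have h4 : (m : ℝ) ^ 2 * X ^ 2 = m * X ^ 3 * (m / X) := by
      field_simp
    have h5 : (m : ℝ) * X ^ 3 * (m / X) ≤ m * X ^ 3 * L ^ 3 * (m / X) := by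
      have h6 : (1 : ℝ) ≤ L ^ 3 := one_le_pow₀ hL1
      have h7 : (0 : ℝ) ≤ m * X ^ 3 * (m / X) := by positivity
      nlinarith
    have h8 : 2 * (m : ℝ) * X ^ 3 * L ^ 3 * √(2 * δ) ≤ 2 * (m : ℝ) * X ^ 3 * L ^ 3 * (2 * √δ) :=
      mul_le_mul_of_nonneg_left h3 (by positivity)
    calc (2 * M) ^ 4 * ((m : ℝ) ^ 2 * X ^ 2 + 2 * m * X ^ 3 * L ^ 3 * √(2 * δ)) ≤
        (2 * M) ^ 4 * (m * X ^ 3 * L ^ 3 * (m / X) + 2 * (m : ℝ) * X ^ 3 * L ^ 3 * (2 * √δ)) := by
          apply mul_le_mul_of_nonneg_left _ (by positivity)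
          rw [h4]
          exact add_le_add h5 h8
      _ ≤ (2 * M) ^ 4 * (4 * (m * X ^ 3 * L ^ 3 * (m / X)) +
          2 * (m : ℝ) * X ^ 3 * L ^ 3 * (2 * √δ)) := by
          apply mul_le_mul_of_nonneg_left _ (by positivity)
          have h9 : (0 : ℝ) ≤ m * X ^ 3 * L ^ 3 * (m / X) := by positivity
          linarith
      _ = 64 * M ^ 4 * m * X ^ 3 * L ^ 3 * Θ := by
          rw [hΘ]
          ring
  have hR : (m : ℝ) ^ 2 * (1 + Real.log m) * X / lo + m ^ 2 ≤ 2 * m * K * L * X := by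
    have h1 : 1 + Real.log m ≤ L := by
      rw [hL]
      have := Real.log_le_log (by linarith) hmXR
      linarith
    have h0 : 0 ≤ 1 + Real.log m := by
      have := Real.log_nonneg hmR
      linarith
    have h2 : (m : ℝ) ^ 2 * (1 + Real.log m) * X / lo ≤ m * K * L * X := by
      rw [div_le_iff₀ (by linarith)]
      calc (m : ℝ) ^ 2 * (1 + Real.log m) * X = m * (1 + Real.log m) * X * m := by ring
        _ ≤ m * (1 + Real.log m) * X * (lo * K) := by
            apply mul_le_mul_of_nonneg_left hmKR (by positivity)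
        _ = m * (lo * K) * X * (1 + Real.log m) := by ring
        _ ≤ m * (lo * K) * X * L := mul_le_mul_of_nonneg_left h1 (by positivity)
        _ = m * K * L * X * lo := by ring
    have h3 : (m : ℝ) ^ 2 ≤ m * K * L * X := by
      have h4 : (1 : ℝ) ≤ K * L := by nlinarith
      calc (m : ℝ) ^ 2 = m * m := sq _
        _ ≤ m * X := mul_le_mul_of_nonneg_left hmXR (by linarith)
        _ = m * X * 1 := by ring
        _ ≤ m * X * (K * L) := mul_le_mul_of_nonneg_left h4 (by positivity)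
        _ = m * K * L * X := by ring
    linarith
  have hA : √((m : ℝ) ^ 2 * ∑ a ∈ Icc lo m, ∑ b ∈ Icc lo m,
      QQ (cut_Err lo E p q H a) (G b) X a b s) ≤
      √((m : ℝ) ^ 2 * (64 * M ^ 4 * m * X ^ 3 * L ^ 3 * Θ)) :=
    Real.sqrt_le_sqrt (mul_le_mul_of_nonneg_left hS (by positivity))
  have hB : M * √((m : ℝ) ^ 2 * (1 + Real.log m) * X / lo + m ^ 2) ≤
      M * √(2 * m * K * L * X) :=
    mul_le_mul_of_nonneg_left (Real.sqrt_le_sqrt hR) hM0
  calc _ ≤ √((m : ℝ) ^ 2 * (64 * M ^ 4 * m * X ^ 3 * L ^ 3 * Θ)) * (M * √(2 * m * K * L * X)) :=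
        mul_le_mul hA hB (by positivity) (by positivity)
    _ = M * √((m : ℝ) ^ 2 * (64 * M ^ 4 * m * X ^ 3 * L ^ 3 * Θ) * (2 * m * K * L * X)) := by
        have h0 : (0 : ℝ) ≤ (m : ℝ) ^ 2 * (64 * M ^ 4 * m * X ^ 3 * L ^ 3 * Θ) := by positivity
        rw [Real.sqrt_mul h0 (2 * m * K * L * X)]
        ring
    _ ≤ M * √((20 * M ^ 2 * K * L ^ 2 * m ^ 2 * X ^ 2) ^ 2 * Θ) := by
        apply mul_le_mul_of_nonneg_left _ hM0
        apply Real.sqrt_le_sqrt
        have h1 : (m : ℝ) ^ 2 * (64 * M ^ 4 * m * X ^ 3 * L ^ 3 * Θ) * (2 * m * K * L * X) =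
            (M ^ 4 * L ^ 4 * m ^ 4 * X ^ 4 * Θ) * (128 * K) := by ring
        have h2 : (20 * M ^ 2 * K * L ^ 2 * (m : ℝ) ^ 2 * X ^ 2) ^ 2 * Θ =
            (M ^ 4 * L ^ 4 * m ^ 4 * X ^ 4 * Θ) * (400 * K ^ 2) := by ring
        rw [h1, h2]
        apply mul_le_mul_of_nonneg_left _ (by positivity)
        nlinarith
    _ = 20 * M ^ 3 * K * L ^ 2 * m ^ 2 * X ^ 2 * √Θ := by
        rw [Real.sqrt_mul (by positivity), Real.sqrt_sq (by positivity)]
        ring

theorem hErr (ha : StCor) (hb : StBil) (hc : StDual) : StErr := by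
  intro f g X H lo m K M δ D hlo hlm hmK hmX hH hM hδ hf hg hSx
  set E : ℕ → ℝ := fun n => f n - g n with hE
  have hM0 : 0 ≤ M := by linarith
  have hEb : ∀ n ≤ X, |E n| ≤ 2 * M := by
    intro n hn
    calc |f n - g n| ≤ |f n| + |g n| := abs_sub _ _
      _ ≤ M + M := add_le_add (hf n hn) (hg n hn)
      _ = 2 * M := by ring
  have hcut : ∀ (k : ℕ → ℝ) (p q a : ℕ), a ∈ Icc lo m → cut_Err lo k p q H a = win k p q H a := by
    intro k p q a haa
    rw [Finset.mem_Icc] at haa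
    funext n
    unfold cut_Err
    rw [if_pos haa.1]
  have hbf : ∀ p q : ℕ, q ≤ 11 → ∀ a n, |cut_Err lo f p q H a n| ≤ M := fun p q hq =>
    cut_bd_Err f X H lo p q M hlo hq hH hM0 hf
  have hbg : ∀ p q : ℕ, q ≤ 11 → ∀ a n, |cut_Err lo g p q H a n| ≤ M := fun p q hq =>
    cut_bd_Err g X H lo p q M hlo hq hH hM0 hg
  have h1 := core_Err ha hb hc E (cut_Err lo f 4 5 H) (cut_Err lo f 7 11 H) X H lo m K 4 5 M δ
    1 (-1) D hlo hlm hmK hmX hH hM hδ (by norm_num) (by norm_num) (Or.inl rfl) (Or.inr rfl) hEb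
    (hbf 4 5 (by norm_num)) (hbf 7 11 (by norm_num)) hSx
  have h2 := core_Err ha hb hc E (cut_Err lo g 4 5 H) (cut_Err lo f 7 11 H) X H lo m K 4 5 M δ
    1 (-1) (fun b a c => D a b c) hlo hlm hmK hmX hH hM hδ (by norm_num) (by norm_num)
    (Or.inl rfl) (Or.inr rfl) hEb
    (hbg 4 5 (by norm_num)) (hbf 7 11 (by norm_num)) hSx
  have h3 := core_Err ha hb hc E (cut_Err lo g 4 5 H) (cut_Err lo g 4 5 H) X H lo m K 7 11 M δ
    (-1) (-1) (fun c a b => -D a b c) hlo hlm hmK hmX hH hM hδ (by norm_num) (by norm_num)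
    (Or.inr rfl) (Or.inr rfl) hEb
    (hbg 4 5 (by norm_num)) (hbg 4 5 (by norm_num)) hSx
  have h4 : ∑ a ∈ Icc lo m, ∑ b ∈ Icc lo m, ∑ c ∈ Icc lo m,
      |RR f X H a b c (D a b c) - RR g X H a b c (D a b c)| ≤
      (∑ a ∈ Icc lo m, ∑ b ∈ Icc lo m, ∑ c ∈ Icc lo m,
        |TT (cut_Err lo E 4 5 H a) (cut_Err lo f 4 5 H b) (cut_Err lo f 7 11 H c) X a (1 * b)
          (-1 * c) (D a b c)|) +
      (∑ a ∈ Icc lo m, ∑ b ∈ Icc lo m, ∑ c ∈ Icc lo m,
        |TT (cut_Err lo E 4 5 H b) (cut_Err lo g 4 5 H a) (cut_Err lo f 7 11 H c) X b (1 * a)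
          (-1 * c) (D a b c)|) +
      (∑ a ∈ Icc lo m, ∑ b ∈ Icc lo m, ∑ c ∈ Icc lo m,
        |TT (cut_Err lo E 7 11 H c) (cut_Err lo g 4 5 H a) (cut_Err lo g 4 5 H b) X c (-1 * a)
          (-1 * b) (-D a b c)|) := by
    rw [← Finset.sum_add_distrib, ← Finset.sum_add_distrib]
    apply Finset.sum_le_sum
    intro a haa
    rw [← Finset.sum_add_distrib, ← Finset.sum_add_distrib]
    apply Finset.sum_le_sum
    intro b hbb
    rw [← Finset.sum_add_distrib, ← Finset.sum_add_distrib]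
    apply Finset.sum_le_sum
    intro c hcc
    rw [hcut _ _ _ _ haa, hcut _ _ _ _ hbb, hcut _ _ _ _ hcc, hcut _ _ _ _ haa,
      hcut _ _ _ _ hbb, hcut _ _ _ _ hcc, hcut _ _ _ _ hbb]
    unfold RR
    rw [TT_tel_Err, win_sub_Err, win_sub_Err, win_sub_Err]
    have e2 : TT (win g 4 5 H a) (win (fun n => f n - g n) 4 5 H b) (win f 7 11 H c) X a b (-c)
        (D a b c) = TT (win E 4 5 H b) (win g 4 5 H a) (win f 7 11 H c) X b (1 * a)
          (-1 * c) (D a b c) := by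
      rw [TT_swap_Err, one_mul, neg_one_mul]
    have e3 : TT (win g 4 5 H a) (win g 4 5 H b) (win (fun n => f n - g n) 7 11 H c) X a b (-c)
        (D a b c) = TT (win E 7 11 H c) (win g 4 5 H a) (win g 4 5 H b) X c (-1 * a)
          (-1 * b) (-D a b c) := by
      rw [TT_rot_Err, neg_neg, neg_one_mul, neg_one_mul]
    rw [e2, e3]
    simp only [one_mul, neg_one_mul]
    exact (abs_add_le _ _).trans (add_le_add_left (abs_add_le _ _) _)
  have h2' : (∑ a ∈ Icc lo m, ∑ b ∈ Icc lo m, ∑ c ∈ Icc lo m,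
        |TT (cut_Err lo E 4 5 H b) (cut_Err lo g 4 5 H a) (cut_Err lo f 7 11 H c) X b (1 * a)
          (-1 * c) (D a b c)|) ≤
      20 * M ^ 3 * K * (1 + Real.log X) ^ 2 * m ^ 2 * X ^ 2 * √(m / X + √δ) := by
    rw [Finset.sum_comm]
    exact h2
  have h3' : (∑ a ∈ Icc lo m, ∑ b ∈ Icc lo m, ∑ c ∈ Icc lo m,
        |TT (cut_Err lo E 7 11 H c) (cut_Err lo g 4 5 H a) (cut_Err lo g 4 5 H b) X c (-1 * a)
          (-1 * b) (-D a b c)|) ≤
      20 * M ^ 3 * K * (1 + Real.log X) ^ 2 * m ^ 2 * X ^ 2 * √(m / X + √δ) := by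
    refine le_trans (le_of_eq ?_) h3
    rw [Finset.sum_congr rfl (fun a _ => Finset.sum_comm)]
    rw [Finset.sum_comm]
  refine h4.trans ?_
  calc _ ≤ 20 * M ^ 3 * K * (1 + Real.log X) ^ 2 * m ^ 2 * X ^ 2 * √(m / X + √δ) +
        20 * M ^ 3 * K * (1 + Real.log X) ^ 2 * m ^ 2 * X ^ 2 * √(m / X + √δ) +
        20 * M ^ 3 * K * (1 + Real.log X) ^ 2 * m ^ 2 * X ^ 2 * √(m / X + √δ) :=
        add_le_add (add_le_add h1 h2') h3'
    _ = _ := by ring

end Pool.Agent.Helper48.BK
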