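import Pool.Agent.Helper48.BK.StW

/-! # Module Est: Estermann's lemma -/

set_option autoImplicit false

namespace Pool.Agent.Helper48.BK

open Finset ArithmeticFunction Complex

theorem deriv_inv_Est (lam : ℝ) (m : ℕ) :
    iteratedDeriv m (fun s : ℂ => (lam : ℂ) / (s - 1)) 2 = lam * ((-1) ^ m * (m.factorial : ℂ)) := by
  have e : (fun s : ℂ => (lam : ℂ) / (s - 1)) = fun s : ℂ => (lam : ℂ) * (1 * s - 1)⁻¹ := by
    funext s; rw [one_mul, div_eq_mul_inv]
  rw [e, iteratedDeriv_const_mul_field, iteratedDeriv_eq_iterate, iter_deriv_inv_linear_sub]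
  norm_num

/-- the derivatives of `G` at `2` -/
theorem coef_Est (a : ℕ → ℝ) (G : ℂ → ℂ) (lam : ℝ) (ha : ∀ n, 0 ≤ a n)
    (hG : ∀ s : ℂ, 1 < s.re → LSeriesSummable (fun n => (a n : ℂ)) s ∧
      LSeries (fun n => (a n : ℂ)) s = G s + lam / (s - 1))
    (hGd : Differentiable ℂ G) (m : ℕ) :
    -lam ≤ ((-1) ^ m * ((m.factorial : ℂ))⁻¹ * iteratedDeriv m G 2).re := by
  set F : ℂ → ℂ := LSeries (fun n => (a n : ℂ)) with hF
  have hab : LSeries.abscissaOfAbsConv (fun n => (a n : ℂ)) < ((2 : ℝ) : EReal) := by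
    have h1 := (hG (3 / 2 : ℝ) (by norm_num)).1.abscissaOfAbsConv_le
    refine lt_of_le_of_lt h1 ?_
    rw [Complex.ofReal_re]
    exact_mod_cast (by norm_num : (3 / 2 : ℝ) < 2)
  have hpos := LSeries.iteratedDeriv_alternating (a := fun n => (a n : ℂ))
    (fun n => by simpa using ha n) (x := 2) hab m
  have hev : F =ᶠ[nhds (2 : ℂ)] fun s => G s + lam / (s - 1) := by
    have ho : IsOpen {s : ℂ | 1 < s.re} := isOpen_lt continuous_const Complex.continuous_re
    filter_upwards [ho.mem_nhds (show (2 : ℂ) ∈ {s : ℂ | 1 < s.re} by simp)] with s hs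
    exact (hG s hs).2
  have hder : iteratedDeriv m F 2 = iteratedDeriv m G 2 + lam * ((-1) ^ m * (m.factorial : ℂ)) := by
    rw [hev.iteratedDeriv_eq]
    have hadd := iteratedDeriv_fun_add (n := m) (x := (2 : ℂ)) (f := G)
      (g := fun s : ℂ => (lam : ℂ) / (s - 1)) ?_ ?_
    · rw [hadd, deriv_inv_Est]
    · exact hGd.contDiff.contDiffAt
    · apply ContDiffAt.div
      · exact contDiffAt_const
      · exact contDiffAt_id.sub contDiffAt_const
      · norm_num
  have hfac : (m.factorial : ℂ) ≠ 0 := by exact_mod_cast m.factorial_ne_zero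
  have e1 : (-1) ^ m * ((m.factorial : ℂ))⁻¹ * iteratedDeriv m G 2 =
      ((m.factorial : ℝ)⁻¹ : ℝ) * ((-1) ^ m * iteratedDeriv m F 2) - lam := by
    rw [hder]
    have h2 : ((-1 : ℂ) ^ m) * (-1) ^ m = 1 := by
      rw [← mul_pow]; simp
    push_cast
    have : ((m.factorial : ℂ))⁻¹ * ((-1) ^ m * (iteratedDeriv m G 2 +
        lam * ((-1) ^ m * (m.factorial : ℂ)))) = (-1) ^ m * ((m.factorial : ℂ))⁻¹ *
        iteratedDeriv m G 2 + lam * (((-1 : ℂ) ^ m) * (-1) ^ m) *
          (((m.factorial : ℂ))⁻¹ * (m.factorial : ℂ)) := by ring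
    rw [this, h2, inv_mul_cancel₀ hfac]
    ring
  rw [e1, Complex.sub_re, Complex.re_ofReal_mul, Complex.ofReal_re]
  have h3 : 0 ≤ ((-1) ^ m * iteratedDeriv m F 2).re := by
    have := (Complex.le_def.1 hpos).1
    simpa using this
  have h4 : 0 ≤ ((m.factorial : ℝ))⁻¹ := by positivity
  have := mul_nonneg h4 h3
  linarith

theorem zero_Est (a : ℕ → ℝ) (G : ℂ → ℂ) (lam : ℝ) (ha : ∀ n, 0 ≤ a n) (ha1 : 1 ≤ a 1)
    (hG : ∀ s : ℂ, 1 < s.re → LSeriesSummable (fun n => (a n : ℂ)) s ∧
      LSeries (fun n => (a n : ℂ)) s = G s + lam / (s - 1)) :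
    1 - lam ≤ (G 2).re := by
  obtain ⟨h1, h2⟩ := hG 2 (by norm_num)
  have h3 : G 2 = LSeries (fun n => (a n : ℂ)) 2 - lam := by
    rw [h2]; norm_num
  rw [h3, Complex.sub_re, Complex.ofReal_re]
  have h4 : 1 ≤ (LSeries (fun n => (a n : ℂ)) 2).re := by
    unfold LSeries
    rw [Complex.re_tsum h1]
    have hnn : ∀ n, 0 ≤ (LSeries.term (fun n => (a n : ℂ)) 2 n).re := by
      intro n
      rcases Nat.eq_zero_or_pos n with rfl | hn
      · simp
      · rw [LSeries.term_of_ne_zero hn.ne']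
        have : ((a n : ℝ) : ℂ) / (n : ℂ) ^ (2 : ℂ) = ((a n / (n : ℝ) ^ 2 : ℝ) : ℂ) := by
          push_cast
          congr 1
          exact_mod_cast Complex.cpow_natCast (n : ℂ) 2
        rw [this, Complex.ofReal_re]
        exact div_nonneg (ha n) (by positivity)
    have hs : Summable (fun n => (LSeries.term (fun n => (a n : ℂ)) 2 n).re) :=
      (Complex.hasSum_re h1.hasSum).summable
    refine le_trans ?_ (hs.le_tsum 1 (fun n _ => hnn n))
    rw [LSeries.term_of_ne_zero one_ne_zero]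
    simpa using ha1
  linarith

theorem hEst : StEst := by
  refine ⟨Real.exp 2, Real.one_le_exp (by norm_num), ?_⟩
  intro a G lam M ha ha1 hlam hM hG hGd hGM σ hσ1 hσ2
  set x : ℝ := 2 - σ with hx
  have hx1 : 1 < x := by rw [hx]; linarith
  have hx2 : x ≤ 9 / 8 := by rw [hx]; linarith
  set γ : ℕ → ℂ := fun m => (-1) ^ m * ((m.factorial : ℂ))⁻¹ * iteratedDeriv m G 2 with hγ
  have hγre : ∀ m, -lam ≤ (γ m).re := fun m => coef_Est a G lam ha hG hGd m
  have hγ0 : 1 - lam ≤ (γ 0).re := by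
    simp only [hγ]
    simpa using zero_Est a G lam ha ha1 hG
  have hγn : ∀ m, ‖γ m‖ ≤ M * (2 / 3) ^ m := by
    intro m
    have h1 := Complex.norm_iteratedDeriv_le_of_forall_mem_sphere_norm_le (c := 2) (R := 3 / 2)
      (C := M) (f := G) m (by norm_num) hGd.diffContOnCl
      (fun z hz => hGM z (mem_sphere_iff_norm.1 hz))
    simp only [hγ]
    rw [norm_mul, norm_mul, norm_pow, norm_neg, norm_one, one_pow, one_mul, norm_inv,
      Complex.norm_natCast]
    have hf : (0 : ℝ) < m.factorial := by exact_mod_cast m.factorial_pos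
    calc ((m.factorial : ℝ))⁻¹ * ‖iteratedDeriv m G 2‖
        ≤ ((m.factorial : ℝ))⁻¹ * (m.factorial * M / (3 / 2) ^ m) :=
          mul_le_mul_of_nonneg_left h1 (by positivity)
      _ = M * (2 / 3) ^ m := by
          rw [div_pow, div_pow]
          field_simp
  have hsum : HasSum (fun m : ℕ => (γ m).re * x ^ m) (G σ).re := by
    have h1 := Complex.hasSum_taylorSeries_of_entire hGd 2 (σ : ℂ)
    have h2 := Complex.hasSum_re h1
    convert h2 using 1
    funext m
    have : ((m.factorial : ℂ))⁻¹ • ((σ : ℂ) - 2) ^ m • iteratedDeriv m G 2 =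
        ((x ^ m : ℝ) : ℂ) * γ m := by
      simp only [hγ, smul_eq_mul]
      have e1 : ((σ : ℂ) - 2) = (-1) * ((x : ℝ) : ℂ) := by
        rw [hx]; push_cast; ring
      rw [e1, mul_pow]
      push_cast
      ring
    rw [this, Complex.re_ofReal_mul, mul_comm]
  -- choice of the cut
  set N : ℕ := ⌈4 * (Real.log M + Real.log 8)⌉₊ with hN
  have hlM : 0 ≤ Real.log M := Real.log_nonneg hM
  have hl8 : 0 < Real.log 8 := Real.log_pos (by norm_num)
  have hN1 : 1 ≤ N := by
    rw [hN]
    exact Nat.one_le_iff_ne_zero.2 (Nat.ceil_pos.2 (by positivity)).ne'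
  have hNlo : 4 * (Real.log M + Real.log 8) ≤ N := Nat.le_ceil _
  have hNhi : (N : ℝ) ≤ 4 * (Real.log M + Real.log 8) + 1 := (Nat.ceil_lt_add_one (by positivity)).le
  have h34 : ((3 : ℝ) / 4) ^ N ≤ 1 / (8 * M) := by
    have h1 : (3 : ℝ) / 4 ≤ Real.exp (-(1 / 4)) := by
      have := Real.add_one_le_exp (-(1 / 4) : ℝ)
      linarith
    calc ((3 : ℝ) / 4) ^ N ≤ (Real.exp (-(1 / 4))) ^ N := pow_le_pow_left₀ (by norm_num) h1 N
      _ = Real.exp (N * (-(1 / 4))) := by rw [← Real.exp_nat_mul]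
      _ ≤ Real.exp (-(Real.log M + Real.log 8)) := by
          apply Real.exp_le_exp.2
          linarith
      _ = 1 / (8 * M) := by
          rw [Real.exp_neg, Real.exp_add, Real.exp_log (by linarith), Real.exp_log (by norm_num)]
          rw [one_div, mul_comm]
  have hxN : x ^ N ≤ Real.exp 2 * M ^ (8 * (1 - σ)) := by
    have h1 : x ≤ Real.exp (x - 1) := by
      have := Real.add_one_le_exp (x - 1)
      linarith
    have hl8' : Real.log 8 ≤ 2.1 := by
      have h2 := Real.log_two_lt_d9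
      have h3 : Real.log 8 = 3 * Real.log 2 := by
        rw [show (8 : ℝ) = 2 ^ 3 by norm_num, Real.log_pow]; norm_num
      rw [h3]; linarith
    have hxs : x - 1 = 1 - σ := by rw [hx]; ring
    calc x ^ N ≤ (Real.exp (x - 1)) ^ N := pow_le_pow_left₀ (by linarith) h1 N
      _ = Real.exp (N * (x - 1)) := by rw [← Real.exp_nat_mul]
      _ ≤ Real.exp (2 + Real.log M * (8 * (1 - σ))) := by
          apply Real.exp_le_exp.2
          rw [hxs]
          have h4 : 0 < 1 - σ := by linarith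
          have h5 : 1 - σ ≤ 1 / 8 := by linarith
          have h6 : 0 ≤ Real.log M * (1 - σ) := mul_nonneg hlM h4.le
          nlinarith
      _ = Real.exp 2 * M ^ (8 * (1 - σ)) := by
          rw [Real.exp_add, Real.rpow_def_of_pos (by linarith)]
  -- the main inequality
  have hs := hsum.summable
  have hsplit := hs.sum_add_tsum_nat_add N
  rw [hsum.tsum_eq] at hsplit
  have htail : |∑' i, (γ (i + N)).re * x ^ (i + N)| ≤ 1 / 2 := by
    have hg : HasSum (fun i : ℕ => M * (3 / 4 : ℝ) ^ (i + N)) (M * (3 / 4) ^ N * 4) := by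
      have h1 := (hasSum_geometric_of_lt_one (r := (3 / 4 : ℝ)) (by norm_num) (by norm_num)).mul_left
        (M * (3 / 4) ^ N)
      have e2 : (1 - (3 / 4 : ℝ))⁻¹ = 4 := by norm_num
      rw [e2] at h1
      have e5 : (fun i : ℕ => M * (3 / 4 : ℝ) ^ (i + N)) =
          fun i : ℕ => M * (3 / 4) ^ N * (3 / 4) ^ i := by
        funext i
        rw [pow_add]; ring
      rw [e5]
      exact h1
    have h2 : ‖∑' i, (γ (i + N)).re * x ^ (i + N)‖ ≤ M * (3 / 4) ^ N * 4 := by
      apply tsum_of_norm_bounded hg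
      intro i
      rw [norm_mul, norm_pow, Real.norm_of_nonneg (show 0 ≤ x by linarith)]
      have h3 : ‖(γ (i + N)).re‖ ≤ M * (2 / 3) ^ (i + N) := by
        rw [Real.norm_eq_abs]
        exact (Complex.abs_re_le_norm _).trans (hγn _)
      calc ‖(γ (i + N)).re‖ * x ^ (i + N) ≤ M * (2 / 3) ^ (i + N) * (9 / 8) ^ (i + N) := by
            refine mul_le_mul h3 (pow_le_pow_left₀ (by linarith) hx2 _) (by positivity)
              (by positivity)
        _ = M * (3 / 4) ^ (i + N) := by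
            rw [mul_assoc, ← mul_pow]; norm_num
    rw [← Real.norm_eq_abs]
    refine h2.trans ?_
    have : M * (3 / 4) ^ N * 4 ≤ M * (1 / (8 * M)) * 4 := by gcongr
    refine this.trans (le_of_eq ?_)
    field_simp
    norm_num
  have hhead : 1 - lam * ∑ i ∈ range N, x ^ i ≤ ∑ i ∈ range N, (γ i).re * x ^ i := by
    have h1 : 1 ≤ ∑ i ∈ range N, ((γ i).re * x ^ i + lam * x ^ i) := by
      have h2 := Finset.single_le_sum (s := range N)
        (f := fun i => (γ i).re * x ^ i + lam * x ^ i) (fun i _ => by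
          have h5 : 0 ≤ (γ i).re + lam := by linarith [hγre i]
          have h6 : 0 ≤ x ^ i := by positivity
          have := mul_nonneg h5 h6
          show 0 ≤ (γ i).re * x ^ i + lam * x ^ i
          linarith) (mem_range.2 hN1)
      refine le_trans ?_ h2
      show 1 ≤ (γ 0).re * x ^ 0 + lam * x ^ 0
      rw [pow_zero]; linarith
    rw [Finset.sum_add_distrib, ← Finset.mul_sum] at h1
    linarith
  rw [geom_sum_eq hx1.ne'] at hhead
  have hx0 : 0 < x - 1 := by linarith
  have e3 : lam / (σ - 1) = -(lam / (x - 1)) := by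
    have : σ - 1 = -(x - 1) := by rw [hx]; ring
    rw [this, div_neg]
  have e4 : lam * ((x ^ N - 1) / (x - 1)) = lam * x ^ N / (x - 1) - lam / (x - 1) := by
    field_simp
  rw [e3]
  rw [e4] at hhead
  have h5 := (abs_le.1 htail).1
  have h6 : lam * x ^ N / (x - 1) ≤ Real.exp 2 * lam * M ^ (8 * (1 - σ)) / (1 - σ) := by
    have hxs : x - 1 = 1 - σ := by rw [hx]; ring
    rw [hxs]
    rw [hxs] at hx0
    have : lam * x ^ N ≤ Real.exp 2 * lam * M ^ (8 * (1 - σ)) := by
      calc lam * x ^ N ≤ lam * (Real.exp 2 * M ^ (8 * (1 - σ))) :=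
            mul_le_mul_of_nonneg_left hxN hlam
        _ = _ := by ring
    exact div_le_div_of_nonneg_right this hx0.le
  linarith

end Pool.Agent.Helper48.BK
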