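import Pool.Agent.Helper48.BK.StB

/-!
# Project BK, module Gcd: sums of greatest common divisors
-/

set_option autoImplicit false

namespace Pool.Agent.Helper48.BK

open Finset

theorem harm_Gcd (X : ℕ) : ∑ u ∈ Icc 1 X, (1 : ℝ) / u ≤ 1 + Real.log X := by
  have h := harmonic_le_one_add_log X
  rw [harmonic_eq_sum_Icc] at h
  push_cast at h
  simpa only [one_div] using h

theorem card_mult_Gcd (X u : ℕ) : ((Icc 1 X).filter fun h => u ∣ h).card = X / u := by
  have h1 : (Icc 1 X : Finset ℕ) = Ioc 0 X := by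
    ext x; simp [Nat.succ_le_iff]
  rw [h1, Nat.Ioc_filter_dvd_card_eq_div]

theorem hGcd : StGcd := by
  intro m hm
  have h1 : ∀ c ∈ Icc 1 m, ∀ c' ∈ Icc 1 m, (Nat.gcd c c' : ℝ) =
      ∑ e ∈ Icc 1 m, (Nat.totient e : ℝ) * ((if e ∣ c then 1 else 0) * (if e ∣ c' then 1 else 0)) := by
    intro c hc c' _
    have hc1 := (mem_Icc.1 hc).1
    have hg := Nat.gcd_pos_of_pos_left c' (show 0 < c by exact hc1)
    have h2 : (Nat.gcd c c' : ℝ) = ∑ e ∈ (Nat.gcd c c').divisors, (Nat.totient e : ℝ) := by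
      exact_mod_cast (Nat.sum_totient (Nat.gcd c c')).symm
    rw [h2]
    have h3 : (Nat.gcd c c').divisors ⊆ Icc 1 m := by
      intro e he
      have he1 := (Nat.mem_divisors.1 he).1
      exact mem_Icc.2 ⟨Nat.pos_of_dvd_of_pos he1 hg,
        ((Nat.le_of_dvd hg he1).trans (Nat.gcd_le_left c' hc1)).trans (mem_Icc.1 hc).2⟩
    have h4 : ∀ e ∈ Icc 1 m, (Nat.totient e : ℝ) *
        ((if e ∣ c then 1 else 0) * (if e ∣ c' then 1 else 0)) =
        if e ∈ (Nat.gcd c c').divisors then (Nat.totient e : ℝ) else 0 := by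
      intro e _
      have h5 : e ∈ (Nat.gcd c c').divisors ↔ e ∣ c ∧ e ∣ c' := by
        rw [Nat.mem_divisors, Nat.dvd_gcd_iff]
        exact and_iff_left hg.ne'
      by_cases ha : e ∣ c <;> by_cases hb : e ∣ c' <;> simp [ha, hb, h5]
    rw [sum_congr rfl h4, ← sum_filter]
    refine sum_congr ?_ fun _ _ => rfl
    ext e
    rw [mem_filter]
    exact ⟨fun h => ⟨h3 h, h⟩, fun h => h.2⟩
  calc ∑ c ∈ Icc 1 m, ∑ c' ∈ Icc 1 m, (Nat.gcd c c' : ℝ)
      = ∑ c ∈ Icc 1 m, ∑ c' ∈ Icc 1 m, ∑ e ∈ Icc 1 m, (Nat.totient e : ℝ) *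
          ((if e ∣ c then 1 else 0) * (if e ∣ c' then 1 else 0)) :=
        sum_congr rfl fun c hc => sum_congr rfl fun c' hc' => h1 c hc c' hc'
    _ = ∑ e ∈ Icc 1 m, (Nat.totient e : ℝ) * (((m / e : ℕ) : ℝ) * ((m / e : ℕ) : ℝ)) := by
        have h2 : ∀ e : ℕ, ∑ c ∈ Icc 1 m, (if e ∣ c then (1 : ℝ) else 0) = ((m / e : ℕ) : ℝ) := by
          intro e
          rw [← sum_filter, sum_const, nsmul_eq_mul, mul_one, card_mult_Gcd]
        rw [sum_congr rfl fun c _ => sum_comm, sum_comm]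
        refine sum_congr rfl fun e _ => ?_
        rw [← h2 e, sum_mul_sum, mul_sum]
        exact sum_congr rfl fun c _ => by rw [mul_sum]
    _ ≤ ∑ e ∈ Icc 1 m, (m : ℝ) ^ 2 * (1 / e) := by
        refine sum_le_sum fun e he => ?_
        have he1 : (0 : ℝ) < e := by exact_mod_cast (mem_Icc.1 he).1
        have hq : ((m / e : ℕ) : ℝ) ≤ m / e := Nat.cast_div_le
        have ht : (Nat.totient e : ℝ) ≤ e := by exact_mod_cast Nat.totient_le e
        calc (Nat.totient e : ℝ) * (((m / e : ℕ) : ℝ) * ((m / e : ℕ) : ℝ))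
            ≤ e * ((m / e) * (m / e)) := by
              refine mul_le_mul ht (mul_le_mul hq hq (by positivity) (by positivity))
                (by positivity) (by positivity)
          _ = (m : ℝ) ^ 2 * (1 / e) := by field_simp
    _ = m ^ 2 * ∑ e ∈ Icc 1 m, (1 : ℝ) / e := by rw [mul_sum]
    _ ≤ _ := mul_le_mul_of_nonneg_left (harm_Gcd m) (by positivity)

end Pool.Agent.Helper48.BK
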