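import Pool.Agent.Helper48.BK.StD

/-!
# Project BK: module Geo2
-/

set_option autoImplicit false

namespace Pool.Agent.Helper48.BK

open Finset

theorem nd_nonneg_Geo2 (t : ℝ) : 0 ≤ nd t := abs_nonneg _

theorem gs_le_N_Geo2 {N t : ℝ} (_hN : 1 ≤ N) : gs N t ≤ N := by
  unfold gs
  split_ifs with h
  · exact le_refl _
  · push Not at h
    have h0 : 0 ≤ nd t := nd_nonneg_Geo2 t
    have h1 : 0 < nd t := by
      rcases h0.eq_or_lt with h2 | h2
      · rw [← h2] at h; simp at h; linarith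
      · exact h2
    rw [div_le_iff₀ h1]
    exact h.le

theorem gs_le_inv_Geo2 {N t c : ℝ} (_hN : 1 ≤ N) (hc : 0 < c) (h : c ≤ nd t) : gs N t ≤ 1 / c := by
  have h1 : 0 < nd t := lt_of_lt_of_le hc h
  have h2 : 1 / nd t ≤ 1 / c := one_div_le_one_div_of_le hc h
  unfold gs
  split_ifs with h3
  · refine le_trans ?_ h2
    rw [le_div_iff₀ h1]
    exact h3
  · exact h2

/-- the lower bound for the distance to the nearest integer -/
theorem nd_low_Geo2 {q : ℕ} (hq : 1 ≤ q) (n s : ℤ) (j : ℕ) (hj : n = j + q * s) (hjq : j < q)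
    (t : ℝ) (ht : |t - n / q| ≤ 2 / q) :
    ((min j (q - j) : ℕ) : ℝ) / q - 2 / q ≤ nd t := by
  have hq0 : (0 : ℝ) < q := by exact_mod_cast hq
  unfold nd
  set z : ℤ := round t with hz
  have h1 : |(n : ℝ) / q - z| ≤ |t - z| + 2 / q := by
    have : (n : ℝ) / q - z = (t - z) - (t - n / q) := by ring
    rw [this]
    exact le_trans (abs_sub _ _) (by linarith)
  have h2 : ((min j (q - j) : ℕ) : ℝ) / q ≤ |(n : ℝ) / q - z| := by
    have h3 : (n : ℝ) / q - z = ((n - q * z : ℤ) : ℝ) / q := by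
      push_cast
      field_simp
    rw [h3, abs_div, abs_of_pos hq0]
    apply div_le_div_of_nonneg_right _ hq0.le
    rw [← Int.cast_abs]
    have h4 : ((min j (q - j) : ℕ) : ℤ) ≤ |n - q * z| := by
      rcases le_or_gt 0 (s - z) with h5 | h5
      · have h6 : (j : ℤ) ≤ n - q * z := by
          rw [hj]
          nlinarith [mul_nonneg (by positivity : (0 : ℤ) ≤ q) h5]
        calc ((min j (q - j) : ℕ) : ℤ) ≤ j := by exact_mod_cast min_le_left _ _
          _ ≤ n - q * z := h6
          _ ≤ |n - q * z| := le_abs_self _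
      · have h6 : ((q - j : ℕ) : ℤ) ≤ -(n - q * z) := by
          rw [hj, Nat.cast_sub hjq.le]
          have h7 : s - z + 1 ≤ 0 := by omega
          nlinarith [mul_nonneg (by positivity : (0 : ℤ) ≤ q) (neg_nonneg.mpr h7)]
        calc ((min j (q - j) : ℕ) : ℤ) ≤ ((q - j : ℕ) : ℤ) := by exact_mod_cast min_le_right _ _
          _ ≤ -(n - q * z) := h6
          _ ≤ |n - q * z| := neg_le_abs _
    exact_mod_cast h4
  linarith

/-- the majorant on residues -/
noncomputable def maj_Geo2 (q : ℕ) (N : ℝ) (j : ℕ) : ℝ :=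
  if min j (q - j) < 3 then N else 3 * q / ((min j (q - j) : ℕ) : ℝ)

theorem maj_nonneg_Geo2 {q : ℕ} {N : ℝ} (hN : 1 ≤ N) (j : ℕ) : 0 ≤ maj_Geo2 q N j := by
  unfold maj_Geo2
  split_ifs
  · linarith
  · positivity

theorem harm_Geo2 (q : ℕ) (_hq : 1 ≤ q) : ∑ j ∈ Icc 1 q, (1 : ℝ) / j ≤ 1 + Real.log q := by
  have h := harmonic_le_one_add_log q
  rw [harmonic_eq_sum_Icc] at h
  push_cast at h
  simpa [one_div] using h

theorem maj_sum_Geo2 {q : ℕ} (hq : 1 ≤ q) {N : ℝ} (hN : 1 ≤ N) :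
    ∑ j ∈ range q, maj_Geo2 q N j ≤ 6 * N + 6 * (q * (1 + Real.log q)) := by
  have hq0 : (0 : ℝ) < q := by exact_mod_cast hq
  have key : ∀ j ∈ range q, maj_Geo2 q N j ≤
      (if j < 3 then N else 0) + (if q - j < 3 then N else 0) +
      (if 1 ≤ j then 3 * q * (1 / (j : ℝ)) else 0) + 3 * q * (1 / ((q - j : ℕ) : ℝ)) := by
    intro j hj
    have hjq : j < q := mem_range.mp hj
    have p1 : 0 ≤ (if j < 3 then N else 0) := by split_ifs <;> linarith
    have p2 : 0 ≤ (if q - j < 3 then N else 0) := by split_ifs <;> linarith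
    have p3 : 0 ≤ (if 1 ≤ j then 3 * (q : ℝ) * (1 / (j : ℝ)) else 0) := by
      split_ifs
      · positivity
      · exact le_refl _
    have p4 : 0 ≤ 3 * (q : ℝ) * (1 / ((q - j : ℕ) : ℝ)) := by positivity
    unfold maj_Geo2
    by_cases h : min j (q - j) < 3
    · rw [if_pos h]
      rcases min_lt_iff.mp h with h1 | h1
      · rw [if_pos h1]; linarith
      · rw [if_pos h1]; linarith
    · rw [if_neg h]
      push Not at h
      have h3 : 3 ≤ j := le_trans h (min_le_left _ _)
      rcases le_total j (q - j) with h1 | h1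
      · rw [min_eq_left h1]
        have : (if 1 ≤ j then 3 * (q : ℝ) * (1 / (j : ℝ)) else 0) = 3 * q / j := by
          rw [if_pos (by omega)]; ring
        rw [this] at *
        linarith
      · rw [min_eq_right h1]
        have : 3 * (q : ℝ) * (1 / ((q - j : ℕ) : ℝ)) = 3 * q / ((q - j : ℕ) : ℝ) := by ring
        linarith
  refine le_trans (sum_le_sum key) ?_
  rw [sum_add_distrib, sum_add_distrib, sum_add_distrib]
  have s1 : ∑ j ∈ range q, (if j < 3 then N else 0) ≤ 3 * N := by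
    rw [← sum_filter, sum_const, nsmul_eq_mul]
    apply mul_le_mul_of_nonneg_right _ (by linarith)
    have : ((range q).filter (fun j => j < 3)).card ≤ (range 3).card := by
      apply card_le_card
      intro j hj
      simp only [mem_filter, mem_range] at hj ⊢
      exact hj.2
    rw [card_range] at this
    exact_mod_cast this
  have s2 : ∑ j ∈ range q, (if q - j < 3 then N else 0) ≤ 3 * N := by
    rw [← sum_range_reflect]
    have : ∑ j ∈ range q, (if q - (q - 1 - j) < 3 then N else 0) ≤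
        ∑ j ∈ range q, (if j < 3 then N else 0) := by
      apply sum_le_sum
      intro j hj
      have hjq : j < q := mem_range.mp hj
      have e : q - (q - 1 - j) = j + 1 := by omega
      rw [e]
      by_cases h : j + 1 < 3
      · rw [if_pos h, if_pos (by omega)]
      · rw [if_neg h]
        split_ifs <;> linarith
    exact le_trans this s1
  have s3 : ∑ j ∈ range q, (if 1 ≤ j then 3 * (q : ℝ) * (1 / (j : ℝ)) else 0) ≤
      3 * q * (1 + Real.log q) := by
    rw [← sum_filter, ← mul_sum]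
    apply mul_le_mul_of_nonneg_left _ (by positivity)
    refine le_trans ?_ (harm_Geo2 q hq)
    apply sum_le_sum_of_subset_of_nonneg
    · intro j hj
      simp only [mem_filter, mem_range, mem_Icc] at hj ⊢
      omega
    · intro j _ _
      positivity
  have s4 : ∑ j ∈ range q, 3 * (q : ℝ) * (1 / ((q - j : ℕ) : ℝ)) ≤ 3 * q * (1 + Real.log q) := by
    rw [← mul_sum]
    apply mul_le_mul_of_nonneg_left _ (by positivity)
    refine le_trans ?_ (harm_Geo2 q hq)
    rw [← sum_range_reflect]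
    have e1 : ∑ j ∈ range q, (1 : ℝ) / ((q - (q - 1 - j) : ℕ) : ℝ) =
        ∑ j ∈ range q, (1 : ℝ) / ((j + 1 : ℕ) : ℝ) := by
      apply sum_congr rfl
      intro j hj
      have hjq : j < q := mem_range.mp hj
      have e : q - (q - 1 - j) = j + 1 := by omega
      rw [e]
    rw [e1]
    have e2 : ∑ j ∈ range q, (1 : ℝ) / ((j + 1 : ℕ) : ℝ) = ∑ j ∈ Icc 1 q, (1 : ℝ) / (j : ℝ) := by
      have e3 : ∑ x ∈ (range q).image (fun j : ℕ => j + 1), (1 : ℝ) / ((x : ℕ) : ℝ) =
          ∑ j ∈ range q, (1 : ℝ) / ((j + 1 : ℕ) : ℝ) :=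
        Finset.sum_image (by intro x _ y _ h; simpa using h)
      rw [← e3]
      apply sum_congr _ (fun _ _ => rfl)
      ext j
      simp only [mem_image, mem_range, mem_Icc]
      constructor
      · rintro ⟨a, ha, rfl⟩; omega
      · intro h; exact ⟨j - 1, by omega, by omega⟩
    rw [e2]
  linarith

/-- one block -/
theorem block_Geo2 {q : ℕ} {N α : ℝ} {h : ℤ} (hN : 1 ≤ N) (hα : Apx α h q) (k₀ : ℕ) :
    ∑ r ∈ range q, gs N (((k₀ + r : ℕ) : ℝ) * α) ≤ 6 * (N + q * (1 + Real.log q)) := by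
  obtain ⟨hq, hco, hap⟩ := hα
  have hq0 : (0 : ℝ) < q := by exact_mod_cast hq
  have hqz : (0 : ℤ) < q := by exact_mod_cast hq
  set m₀ : ℤ := ⌊(k₀ : ℝ) * α * q⌋ with hm
  have hfl := Int.floor_le ((k₀ : ℝ) * α * q)
  have hfl2 := Int.lt_floor_add_one ((k₀ : ℝ) * α * q)
  rw [← hm] at hfl hfl2
  set φ : ℕ → ℕ := fun r => ((m₀ + r * h) % (q : ℤ)).toNat with hφ
  have hφz : ∀ r, ((φ r : ℕ) : ℤ) = (m₀ + r * h) % (q : ℤ) := by
    intro r
    exact Int.toNat_of_nonneg (Int.emod_nonneg _ hqz.ne')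
  have hφlt : ∀ r, φ r < q := by
    intro r
    have h1 : ((φ r : ℕ) : ℤ) < q := by rw [hφz]; exact Int.emod_lt_of_pos _ hqz
    exact_mod_cast h1
  have hinj : Set.InjOn φ (range q : Set ℕ) := by
    intro r hr r' hr' he
    simp only [coe_range, Set.mem_Iio] at hr hr'
    have h1 : (m₀ + r * h) % (q : ℤ) = (m₀ + r' * h) % (q : ℤ) := by
      rw [← hφz, ← hφz, he]
    have h2 : (q : ℤ) ∣ (m₀ + r * h) - (m₀ + r' * h) := Int.ModEq.dvd (Int.ModEq.symm h1)
    have h3 : (q : ℤ) ∣ h * ((r : ℤ) - r') := by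
      have : (m₀ + r * h) - (m₀ + r' * h) = h * ((r : ℤ) - r') := by ring
      rwa [this] at h2
    have h4 : (q : ℤ) ∣ (r : ℤ) - r' := hco.symm.dvd_of_dvd_mul_left h3
    have h5 : |(r : ℤ) - r'| < q := by
      rw [abs_lt]; constructor <;> omega
    have h6 := Int.eq_zero_of_abs_lt_dvd h4 h5
    omega
  have hterm : ∀ r ∈ range q, gs N (((k₀ + r : ℕ) : ℝ) * α) ≤ maj_Geo2 q N (φ r) := by
    intro r hr
    have hrq : r < q := mem_range.mp hr
    unfold maj_Geo2
    split_ifs with h1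
    · exact gs_le_N_Geo2 hN
    · push Not at h1
      set j := φ r with hj
      have hμ : (3 : ℝ) ≤ ((min j (q - j) : ℕ) : ℝ) := by exact_mod_cast h1
      set μ : ℝ := ((min j (q - j) : ℕ) : ℝ) with hμd
      have hd : |((k₀ + r : ℕ) : ℝ) * α - ((m₀ + r * h : ℤ) : ℝ) / q| ≤ 2 / q := by
        have e : ((k₀ + r : ℕ) : ℝ) * α - ((m₀ + r * h : ℤ) : ℝ) / q =
            ((k₀ : ℝ) * α * q - m₀) / q + r * (α - h / q) := by
          push_cast
          field_simp
          ring
        rw [e]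
        have b1 : |((k₀ : ℝ) * α * q - m₀) / q| ≤ 1 / q := by
          rw [abs_div, abs_of_pos hq0]
          apply div_le_div_of_nonneg_right _ hq0.le
          rw [abs_le]; constructor <;> linarith
        have b2 : |(r : ℝ) * (α - h / q)| ≤ 1 / q := by
          rw [abs_mul, abs_of_nonneg (by positivity : (0 : ℝ) ≤ r)]
          have hr1 : (r : ℝ) ≤ q := by exact_mod_cast hrq.le
          calc (r : ℝ) * |α - h / q| ≤ q * (1 / (q : ℝ) ^ 2) :=
                mul_le_mul hr1 hap (abs_nonneg _) hq0.le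
            _ = 1 / q := by field_simp
        calc _ ≤ |((k₀ : ℝ) * α * q - m₀) / q| + |(r : ℝ) * (α - h / q)| := abs_add_le _ _
          _ ≤ 1 / q + 1 / q := add_le_add b1 b2
          _ = 2 / q := by ring
      have hlow := nd_low_Geo2 hq (m₀ + r * h) ((m₀ + r * h) / (q : ℤ)) j
        (by rw [hj, hφz]; exact (Int.emod_add_mul_ediv _ _).symm) (hφlt r) _ hd
      have hc : (0 : ℝ) < μ / (3 * q) := by positivity
      have hle : μ / (3 * q) ≤ nd (((k₀ + r : ℕ) : ℝ) * α) := by
        refine le_trans ?_ hlow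
        rw [← hμd, ← sub_div, div_le_div_iff₀ (by positivity) hq0]
        nlinarith
      refine le_trans (gs_le_inv_Geo2 hN hc hle) ?_
      rw [one_div_div]
  have hsum : ∑ r ∈ range q, maj_Geo2 q N (φ r) ≤ ∑ j ∈ range q, maj_Geo2 q N j := by
    rw [← Finset.sum_image (g := φ) (f := maj_Geo2 q N) hinj]
    apply sum_le_sum_of_subset_of_nonneg
    · intro j hj
      obtain ⟨r, _, rfl⟩ := mem_image.mp hj
      exact mem_range.mpr (hφlt r)
    · intro j _ _
      exact maj_nonneg_Geo2 hN j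
  have := maj_sum_Geo2 hq hN
  have h1 := le_trans (sum_le_sum hterm) hsum
  linarith

theorem blocks_Geo2 (q : ℕ) (g : ℕ → ℝ) (B : ℝ) (hB : ∀ k₀, ∑ r ∈ range q, g (k₀ + r) ≤ B)
    (n : ℕ) : ∑ k ∈ range (n * q), g k ≤ n * B := by
  induction n with
  | zero => simp
  | succ n ih =>
    rw [Nat.succ_mul, sum_range_add]
    push_cast
    have := hB (n * q)
    linarith

theorem hGeo2 : StGeo2 := by
  refine ⟨6, by norm_num, ?_⟩
  intro K q N h α hN hα
  have hq : 1 ≤ q := hα.1
  have hq0 : (0 : ℝ) < q := by exact_mod_cast hq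
  have hL : 0 ≤ Real.log q := Real.log_nonneg (by exact_mod_cast hq)
  have hgs : ∀ t, 0 ≤ gs N t := by
    intro t
    unfold gs
    split_ifs
    · linarith
    · exact one_div_nonneg.mpr (nd_nonneg_Geo2 t)
  set g : ℕ → ℝ := fun k => gs N (((1 + k : ℕ) : ℝ) * α) with hg
  have h1 : ∑ k ∈ Icc 1 K, gs N ((k : ℝ) * α) = ∑ k ∈ range K, g k := by
    rw [← Finset.sum_image (s := range K) (g := fun j => 1 + j)
      (f := fun k : ℕ => gs N ((k : ℝ) * α)) (by intro x _ y _ h; simpa using h)]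
    apply sum_congr _ (fun _ _ => rfl)
    ext j
    simp only [mem_image, mem_range, mem_Icc]
    constructor
    · intro h; exact ⟨j - 1, by omega, by omega⟩
    · rintro ⟨a, ha, rfl⟩; omega
  have hKq : K ≤ (K / q + 1) * q := by
    have := Nat.lt_div_mul_add (a := K) (b := q) (by omega)
    rw [Nat.add_mul, Nat.one_mul]
    omega
  have h2 : ∑ k ∈ range K, g k ≤ ∑ k ∈ range ((K / q + 1) * q), g k := by
    apply sum_le_sum_of_subset_of_nonneg
    · exact range_subset_range.mpr hKq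
    · intro j _ _
      exact hgs _
  have h3 := blocks_Geo2 q g (6 * (N + q * (1 + Real.log q)))
    (by
      intro k₀
      have := block_Geo2 hN hα (1 + k₀)
      simpa [hg, add_assoc] using this) (K / q + 1)
  rw [h1]
  refine le_trans h2 (le_trans h3 ?_)
  have h4 : (((K / q + 1 : ℕ)) : ℝ) ≤ (K : ℝ) / q + 1 := by
    push_cast
    have := Nat.cast_div_le (α := ℝ) (m := K) (n := q)
    linarith
  have h5 : 0 ≤ N + q * (1 + Real.log q) := by positivity
  calc _ ≤ ((K : ℝ) / q + 1) * (6 * (N + q * (1 + Real.log q))) :=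
        mul_le_mul_of_nonneg_right h4 (by linarith)
    _ = _ := by ring

end Pool.Agent.Helper48.BK
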