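import Pool.Agent.Helper48.BK.StB

/-!
# Project BK: from natural to integer coefficients
-/

set_option autoImplicit false

namespace Pool.Agent.Helper48.BK

open Finset

theorem gcd_Int (a b c : ℤ) : gcd a (gcd b c) = 1 ↔
    Nat.gcd a.natAbs (Nat.gcd b.natAbs c.natAbs) = 1 := by
  rw [← Int.coe_gcd b c, ← Int.coe_gcd a]
  constructor
  · intro h
    have h' : Int.gcd a (Int.gcd b c : ℤ) = 1 := by exact_mod_cast h
    simpa [Int.gcd] using h'
  · intro h
    have h' : Int.gcd a (Int.gcd b c : ℤ) = 1 := by simpa [Int.gcd] using h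
    exact_mod_cast h'

/-- the natural exceptional triple attached to a sign pattern -/
theorem core_Int (C m : ℕ) (a b c d : ℤ) (e : ℤ) (he : e = 1 ∨ e = -1) (x y z : ℕ)
    (had : Even (a + b + c - d) ∧
      gcd a (gcd b c) = 1 ∧ gcd d (gcd a b) = 1 ∧ gcd d (gcd a c) = 1 ∧ gcd d (gcd b c) = 1)
    (ha : a = e * x) (hb : b = e * y) (hc : c = -(e * z))
    (hns : ¬ Solv a b c d ((|(d : ℝ)| / m + m) * Real.log m ^ C)) : ExN C m x y z := by
  obtain ⟨h1, h2, h3, h4, h5⟩ := had
  rw [gcd_Int] at h2 h3 h4 h5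
  have hxa : a.natAbs = x := by rcases he with rfl | rfl <;> subst ha <;> simp
  have hyb : b.natAbs = y := by rcases he with rfl | rfl <;> subst hb <;> simp
  have hzc : c.natAbs = z := by rcases he with rfl | rfl <;> subst hc <;> simp
  rw [hxa, hyb, hzc] at h2
  rw [hxa, hyb] at h3
  rw [hxa, hzc] at h4
  rw [hyb, hzc] at h5
  have hde : (e * d).natAbs = d.natAbs := by rcases he with rfl | rfl <;> simp
  refine ⟨e * d, ⟨?_, h2, by rwa [hde], by rwa [hde], by rwa [hde]⟩, ?_⟩
  · rcases he with rfl | rfl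
    · subst ha hb hc
      simp only [one_mul] at h1 ⊢
      rw [Int.even_iff] at h1 ⊢
      omega
    · subst ha hb hc
      rw [Int.even_iff] at h1 ⊢
      omega
  · rintro ⟨p, q, r, hp, hq, hr, heq, hm⟩
    refine hns ⟨p, q, r, hp, hq, hr, ?_, ?_⟩
    · rcases he with rfl | rfl
      · subst ha hb hc
        linarith
      · subst ha hb hc
        linarith
    · refine hm.trans (le_of_eq ?_)
      congr 3
      rcases he with rfl | rfl
      · push_cast; simp
      · push_cast; simp

theorem solv12_Int {a b c d : ℤ} {B : ℝ} (h : Solv a c b d B) : Solv a b c d B := by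
  obtain ⟨p, q, r, hp, hq, hr, he, hm⟩ := h
  refine ⟨p, r, q, hp, hr, hq, by linarith, ?_⟩
  rwa [max_comm r q]

theorem solv31_Int {a b c d : ℤ} {B : ℝ} (h : Solv b c a d B) : Solv a b c d B := by
  obtain ⟨p, q, r, hp, hq, hr, he, hm⟩ := h
  refine ⟨r, p, q, hr, hp, hq, by linarith, ?_⟩
  have : max r (max p q) = max p (max q r) := by
    rw [← max_assoc p q r, max_comm r]
  rwa [this]

theorem hInt (hNat : StNat) : StInt := by
  classical
  intro A
  obtain ⟨C, m₀, hN⟩ := hNat (A + 1)
  have hlog : Filter.Tendsto (fun n : ℕ => Real.log (n : ℝ)) Filter.atTop Filter.atTop :=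
    Real.tendsto_log_atTop.comp tendsto_natCast_atTop_atTop
  have ev1 : ∀ᶠ n : ℕ in Filter.atTop, (6 : ℝ) ≤ Real.log n := hlog.eventually_ge_atTop _
  obtain ⟨m₁, hm₁⟩ := Filter.eventually_atTop.1
    (ev1.and (Filter.eventually_ge_atTop (max m₀ 3)))
  refine ⟨C, m₁, fun m hm => ?_⟩
  obtain ⟨h6, h5⟩ := hm₁ m hm
  have hN' := hN m ((le_max_left _ _).trans h5)
  set S := ((Icc 1 m) ×ˢ (Icc 1 m) ×ˢ (Icc 1 m)).filter
    (fun v : ℕ × ℕ × ℕ => ExN C m v.1 v.2.1 v.2.2) with hS
  -- the six maps
  set g : ℤ → ℕ → (ℕ × ℕ × ℕ) → ℤ × ℤ × ℤ := fun e i v =>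
    if i = 0 then (e * v.1, e * v.2.1, -(e * v.2.2))
    else if i = 1 then (e * v.1, -(e * v.2.2), e * v.2.1)
    else (-(e * v.2.2), e * v.1, e * v.2.1) with hg
  set W := (({1, -1} : Finset ℤ) ×ˢ (range 3)).biUnion (fun w => S.image (g w.1 w.2)) with hW
  have hsub : ((Box m).filter (fun v : ℤ × ℤ × ℤ => ∃ d : ℤ, Admissible v.1 v.2.1 v.2.2 d ∧
      ¬ Solv v.1 v.2.1 v.2.2 d ((|(d : ℝ)| / m + m) * Real.log m ^ C))) ⊆ W := by
    rintro ⟨a, b, c⟩ hv
    rw [Finset.mem_filter] at hv
    obtain ⟨hv1, d, hd1, hd2⟩ := hv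
    unfold Box at hv1
    rw [Finset.mem_product, Finset.mem_product, Finset.mem_Icc, Finset.mem_Icc,
      Finset.mem_Icc] at hv1
    obtain ⟨⟨ha1, ha2⟩, ⟨hb1, hb2⟩, ⟨hc1, hc2⟩⟩ := hv1
    obtain ⟨ha, hb, hc, hp, hn, hev, hg1, hg2, hg3, hg4⟩ := hd1
    simp only at ha1 ha2 hb1 hb2 hc1 hc2 ha hb hc hp hn hev hg1 hg2 hg3 hg4 hd2
    rw [hW, Finset.mem_biUnion]
    -- pattern 0: c has the other sign; pattern 1: b; pattern 2: a
    have key : ∀ e : ℤ, (e = 1 ∨ e = -1) →
        ((0 < e * a ∧ 0 < e * b ∧ e * c < 0) ∨ (0 < e * a ∧ 0 < e * c ∧ e * b < 0) ∨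
          (0 < e * b ∧ 0 < e * c ∧ e * a < 0)) →
        ∃ w ∈ ({1, -1} : Finset ℤ) ×ˢ (range 3), (a, b, c) ∈ S.image (g w.1 w.2) := by
      intro e he hpat
      have hee : e * e = 1 := by rcases he with rfl | rfl <;> norm_num
      have hemem : e ∈ ({1, -1} : Finset ℤ) := by
        rcases he with rfl | rfl <;> simp
      rcases hpat with ⟨h1, h2, h3⟩ | ⟨h1, h2, h3⟩ | ⟨h1, h2, h3⟩
      · refine ⟨(e, 0), by rw [Finset.mem_product]; exact ⟨hemem, by simp⟩, ?_⟩
        rw [Finset.mem_image]
        have e1 : a = e * ((e * a).toNat : ℤ) := by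
          rw [Int.toNat_of_nonneg h1.le, ← mul_assoc, hee, one_mul]
        have e2 : b = e * ((e * b).toNat : ℤ) := by
          rw [Int.toNat_of_nonneg h2.le, ← mul_assoc, hee, one_mul]
        have e3 : c = -(e * ((-(e * c)).toNat : ℤ)) := by
          rw [Int.toNat_of_nonneg (by linarith), mul_neg, neg_neg, ← mul_assoc, hee, one_mul]
        refine ⟨((e * a).toNat, (e * b).toNat, (-(e * c)).toNat), ?_, ?_⟩
        · rw [hS, Finset.mem_filter, Finset.mem_product, Finset.mem_product, Finset.mem_Icc,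
            Finset.mem_Icc, Finset.mem_Icc]
          refine ⟨⟨⟨by simp only; omega, ?_⟩, ⟨by simp only; omega, ?_⟩,
            ⟨by simp only; omega, ?_⟩⟩, ?_⟩
          · simp only
            rcases he with rfl | rfl <;> omega
          · simp only
            rcases he with rfl | rfl <;> omega
          · simp only
            rcases he with rfl | rfl <;> omega
          · exact core_Int C m a b c d e he _ _ _ ⟨hev, hg1, hg2, hg3, hg4⟩ e1 e2 e3 hd2
        · simp only [hg, if_true]
          rw [← e1, ← e2, ← e3]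
      · refine ⟨(e, 1), by rw [Finset.mem_product]; exact ⟨hemem, by simp⟩, ?_⟩
        rw [Finset.mem_image]
        have e1 : a = e * ((e * a).toNat : ℤ) := by
          rw [Int.toNat_of_nonneg h1.le, ← mul_assoc, hee, one_mul]
        have e2 : c = e * ((e * c).toNat : ℤ) := by
          rw [Int.toNat_of_nonneg h2.le, ← mul_assoc, hee, one_mul]
        have e3 : b = -(e * ((-(e * b)).toNat : ℤ)) := by
          rw [Int.toNat_of_nonneg (by linarith), mul_neg, neg_neg, ← mul_assoc, hee, one_mul]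
        refine ⟨((e * a).toNat, (e * c).toNat, (-(e * b)).toNat), ?_, ?_⟩
        · rw [hS, Finset.mem_filter, Finset.mem_product, Finset.mem_product, Finset.mem_Icc,
            Finset.mem_Icc, Finset.mem_Icc]
          refine ⟨⟨⟨by simp only; omega, ?_⟩, ⟨by simp only; omega, ?_⟩,
            ⟨by simp only; omega, ?_⟩⟩, ?_⟩
          · simp only
            rcases he with rfl | rfl <;> omega
          · simp only
            rcases he with rfl | rfl <;> omega
          · simp only
            rcases he with rfl | rfl <;> omega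
          · refine core_Int C m a c b d e he _ _ _ ⟨?_, ?_, hg3, hg2, ?_⟩ e1 e2 e3
              (fun h => hd2 (solv12_Int h))
            · rwa [show a + c + b - d = a + b + c - d by ring]
            · rwa [gcd_comm c b]
            · rwa [gcd_comm c b]
        · simp only [hg, if_true, one_ne_zero, if_false]
          rw [← e1, ← e2, ← e3]
      · refine ⟨(e, 2), by rw [Finset.mem_product]; exact ⟨hemem, by simp⟩, ?_⟩
        rw [Finset.mem_image]
        have e1 : b = e * ((e * b).toNat : ℤ) := by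
          rw [Int.toNat_of_nonneg h1.le, ← mul_assoc, hee, one_mul]
        have e2 : c = e * ((e * c).toNat : ℤ) := by
          rw [Int.toNat_of_nonneg h2.le, ← mul_assoc, hee, one_mul]
        have e3 : a = -(e * ((-(e * a)).toNat : ℤ)) := by
          rw [Int.toNat_of_nonneg (by linarith), mul_neg, neg_neg, ← mul_assoc, hee, one_mul]
        refine ⟨((e * b).toNat, (e * c).toNat, (-(e * a)).toNat), ?_, ?_⟩
        · rw [hS, Finset.mem_filter, Finset.mem_product, Finset.mem_product, Finset.mem_Icc,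
            Finset.mem_Icc, Finset.mem_Icc]
          refine ⟨⟨⟨by simp only; omega, ?_⟩, ⟨by simp only; omega, ?_⟩,
            ⟨by simp only; omega, ?_⟩⟩, ?_⟩
          · simp only
            rcases he with rfl | rfl <;> omega
          · simp only
            rcases he with rfl | rfl <;> omega
          · simp only
            rcases he with rfl | rfl <;> omega
          · refine core_Int C m b c a d e he _ _ _ ⟨?_, ?_, hg4, ?_, ?_⟩ e1 e2 e3
              (fun h => hd2 (solv31_Int h))
            · rwa [show b + c + a - d = a + b + c - d by ring]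
            · rw [gcd_Int] at hg1 ⊢
              rw [← Nat.gcd_assoc, Nat.gcd_comm]; exact hg1
            · rwa [gcd_comm b a]
            · rwa [gcd_comm c a]
        · simp only [hg, OfNat.ofNat_ne_zero, if_false, OfNat.ofNat_ne_one]
          rw [← e1, ← e2, ← e3]
    rcases lt_or_gt_of_ne ha with ha' | ha' <;> rcases lt_or_gt_of_ne hb with hb' | hb' <;>
      rcases lt_or_gt_of_ne hc with hc' | hc'
    · exact absurd ⟨ha', hb', hc'⟩ hn
    · exact key (-1) (Or.inr rfl) (Or.inl ⟨by linarith, by linarith, by linarith⟩)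
    · exact key (-1) (Or.inr rfl) (Or.inr (Or.inl ⟨by linarith, by linarith, by linarith⟩))
    · exact key 1 (Or.inl rfl) (Or.inr (Or.inr ⟨by linarith, by linarith, by linarith⟩))
    · exact key (-1) (Or.inr rfl) (Or.inr (Or.inr ⟨by linarith, by linarith, by linarith⟩))
    · exact key 1 (Or.inl rfl) (Or.inr (Or.inl ⟨by linarith, by linarith, by linarith⟩))
    · exact key 1 (Or.inl rfl) (Or.inl ⟨by linarith, by linarith, by linarith⟩)
    · exact absurd ⟨ha', hb', hc'⟩ hp
  have hWc : W.card ≤ 6 * S.card := by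
    rw [hW]
    refine (Finset.card_biUnion_le_card_mul _ _ S.card fun w _ => Finset.card_image_le).trans ?_
    rw [Finset.card_product]
    simp
  have hcard : ((((Box m).filter (fun v : ℤ × ℤ × ℤ => ∃ d : ℤ, Admissible v.1 v.2.1 v.2.2 d ∧
      ¬ Solv v.1 v.2.1 v.2.2 d ((|(d : ℝ)| / m + m) * Real.log m ^ C)))).card : ℝ) ≤
      6 * (S.card : ℝ) := by
    exact_mod_cast (Finset.card_le_card hsub).trans hWc
  refine hcard.trans ?_
  have hL0 : (0 : ℝ) < Real.log m := by linarith
  calc 6 * (S.card : ℝ) ≤ 6 * ((m : ℝ) ^ 3 / Real.log m ^ (A + 1)) := by gcongr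
    _ ≤ (m : ℝ) ^ 3 / Real.log m ^ A := by
        rw [← mul_div_assoc, div_le_div_iff₀ (by positivity) (by positivity), pow_succ]
        have h9 : (0 : ℝ) ≤ m ^ 3 * Real.log m ^ A := by positivity
        calc 6 * (m : ℝ) ^ 3 * Real.log m ^ A = (m ^ 3 * Real.log m ^ A) * 6 := by ring
          _ ≤ (m ^ 3 * Real.log m ^ A) * Real.log m := mul_le_mul_of_nonneg_left h6 h9
          _ = (m : ℝ) ^ 3 * (Real.log m ^ A * Real.log m) := by ring

end Pool.Agent.Helper48.BK
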