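import Pool.Agent.Helper48.BK.StT

/-!
# Project BK, module Lat
-/

set_option autoImplicit false

namespace Pool.Agent.Helper48.BK

open Finset

/-- numbers in a window and in a residue class -/
theorem cnt_Lat (i : ℤ) (I : ℕ) (r : ℤ) (hr : 0 < r) (v : ℤ) :
    |((((Ico i (i + I)).filter (fun x : ℤ => x ≡ v [ZMOD r])).card : ℝ)) - (I : ℝ) / r| ≤ 1 := by
  have h := Int.Ico_filter_modEq_card i (i + I) hr v
  have h1 : (((((Ico i (i + I)).filter (fun x : ℤ => x ≡ v [ZMOD r])).card : ℤ)) : ℤ) =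
      ⌈(((i + I : ℤ) : ℚ) - v) / (r : ℚ)⌉ - ⌈((i : ℚ) - v) / (r : ℚ)⌉ := by
    rw [h]
    apply max_eq_left
    rw [sub_nonneg]
    apply Int.ceil_mono
    apply div_le_div_of_nonneg_right _ (by positivity)
    push_cast
    have : (0 : ℚ) ≤ I := by positivity
    linarith
  have hrq : (0 : ℚ) < r := by exact_mod_cast hr
  have h2 := Int.le_ceil ((((i + I : ℤ) : ℚ) - v) / (r : ℚ))
  have h3 := Int.ceil_lt_add_one ((((i + I : ℤ) : ℚ) - v) / (r : ℚ))
  have h4 := Int.le_ceil (((i : ℚ) - v) / (r : ℚ))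
  have h5 := Int.ceil_lt_add_one (((i : ℚ) - v) / (r : ℚ))
  have h6 : (((((i + I : ℤ) : ℚ) - v) / (r : ℚ))) - ((((i : ℚ) - v) / (r : ℚ))) = I / r := by
    push_cast
    field_simp
    ring
  have h7 : |(((((Ico i (i + I)).filter (fun x : ℤ => x ≡ v [ZMOD r])).card : ℤ) : ℚ)) -
      (I : ℚ) / r| ≤ 1 := by
    rw [h1, abs_le]
    push_cast at h2 h3 h6 ⊢
    constructor <;> linarith
  have h8 : ((|(((((Ico i (i + I)).filter (fun x : ℤ => x ≡ v [ZMOD r])).card : ℤ) : ℚ)) -
      (I : ℚ) / r| : ℚ) : ℝ) ≤ ((1 : ℚ) : ℝ) := by exact_mod_cast h7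
  push_cast at h8
  exact h8

theorem hLat : StLat := by
  intro a b c D i j I J hc hg
  set g : ℕ := Nat.gcd a c with hgdef
  have hgpos : 0 < g := Nat.gcd_pos_of_pos_right _ hc
  have hgc : g ∣ c := Nat.gcd_dvd_right _ _
  have hga : g ∣ a := Nat.gcd_dvd_left _ _
  have hbg : Nat.Coprime b g := by
    have h1 : Nat.gcd b g ∣ Nat.gcd a (Nat.gcd b c) := by
      apply Nat.dvd_gcd ((Nat.gcd_dvd_right b g).trans hga)
      exact Nat.dvd_gcd (Nat.gcd_dvd_left b g) ((Nat.gcd_dvd_right b g).trans hgc)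
    rw [hg] at h1
    exact Nat.dvd_one.mp h1
  obtain ⟨c', hc'⟩ := hgc
  obtain ⟨a', ha'⟩ := hga
  have hc'pos : 0 < c' := by
    rcases Nat.eq_zero_or_pos c' with h | h
    · rw [h] at hc'; omega
    · exact h
  have hac' : Nat.Coprime a' c' := by
    have h1 : Nat.gcd (g * a') (g * c') = g := by rw [← ha', ← hc']
    rw [Nat.gcd_mul_left] at h1
    exact Nat.eq_of_mul_eq_mul_left hgpos (by rw [mul_one]; exact h1)
  -- inverse of b modulo g
  obtain ⟨bi, hbi⟩ : ∃ bi : ℤ, (b : ℤ) * bi ≡ 1 [ZMOD g] := Int.mod_coprime hbg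
  obtain ⟨ai, hai⟩ : ∃ ai : ℤ, (a' : ℤ) * ai ≡ 1 [ZMOD c'] := Int.mod_coprime hac'
  have hgZ : (0 : ℤ) < g := by exact_mod_cast hgpos
  have hcZ : (0 : ℤ) < c' := by exact_mod_cast hc'pos
  -- the condition on u
  have key : ∀ u t : ℤ, ((c : ℤ) ∣ a * t + b * u - D) ↔
      (u ≡ D * bi [ZMOD g] ∧ t ≡ (-((b * u - D) / g)) * ai [ZMOD c']) := by
    intro u t
    have hcz : (c : ℤ) = g * c' := by rw [hc']; push_cast; rfl
    have haz : (a : ℤ) = g * a' := by rw [ha']; push_cast; rfl
    have e1 : (g : ℤ) ∣ b * u - D ↔ u ≡ D * bi [ZMOD g] := by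
      constructor
      · intro h
        have h1 : (b : ℤ) * u ≡ D [ZMOD g] := (Int.modEq_iff_dvd.mpr (by
          have := h; rw [← dvd_neg] at this; simpa using this))
        calc u = 1 * u := by ring
          _ ≡ (b * bi) * u [ZMOD g] := (hbi.symm).mul_right u
          _ = (b * u) * bi := by ring
          _ ≡ D * bi [ZMOD g] := h1.mul_right bi
      · intro h
        have h1 : (b : ℤ) * u ≡ D [ZMOD g] := by
          calc (b : ℤ) * u ≡ b * (D * bi) [ZMOD g] := h.mul_left b
            _ = D * (b * bi) := by ring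
            _ ≡ D * 1 [ZMOD g] := hbi.mul_left D
            _ = D := by ring
        have := Int.modEq_iff_dvd.mp h1
        rw [← dvd_neg]; simpa using this
    constructor
    · intro h
      have hg1 : (g : ℤ) ∣ b * u - D := by
        have h1 : (g : ℤ) ∣ a * t + b * u - D := (Dvd.intro _ hcz.symm).trans h
        have h2 : (g : ℤ) ∣ a * t := Dvd.dvd.mul_right (Dvd.intro _ haz.symm) t
        have h3 := dvd_sub h1 h2
        have e : (a : ℤ) * t + b * u - D - a * t = b * u - D := by ring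
        rwa [e] at h3
      refine ⟨e1.mp hg1, ?_⟩
      obtain ⟨w, hw⟩ := hg1
      have hdiv : ((b : ℤ) * u - D) / g = w := by
        rw [hw]; exact Int.mul_ediv_cancel_left w hgZ.ne'
      rw [hdiv]
      have h1 : (g : ℤ) * c' ∣ g * (a' * t + w) := by
        rw [← hcz]
        have e : (g : ℤ) * (a' * t + w) = a * t + b * u - D := by
          rw [haz]
          linear_combination -hw
        rw [e]; exact h
      have h2 : (c' : ℤ) ∣ a' * t + w := Int.dvd_of_mul_dvd_mul_left hgZ.ne' h1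
      have h3 : (a' : ℤ) * t ≡ -w [ZMOD c'] := (Int.modEq_iff_dvd.mpr (by
          rw [← dvd_neg] at h2
          have e : -((a' : ℤ) * t + w) = -w - a' * t := by ring
          rwa [e] at h2))
      calc t = 1 * t := by ring
        _ ≡ (a' * ai) * t [ZMOD c'] := (hai.symm).mul_right t
        _ = (a' * t) * ai := by ring
        _ ≡ (-w) * ai [ZMOD c'] := h3.mul_right ai
    · rintro ⟨h1, h2⟩
      obtain ⟨w, hw⟩ := e1.mpr h1
      have hdiv : ((b : ℤ) * u - D) / g = w := by
        rw [hw]; exact Int.mul_ediv_cancel_left w hgZ.ne'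
      rw [hdiv] at h2
      have h3 : (a' : ℤ) * t ≡ -w [ZMOD c'] := by
        calc (a' : ℤ) * t ≡ a' * (-w * ai) [ZMOD c'] := h2.mul_left a'
          _ = (-w) * (a' * ai) := by ring
          _ ≡ (-w) * 1 [ZMOD c'] := hai.mul_left (-w)
          _ = -w := by ring
      have h4 : (c' : ℤ) ∣ a' * t + w := by
        have := Int.modEq_iff_dvd.mp h3
        rw [← dvd_neg]
        have e : -((a' : ℤ) * t + w) = -w - a' * t := by ring
        rwa [e]
      have h5 : (g : ℤ) * c' ∣ g * (a' * t + w) := mul_dvd_mul_left _ h4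
      have e : (g : ℤ) * (a' * t + w) = a * t + b * u - D := by
        rw [haz]
        linear_combination -hw
      rw [e] at h5
      rw [hcz]; exact h5
  -- the count
  have hcard : ((((Ico i (i + I)) ×ˢ (Ico j (j + J))).filter
      (fun v : ℤ × ℤ => (c : ℤ) ∣ a * v.1 + b * v.2 - D)).card : ℝ) =
      ∑ u ∈ (Ico j (j + J)).filter (fun u : ℤ => u ≡ D * bi [ZMOD g]),
        (((Ico i (i + I)).filter
          (fun t : ℤ => t ≡ (-((b * u - D) / g)) * ai [ZMOD c'])).card : ℝ) := by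
    rw [Finset.card_filter, Finset.sum_product_right]
    push_cast
    rw [Finset.sum_filter]
    apply Finset.sum_congr rfl
    intro u _
    by_cases hu : u ≡ D * bi [ZMOD g]
    · rw [if_pos hu, Finset.card_filter]
      push_cast
      apply Finset.sum_congr rfl
      intro t _
      by_cases ht : t ≡ (-((b * u - D) / g)) * ai [ZMOD c']
      · rw [if_pos ((key u t).mpr ⟨hu, ht⟩), if_pos ht]
      · rw [if_neg (fun h => ht ((key u t).mp h).2), if_neg ht]
    · rw [if_neg hu]
      apply Finset.sum_eq_zero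
      intro t _
      rw [if_neg (fun h => hu ((key u t).mp h).1)]
  rw [hcard]
  set U : Finset ℤ := (Ico j (j + J)).filter (fun u : ℤ => u ≡ D * bi [ZMOD g]) with hU
  have hUc : |(U.card : ℝ) - (J : ℝ) / g| ≤ 1 := by
    have := cnt_Lat j J g hgZ (D * bi)
    simpa [hU] using this
  have hsum : |∑ u ∈ U, (((Ico i (i + I)).filter
          (fun t : ℤ => t ≡ (-((b * u - D) / g)) * ai [ZMOD c'])).card : ℝ) -
          U.card * ((I : ℝ) / c')| ≤ U.card := by
    have e : ∑ u ∈ U, (((Ico i (i + I)).filter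
          (fun t : ℤ => t ≡ (-((b * u - D) / g)) * ai [ZMOD c'])).card : ℝ) -
          U.card * ((I : ℝ) / c') = ∑ u ∈ U, ((((Ico i (i + I)).filter
          (fun t : ℤ => t ≡ (-((b * u - D) / g)) * ai [ZMOD c'])).card : ℝ) - (I : ℝ) / c') := by
      rw [Finset.sum_sub_distrib, Finset.sum_const, nsmul_eq_mul]
    rw [e]
    calc |∑ u ∈ U, ((((Ico i (i + I)).filter
          (fun t : ℤ => t ≡ (-((b * u - D) / g)) * ai [ZMOD c'])).card : ℝ) - (I : ℝ) / c')|
        ≤ ∑ u ∈ U, |((((Ico i (i + I)).filter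
          (fun t : ℤ => t ≡ (-((b * u - D) / g)) * ai [ZMOD c'])).card : ℝ) - (I : ℝ) / c')| :=
          Finset.abs_sum_le_sum_abs _ _
      _ ≤ ∑ _u ∈ U, (1 : ℝ) := by
          apply Finset.sum_le_sum
          intro u _
          have := cnt_Lat i I c' hcZ ((-((b * u - D) / g)) * ai)
          simpa using this
      _ = U.card := by rw [Finset.sum_const, nsmul_eq_mul, mul_one]
  have hg1 : (1 : ℝ) ≤ g := by exact_mod_cast hgpos
  have hc1 : (1 : ℝ) ≤ c' := by exact_mod_cast hc'pos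
  have e2 : (I : ℝ) * J / c = (J / g) * (I / c') := by
    have : (c : ℝ) = g * c' := by rw [hc']; push_cast; rfl
    rw [this]; field_simp
  rw [e2]
  have hJg : (J : ℝ) / g ≤ J := div_le_self (by positivity) hg1
  have hIc : (I : ℝ) / c' ≤ I := div_le_self (by positivity) hc1
  have hIc0 : (0 : ℝ) ≤ I / c' := by positivity
  have hUle : (U.card : ℝ) ≤ J + 1 := by
    have := (abs_le.mp hUc).2
    linarith
  have h3 : |(U.card : ℝ) * (I / c') - (J / g) * (I / c')| ≤ I := by
    rw [← sub_mul, abs_mul, abs_of_nonneg hIc0]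
    calc |(U.card : ℝ) - J / g| * (I / c') ≤ 1 * (I / c') :=
          mul_le_mul_of_nonneg_right hUc hIc0
      _ ≤ I := by rw [one_mul]; exact hIc
  rw [abs_le] at *
  constructor <;> linarith [hsum.1, hsum.2, h3.1, h3.2]

end Pool.Agent.Helper48.BK
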