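import Pool.Agent.Helper48.BK.StT

/-!
# Project BK: local densities (module Loc, by helper20)
-/

set_option autoImplicit false

namespace Pool.Agent.Helper48.BK

open Finset

section Field

variable {F : Type} [Field F] [Fintype F] [DecidableEq F]

theorem bad_Loc (A B D : F) (h : A = 0 → B = 0 → D ≠ 0) :
    (((univ : Finset (F × F)).filter (fun x => x.1 ≠ 0 ∧ x.2 ≠ 0)).filter
      (fun x => A * x.1 + B * x.2 = D)).card ≤ Fintype.card F - 1 := by
  have hc : ((univ : Finset F).erase 0).card = Fintype.card F - 1 := by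
    rw [card_erase_of_mem (mem_univ _), card_univ]
  rw [← hc]
  by_cases hB : B = 0
  · by_cases hA : A = 0
    · have hD := h hA hB
      rw [hA, hB, filter_false_of_mem]
      · exact Nat.zero_le _
      · intro x _ hx
        apply hD
        rw [← hx]
        ring
    · refine card_le_card_of_injOn Prod.snd ?_ ?_
      · intro x hx
        simp only [coe_filter, mem_filter, mem_univ, true_and, Set.mem_setOf_eq] at hx
        simp only [coe_erase, coe_univ, Set.mem_sdiff, Set.mem_univ, Set.mem_singleton_iff,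
          true_and]
        exact hx.1.2
      · intro x hx y hy hxy
        simp only [coe_filter, mem_filter, mem_univ, true_and, Set.mem_setOf_eq] at hx hy
        have e1 := hx.2
        have e2 := hy.2
        rw [hxy] at e1
        have e3 : A * x.1 = A * y.1 := by linear_combination e1 - e2
        exact Prod.ext (mul_left_cancel₀ hA e3) hxy
  · refine card_le_card_of_injOn Prod.fst ?_ ?_
    · intro x hx
      simp only [coe_filter, mem_filter, mem_univ, true_and, Set.mem_setOf_eq] at hx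
      simp only [coe_erase, coe_univ, Set.mem_sdiff, Set.mem_univ, Set.mem_singleton_iff,
        true_and]
      exact hx.1.1
    · intro x hx y hy hxy
      simp only [coe_filter, mem_filter, mem_univ, true_and, Set.mem_setOf_eq] at hx hy
      have e1 := hx.2
      have e2 := hy.2
      rw [hxy] at e1
      have e3 : B * x.2 = B * y.2 := by linear_combination e1 - e2
      exact Prod.ext hxy (mul_left_cancel₀ hB e3)

theorem units_Loc : ((univ : Finset (F × F)).filter (fun x => x.1 ≠ 0 ∧ x.2 ≠ 0)).card =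
    (Fintype.card F - 1) * (Fintype.card F - 1) := by
  have hc : ((univ : Finset F).erase 0).card = Fintype.card F - 1 := by
    rw [card_erase_of_mem (mem_univ _), card_univ]
  have e : (univ : Finset (F × F)).filter (fun x => x.1 ≠ 0 ∧ x.2 ≠ 0) =
      ((univ : Finset F).erase 0) ×ˢ ((univ : Finset F).erase 0) := by
    ext x
    simp only [mem_filter, mem_univ, true_and, mem_product, mem_erase, and_true]
  rw [e, card_product, hc]

/-- solutions of a linear equation -/
def N_Loc (A B Γ D : F) : ℕ :=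
  ((univ : Finset (F × F × F)).filter (fun x => A * x.1 + B * x.2.1 + Γ * x.2.2 = D)).card

/-- solutions with non-zero coordinates -/
def U_Loc (A B Γ D : F) : ℕ :=
  ((univ : Finset (F × F × F)).filter (fun x => A * x.1 + B * x.2.1 + Γ * x.2.2 = D ∧
    x.1 ≠ 0 ∧ x.2.1 ≠ 0 ∧ x.2.2 ≠ 0)).card

theorem Nrot_Loc (A B Γ D : F) : N_Loc A B Γ D = N_Loc B Γ A D := by
  unfold N_Loc
  refine card_nbij' (fun x => (x.2.1, x.2.2, x.1)) (fun x => (x.2.2, x.1, x.2.1)) ?_ ?_ ?_ ?_
  · intro x hx
    simp only [coe_filter, mem_univ, true_and, Set.mem_setOf_eq] at hx ⊢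
    rw [← hx]
    ring
  · intro x hx
    simp only [coe_filter, mem_univ, true_and, Set.mem_setOf_eq] at hx ⊢
    rw [← hx]
    ring
  · intro x _
    rfl
  · intro x _
    rfl

theorem Urot_Loc (A B Γ D : F) : U_Loc A B Γ D = U_Loc B Γ A D := by
  unfold U_Loc
  refine card_nbij' (fun x => (x.2.1, x.2.2, x.1)) (fun x => (x.2.2, x.1, x.2.1)) ?_ ?_ ?_ ?_
  · intro x hx
    simp only [coe_filter, mem_univ, true_and, Set.mem_setOf_eq] at hx ⊢
    refine ⟨?_, hx.2.2.1, hx.2.2.2, hx.2.1⟩
    rw [← hx.1]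
    ring
  · intro x hx
    simp only [coe_filter, mem_univ, true_and, Set.mem_setOf_eq] at hx ⊢
    refine ⟨?_, hx.2.2.2, hx.2.1, hx.2.2.1⟩
    rw [← hx.1]
    ring
  · intro x _
    rfl
  · intro x _
    rfl

theorem main0_Loc (A B Γ D : F) (hΓ : Γ ≠ 0) (h : A = 0 → B = 0 → D ≠ 0) :
    N_Loc A B Γ D ≤ Fintype.card F * Fintype.card F ∧
    (Fintype.card F - 1) * (Fintype.card F - 2) ≤ U_Loc A B Γ D := by
  constructor
  · unfold N_Loc
    have hc : (univ : Finset (F × F)).card = Fintype.card F * Fintype.card F := by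
      rw [card_univ, Fintype.card_prod]
    rw [← hc]
    refine card_le_card_of_injOn (fun x => (x.1, x.2.1)) (fun x _ => mem_coe.2 (mem_univ _)) ?_
    intro x hx y hy hxy
    simp only [coe_filter, mem_univ, true_and, Set.mem_setOf_eq] at hx hy
    obtain ⟨e1, e2⟩ := Prod.mk.inj hxy
    have e3 : Γ * x.2.2 = Γ * y.2.2 := by
      rw [e1, e2] at hx
      linear_combination hx - hy
    exact Prod.ext e1 (Prod.ext e2 (mul_left_cancel₀ hΓ e3))
  · have h1 := bad_Loc A B D h
    have h2 := units_Loc (F := F)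
    have h3 := card_filter_add_card_filter_not
      (s := (univ : Finset (F × F)).filter (fun x => x.1 ≠ 0 ∧ x.2 ≠ 0))
      (fun x => A * x.1 + B * x.2 = D)
    have h4 : (((univ : Finset (F × F)).filter (fun x => x.1 ≠ 0 ∧ x.2 ≠ 0)).filter
        (fun x => ¬ (A * x.1 + B * x.2 = D))).card ≤ U_Loc A B Γ D := by
      unfold U_Loc
      refine card_le_card_of_injOn (fun x => (x.1, x.2, (D - A * x.1 - B * x.2) / Γ)) ?_ ?_
      · intro x hx
        simp only [coe_filter, mem_filter, mem_univ, true_and, Set.mem_setOf_eq] at hx ⊢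
        refine ⟨?_, hx.1.1, hx.1.2, ?_⟩
        · rw [mul_div_cancel₀ _ hΓ]
          ring
        · apply div_ne_zero _ hΓ
          intro h0
          apply hx.2
          linear_combination -h0
      · intro x _ y _ hxy
        simp only [Prod.mk.injEq] at hxy
        exact Prod.ext hxy.1 hxy.2.1
    have hq : 2 ≤ Fintype.card F := Fintype.one_lt_card
    obtain ⟨q, hq⟩ := Nat.exists_eq_add_of_le hq
    rw [hq] at h1 h2 ⊢
    have e1 : 2 + q - 1 = q + 1 := by omega
    have e2 : 2 + q - 2 = q := by omega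
    rw [e1] at h1 h2
    rw [e1, e2]
    have e3 : (q + 1) * (q + 1) = (q + 1) * q + (q + 1) := by ring
    omega

theorem main_Loc (A B Γ D : F) (h0 : A ≠ 0 ∨ B ≠ 0 ∨ Γ ≠ 0) (h1 : A = 0 → B = 0 → D ≠ 0)
    (h2 : B = 0 → Γ = 0 → D ≠ 0) (h3 : Γ = 0 → A = 0 → D ≠ 0) :
    N_Loc A B Γ D ≤ Fintype.card F * Fintype.card F ∧
    (Fintype.card F - 1) * (Fintype.card F - 2) ≤ U_Loc A B Γ D := by
  rcases h0 with h | h | h
  · rw [Nrot_Loc, Urot_Loc]
    exact main0_Loc B Γ A D h h2
  · rw [Nrot_Loc, Urot_Loc, Nrot_Loc, Urot_Loc]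
    exact main0_Loc Γ A B D h h3
  · exact main0_Loc A B Γ D h h1

end Field

theorem cast_Loc {a b c : ℕ} {d : ℤ} {p : ℕ} (x y z : ℕ) :
    (p : ℤ) ∣ a * x + b * y - c * z - d ↔
      (a : ZMod p) * x + (b : ZMod p) * y + -(c : ZMod p) * z = (d : ZMod p) := by
  rw [← ZMod.intCast_zmod_eq_zero_iff_dvd]
  push_cast
  constructor
  · intro h
    linear_combination h
  · intro h
    linear_combination h

theorem hLoc : StLoc := by
  intro a b c d p hA hp h3
  haveI : Fact p.Prime := ⟨hp⟩
  have hp0 : 0 < p := hp.pos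
  obtain ⟨-, g0, g1, g2, g3⟩ := hA
  have hdiv : ∀ x : ℕ, (x : ZMod p) = 0 → p ∣ x := fun x hx =>
    (ZMod.natCast_eq_zero_iff x p).1 hx
  have hdivd : (d : ZMod p) = 0 → p ∣ d.natAbs := by
    intro hx
    rw [ZMod.intCast_zmod_eq_zero_iff_dvd] at hx
    exact Int.natCast_dvd.1 hx
  have hone : ∀ x y z : ℕ, Nat.gcd x (Nat.gcd y z) = 1 → p ∣ x → p ∣ y → p ∣ z → False := by
    intro x y z h hx hy hz
    have := Nat.dvd_gcd hx (Nat.dvd_gcd hy hz)
    rw [h] at this
    exact hp.one_lt.ne' (Nat.dvd_one.1 this)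
  have hm := main_Loc (a : ZMod p) (b : ZMod p) (-(c : ZMod p)) (d : ZMod p)
    (by
      by_contra hcon
      push Not at hcon
      obtain ⟨ha, hb, hc⟩ := hcon
      exact hone a b c g0 (hdiv a ha) (hdiv b hb) (hdiv c (neg_eq_zero.1 hc)))
    (fun ha hb hd => hone _ _ _ g1 (hdivd hd) (hdiv a ha) (hdiv b hb))
    (fun hb hc hd => hone _ _ _ g3 (hdivd hd) (hdiv b hb) (hdiv c (neg_eq_zero.1 hc)))
    (fun hc ha hd => hone _ _ _ g2 (hdivd hd) (hdiv a ha) (hdiv c (neg_eq_zero.1 hc)))
  rw [ZMod.card] at hm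
  obtain ⟨hN, hU⟩ := hm
  have hmem : ∀ x : ℕ × ℕ × ℕ, x ∈ Cl a b c d p ↔ (x.1 < p ∧ x.2.1 < p ∧ x.2.2 < p) ∧
      (a : ZMod p) * x.1 + (b : ZMod p) * x.2.1 + -(c : ZMod p) * x.2.2 = (d : ZMod p) := by
    intro x
    unfold Cl
    rw [mem_filter, mem_product, mem_product, mem_range, mem_range, mem_range, cast_Loc]
  have hval : ∀ x : ZMod p, ((x.val : ℕ) : ZMod p) = x := fun x => ZMod.natCast_zmod_val x
  have hCN : (Cl a b c d p).card = N_Loc (a : ZMod p) (b : ZMod p) (-(c : ZMod p))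
      (d : ZMod p) := by
    unfold N_Loc
    refine card_nbij' (fun x => ((x.1 : ZMod p), (x.2.1 : ZMod p), (x.2.2 : ZMod p)))
      (fun x => (x.1.val, x.2.1.val, x.2.2.val)) ?_ ?_ ?_ ?_
    · intro x hx
      rw [mem_coe, hmem] at hx
      simp only [coe_filter, mem_univ, true_and, Set.mem_setOf_eq]
      exact hx.2
    · intro x hx
      simp only [coe_filter, mem_univ, true_and, Set.mem_setOf_eq] at hx
      rw [mem_coe, hmem]
      refine ⟨⟨ZMod.val_lt _, ZMod.val_lt _, ZMod.val_lt _⟩, ?_⟩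
      simp only [hval]
      exact hx
    · intro x hx
      rw [mem_coe, hmem] at hx
      simp only [ZMod.val_cast_of_lt hx.1.1, ZMod.val_cast_of_lt hx.1.2.1,
        ZMod.val_cast_of_lt hx.1.2.2]
    · intro x _
      simp only [hval]
  have hCU : U_Loc (a : ZMod p) (b : ZMod p) (-(c : ZMod p)) (d : ZMod p) ≤
      ((Cl a b c d p).filter (fun u => ¬ p ∣ u.1 * u.2.1 * u.2.2)).card := by
    unfold U_Loc
    refine card_le_card_of_injOn (fun x => (x.1.val, x.2.1.val, x.2.2.val)) ?_ ?_
    · intro x hx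
      simp only [coe_filter, mem_univ, true_and, Set.mem_setOf_eq] at hx
      rw [mem_coe, mem_filter, hmem]
      refine ⟨⟨⟨ZMod.val_lt _, ZMod.val_lt _, ZMod.val_lt _⟩, ?_⟩, ?_⟩
      · simp only [hval]
        exact hx.1
      · intro hd
        have h1 := (ZMod.natCast_eq_zero_iff _ p).2 hd
        simp only [Nat.cast_mul, hval] at h1
        exact mul_ne_zero (mul_ne_zero hx.2.1 hx.2.2.1) hx.2.2.2 h1
    · intro x _ y _ hxy
      simp only [Prod.mk.injEq] at hxy
      exact Prod.ext (ZMod.val_injective p hxy.1) (Prod.ext (ZMod.val_injective p hxy.2.1)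
        (ZMod.val_injective p hxy.2.2))
  have hadd := card_filter_add_card_filter_not (s := Cl a b c d p)
    (fun u => p ∣ u.1 * u.2.1 * u.2.2)
  have hkp : ((Cl a b c d p).filter (fun u => p ∣ u.1 * u.2.1 * u.2.2)).card =
    kp a b c d p := rfl
  rw [hkp] at hadd
  have hsq : p ^ 2 = p * p := by ring
  obtain ⟨q, rfl⟩ := Nat.exists_eq_add_of_le h3
  have e1 : 3 + q - 1 = q + 2 := by omega
  have e2 : 3 + q - 2 = q + 1 := by omega
  rw [e1, e2] at hU ⊢
  have e3 : (q + 2) * (q + 1) = q * q + 3 * q + 2 := by ring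
  have e4 : (3 + q) * (3 + q) = q * q + 6 * q + 9 := by ring
  refine ⟨?_, ?_, ?_⟩ <;> omega

end Pool.Agent.Helper48.BK
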