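import Pool.Agent.Helper48.BK.StT
import Pool.Agent.Helper18.TR.Final

/-!
# Project BK: T, lower bound for the model
-/

set_option autoImplicit false

namespace Pool.Agent.Helper48.BK

open Finset

theorem mem_Pz_MainT {z p : ℕ} : p ∈ Pz z ↔ p ≤ z ∧ p.Prime := by
  rw [Pz, Finset.mem_filter, Finset.mem_range]
  constructor
  · rintro ⟨h1, h2⟩
    exact ⟨by omega, h2⟩
  · rintro ⟨h1, h2⟩
    exact ⟨by omega, h2⟩

theorem fac_pos_MainT {p : ℕ} (hp : p.Prime) : 0 < 1 - 1 / (p : ℝ) := by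
  have h2 : (2 : ℝ) ≤ p := by exact_mod_cast hp.two_le
  have : 1 / (p : ℝ) ≤ 1 / 2 := one_div_le_one_div_of_le (by norm_num) h2
  linarith

theorem Vz_pos_MainT (z : ℕ) : 0 < Vz z :=
  Finset.prod_pos fun _ hp => fac_pos_MainT (mem_Pz_MainT.1 hp).2

/-- the trivial lower bound for the product -/
theorem Vz_ge_MainT (z : ℕ) (hz : 1 ≤ z) : 1 / (z : ℝ) ≤ Vz z := by
  induction z, hz using Nat.le_induction with
  | base =>
    have : Pz 1 = ∅ := by
      apply Finset.eq_empty_of_forall_notMem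
      intro p hp
      obtain ⟨h1, h2⟩ := mem_Pz_MainT.1 hp
      have := h2.two_le
      omega
    rw [Vz, this]
    simp
  | succ n hn ih =>
    have hn0 : (0 : ℝ) < n := by exact_mod_cast hn
    by_cases hp : (n + 1).Prime
    · have h1 : Pz (n + 1) = insert (n + 1) (Pz n) := by
        ext p
        rw [Finset.mem_insert, mem_Pz_MainT, mem_Pz_MainT]
        constructor
        · rintro ⟨h1, h2⟩
          rcases Nat.lt_or_ge n p with h | h
          · exact Or.inl (by omega)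
          · exact Or.inr ⟨h, h2⟩
        · rintro (rfl | ⟨h1, h2⟩)
          · exact ⟨le_rfl, hp⟩
          · exact ⟨by omega, h2⟩
      have h2 : n + 1 ∉ Pz n := fun h => by
        have := (mem_Pz_MainT.1 h).1
        omega
      rw [Vz, h1, Finset.prod_insert h2]
      change 1 / ((n + 1 : ℕ) : ℝ) ≤ (1 - 1 / ((n + 1 : ℕ) : ℝ)) * Vz n
      have h3 : 0 ≤ 1 - 1 / ((n + 1 : ℕ) : ℝ) := (fac_pos_MainT hp).le
      refine le_trans ?_ (mul_le_mul_of_nonneg_left ih h3)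
      push_cast
      rw [le_iff_eq_or_lt]
      left
      field_simp
      ring
    · have h1 : Pz (n + 1) = Pz n := by
        ext p
        rw [mem_Pz_MainT, mem_Pz_MainT]
        constructor
        · rintro ⟨h1, h2⟩
          rcases Nat.lt_or_ge n p with h | h
          · have : p = n + 1 := by omega
            rw [this] at h2
            exact absurd h2 hp
          · exact ⟨h, h2⟩
        · rintro ⟨h1, h2⟩
          exact ⟨by omega, h2⟩
      rw [Vz, h1]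
      change 1 / ((n + 1 : ℕ) : ℝ) ≤ Vz n
      refine le_trans ?_ ih
      apply one_div_le_one_div_of_le hn0
      push_cast
      linarith

/-- prime divisors of numbers in a reduced class modulo `30` -/
theorem cls_MainT {p : ℕ} (hp : p.Prime) (hp7 : p < 7) {u : ℕ} (hu : Nat.Coprime u 30) {x : ℤ}
    (hx : (30 : ℤ) ∣ x - u) : ¬ (p : ℤ) ∣ x := by
  intro h
  have h30 : p ∣ 30 := by
    interval_cases p
    · exact absurd hp (by norm_num)
    · exact absurd hp (by norm_num)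
    · norm_num
    · norm_num
    · exact absurd hp (by norm_num)
    · norm_num
    · exact absurd hp (by norm_num)
  have h1 : (p : ℤ) ∣ x - u := (Int.natCast_dvd_natCast.2 h30).trans hx
  have h2 : (p : ℤ) ∣ u := by
    have := dvd_sub h h1
    simpa using this
  have h3 : p ∣ u := Int.natCast_dvd_natCast.1 h2
  exact hp.one_lt.ne' (Nat.dvd_one.1 (hu ▸ Nat.dvd_gcd h3 h30))

theorem thd_MainT {H a b c : ℕ} {d : ℤ} (hc : 1 ≤ c) (hd : |d| ≤ H) {v : ℕ × ℕ}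
    (hv : v ∈ Sol H a b c d) : 0 < thd a b c d v := by
  rw [Sol, Finset.mem_filter] at hv
  obtain ⟨_, h1, _, h2, _, h3⟩ := hv
  have h4 : (4 * H : ℤ) < a * v.1 := by exact_mod_cast h1
  have h5 : (4 * H : ℤ) < b * v.2 := by exact_mod_cast h2
  have h6 := (abs_le.1 hd).2
  have hH : (0 : ℤ) ≤ H := Int.natCast_nonneg H
  have h7 : 0 < (a : ℤ) * v.1 + b * v.2 - d := by linarith
  have hc' : (0 : ℤ) < c := by exact_mod_cast hc
  obtain ⟨k, hk⟩ := h3
  rw [thd, hk, Int.mul_ediv_cancel_left _ hc'.ne']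
  rw [hk] at h7
  exact (mul_pos_iff_of_pos_left hc').1 h7

/-- the pairs in the class whose coordinates have no prime factor in `[7, z]` have weight
`1 / V ^ 3` -/
theorem wt_MainT {H a b c z : ℕ} {d : ℤ} {u₁ u₂ u₃ : ℕ} (hc : 1 ≤ c) (hd : |d| ≤ H)
    (hu1 : Nat.Coprime u₁ 30) (hu2 : Nat.Coprime u₂ 30) (hu3 : Nat.Coprime u₃ 30)
    {v : ℕ × ℕ} (hv : v ∈ Sol H a b c d)
    (h30 : (30 : ℤ) ∣ (v.1 : ℤ) - u₁ ∧ (30 : ℤ) ∣ (v.2 : ℤ) - u₂ ∧
      (30 : ℤ) ∣ thd a b c d v - u₃)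
    (hq : ∀ p ∈ (Pz z).filter (fun p => 7 ≤ p), ¬ (p : ℤ) ∣ v.1 * v.2 * thd a b c d v) :
    lz z v.1 * lz z v.2 * lz z (thd a b c d v).toNat = (1 / Vz z) ^ 3 := by
  have hpos := thd_MainT hc hd hv
  have hto : (((thd a b c d v).toNat : ℕ) : ℤ) = thd a b c d v := Int.toNat_of_nonneg hpos.le
  have key : ∀ p ∈ Pz z, ¬ (p : ℤ) ∣ v.1 ∧ ¬ (p : ℤ) ∣ v.2 ∧ ¬ (p : ℤ) ∣ thd a b c d v := by
    intro p hp
    have hpp := (mem_Pz_MainT.1 hp).2
    rcases Nat.lt_or_ge p 7 with h7 | h7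
    · exact ⟨cls_MainT hpp h7 hu1 h30.1, cls_MainT hpp h7 hu2 h30.2.1,
        cls_MainT hpp h7 hu3 h30.2.2⟩
    · have h := hq p (Finset.mem_filter.2 ⟨hp, h7⟩)
      exact ⟨fun h1 => h ((h1.mul_right _).mul_right _), fun h1 => h ((h1.mul_left _).mul_right _),
        fun h1 => h (h1.mul_left _)⟩
  have h1 : lz z v.1 = 1 / Vz z := by
    rw [lz, if_pos]
    intro p hp h
    exact (key p hp).1 (Int.natCast_dvd_natCast.2 h)
  have h2 : lz z v.2 = 1 / Vz z := by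
    rw [lz, if_pos]
    intro p hp h
    exact (key p hp).2.1 (Int.natCast_dvd_natCast.2 h)
  have h3 : lz z (thd a b c d v).toNat = 1 / Vz z := by
    rw [lz, if_pos]
    intro p hp h
    apply (key p hp).2.2
    rw [← hto]
    exact Int.natCast_dvd_natCast.2 h
  rw [h1, h2, h3]
  ring

theorem lz_nonneg_MainT (z n : ℕ) : 0 ≤ lz z n := by
  rw [lz]
  split_ifs
  · exact (one_div_pos.2 (Vz_pos_MainT z)).le
  · exact le_rfl

/-- the numerical estimate -/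
theorem num_MainT {H a b c z B' : ℕ} (ha : 1 ≤ a) (hb : 1 ≤ b) (hc : 1 ≤ c) (hz : 2 ≤ z)
    (hH : (max a (max b c)) ^ 2 * z ^ (3 * B' + 20) ≤ H) :
    (z : ℝ) ^ 3 * ((z : ℝ) ^ B' * (4 * (z : ℝ) ^ (2 * B') * ((H : ℝ) / a + (H : ℝ) / b + 1))) ≤
      (H / a : ℝ) * (H / b : ℝ) / (c * 900) / 8 := by
  set M := max a (max b c) with hM
  have haM : a ≤ M := le_max_left _ _
  have hbM : b ≤ M := (le_max_left _ _).trans (le_max_right _ _)
  have hcM : c ≤ M := (le_max_right _ _).trans (le_max_right _ _)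
  have hM1 : 1 ≤ M := ha.trans haM
  have hHr : (M : ℝ) ^ 2 * (z : ℝ) ^ (3 * B' + 20) ≤ H := by exact_mod_cast hH
  have haR : (1 : ℝ) ≤ a := by exact_mod_cast ha
  have hbR : (1 : ℝ) ≤ b := by exact_mod_cast hb
  have hcR : (1 : ℝ) ≤ c := by exact_mod_cast hc
  have haM' : (a : ℝ) ≤ M := by exact_mod_cast haM
  have hbM' : (b : ℝ) ≤ M := by exact_mod_cast hbM
  have hcM' : (c : ℝ) ≤ M := by exact_mod_cast hcM
  have hM1' : (1 : ℝ) ≤ M := by exact_mod_cast hM1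
  have hzR : (2 : ℝ) ≤ z := by exact_mod_cast hz
  have hz1 : (1 : ℝ) ≤ z := by linarith
  set Z : ℝ := (z : ℝ) ^ (3 * B' + 3) with hZ
  have hZ1 : 1 ≤ Z := one_le_pow₀ hz1
  have h17 : (86400 : ℝ) ≤ (z : ℝ) ^ 17 := by
    calc (86400 : ℝ) ≤ 2 ^ 17 := by norm_num
      _ ≤ (z : ℝ) ^ 17 := pow_le_pow_left₀ (by norm_num) hzR 17
  have hsplit : (z : ℝ) ^ (3 * B' + 20) = Z * (z : ℝ) ^ 17 := by
    rw [hZ, ← pow_add]
  have hHZ : 86400 * M ^ 2 * Z ≤ (H : ℝ) := by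
    refine le_trans ?_ hHr
    rw [hsplit]
    have : (M : ℝ) ^ 2 * Z * 86400 ≤ (M : ℝ) ^ 2 * Z * (z : ℝ) ^ 17 :=
      mul_le_mul_of_nonneg_left h17 (by positivity)
    linarith
  have hMH : (M : ℝ) ≤ H := by
    have h1 : (M : ℝ) * 1 ≤ M * M := mul_le_mul_of_nonneg_left hM1' (by linarith)
    have h2 : (M : ℝ) ^ 2 * 1 ≤ M ^ 2 * Z := mul_le_mul_of_nonneg_left hZ1 (by positivity)
    have h3 : 0 ≤ (M : ℝ) ^ 2 * Z := by positivity
    nlinarith
  have hH0 : (0 : ℝ) ≤ H := Nat.cast_nonneg H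
  have e1 : (z : ℝ) ^ 3 * ((z : ℝ) ^ B' * (4 * (z : ℝ) ^ (2 * B') *
      ((H : ℝ) / a + (H : ℝ) / b + 1))) = 4 * Z * ((H : ℝ) / a + (H : ℝ) / b + 1) := by
    have : Z = (z : ℝ) ^ 3 * (z : ℝ) ^ B' * (z : ℝ) ^ (2 * B') := by
      rw [hZ, ← pow_add, ← pow_add]
      congr 1
      ring
    rw [this]
    ring
  rw [e1]
  have hpos : 0 < (a : ℝ) * b * c := by positivity
  have e2 : (H / a : ℝ) * (H / b : ℝ) / (c * 900) / 8 = (H : ℝ) ^ 2 / 7200 / (a * b * c) := by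
    field_simp
    ring
  rw [e2, le_div_iff₀ hpos]
  have e3 : 4 * Z * ((H : ℝ) / a + (H : ℝ) / b + 1) * (a * b * c) =
      4 * Z * (H * b * c + H * a * c + a * b * c) := by
    field_simp
  rw [e3]
  have b1 : (H : ℝ) * b * c ≤ H * M ^ 2 := by
    have h1 : (b : ℝ) * c ≤ M * M := mul_le_mul hbM' hcM' (by linarith) (by linarith)
    have h2 := mul_le_mul_of_nonneg_left h1 hH0
    have h3 : (H : ℝ) * b * c = H * (b * c) := by ring
    have h4 : (H : ℝ) * M ^ 2 = H * (M * M) := by ring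
    rw [h3, h4]
    exact h2
  have b2 : (H : ℝ) * a * c ≤ H * M ^ 2 := by
    have h1 : (a : ℝ) * c ≤ M * M := mul_le_mul haM' hcM' (by linarith) (by linarith)
    have h2 := mul_le_mul_of_nonneg_left h1 hH0
    have h3 : (H : ℝ) * a * c = H * (a * c) := by ring
    have h4 : (H : ℝ) * M ^ 2 = H * (M * M) := by ring
    rw [h3, h4]
    exact h2
  have b3 : (a : ℝ) * b * c ≤ H * M ^ 2 := by
    have h1 : (a : ℝ) * b ≤ M * M := mul_le_mul haM' hbM' (by linarith) (by linarith)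
    have h2 : (a : ℝ) * b * c ≤ M * M * H :=
      mul_le_mul h1 (hcM'.trans hMH) (by linarith) (by positivity)
    have h4 : (H : ℝ) * M ^ 2 = M * M * H := by ring
    rw [h4]
    exact h2
  have b4 : 4 * Z * (H * b * c + H * a * c + a * b * c) ≤ 4 * Z * (3 * (H * M ^ 2)) :=
    mul_le_mul_of_nonneg_left (by linarith) (by positivity)
  have b5 : (H : ℝ) * (86400 * M ^ 2 * Z) ≤ H * H := mul_le_mul_of_nonneg_left hHZ hH0
  have b6 : 4 * Z * (3 * (H * M ^ 2)) = 12 * (H * M ^ 2 * Z) := by ring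
  have b7 : (H : ℝ) * (86400 * M ^ 2 * Z) = 86400 * (H * M ^ 2 * Z) := by ring
  have b8 : (H : ℝ) ^ 2 = H * H := by ring
  rw [b6] at b4
  rw [b7] at b5
  rw [b8]
  linarith

theorem hMainT (ha : StRR) (hb : StCnt7) (hc : StLoc) (hd : StC30) (he : StEP) (_hf : StVz) :
    StMainT := by
  obtain ⟨B', hB'⟩ := Pool.Agent.Helper18.TR.fl 3 (1 / 2) (by norm_num) (by norm_num)
  refine ⟨1 / 7200, by norm_num, 3 * B' + 20, ?_⟩
  intro H X z a b c d h1a h1b h1c hAd hdH hz hH hXa hXb hXc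
  obtain ⟨u₁, u₂, u₃, hu1, hu2, hu3, hu⟩ := hd a b c d hAd
  have hM1 : 1 ≤ max a (max b c) := h1a.trans (le_max_left _ _)
  have hH1 : 1 ≤ H := by
    refine le_trans ?_ hH
    exact Nat.one_le_iff_ne_zero.2 (mul_ne_zero (pow_ne_zero _ (by omega))
      (pow_ne_zero _ (by omega)))
  rw [ha (lz z) X H a b c d h1a h1b h1c hdH hH1 hXa hXb hXc]
  have hzR : (2 : ℝ) ≤ z := by exact_mod_cast hz
  have haR : (1 : ℝ) ≤ a := by exact_mod_cast h1a
  have hbR : (1 : ℝ) ≤ b := by exact_mod_cast h1b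
  have hcR : (1 : ℝ) ≤ c := by exact_mod_cast h1c
  have hHR : (1 : ℝ) ≤ H := by exact_mod_cast hH1
  set Q : Finset ℕ := (Pz z).filter (fun p => 7 ≤ p) with hQ
  have hQp : ∀ p ∈ Q, p.Prime ∧ p ≤ z := fun p hp =>
    ⟨(mem_Pz_MainT.1 (Finset.mem_filter.1 hp).1).2, (mem_Pz_MainT.1 (Finset.mem_filter.1 hp).1).1⟩
  have hQ7 : ∀ p ∈ Q, 7 ≤ p := fun p hp => (Finset.mem_filter.1 hp).2
  set g : ℕ → ℝ := fun p => (kp a b c d p : ℝ) / (p : ℝ) ^ 2 with hg
  have hg1 : ∀ p ∈ Q, 0 ≤ g p ∧ g p ≤ 3 / p ∧ g p ≤ 1 / 2 := by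
    intro p hp
    have h7 : (7 : ℝ) ≤ p := by exact_mod_cast hQ7 p hp
    have h3 := (hc a b c d p hAd (hQp p hp).1 (by have := hQ7 p hp; omega)).2.1
    have h3' : (kp a b c d p : ℝ) ≤ 3 * p := by exact_mod_cast h3
    have h0 : 0 ≤ g p := by positivity
    have hle : g p ≤ 3 / p := by
      change (kp a b c d p : ℝ) / (p : ℝ) ^ 2 ≤ 3 / p
      rw [div_le_div_iff₀ (by positivity) (by positivity)]
      nlinarith
    refine ⟨h0, hle, hle.trans ?_⟩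
    rw [div_le_div_iff₀ (by positivity) (by norm_num)]
    linarith
  set N : ℝ := (H / a : ℝ) * (H / b : ℝ) / (c * 900) with hN
  have hN0 : 0 ≤ N := by positivity
  set R : ℝ := 4 * (z : ℝ) ^ (2 * B') * ((H : ℝ) / a + (H : ℝ) / b + 1) with hR
  have hR0 : 0 ≤ R := by positivity
  set A : Finset (ℕ × ℕ) := (Sol H a b c d).filter (fun v => (30 : ℤ) ∣ (v.1 : ℤ) - u₁ ∧
    (30 : ℤ) ∣ (v.2 : ℤ) - u₂ ∧ (30 : ℤ) ∣ thd a b c d v - u₃) with hA
  have hcount : ∀ T ⊆ Q, ∏ p ∈ T, p ≤ z ^ B' →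
      |((A.filter (fun v => ∀ p ∈ T, (p : ℤ) ∣ v.1 * v.2 * thd a b c d v)).card : ℝ) -
        N * ∏ p ∈ T, g p| ≤ R := by
    intro T hT hprod
    have h1 := hb H a b c d u₁ u₂ u₃ T h1a h1b h1c hAd hu
      (fun p hp => ⟨(hQp p (hT hp)).1, hQ7 p (hT hp)⟩)
    rw [hA, Finset.filter_filter]
    refine h1.trans ?_
    rw [hR]
    have h2 : ((∏ p ∈ T, p : ℕ) : ℝ) ≤ (z : ℝ) ^ B' := by exact_mod_cast hprod
    have h3 : ((∏ p ∈ T, p : ℕ) : ℝ) ^ 2 ≤ (z : ℝ) ^ (2 * B') := by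
      rw [mul_comm 2 B', pow_mul]
      exact pow_le_pow_left₀ (Nat.cast_nonneg _) h2 2
    have h4 : 0 ≤ (H : ℝ) / a + (H : ℝ) / b + 1 := by positivity
    exact mul_le_mul_of_nonneg_right (mul_le_mul_of_nonneg_left h3 (by norm_num)) h4
  have hfl := hB' z hz Q hQp g hg1 (ℕ × ℕ) A
    (fun p v => (p : ℤ) ∣ v.1 * v.2 * thd a b c d v) N R hN0 hR0 hcount
  set S : Finset (ℕ × ℕ) := A.filter
    (fun v => ∀ p ∈ Q, ¬ (p : ℤ) ∣ v.1 * v.2 * thd a b c d v) with hS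
  -- the sum is at least the number of points of `S` times `1 / V ^ 3`
  have hsum : (S.card : ℝ) * (1 / Vz z) ^ 3 ≤
      ∑ v ∈ Sol H a b c d, lz z v.1 * lz z v.2 * lz z (thd a b c d v).toNat := by
    have hsub : S ⊆ Sol H a b c d := (Finset.filter_subset _ _).trans (Finset.filter_subset _ _)
    refine le_trans ?_ (Finset.sum_le_sum_of_subset_of_nonneg hsub fun v _ _ =>
      mul_nonneg (mul_nonneg (lz_nonneg_MainT _ _) (lz_nonneg_MainT _ _)) (lz_nonneg_MainT _ _))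
    rw [← nsmul_eq_mul, ← Finset.sum_const]
    apply Finset.sum_le_sum
    intro v hv
    obtain ⟨h1, h2⟩ := Finset.mem_filter.1 hv
    obtain ⟨h3, h4⟩ := Finset.mem_filter.1 h1
    exact (wt_MainT h1c hdH hu1 hu2 hu3 h3 h4 h2).ge
  refine le_trans ?_ hsum
  have hV := Vz_pos_MainT z
  have hVz : 1 / Vz z ≤ z := by
    rw [div_le_iff₀ hV]
    have h1 := Vz_ge_MainT z (by omega)
    rw [div_le_iff₀ (by linarith)] at h1
    linarith
  have hV3 : (1 / Vz z) ^ 3 ≤ (z : ℝ) ^ 3 := pow_le_pow_left₀ (one_div_pos.2 hV).le hVz 3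
  have hV0 : 0 ≤ (1 / Vz z) ^ 3 := by positivity
  have hprod : ∏ p ∈ Q, ((1 - 1 / (p : ℝ)) * (1 - 2 / (p : ℝ))) ≤ ∏ p ∈ Q, (1 - g p) := by
    apply Finset.prod_le_prod
    · intro p hp
      have h7 : (7 : ℝ) ≤ p := by exact_mod_cast hQ7 p hp
      have h1 : 1 / (p : ℝ) ≤ 1 / 7 := one_div_le_one_div_of_le (by norm_num) h7
      have h2 : 2 / (p : ℝ) = 2 * (1 / p) := by ring
      rw [h2]
      exact mul_nonneg (by linarith) (by linarith)
    · intro p hp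
      have h7 : (7 : ℝ) ≤ p := by exact_mod_cast hQ7 p hp
      have h3 := (hc a b c d p hAd (hQp p hp).1 (by have := hQ7 p hp; omega)).1
      have hp1 : 1 ≤ p := by have := hQ7 p hp; omega
      have hp2 : 2 ≤ p := by have := hQ7 p hp; omega
      have h4 : (kp a b c d p : ℝ) + ((p : ℝ) - 1) * (p - 2) ≤ (p : ℝ) ^ 2 := by
        have h5 : ((kp a b c d p + (p - 1) * (p - 2) : ℕ) : ℝ) ≤ ((p ^ 2 : ℕ) : ℝ) := by
          exact_mod_cast h3
        push_cast [Nat.cast_sub hp1, Nat.cast_sub hp2] at h5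
        linarith
      have hp0 : (0 : ℝ) < (p : ℝ) ^ 2 := by positivity
      have h6 : (1 - 1 / (p : ℝ)) * (1 - 2 / (p : ℝ)) = (((p : ℝ) - 1) * (p - 2)) / p ^ 2 := by
        field_simp
      rw [h6]
      change _ ≤ 1 - (kp a b c d p : ℝ) / (p : ℝ) ^ 2
      have h7 : 1 - (kp a b c d p : ℝ) / (p : ℝ) ^ 2 =
          ((p : ℝ) ^ 2 - kp a b c d p) / (p : ℝ) ^ 2 := by
        rw [sub_div, div_self hp0.ne']
      rw [h7]
      exact div_le_div_of_nonneg_right (by linarith) hp0.le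
  have hEP := he z
  have hmain : 1 / 2 ≤ (1 / Vz z) ^ 3 * ∏ p ∈ Q, (1 - g p) :=
    hEP.trans (mul_le_mul_of_nonneg_left hprod hV0)
  have hlow : N * (∏ p ∈ Q, (1 - g p)) / 2 - (z : ℝ) ^ B' * R ≤ S.card := by
    have h1 := (abs_le.1 hfl).1
    linarith
  have hnum := num_MainT (B' := B') h1a h1b h1c hz hH
  have h8 : (N * (∏ p ∈ Q, (1 - g p)) / 2 - (z : ℝ) ^ B' * R) * (1 / Vz z) ^ 3 ≤
      (S.card : ℝ) * (1 / Vz z) ^ 3 := mul_le_mul_of_nonneg_right hlow hV0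
  refine le_trans ?_ h8
  have h9 : (z : ℝ) ^ B' * R * (1 / Vz z) ^ 3 ≤ N / 8 := by
    have h10 : (z : ℝ) ^ B' * R * (1 / Vz z) ^ 3 ≤ (z : ℝ) ^ B' * R * (z : ℝ) ^ 3 :=
      mul_le_mul_of_nonneg_left hV3 (by positivity)
    refine h10.trans (le_trans (le_of_eq ?_) hnum)
    rw [hR]
    ring
  have h11 : N / 4 ≤ N * (∏ p ∈ Q, (1 - g p)) / 2 * (1 / Vz z) ^ 3 := by
    have h12 : N * (1 / 2) ≤ N * ((1 / Vz z) ^ 3 * ∏ p ∈ Q, (1 - g p)) :=
      mul_le_mul_of_nonneg_left hmain hN0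
    have h13 : N * (∏ p ∈ Q, (1 - g p)) / 2 * (1 / Vz z) ^ 3 =
        N * ((1 / Vz z) ^ 3 * ∏ p ∈ Q, (1 - g p)) / 2 := by ring
    rw [h13]
    linarith
  have h14 : 1 / 7200 * (H : ℝ) ^ 2 / (a * b * c) = N / 8 := by
    rw [hN]
    field_simp
    ring
  rw [h14, sub_mul]
  linarith

end Pool.Agent.Helper48.BK
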