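import Pool.Agent.Helper48.BK.StD

/-! # Module MinZ: minor arcs for the sieve model -/

set_option autoImplicit false

namespace Pool.Agent.Helper48.BK

open Finset ArithmeticFunction Filter

/-- growth facts, in terms of `√√(log x)` -/
theorem ev_MinZ (B : ℕ) (κ : ℝ) (hκ : 0 < κ) : ∃ x₀ : ℕ, ∀ x : ℕ, x₀ ≤ x → 3 ≤ x ∧
    1 ≤ Real.log x ∧ 1 + B * Real.log (Real.log x) ≤ κ * √(√(Real.log x)) := by
  have h1 : Tendsto (fun x : ℕ => Real.log (x : ℝ)) atTop atTop :=
    Real.tendsto_log_atTop.comp tendsto_natCast_atTop_atTop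
  have h2 : Tendsto (fun x : ℕ => √(√(Real.log (x : ℝ)))) atTop atTop :=
    Real.tendsto_sqrt_atTop.comp (Real.tendsto_sqrt_atTop.comp h1)
  have h3 : ∀ᶠ s : ℝ in atTop, 1 + B * (4 * Real.log s) ≤ κ * s := by
    have h4 : ∀ᶠ s : ℝ in atTop, ‖Real.log s‖ ≤ κ / (8 * B + 8) * ‖s‖ := by
      have := Real.isLittleO_log_id_atTop.bound (show 0 < κ / (8 * B + 8) by positivity)
      simpa using this
    filter_upwards [h4, eventually_ge_atTop (max 1 (2 / κ))] with s hs1 hs2
    have hs3 : 1 ≤ s := (le_max_left _ _).trans hs2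
    have hs4 : 2 / κ ≤ s := (le_max_right _ _).trans hs2
    rw [Real.norm_eq_abs, Real.norm_eq_abs, abs_of_nonneg (by linarith : 0 ≤ s)] at hs1
    have h5 : Real.log s ≤ κ / (8 * B + 8) * s := (le_abs_self _).trans hs1
    have h6 : 1 ≤ κ * s / 2 := by
      rw [div_le_iff₀ hκ] at hs4
      linarith
    have hB : (0 : ℝ) ≤ B := Nat.cast_nonneg B
    have h7 : (B : ℝ) * (4 * (κ / (8 * B + 8) * s)) ≤ κ * s / 2 := by
      have h8 : (B : ℝ) * (4 * (κ / (8 * B + 8) * s)) = (κ * s / 2) * (B / (B + 1)) := by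
        field_simp
        ring
      rw [h8]
      have h9 : (B : ℝ) / (B + 1) ≤ 1 := by
        rw [div_le_one (by positivity)]; linarith
      have h10 : 0 ≤ κ * s / 2 := by positivity
      nlinarith
    have h8 : (B : ℝ) * (4 * Real.log s) ≤ (B : ℝ) * (4 * (κ / (8 * B + 8) * s)) := by
      gcongr
    linarith
  have h4 := (h2.eventually h3).and ((h1.eventually_ge_atTop 1).and (eventually_ge_atTop 3))
  obtain ⟨x₀, hx₀⟩ := eventually_atTop.1 h4
  refine ⟨x₀, fun x hx => ?_⟩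
  obtain ⟨h5, h6, h7⟩ := hx₀ x hx
  refine ⟨h7, h6, ?_⟩
  have h8 : Real.log (√(√(Real.log (x : ℝ)))) = Real.log (Real.log x) / 4 := by
    rw [Real.log_sqrt (Real.sqrt_nonneg _), Real.log_sqrt (by linarith)]
    ring
  rw [h8] at h5
  have h9 : 4 * (Real.log (Real.log (x : ℝ)) / 4) = Real.log (Real.log x) := by ring
  rw [h9] at h5
  exact h5

theorem dvd_MinZ {z : ℕ} {T : Finset ℕ} (hT : T ⊆ Pz z) (n : ℕ) :
    (∀ p ∈ T, p ∣ n) ↔ (∏ p ∈ T, p) ∣ n := by
  constructor
  · intro h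
    exact Finset.prod_primes_dvd n (fun p hp => (mem_filter.1 (hT hp)).2.prime) h
  · intro h p hp
    exact (Finset.dvd_prod_of_mem (fun p => p) hp).trans h

theorem inj_MinZ {z : ℕ} {T T' : Finset ℕ} (hT : T ⊆ Pz z) (hT' : T' ⊆ Pz z)
    (h : ∏ p ∈ T, p = ∏ p ∈ T', p) : T = T' := by
  have key : ∀ (S : Finset ℕ), S ⊆ Pz z → ∀ p, p ∈ Pz z → (p ∈ S ↔ p ∣ ∏ p ∈ S, p) := by
    intro S hS p hp
    constructor
    · intro h1
      exact Finset.dvd_prod_of_mem (fun p => p) h1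
    · intro h1
      have hp' : p.Prime := (mem_filter.1 hp).2
      obtain ⟨q, hq, hpq⟩ := (hp'.prime.dvd_finset_prod_iff _).1 h1
      have hq' : q.Prime := (mem_filter.1 (hS hq)).2
      rw [(Nat.prime_dvd_prime_iff_eq hp' hq').1 hpq]
      exact hq
  ext p
  constructor
  · intro hp
    exact (key T' hT' p (hT hp)).2 (h ▸ (key T hT p (hT hp)).1 hp)
  · intro hp
    exact (key T hT p (hT' hp)).2 (h ▸ (key T' hT' p (hT' hp)).1 hp)

theorem prod_pos_MinZ {z : ℕ} {T : Finset ℕ} (hT : T ⊆ Pz z) : 1 ≤ ∏ p ∈ T, p :=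
  Nat.one_le_iff_ne_zero.2 (Finset.prod_ne_zero_iff.2
    (fun _ hp => (mem_filter.1 (hT hp)).2.ne_zero))

theorem prod_le_MinZ {z : ℕ} {T : Finset ℕ} (hT : T ⊆ Pz z) : ∏ p ∈ T, p ≤ z ^ T.card := by
  apply Finset.prod_le_pow_card
  intro p hp
  have := mem_range.1 (mem_filter.1 (hT hp)).1
  omega

theorem sum_mult_MinZ (y D : ℕ) (hD : 1 ≤ D) (α : ℝ) :
    ∑ n ∈ (Ioc 0 y).filter (fun n => D ∣ n), ex (n * α) =
      ∑ k ∈ Ioc 0 (0 + y / D), ex (k * (D * α)) := by
  symm
  apply Finset.sum_nbij' (fun k => D * k) (fun n => n / D)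
  · intro k hk
    rw [Nat.zero_add, mem_Ioc] at hk
    rw [mem_filter, mem_Ioc]
    refine ⟨⟨Nat.mul_pos hD hk.1, ?_⟩, Dvd.intro _ rfl⟩
    have := (Nat.le_div_iff_mul_le hD).1 hk.2
    rwa [mul_comm]
  · intro n hn
    rw [mem_filter, mem_Ioc] at hn
    rw [Nat.zero_add, mem_Ioc]
    exact ⟨Nat.div_pos (Nat.le_of_dvd hn.1.1 hn.2) hD, Nat.div_le_div_right hn.1.2⟩
  · intro k _
    exact Nat.mul_div_cancel_left k hD
  · intro n hn
    exact Nat.mul_div_cancel' (mem_filter.1 hn).2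
  · intro k _
    congr 1
    push_cast
    ring

open Classical in
/-- the combinatorial part -/
theorem main_MinZ (ha : StBrun) (hb : StTail) (he : StGeo1) (C : ℝ)
    (hd : ∀ (x J q : ℕ) (h : ℤ) (α : ℝ), 3 ≤ x → q ≤ x → Apx α h q → 1 ≤ J → J ≤ x →
      ∑ j ∈ Icc 1 J, gs ((x : ℝ) / j) (j * α) ≤ C * ((x : ℝ) / q + J + q) * Real.log x ^ 2)
    (hC : 0 < C) (x y z q r : ℕ) (h : ℤ) (α : ℝ) (hx : 3 ≤ x) (hy : y ≤ x) (hz : 2 ≤ z)
    (hq : q ≤ x) (hα : Apx α h q) (hr : z ^ r ≤ Nat.sqrt x) :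
    ‖∑ n ∈ Ioc 0 y, ((if ∀ p ∈ Pz z, ¬ p ∣ n then (1 : ℝ) else 0 : ℝ) : ℂ) * ex (n * α)‖ ≤
      C * ((x : ℝ) / q + √x + q) * Real.log x ^ 2 +
        x * ((1 + Real.log z) ^ (r + 1) / (r + 1).factorial) := by
  obtain ⟨g1, g2, g3, _⟩ := he
  have hex : ∀ t : ℝ, ‖ex t‖ = 1 := by
    intro t
    unfold ex
    rw [Complex.norm_exp]
    simp
  set I : ℕ → ℝ := fun n => if ∀ p ∈ Pz z, ¬ p ∣ n then (1 : ℝ) else 0 with hI
  set S : ℕ → ℝ := fun n => ∑ T ∈ (Pz z).powerset.filter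
    (fun T => T.card ≤ r ∧ ∀ p ∈ T, p ∣ n), (-1 : ℝ) ^ T.card with hS
  have hIS : ∀ n, |I n - S n| ≤
      (((Pz z).powerset.filter (fun T => T.card = r + 1 ∧ ∀ p ∈ T, p ∣ n)).card : ℝ) :=
    fun n => ha (Pz z) r n
  have hsplit : ∑ n ∈ Ioc 0 y, ((I n : ℝ) : ℂ) * ex (n * α) =
      ∑ n ∈ Ioc 0 y, ((S n : ℝ) : ℂ) * ex (n * α) +
      ∑ n ∈ Ioc 0 y, ((I n - S n : ℝ) : ℂ) * ex (n * α) := by
    rw [← Finset.sum_add_distrib]
    refine Finset.sum_congr rfl fun n _ => ?_
    push_cast; ring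
  rw [hsplit]
  refine (norm_add_le _ _).trans (add_le_add ?_ ?_)
  · -- main part
    have e1 : ∑ n ∈ Ioc 0 y, ((S n : ℝ) : ℂ) * ex (n * α) =
        ∑ T ∈ (Pz z).powerset.filter (fun T => T.card ≤ r), ((-1 : ℝ) ^ T.card : ℝ) *
          ∑ n ∈ (Ioc 0 y).filter (fun n => (∏ p ∈ T, p) ∣ n), ex (n * α) := by
      have h1 : ∀ n ∈ Ioc 0 y, ((S n : ℝ) : ℂ) * ex (n * α) =
          ∑ T ∈ (Pz z).powerset.filter (fun T => T.card ≤ r),
            if (∏ p ∈ T, p) ∣ n then (((-1 : ℝ) ^ T.card : ℝ) : ℂ) * ex (n * α) else 0 := by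
        intro n _
        rw [← Finset.sum_filter, Finset.filter_filter]
        simp only [hS]
        rw [Complex.ofReal_sum, Finset.sum_mul]
        refine Finset.sum_congr ?_ fun _ _ => rfl
        ext T
        simp only [mem_filter, mem_powerset]
        constructor
        · rintro ⟨h2, h3, h4⟩
          exact ⟨h2, h3, (dvd_MinZ h2 n).1 h4⟩
        · rintro ⟨h2, h3, h4⟩
          exact ⟨h2, h3, (dvd_MinZ h2 n).2 h4⟩
      rw [Finset.sum_congr rfl h1, Finset.sum_comm]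
      refine Finset.sum_congr rfl fun T _ => ?_
      rw [Finset.mul_sum, Finset.sum_filter]
    rw [e1]
    have hJ1 : 1 ≤ Nat.sqrt x := by
      rw [Nat.le_sqrt]; omega
    have hJx : Nat.sqrt x ≤ x := Nat.sqrt_le_self x
    have hJr : ((Nat.sqrt x : ℕ) : ℝ) ≤ √x := Real.nat_sqrt_le_real_sqrt
    have h2 := hd x (Nat.sqrt x) q h α hx hq hα hJ1 hJx
    have hL : 0 ≤ Real.log x := Real.log_natCast_nonneg x
    calc ‖∑ T ∈ (Pz z).powerset.filter (fun T => T.card ≤ r), (((-1 : ℝ) ^ T.card : ℝ) : ℂ) *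
          ∑ n ∈ (Ioc 0 y).filter (fun n => (∏ p ∈ T, p) ∣ n), ex (n * α)‖
        ≤ ∑ T ∈ (Pz z).powerset.filter (fun T => T.card ≤ r),
            gs ((x : ℝ) / ((∏ p ∈ T, p : ℕ) : ℝ)) (((∏ p ∈ T, p : ℕ) : ℝ) * α) := by
          refine (norm_sum_le _ _).trans (Finset.sum_le_sum fun T hT => ?_)
          have hT' : T ⊆ Pz z := mem_powerset.1 (mem_filter.1 hT).1
          have hD := prod_pos_MinZ hT'
          rw [sum_mult_MinZ y _ hD α, norm_mul, Complex.norm_real, Real.norm_eq_abs, abs_pow,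
            abs_neg, abs_one, one_pow, one_mul]
          refine (g1 0 _ _).trans (g2 _ _ _ (Nat.cast_nonneg _) ?_)
          refine (Nat.cast_div_le).trans ?_
          have : (y : ℝ) ≤ x := by exact_mod_cast hy
          gcongr
      _ = ∑ j ∈ ((Pz z).powerset.filter (fun T => T.card ≤ r)).image (fun T => ∏ p ∈ T, p),
            gs ((x : ℝ) / (j : ℝ)) ((j : ℝ) * α) := by
          rw [Finset.sum_image]
          intro T hT T' hT' h3
          have h4 := mem_powerset.1 (mem_filter.1 (Finset.mem_coe.1 hT)).1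
          have h5 := mem_powerset.1 (mem_filter.1 (Finset.mem_coe.1 hT')).1
          exact inj_MinZ h4 h5 h3
      _ ≤ ∑ j ∈ Icc 1 (Nat.sqrt x), gs ((x : ℝ) / (j : ℝ)) ((j : ℝ) * α) := by
          apply Finset.sum_le_sum_of_subset_of_nonneg
          · intro j hj
            obtain ⟨T, hT, rfl⟩ := mem_image.1 hj
            have h4 := mem_powerset.1 (mem_filter.1 hT).1
            have h5 := (mem_filter.1 hT).2
            refine mem_Icc.2 ⟨prod_pos_MinZ h4, (prod_le_MinZ h4).trans (le_trans ?_ hr)⟩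
            exact Nat.pow_le_pow_right (by omega) h5
          · intro j _ _
            exact g3 _ _ (by positivity)
      _ ≤ C * ((x : ℝ) / q + (Nat.sqrt x : ℕ) + q) * Real.log x ^ 2 := h2
      _ ≤ C * ((x : ℝ) / q + √x + q) * Real.log x ^ 2 := by gcongr
  · -- the error term
    calc ‖∑ n ∈ Ioc 0 y, ((I n - S n : ℝ) : ℂ) * ex (n * α)‖
        ≤ ∑ n ∈ Ioc 0 y, (((Pz z).powerset.filter
            (fun T => T.card = r + 1 ∧ ∀ p ∈ T, p ∣ n)).card : ℝ) := by
          refine (norm_sum_le _ _).trans (Finset.sum_le_sum fun n _ => ?_)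
          rw [norm_mul, hex, mul_one, Complex.norm_real, Real.norm_eq_abs]
          exact hIS n
      _ = ∑ n ∈ Ioc 0 y, ∑ T ∈ (Pz z).powerset.filter (fun T => T.card = r + 1),
            if (∏ p ∈ T, p) ∣ n then (1 : ℝ) else 0 := by
          refine Finset.sum_congr rfl fun n _ => ?_
          rw [← Finset.sum_filter, Finset.filter_filter, Finset.sum_const, nsmul_eq_mul, mul_one]
          congr 2
          ext T
          simp only [mem_filter, mem_powerset]
          constructor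
          · rintro ⟨h2, h3, h4⟩
            exact ⟨h2, h3, (dvd_MinZ h2 n).1 h4⟩
          · rintro ⟨h2, h3, h4⟩
            exact ⟨h2, h3, (dvd_MinZ h2 n).2 h4⟩
      _ = ∑ T ∈ (Pz z).powerset.filter (fun T => T.card = r + 1),
            ((y / (∏ p ∈ T, p) : ℕ) : ℝ) := by
          rw [Finset.sum_comm]
          refine Finset.sum_congr rfl fun T _ => ?_
          rw [← Finset.sum_filter, Finset.sum_const, nsmul_eq_mul, mul_one,
            Nat.Ioc_filter_dvd_card_eq_div]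
      _ ≤ ∑ T ∈ (Pz z).powerset.filter (fun T => T.card = r + 1),
            (x : ℝ) * ((1 : ℝ) / ((∏ p ∈ T, p : ℕ) : ℝ)) := by
          refine Finset.sum_le_sum fun T _ => ?_
          refine (Nat.cast_div_le).trans ?_
          rw [mul_one_div]
          have : (y : ℝ) ≤ x := by exact_mod_cast hy
          gcongr
      _ = x * ∑ T ∈ (Pz z).powerset.filter (fun T => T.card = r + 1),
            (1 : ℝ) / ((∏ p ∈ T, p : ℕ) : ℝ) := by rw [Finset.mul_sum]
      _ ≤ x * ((1 + Real.log z) ^ (r + 1) / (r + 1).factorial) := by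
          refine mul_le_mul_of_nonneg_left ?_ (Nat.cast_nonneg x)
          exact hb z (r + 1) hz

theorem fact_MinZ (R : ℕ) (hR : 1 ≤ R) : ((R : ℝ) / Real.exp 1) ^ R ≤ R.factorial := by
  refine le_trans ?_ (Stirling.le_factorial_stirling R)
  have h1 : 1 ≤ √(2 * Real.pi * R) := by
    rw [Real.one_le_sqrt]
    have h2 := Real.pi_gt_three
    have h3 : (1 : ℝ) ≤ R := by exact_mod_cast hR
    nlinarith
  have h2 : 0 ≤ ((R : ℝ) / Real.exp 1) ^ R := by positivity
  nlinarith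

theorem hMinZ (ha : StBrun) (hb : StTail) (hc : StVz) (hd : StTI) (he : StGeo1) : StMinZ := by
  intro A B
  obtain ⟨c, hc0, hV⟩ := hc
  obtain ⟨C, hC0, hTI⟩ := hd
  set κ : ℝ := min (1 / (6 * ((A : ℝ) + 1))) c with hκ
  have hκ0 : 0 < κ := lt_min (by positivity) hc0
  have hκ1 : κ ≤ 1 / (6 * ((A : ℝ) + 1)) := min_le_left _ _
  have hκ2 : κ ≤ c := min_le_right _ _
  have hA0 : (0 : ℝ) ≤ A := Nat.cast_nonneg A
  have hκ3 : κ * (6 * ((A : ℝ) + 1)) ≤ 1 := by
    rwa [le_div_iff₀ (by positivity)] at hκ1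
  have hκ6 : 6 * κ ≤ 1 := by nlinarith
  obtain ⟨x₀, hx₀⟩ := ev_MinZ B κ hκ0
  refine ⟨x₀, C / c, by positivity, ?_⟩
  intro x y z q h α hx hy hz hzB hq hα
  obtain ⟨hx3, hL1, hu⟩ := hx₀ x hx
  set L : ℝ := Real.log x with hL
  set s : ℝ := √(√L) with hs
  have hxr : (3 : ℝ) ≤ x := by exact_mod_cast hx3
  have hs2 : s ^ 2 = √L := Real.sq_sqrt (Real.sqrt_nonneg _)
  have hs4 : s ^ 4 = L := by
    have : s ^ 4 = (s ^ 2) ^ 2 := by ring
    rw [this, hs2, Real.sq_sqrt (by linarith)]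
  have hs1 : 1 ≤ s := by
    rw [hs, Real.one_le_sqrt, Real.one_le_sqrt]; exact hL1
  have hzr : (2 : ℝ) ≤ z := by exact_mod_cast hz
  have hlz0 : 0 < Real.log z := Real.log_pos (by linarith)
  have hlzB : Real.log z ≤ B * Real.log L := by
    have := Real.log_le_log (by linarith) hzB
    rwa [Real.log_pow] at this
  have hlzu : 1 + Real.log z ≤ κ * s := by linarith
  have hss : s ≤ s ^ 4 := by
    calc s = s ^ 1 := (pow_one s).symm
      _ ≤ s ^ 4 := pow_le_pow_right₀ hs1 (by norm_num)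
  have hlzL : 6 * Real.log z ≤ L := by
    rw [← hs4]
    nlinarith
  -- the cut
  set R : ℕ := ⌊L / (2 * Real.log z)⌋₊ with hR
  have hRle : (R : ℝ) ≤ L / (2 * Real.log z) := Nat.floor_le (by positivity)
  have hRge : L / (3 * Real.log z) ≤ R := by
    have h1 : L / (2 * Real.log z) < R + 1 := Nat.lt_floor_add_one _
    have h2 : L / (2 * Real.log z) - 1 ≥ L / (3 * Real.log z) := by
      have h3 : L / (2 * Real.log z) - L / (3 * Real.log z) = L / (6 * Real.log z) := by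
        field_simp
        ring
      have h4 : 1 ≤ L / (6 * Real.log z) := by
        rw [le_div_iff₀ (by positivity)]; linarith
      linarith
    linarith
  have hRs : s ^ 3 / (3 * κ) ≤ R := by
    refine le_trans ?_ hRge
    rw [div_le_div_iff₀ (by positivity) (by positivity), ← hs4]
    have h1 : Real.log z ≤ κ * s := by linarith
    have h2 : 0 ≤ s ^ 3 := by positivity
    nlinarith [mul_le_mul_of_nonneg_left h1 h2]
  have hRA : 2 * (A + 1) ≤ R := by
    have h1 : (2 * ((A : ℝ) + 1)) ≤ s ^ 3 / (3 * κ) := by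
      rw [le_div_iff₀ (by positivity)]
      have : 1 ≤ s ^ 3 := one_le_pow₀ hs1
      nlinarith
    have h2 := h1.trans hRs
    exact_mod_cast h2
  have hR1 : 1 ≤ R := by omega
  have hRpos : (0 : ℝ) < R := by exact_mod_cast hR1
  obtain ⟨r, hr⟩ : ∃ r, R = r + 1 := ⟨R - 1, by omega⟩
  have hzr' : z ^ r ≤ Nat.sqrt x := by
    rw [Nat.le_sqrt]
    have h1 : ((z ^ r * z ^ r : ℕ) : ℝ) ≤ x := by
      have h2 : (R : ℝ) * (2 * Real.log z) ≤ L := by
        rwa [le_div_iff₀ (by positivity)] at hRle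
      have h3 : ((z ^ r * z ^ r : ℕ) : ℝ) = Real.exp (2 * r * Real.log z) := by
        rw [show (2 : ℝ) * r * Real.log z = ((2 * r : ℕ) : ℝ) * Real.log z by push_cast; ring,
          Real.exp_nat_mul, Real.exp_log (by linarith)]
        push_cast
        ring
      rw [h3]
      calc Real.exp (2 * r * Real.log z) ≤ Real.exp L := by
            apply Real.exp_le_exp.2
            rw [hr] at h2
            push_cast at h2
            nlinarith
        _ = x := by rw [hL, Real.exp_log (by linarith)]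
    exact_mod_cast h1
  have hmain := main_MinZ ha hb he C hTI hC0 x y z q r h α hx3 hy hz hq hα hzr'
  -- passage to `lz`
  have hVz : c / Real.log z ≤ Vz z := hV z hz
  have hVpos : 0 < Vz z := lt_of_lt_of_le (by positivity) hVz
  have hVinv : 1 / Vz z ≤ Real.log z / c := by
    rw [div_le_div_iff₀ hVpos hc0, one_mul]
    rwa [div_le_iff₀ hlz0, mul_comm] at hVz
  have e1 : Sx (lz z) y α = ((1 / Vz z : ℝ) : ℂ) * ∑ n ∈ Ioc 0 y,
      ((if ∀ p ∈ Pz z, ¬ p ∣ n then (1 : ℝ) else 0 : ℝ) : ℂ) * ex (n * α) := by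
    unfold Sx
    rw [Finset.mul_sum]
    refine Finset.sum_congr rfl fun n _ => ?_
    unfold lz
    split_ifs
    · push_cast; ring
    · simp
  rw [e1, norm_mul, Complex.norm_real, Real.norm_of_nonneg (by positivity)]
  have hq0 : (0 : ℝ) ≤ q := Nat.cast_nonneg q
  have hE0 : 0 ≤ C * ((x : ℝ) / q + √x + q) * L ^ 2 := by positivity
  have hF0 : 0 ≤ (x : ℝ) * ((1 + Real.log z) ^ (r + 1) / (r + 1).factorial) := by positivity
  have hA1 : Real.log z / c * (C * ((x : ℝ) / q + √x + q) * L ^ 2) ≤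
      C / c * ((x : ℝ) / q + √x + q) * L ^ 3 := by
    have h1 : Real.log z ≤ L := by linarith
    calc Real.log z / c * (C * ((x : ℝ) / q + √x + q) * L ^ 2)
        ≤ L / c * (C * ((x : ℝ) / q + √x + q) * L ^ 2) := by gcongr
      _ = C / c * ((x : ℝ) / q + √x + q) * L ^ 3 := by ring
  have hA2 : Real.log z / c * (x * ((1 + Real.log z) ^ (r + 1) / (r + 1).factorial)) ≤
      x / L ^ A := by
    rw [← hr]
    have hfac := fact_MinZ R hR1
    have hbase : (1 + Real.log z) * Real.exp 1 / R ≤ 1 / s ^ 2 := by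
      rw [div_le_div_iff₀ hRpos (by positivity), one_mul]
      refine le_trans ?_ hRs
      rw [le_div_iff₀ (by positivity)]
      have he1 := Real.exp_one_lt_d9
      have he0 : 0 < Real.exp 1 := Real.exp_pos 1
      have h1 : (1 + Real.log z) * Real.exp 1 ≤ κ * s * 2.72 := by
        apply mul_le_mul hlzu (by linarith) he0.le (by positivity)
      have h2 : κ * s * 2.72 * s ^ 2 * (3 * κ) ≤ s ^ 3 := by
        have h3 : κ * s * 2.72 * s ^ 2 * (3 * κ) = (8.16 * (κ * κ)) * s ^ 3 := by ring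
        rw [h3]
        have h4 : 8.16 * (κ * κ) ≤ 1 := by nlinarith
        have h5 : 0 ≤ s ^ 3 := by positivity
        nlinarith
      calc (1 + Real.log z) * Real.exp 1 * s ^ 2 * (3 * κ)
          ≤ κ * s * 2.72 * s ^ 2 * (3 * κ) := by gcongr
        _ ≤ s ^ 3 := h2
    have hq1 : (1 + Real.log z) ^ R / R.factorial ≤ 1 / L ^ (A + 1) := by
      calc (1 + Real.log z) ^ R / R.factorial
          ≤ (1 + Real.log z) ^ R / ((R : ℝ) / Real.exp 1) ^ R := by gcongr
        _ = ((1 + Real.log z) * Real.exp 1 / R) ^ R := by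
            rw [← div_pow]
            congr 1
            field_simp
        _ ≤ (1 / s ^ 2) ^ R := by
            apply pow_le_pow_left₀ (by positivity) hbase
        _ ≤ (1 / s ^ 2) ^ (2 * (A + 1)) := by
            apply pow_le_pow_of_le_one (by positivity) _ hRA
            rw [div_le_one (by positivity)]
            exact one_le_pow₀ hs1
        _ = 1 / L ^ (A + 1) := by
            rw [div_pow, one_pow, ← hs4, ← pow_mul, ← pow_mul]
            congr 2
            ring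
    have hlc : Real.log z / c ≤ L := by
      rw [div_le_iff₀ hc0, ← hs4]
      have h1 : Real.log z ≤ κ * s := by linarith
      calc Real.log z ≤ κ * s := h1
        _ ≤ c * s ^ 4 := by gcongr
        _ = s ^ 4 * c := mul_comm _ _
    calc Real.log z / c * (x * ((1 + Real.log z) ^ R / R.factorial))
        ≤ L * (x * (1 / L ^ (A + 1))) := by gcongr
      _ = x / L ^ A := by
          rw [pow_succ]
          field_simp
  calc 1 / Vz z * ‖∑ n ∈ Ioc 0 y,
      ((if ∀ p ∈ Pz z, ¬ p ∣ n then (1 : ℝ) else 0 : ℝ) : ℂ) * ex (n * α)‖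
      ≤ Real.log z / c * (C * ((x : ℝ) / q + √x + q) * L ^ 2 +
        x * ((1 + Real.log z) ^ (r + 1) / (r + 1).factorial)) := by
        refine mul_le_mul hVinv ?_ (norm_nonneg _) (by positivity)
        convert hmain using 4
    _ = Real.log z / c * (C * ((x : ℝ) / q + √x + q) * L ^ 2) +
        Real.log z / c * (x * ((1 + Real.log z) ^ (r + 1) / (r + 1).factorial)) := by ring
    _ ≤ _ := add_le_add hA1 hA2

end Pool.Agent.Helper48.BK
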