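import Pool.Agent.Helper48.BK.StB

/-!
# Project BK: the theorem in terms of Baker's constant
-/

set_option autoImplicit false

namespace Pool.Agent.Helper48.BK

open Finset

/-- number of integer triples in a smaller box -/
theorem boxCard_Mu (n : ℕ) : (Box n).card = (2 * n + 1) ^ 3 := by
  unfold Box
  rw [Finset.card_product, Finset.card_product, Int.card_Icc]
  have : ((n : ℤ) + 1 - -(n : ℤ)).toNat = 2 * n + 1 := by omega
  rw [this]; ring

theorem solv_mono_Mu {a b c d : ℤ} {B B' : ℝ} (h : Solv a b c d B) (hB : B ≤ B') :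
    Solv a b c d B' := by
  obtain ⟨p, q, r, hp, hq, hr, he, hm⟩ := h
  exact ⟨p, q, r, hp, hq, hr, he, hm.trans hB⟩

theorem hMu (hInt : StInt) : StMu := by
  classical
  intro A μ hμ
  obtain ⟨C, m₀, hI⟩ := hInt (A + 1)
  -- choose the size of the small box
  have hlog : Filter.Tendsto (fun n : ℕ => Real.log (n : ℝ)) Filter.atTop Filter.atTop :=
    Real.tendsto_log_atTop.comp tendsto_natCast_atTop_atTop
  have ev1 : ∀ᶠ n : ℕ in Filter.atTop, (128 : ℝ) ≤ Real.log n := hlog.eventually_ge_atTop _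
  -- m (log m)^C <= (m / (log m)^(A+1))^μ
  have ev2 : ∀ᶠ n : ℕ in Filter.atTop, (n : ℝ) * Real.log n ^ C ≤
      ((n : ℝ) / Real.log n ^ (A + 1)) ^ μ := by
    have h1 : ∀ᶠ x : ℝ in Filter.atTop, Real.log x ^ ((C : ℝ) + (A + 1) * μ) ≤ x ^ (μ - 1) := by
      have := isLittleO_log_rpow_rpow_atTop ((C : ℝ) + (A + 1) * μ) (show 0 < μ - 1 by linarith)
      have h2 := this.bound (show (0 : ℝ) < 1 by norm_num)
      filter_upwards [h2, Filter.eventually_ge_atTop (3 : ℝ)] with x hx h3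
      rw [one_mul, Real.norm_of_nonneg (Real.rpow_nonneg (Real.log_nonneg (by linarith)) _),
        Real.norm_of_nonneg (Real.rpow_nonneg (by linarith) _)] at hx
      exact hx
    have h2 := tendsto_natCast_atTop_atTop (R := ℝ) |>.eventually h1
    filter_upwards [h2, ev1, Filter.eventually_ge_atTop 3] with n hn h6 h3
    have hn0 : (0 : ℝ) < n := by exact_mod_cast (by omega : 0 < n)
    have hL0 : (0 : ℝ) < Real.log n := by linarith
    rw [Real.div_rpow hn0.le (by positivity), le_div_iff₀ (by positivity)]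
    have e1 : (Real.log n ^ (A + 1)) ^ μ = Real.log n ^ (((A : ℝ) + 1) * μ) := by
      rw [← Real.rpow_natCast, ← Real.rpow_mul hL0.le]; push_cast; rfl
    have e2 : Real.log n ^ C = Real.log n ^ (C : ℝ) := (Real.rpow_natCast _ _).symm
    have e3 : (n : ℝ) ^ μ = n * n ^ (μ - 1) := by
      rw [Real.rpow_sub hn0, Real.rpow_one]; field_simp
    rw [e1, e2, e3, mul_assoc, ← Real.rpow_add hL0]
    gcongr
  -- (log m)^C <= m
  have ev3 : ∀ᶠ n : ℕ in Filter.atTop, Real.log n ^ C ≤ n := by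
    have h1 : ∀ᶠ x : ℝ in Filter.atTop, Real.log x ^ C ≤ x := by
      have := isLittleO_log_rpow_rpow_atTop (C : ℝ) (show (0 : ℝ) < 1 by linarith)
      have h2 := this.bound (show (0 : ℝ) < 1 by norm_num)
      filter_upwards [h2, Filter.eventually_ge_atTop (3 : ℝ)] with x hx h3
      rw [one_mul, Real.norm_of_nonneg (Real.rpow_nonneg (Real.log_nonneg (by linarith)) _),
        Real.norm_of_nonneg (Real.rpow_nonneg (by linarith) _), Real.rpow_natCast,
        Real.rpow_one] at hx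
      exact hx
    exact tendsto_natCast_atTop_atTop (R := ℝ) |>.eventually h1
  have ev4 : ∀ᶠ n : ℕ in Filter.atTop, Real.log n ^ (A + 1) ≤ n := by
    have h1 : ∀ᶠ x : ℝ in Filter.atTop, Real.log x ^ (A + 1) ≤ x := by
      have := isLittleO_log_rpow_rpow_atTop ((A + 1 : ℕ) : ℝ) (show (0 : ℝ) < 1 by linarith)
      have h2 := this.bound (show (0 : ℝ) < 1 by norm_num)
      filter_upwards [h2, Filter.eventually_ge_atTop (3 : ℝ)] with x hx h3
      rw [one_mul, Real.norm_of_nonneg (Real.rpow_nonneg (Real.log_nonneg (by linarith)) _),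
        Real.norm_of_nonneg (Real.rpow_nonneg (by linarith) _), Real.rpow_natCast,
        Real.rpow_one] at hx
      exact hx
    exact tendsto_natCast_atTop_atTop (R := ℝ) |>.eventually h1
  obtain ⟨m₁, hm₁⟩ := Filter.eventually_atTop.1
    ((((ev1.and ev2).and ev3).and ev4).and (Filter.eventually_ge_atTop (max m₀ 3)))
  refine ⟨m₁, fun m hm => ?_⟩
  obtain ⟨⟨⟨⟨h6, h2⟩, h3⟩, h4⟩, h5⟩ := hm₁ m hm
  set L : ℝ := Real.log m with hL
  have hL0 : (0 : ℝ) < L := by linarith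
  have hm3 : 3 ≤ m := (le_max_right _ _).trans h5
  have hm0 : (0 : ℝ) < m := by exact_mod_cast (by omega : 0 < m)
  have hLA : (0 : ℝ) < L ^ (A + 1) := by positivity
  set n : ℕ := ⌊(m : ℝ) / L ^ (A + 1)⌋₊ with hn
  have hn1 : (n : ℝ) ≤ m / L ^ (A + 1) := Nat.floor_le (by positivity)
  have hn2 : (m : ℝ) / L ^ (A + 1) < n + 1 := Nat.lt_floor_add_one _
  have hx1 : (1 : ℝ) ≤ m / L ^ (A + 1) := by rw [le_div_iff₀ hLA]; linarith
  -- the exceptional set is contained in the union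
  have hsub : ((Box m).filter (fun v : ℤ × ℤ × ℤ => ∃ d : ℤ, Admissible v.1 v.2.1 v.2.2 d ∧
      ¬ Solv v.1 v.2.1 v.2.2 d (3 * |(d : ℝ)| +
        ((max 3 (max |v.1| (max |v.2.1| |v.2.2|)) : ℤ) : ℝ) ^ μ))) ⊆
      ((Box m).filter (fun v : ℤ × ℤ × ℤ => ∃ d : ℤ, Admissible v.1 v.2.1 v.2.2 d ∧
        ¬ Solv v.1 v.2.1 v.2.2 d ((|(d : ℝ)| / m + m) * Real.log m ^ C))) ∪ Box n := by
    intro v hv
    rw [Finset.mem_filter] at hv
    rw [Finset.mem_union]
    obtain ⟨hv1, d, hd1, hd2⟩ := hv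
    by_cases hs : v ∈ Box n
    · exact Or.inr hs
    · left
      rw [Finset.mem_filter]
      refine ⟨hv1, d, hd1, fun hsol => hd2 (solv_mono_Mu hsol ?_)⟩
      -- size of the coefficients
      have hbig : (n : ℤ) + 1 ≤ max 3 (max |v.1| (max |v.2.1| |v.2.2|)) := by
        by_contra hcon
        push Not at hcon
        have h1 : max |v.1| (max |v.2.1| |v.2.2|) ≤ (n : ℤ) := by
          have := le_max_right 3 (max |v.1| (max |v.2.1| |v.2.2|))
          omega
        apply hs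
        unfold Box
        rw [Finset.mem_product, Finset.mem_product, Finset.mem_Icc, Finset.mem_Icc,
          Finset.mem_Icc, ← abs_le, ← abs_le, ← abs_le]
        rw [max_le_iff, max_le_iff] at h1
        exact ⟨h1.1, h1.2.1, h1.2.2⟩
      have hbig' : (n : ℝ) + 1 ≤ ((max 3 (max |v.1| (max |v.2.1| |v.2.2|)) : ℤ) : ℝ) := by
        exact_mod_cast hbig
      have hμ' : (m : ℝ) * L ^ C ≤ ((max 3 (max |v.1| (max |v.2.1| |v.2.2|)) : ℤ) : ℝ) ^ μ := by
        refine h2.trans (Real.rpow_le_rpow (by positivity) ?_ (by linarith))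
        linarith
      have hd : |(d : ℝ)| / m * L ^ C ≤ 3 * |(d : ℝ)| := by
        have : |(d : ℝ)| / m * L ^ C ≤ |(d : ℝ)| / m * m := by gcongr
        rw [div_mul_cancel₀ _ hm0.ne'] at this
        have := abs_nonneg (d : ℝ)
        linarith
      calc (|(d : ℝ)| / m + m) * L ^ C = |(d : ℝ)| / m * L ^ C + m * L ^ C := by ring
        _ ≤ _ := add_le_add hd hμ'
  have hcard := (Finset.card_le_card hsub).trans (Finset.card_union_le _ _)
  have hI' := hI m ((le_max_left _ _).trans h5)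
  have hcard' : (((Box m).filter (fun v : ℤ × ℤ × ℤ => ∃ d : ℤ,
      Admissible v.1 v.2.1 v.2.2 d ∧
      ¬ Solv v.1 v.2.1 v.2.2 d (3 * |(d : ℝ)| +
        ((max 3 (max |v.1| (max |v.2.1| |v.2.2|)) : ℤ) : ℝ) ^ μ))).card : ℝ) ≤
      (((Box m).filter (fun v : ℤ × ℤ × ℤ => ∃ d : ℤ, Admissible v.1 v.2.1 v.2.2 d ∧
        ¬ Solv v.1 v.2.1 v.2.2 d ((|(d : ℝ)| / m + m) * Real.log m ^ C))).card : ℝ) +
        ((Box n).card : ℝ) := by
    exact_mod_cast hcard
  refine hcard'.trans ?_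
  rw [boxCard_Mu]
  push_cast
  have hb : (2 * (n : ℝ) + 1) ^ 3 ≤ 27 * (m : ℝ) ^ 3 / L ^ (A + 1) := by
    have h7 : 2 * (n : ℝ) + 1 ≤ 3 * (m / L ^ (A + 1)) := by linarith
    calc (2 * (n : ℝ) + 1) ^ 3 ≤ (3 * (m / L ^ (A + 1))) ^ 3 := by gcongr
      _ = 27 * m ^ 3 / L ^ (A + 1) * (1 / L ^ (A + 1)) ^ 2 := by field_simp; norm_num
      _ ≤ 27 * m ^ 3 / L ^ (A + 1) * 1 := by
          have h8 : 1 / L ^ (A + 1) ≤ 1 := by
            rw [div_le_one hLA]
            exact one_le_pow₀ (by linarith)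
          have h9 : (1 / L ^ (A + 1)) ^ 2 ≤ 1 := pow_le_one₀ (by positivity) h8
          gcongr
      _ = _ := by ring
  calc _ ≤ (m : ℝ) ^ 3 / L ^ (A + 1) + 27 * (m : ℝ) ^ 3 / L ^ (A + 1) := add_le_add hI' hb
    _ = 28 * (m : ℝ) ^ 3 / L ^ (A + 1) := by ring
    _ ≤ (m : ℝ) ^ 3 / L ^ A := by
        rw [div_le_div_iff₀ (by positivity) (by positivity), pow_succ]
        have : (28 : ℝ) ≤ L := by linarith
        have h9 : (0 : ℝ) ≤ m ^ 3 * L ^ A := by positivity
        calc 28 * (m : ℝ) ^ 3 * L ^ A = (m ^ 3 * L ^ A) * 28 := by ring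
          _ ≤ (m ^ 3 * L ^ A) * L := mul_le_mul_of_nonneg_left this h9
          _ = (m : ℝ) ^ 3 * (L ^ A * L) := by ring

end Pool.Agent.Helper48.BK
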