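import Pool.Agent.Helper48.BK.StW

/-!
# Project BK: nonnegative coefficients of `ζ(s) L(s,χ)` and `ζ(s) L(s,χ) L(s,ψ) L(s,χψ)`
-/

set_option autoImplicit false

namespace Pool.Agent.Helper48.BK

open Finset ArithmeticFunction Complex
open scoped ComplexOrder ArithmeticFunction.zeta

theorem mul_congr_NN {f f' g g' : ArithmeticFunction ℂ} {p k : ℕ} (hp : p.Prime)
    (hf : ∀ i, f (p ^ i) = f' (p ^ i)) (hg : ∀ i, g (p ^ i) = g' (p ^ i)) :
    (f * g) (p ^ k) = (f' * g') (p ^ k) := by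
  rw [ArithmeticFunction.mul_apply, ArithmeticFunction.mul_apply]
  refine Finset.sum_congr rfl fun x hx => ?_
  obtain ⟨h1, -⟩ := Nat.mem_divisorsAntidiagonal.1 hx
  obtain ⟨i, -, hi⟩ := (Nat.dvd_prime_pow hp).1 (Dvd.intro _ h1)
  obtain ⟨j, -, hj⟩ := (Nat.dvd_prime_pow hp).1 (Dvd.intro_left _ h1)
  rw [hi, hj, hf, hg]

theorem mul_nonneg_NN {f g : ArithmeticFunction ℂ} {p k : ℕ} (hp : p.Prime)
    (hf : ∀ i, 0 ≤ f (p ^ i)) (hg : ∀ i, 0 ≤ g (p ^ i)) :
    0 ≤ (f * g) (p ^ k) := by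
  rw [ArithmeticFunction.mul_apply]
  refine Finset.sum_nonneg fun x hx => ?_
  obtain ⟨h1, -⟩ := Nat.mem_divisorsAntidiagonal.1 hx
  obtain ⟨i, -, hi⟩ := (Nat.dvd_prime_pow hp).1 (Dvd.intro _ h1)
  obtain ⟨j, -, hj⟩ := (Nat.dvd_prime_pow hp).1 (Dvd.intro_left _ h1)
  rw [hi, hj]
  exact mul_nonneg (hf i) (hg j)

/-- the arithmetic function of a character -/
noncomputable def af_NN {q : ℕ} (χ : DirichletCharacter ℂ q) : ArithmeticFunction ℂ :=
  toArithmeticFunction (χ ·)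

theorem af_pp_NN {q : ℕ} (χ : DirichletCharacter ℂ q) {p : ℕ} (hp : p.Prime) (i : ℕ) :
    af_NN χ (p ^ i) = χ (p : ZMod q) ^ i := by
  simp [af_NN, toArithmeticFunction, hp.ne_zero]

theorem z_pp_NN {p : ℕ} (hp : p.Prime) (i : ℕ) :
    ((ζ : ArithmeticFunction ℕ) : ArithmeticFunction ℂ) (p ^ i) = 1 := by
  rw [natCoe_apply, zeta_apply_ne (pow_ne_zero _ hp.ne_zero)]
  simp

theorem zetaMul_eq_NN {q : ℕ} (χ : DirichletCharacter ℂ q) :
    DirichletCharacter.zetaMul χ = ((ζ : ArithmeticFunction ℕ) : ArithmeticFunction ℂ) * af_NN χ :=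
  rfl

theorem pp_NN {q r m : ℕ} (χ : DirichletCharacter ℂ q) (ψ : DirichletCharacter ℂ r)
    (ω : DirichletCharacter ℂ m) (hχ : χ ^ 2 = 1) (hψ : ψ ^ 2 = 1)
    (hω : ∀ n : ℕ, ω (n : ZMod m) = χ (n : ZMod q) * ψ (n : ZMod r)) {p : ℕ} (hp : p.Prime)
    (k : ℕ) : 0 ≤ (((ζ : ArithmeticFunction ℕ) : ArithmeticFunction ℂ) * af_NN χ * af_NN ψ *
      af_NN ω) (p ^ k) := by
  have e1 : ((ζ : ArithmeticFunction ℕ) : ArithmeticFunction ℂ) * af_NN χ * af_NN ψ * af_NN ω =
      DirichletCharacter.zetaMul χ * (af_NN ψ * af_NN ω) := by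
    rw [zetaMul_eq_NN]; ring
  have e2 : ((ζ : ArithmeticFunction ℕ) : ArithmeticFunction ℂ) * af_NN χ * af_NN ψ * af_NN ω =
      DirichletCharacter.zetaMul ψ * (af_NN χ * af_NN ω) := by
    rw [zetaMul_eq_NN]; ring
  have c1 := fun i => DirichletCharacter.zetaMul_prime_pow_nonneg hχ hp i
  have c2 := fun i => DirichletCharacter.zetaMul_prime_pow_nonneg hψ hp i
  rcases MulChar.isQuadratic_iff_sq_eq_one.mpr hψ p with h | h | h
  · rw [e1]
    refine mul_nonneg_NN hp c1 (fun i => mul_nonneg_NN hp (fun i => ?_) (fun i => ?_))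
    · rw [af_pp_NN _ hp, h]
      exact pow_nonneg le_rfl _
    · rw [af_pp_NN _ hp, hω, h, mul_zero]
      exact pow_nonneg le_rfl _
  · rw [e1]
    refine mul_nonneg_NN hp c1 (fun i => ?_)
    rw [mul_congr_NN (f' := ((ζ : ArithmeticFunction ℕ) : ArithmeticFunction ℂ))
      (g' := af_NN χ) hp]
    · exact c1 i
    · intro i
      rw [af_pp_NN _ hp, h, z_pp_NN hp, one_pow]
    · intro i
      rw [af_pp_NN _ hp, af_pp_NN _ hp, hω, h, mul_one]
  · rcases MulChar.isQuadratic_iff_sq_eq_one.mpr hχ p with h' | h' | h'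
    · rw [e2]
      refine mul_nonneg_NN hp c2 (fun i => mul_nonneg_NN hp (fun i => ?_) (fun i => ?_))
      · rw [af_pp_NN _ hp, h']
        exact pow_nonneg le_rfl _
      · rw [af_pp_NN _ hp, hω, h', zero_mul]
        exact pow_nonneg le_rfl _
    · rw [e2]
      refine mul_nonneg_NN hp c2 (fun i => ?_)
      rw [mul_congr_NN (f' := ((ζ : ArithmeticFunction ℕ) : ArithmeticFunction ℂ))
        (g' := af_NN ψ) hp]
      · exact c2 i
      · intro i
        rw [af_pp_NN _ hp, h', z_pp_NN hp, one_pow]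
      · intro i
        rw [af_pp_NN _ hp, af_pp_NN _ hp, hω, h', one_mul]
    · rw [e1]
      refine mul_nonneg_NN hp c1 (fun i => ?_)
      rw [mul_comm, mul_congr_NN (f' := ((ζ : ArithmeticFunction ℕ) : ArithmeticFunction ℂ))
        (g' := af_NN ψ) hp]
      · exact c2 i
      · intro i
        rw [af_pp_NN _ hp, hω, h, h', z_pp_NN hp]
        norm_num
      · intro i
        rfl

theorem nonneg_NN {f : ArithmeticFunction ℂ} (hf : f.IsMultiplicative)
    (h : ∀ p k : ℕ, p.Prime → 0 ≤ f (p ^ k)) (n : ℕ) : 0 ≤ f n := by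
  rcases eq_or_ne n 0 with rfl | hn
  · simp only [ArithmeticFunction.map_zero, le_refl]
  · rw [hf.multiplicative_factorization _ hn]
    exact Finset.prod_nonneg fun p hp => h p _ (Nat.prime_of_mem_primeFactors hp)

theorem ls_NN {q : ℕ} [NeZero q] (χ : DirichletCharacter ℂ q) {s : ℂ} (hs : 1 < s.re) :
    LSeriesSummable (af_NN χ) s ∧ LSeries (af_NN χ) s = DirichletCharacter.LFunction χ s := by
  constructor
  · refine LSeriesSummable_of_bounded_of_one_lt_re (m := 1) (fun n hn ↦ ?_) hs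
    simpa only [af_NN, toArithmeticFunction, coe_mk, hn, ↓reduceIte] using χ.norm_le_one _
  · rw [DirichletCharacter.LFunction_eq_LSeries χ hs]
    refine LSeries_congr (fun {n} hn => ?_) s
    simp [af_NN, toArithmeticFunction, hn]

theorem lz_NN {s : ℂ} (hs : 1 < s.re) :
    LSeriesSummable (((ζ : ArithmeticFunction ℕ) : ArithmeticFunction ℂ)) s ∧
    LSeries (((ζ : ArithmeticFunction ℕ) : ArithmeticFunction ℂ)) s = riemannZeta s :=
  ⟨LSeriesSummable_zeta_iff.mpr hs, LSeries_zeta_eq_riemannZeta hs⟩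

theorem lmul_NN {f g : ArithmeticFunction ℂ} {s F G : ℂ}
    (hf : LSeriesSummable f s ∧ LSeries f s = F) (hg : LSeriesSummable g s ∧ LSeries g s = G) :
    LSeriesSummable (f * g : ArithmeticFunction ℂ) s ∧
      LSeries (f * g : ArithmeticFunction ℂ) s = F * G := by
  refine ⟨ArithmeticFunction.LSeriesSummable_mul hf.1 hg.1, ?_⟩
  rw [ArithmeticFunction.LSeries_mul' hf.1 hg.1, hf.2, hg.2]

/-- from complex to real coefficients -/
theorem fin_NN {f : ArithmeticFunction ℂ} (hf : f.IsMultiplicative)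
    (h : ∀ p k : ℕ, p.Prime → 0 ≤ f (p ^ k)) {L : ℂ → ℂ}
    (hL : ∀ s : ℂ, 1 < s.re → LSeriesSummable f s ∧ LSeries f s = L s) :
    ∃ a : ℕ → ℝ, (∀ n, 0 ≤ a n) ∧ 1 ≤ a 1 ∧ ∀ s : ℂ, 1 < s.re →
      LSeriesSummable (fun n => (a n : ℂ)) s ∧ LSeries (fun n => (a n : ℂ)) s = L s := by
  have h0 := nonneg_NN hf h
  have e : (fun n => (((f n).re : ℝ) : ℂ)) = ⇑f := by
    funext n
    obtain ⟨-, h2⟩ := Complex.nonneg_iff.1 (h0 n)
    apply Complex.ext
    · simp
    · simpa using h2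
  refine ⟨fun n => (f n).re, fun n => (Complex.nonneg_iff.1 (h0 n)).1, ?_, fun s hs => ?_⟩
  · change 1 ≤ (f 1).re
    rw [hf.map_one]
    simp
  · rw [e]
    exact hL s hs

theorem hNN : StNN := by
  intro q r m _ _ _ χ ψ ω hχ hψ hω
  have mχ : (af_NN χ).IsMultiplicative := DirichletCharacter.isMultiplicative_toArithmeticFunction χ
  have mψ : (af_NN ψ).IsMultiplicative := DirichletCharacter.isMultiplicative_toArithmeticFunction ψ
  have mω : (af_NN ω).IsMultiplicative := DirichletCharacter.isMultiplicative_toArithmeticFunction ω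
  have mζ : (((ζ : ArithmeticFunction ℕ) : ArithmeticFunction ℂ)).IsMultiplicative :=
    isMultiplicative_zeta.natCast
  constructor
  · exact fin_NN (f := ((ζ : ArithmeticFunction ℕ) : ArithmeticFunction ℂ) * af_NN χ)
      (L := fun s => riemannZeta s * DirichletCharacter.LFunction χ s)
      (mζ.mul mχ) (fun p k hp => DirichletCharacter.zetaMul_prime_pow_nonneg hχ hp k)
      (fun s hs => lmul_NN (lz_NN hs) (ls_NN χ hs))
  · exact fin_NN (f := ((ζ : ArithmeticFunction ℕ) : ArithmeticFunction ℂ) * af_NN χ *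
      af_NN ψ * af_NN ω)
      (L := fun s => riemannZeta s * DirichletCharacter.LFunction χ s *
        DirichletCharacter.LFunction ψ s * DirichletCharacter.LFunction ω s)
      (((mζ.mul mχ).mul mψ).mul mω)
      (fun p k hp => pp_NN χ ψ ω hχ hψ hω hp k)
      (fun s hs => lmul_NN (lmul_NN (lmul_NN (lz_NN hs) (ls_NN χ hs)) (ls_NN ψ hs)) (ls_NN ω hs))

end Pool.Agent.Helper48.BK
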