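import Pool.Agent.Helper48.BK.StB

/-!
# Project BK: few exceptional triples of natural numbers
-/

set_option autoImplicit false

namespace Pool.Agent.Helper48.BK

open Finset

/-- telescoping sum of inverse squares -/
theorem tele_Nat (t : ℝ) (ht : 1 < t) (J : ℕ) :
    ∑ j ∈ range J, 1 / (t + j) ^ 2 ≤ 1 / (t - 1) - 1 / (t - 1 + J) := by
  induction J with
  | zero => simp
  | succ J ih =>
    rw [Finset.sum_range_succ]
    have h1 : 1 / (t + J) ^ 2 ≤ 1 / (t - 1 + J) - 1 / (t - 1 + (J + 1 : ℕ)) := by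
      have hJ : (0 : ℝ) ≤ J := Nat.cast_nonneg J
      have e1 : (0 : ℝ) < t - 1 + J := by linarith
      have e2 : (0 : ℝ) < t + J := by linarith
      have e3 : t - 1 + ((J + 1 : ℕ) : ℝ) = t + J := by push_cast; ring
      rw [e3, div_sub_div _ _ e1.ne' e2.ne', div_le_div_iff₀ (by positivity) (by positivity)]
      nlinarith
    linarith

theorem pow_two_Nat (k : ℕ) : ∃ c : ℝ, 0 < c ∧ ∀ j : ℕ, (1 + (j : ℝ)) ^ k ≤ c * 2 ^ j := by
  have h := (tendsto_pow_const_div_const_pow_of_one_lt k (show (1 : ℝ) < 2 by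
    norm_num)).bddAbove_range
  obtain ⟨c, hc⟩ := h
  refine ⟨2 * (|c| + 1), by positivity, fun j => ?_⟩
  have h1 : ((j + 1 : ℕ) : ℝ) ^ k / 2 ^ (j + 1) ≤ c := hc ⟨j + 1, rfl⟩
  rw [div_le_iff₀ (by positivity)] at h1
  have h2 : (1 + (j : ℝ)) = ((j + 1 : ℕ) : ℝ) := by push_cast; ring
  rw [h2]
  refine h1.trans ?_
  rw [pow_succ]
  have h3 : c ≤ |c| + 1 := (le_abs_self c).trans (by linarith)
  have h4 : (0 : ℝ) < 2 ^ j := by positivity
  nlinarith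

theorem hNat (hOne : StOne) : StNat := by
  classical
  intro A
  obtain ⟨C₁, H₀, hO⟩ := hOne (A + 2)
  obtain ⟨cp, hcp, hpow⟩ := pow_two_Nat C₁
  set C' : ℕ := C₁ + 1 with hC'
  set C : ℕ := A + C' + 1 with hC
  have hlog : Filter.Tendsto (fun n : ℕ => Real.log (n : ℝ)) Filter.atTop Filter.atTop :=
    Real.tendsto_log_atTop.comp tendsto_natCast_atTop_atTop
  have ev1 : ∀ᶠ n : ℕ in Filter.atTop, (264 : ℝ) ≤ Real.log n := hlog.eventually_ge_atTop _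
  have ev2 : ∀ᶠ n : ℕ in Filter.atTop, 3 ^ C₁ * cp ≤ Real.log n := hlog.eventually_ge_atTop _
  have evp : ∀ k : ℕ, ∀ᶠ n : ℕ in Filter.atTop, Real.log n ^ k ≤ n := by
    intro k
    have h1 : ∀ᶠ x : ℝ in Filter.atTop, Real.log x ^ k ≤ x := by
      have := isLittleO_log_rpow_rpow_atTop ((k : ℕ) : ℝ) (show (0 : ℝ) < 1 by linarith)
      have h2 := this.bound (show (0 : ℝ) < 1 by norm_num)
      filter_upwards [h2, Filter.eventually_ge_atTop (3 : ℝ)] with x hx h3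
      rw [one_mul, Real.norm_of_nonneg (Real.rpow_nonneg (Real.log_nonneg (by linarith)) _),
        Real.norm_of_nonneg (Real.rpow_nonneg (by linarith) _), Real.rpow_natCast,
        Real.rpow_one] at hx
      exact hx
    exact tendsto_natCast_atTop_atTop (R := ℝ) |>.eventually h1
  obtain ⟨m₁, hm₁⟩ := Filter.eventually_atTop.1
    ((((ev1.and ev2).and (evp (C' + 1))).and (evp (A + 1))).and
      (Filter.eventually_ge_atTop (max H₀ 3)))
  refine ⟨C, m₁, fun m hm => ?_⟩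
  obtain ⟨⟨⟨⟨h264, h2⟩, h3⟩, h4⟩, h5⟩ := hm₁ m hm
  set L : ℝ := Real.log m with hL
  have hL0 : (0 : ℝ) < L := by linarith
  have hL1 : (1 : ℝ) ≤ L := by linarith
  have hm3 : 3 ≤ m := (le_max_right _ _).trans h5
  have hmH₀ : H₀ ≤ m := (le_max_left _ _).trans h5
  have hm0 : (0 : ℝ) < m := by exact_mod_cast (by omega : 0 < m)
  have hm1 : (1 : ℝ) ≤ m := by exact_mod_cast (by omega : 1 ≤ m)
  have hLA : (0 : ℝ) < L ^ A := by positivity
  -- lo and K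
  have hx1 : (1 : ℝ) ≤ m / (6 * L ^ A) := by
    rw [le_div_iff₀ (by positivity), one_mul]
    calc 6 * L ^ A ≤ L * L ^ A := by gcongr; linarith
      _ = L ^ (A + 1) := by rw [pow_succ]; ring
      _ ≤ m := h4
  set lo : ℕ := ⌊(m : ℝ) / (6 * L ^ A)⌋₊ with hlo
  have hlo1 : (lo : ℝ) ≤ m / (6 * L ^ A) := Nat.floor_le (by positivity)
  have hlo2 : (m : ℝ) / (6 * L ^ A) < lo + 1 := Nat.lt_floor_add_one _
  have hlo3 : 1 ≤ lo := by
    rw [hlo]; exact Nat.le_floor (by simpa using hx1)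
  have hlo3' : (1 : ℝ) ≤ lo := by exact_mod_cast hlo3
  have hlo4 : (m : ℝ) ≤ lo * (12 * L ^ A) := by
    have h1 : (m : ℝ) / (6 * L ^ A) ≤ 2 * lo := by linarith
    rw [div_le_iff₀ (by positivity)] at h1
    linarith
  have hlom : lo ≤ m := by
    have h1 : (lo : ℝ) ≤ m := by
      refine hlo1.trans (div_le_self hm0.le ?_)
      have : (1 : ℝ) ≤ L ^ A := one_le_pow₀ hL1
      linarith
    exact_mod_cast h1
  set K : ℕ := ⌈12 * L ^ A⌉₊ with hK
  have hK1 : 12 * L ^ A ≤ K := Nat.le_ceil _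
  have hK2 : (K : ℝ) < 12 * L ^ A + 1 := Nat.ceil_lt_add_one (by positivity)
  have hmK : m ≤ lo * K := by
    have : (m : ℝ) ≤ lo * K := hlo4.trans (by gcongr)
    exact_mod_cast this
  have hK3 : (K : ℝ) ≤ L ^ (A + 2) := by
    have h1 : (1 : ℝ) ≤ L ^ A := one_le_pow₀ hL1
    have h6 : L * L ^ A ≤ L ^ (A + 2) := by
      rw [← pow_succ']
      exact pow_le_pow_right₀ hL1 (by omega)
    nlinarith
  -- the heights
  set Hb : ℕ := ⌈(m : ℝ) ^ 2 * L ^ C'⌉₊ with hHb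
  have hHb1 : (m : ℝ) ^ 2 * L ^ C' ≤ Hb := Nat.le_ceil _
  have hLC : (1 : ℝ) ≤ L ^ C' := one_le_pow₀ hL1
  have hHb2 : (Hb : ℝ) ≤ 2 * (m ^ 2 * L ^ C') := by
    have h1 : (Hb : ℝ) < m ^ 2 * L ^ C' + 1 := Nat.ceil_lt_add_one (by positivity)
    have h6 : (1 : ℝ) ≤ m ^ 2 * L ^ C' := by nlinarith
    linarith
  have hHbm : (m : ℝ) ≤ Hb := by
    refine le_trans ?_ hHb1
    nlinarith
  have hHb0 : (0 : ℝ) < Hb := by linarith
  have hHb3 : (Hb : ℝ) ≤ (m : ℝ) ^ 3 := by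
    refine hHb2.trans ?_
    have h6 : 2 * L ^ C' ≤ m := by
      calc 2 * L ^ C' ≤ L * L ^ C' := by gcongr; linarith
        _ = L ^ (C' + 1) := by rw [pow_succ]; ring
        _ ≤ m := h3
    calc 2 * ((m : ℝ) ^ 2 * L ^ C') = (m : ℝ) ^ 2 * (2 * L ^ C') := by ring
      _ ≤ (m : ℝ) ^ 2 * (m : ℝ) := by gcongr
      _ = (m : ℝ) ^ 3 := by ring
  have hlHb1 : L ≤ Real.log Hb := Real.log_le_log hm0 hHbm
  have hlHb2 : Real.log Hb ≤ 3 * L := by
    have := Real.log_le_log hHb0 hHb3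
    rwa [Real.log_pow, Nat.cast_ofNat] at this
  have hlj : ∀ j : ℕ, Real.log ((2 ^ j * Hb : ℕ) : ℝ) = j * Real.log 2 + Real.log Hb := by
    intro j
    push_cast
    rw [Real.log_mul (by positivity) hHb0.ne', Real.log_pow]
  have hl2a : (1 : ℝ) / 2 ≤ Real.log 2 := by
    have := Real.log_two_gt_d9; linarith
  have hl2b : Real.log 2 ≤ 1 := by
    have := Real.log_two_lt_d9; linarith
  have hlj1 : ∀ j : ℕ, L + j / 2 ≤ Real.log ((2 ^ j * Hb : ℕ) : ℝ) := by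
    intro j
    rw [hlj j]
    have : (0 : ℝ) ≤ j := Nat.cast_nonneg j
    nlinarith
  have hlj2 : ∀ j : ℕ, Real.log ((2 ^ j * Hb : ℕ) : ℝ) ≤ 3 * L * (1 + j) := by
    intro j
    rw [hlj j]
    have : (0 : ℝ) ≤ j := Nat.cast_nonneg j
    nlinarith
  -- the bad sets
  set B : ℕ → Finset (ℕ × ℕ × ℕ) := fun j => ((Icc lo m) ×ˢ (Icc lo m) ×ˢ (Icc lo m)).filter
    (fun v : ℕ × ℕ × ℕ => Bad (2 ^ j * Hb) v.1 v.2.1 v.2.2) with hB
  have hBcard : ∀ j : ℕ, ((B j).card : ℝ) ≤ m ^ 3 / L ^ A * (4 * (1 / (2 * L + j) ^ 2)) := by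
    intro j
    have hj0 : (0 : ℝ) ≤ j := Nat.cast_nonneg j
    have h1 := hO (2 ^ j * Hb) m lo K ?_ hlo3 hlom hmK ?_ ?_
    · refine h1.trans ?_
      have h6 : (L ^ A) * ((2 * L + j) ^ 2 / 4) ≤ Real.log ((2 ^ j * Hb : ℕ) : ℝ) ^ (A + 2) := by
        have h7 := hlj1 j
        rw [pow_add]
        have h8 : L ≤ Real.log ((2 ^ j * Hb : ℕ) : ℝ) := by linarith
        have h9 : (2 * L + j) ^ 2 / 4 ≤ Real.log ((2 ^ j * Hb : ℕ) : ℝ) ^ 2 := by
          calc (2 * L + (j : ℝ)) ^ 2 / 4 = (L + j / 2) ^ 2 := by ring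
            _ ≤ _ := by gcongr
        gcongr
      calc (m : ℝ) ^ 3 / Real.log ((2 ^ j * Hb : ℕ) : ℝ) ^ (A + 2)
          ≤ m ^ 3 / ((L ^ A) * ((2 * L + j) ^ 2 / 4)) := by gcongr
        _ = _ := by field_simp
    · -- H₀ ≤ 2^j Hb
      have h6 : m ≤ Hb := by exact_mod_cast hHbm
      calc H₀ ≤ m := hmH₀
        _ ≤ Hb := h6
        _ = 1 * Hb := (one_mul _).symm
        _ ≤ 2 ^ j * Hb := Nat.mul_le_mul_right _ Nat.one_le_two_pow
    · refine hK3.trans ?_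
      have := hlj1 j
      have h8 : L ≤ Real.log ((2 ^ j * Hb : ℕ) : ℝ) := by linarith
      gcongr
    · have h6 : Real.log ((2 ^ j * Hb : ℕ) : ℝ) ^ C₁ ≤ 3 ^ C₁ * L ^ C₁ * (cp * 2 ^ j) := by
        have h7 : 0 ≤ Real.log ((2 ^ j * Hb : ℕ) : ℝ) := by
          have := hlj1 j; linarith
        calc Real.log ((2 ^ j * Hb : ℕ) : ℝ) ^ C₁ ≤ (3 * L * (1 + j)) ^ C₁ := by
              gcongr; exact hlj2 j
          _ = 3 ^ C₁ * L ^ C₁ * (1 + j) ^ C₁ := by rw [mul_pow, mul_pow]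
          _ ≤ _ := by gcongr; exact hpow j
      calc (m : ℝ) ^ 2 * Real.log ((2 ^ j * Hb : ℕ) : ℝ) ^ C₁
          ≤ m ^ 2 * (3 ^ C₁ * L ^ C₁ * (cp * 2 ^ j)) := by gcongr
        _ = 2 ^ j * (m ^ 2 * (L ^ C₁ * (3 ^ C₁ * cp))) := by ring
        _ ≤ 2 ^ j * (m ^ 2 * (L ^ C₁ * L)) := by gcongr
        _ = 2 ^ j * (m ^ 2 * L ^ C') := by rw [hC', pow_succ L]
        _ ≤ 2 ^ j * Hb := by gcongr
        _ = ((2 ^ j * Hb : ℕ) : ℝ) := by push_cast; ring
  -- large triples which are exceptional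
  set S := ((Icc 1 m) ×ˢ (Icc 1 m) ×ˢ (Icc 1 m)).filter
    (fun v : ℕ × ℕ × ℕ => ExN C m v.1 v.2.1 v.2.2) with hS
  set S₁ := S.filter (fun v : ℕ × ℕ × ℕ => lo ≤ v.1 ∧ lo ≤ v.2.1 ∧ lo ≤ v.2.2) with hS₁
  have hbad : ∀ v ∈ S₁, ∃ j : ℕ, v ∈ B j := by
    intro v hv
    rw [hS₁, hS, Finset.mem_filter, Finset.mem_filter, Finset.mem_product,
      Finset.mem_product, Finset.mem_Icc, Finset.mem_Icc, Finset.mem_Icc] at hv
    obtain ⟨⟨⟨⟨_, ha⟩, ⟨_, hb⟩, ⟨_, hc⟩⟩, d, had, hns⟩, hla, hlb, hlc⟩ := hv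
    have hex : ∃ j : ℕ, d.natAbs ≤ 2 ^ j * Hb := by
      refine ⟨d.natAbs, ?_⟩
      have h6 : 1 ≤ Hb := by
        have : (0 : ℝ) < Hb := hHb0
        exact_mod_cast this
      calc d.natAbs ≤ 2 ^ d.natAbs := Nat.lt_two_pow_self.le
        _ = 2 ^ d.natAbs * 1 := (mul_one _).symm
        _ ≤ _ := Nat.mul_le_mul_left _ h6
    set j := Nat.find hex with hj
    have hj1 : d.natAbs ≤ 2 ^ j * Hb := Nat.find_spec hex
    have hj2 : ((2 ^ j * Hb : ℕ) : ℝ) ≤ Hb + 2 * |(d : ℝ)| := by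
      rcases Nat.eq_zero_or_pos j with h0 | h0
      · rw [h0]; push_cast
        have := abs_nonneg (d : ℝ)
        linarith
      · have h6 : ¬ d.natAbs ≤ 2 ^ (j - 1) * Hb := Nat.find_min hex (by omega)
        push Not at h6
        have h7 : ((2 ^ (j - 1) * Hb : ℕ) : ℝ) < |(d : ℝ)| := by
          have : ((d.natAbs : ℕ) : ℝ) = |(d : ℝ)| := by
            rw [Nat.cast_natAbs, Int.cast_abs]
          rw [← this]
          exact_mod_cast h6
        have h8 : 2 ^ j * Hb = 2 * (2 ^ (j - 1) * Hb) := by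
          conv_lhs => rw [show j = (j - 1) + 1 by omega]
          rw [pow_succ]; ring
        rw [h8]
        push_cast at h7 ⊢
        linarith
    refine ⟨j, ?_⟩
    rw [hB]
    simp only [Finset.mem_filter, Finset.mem_product, Finset.mem_Icc]
    refine ⟨⟨⟨hla, ha⟩, ⟨hlb, hb⟩, ⟨hlc, hc⟩⟩, d, ?_, had, ?_⟩
    · rw [Int.abs_eq_natAbs]; exact_mod_cast hj1
    · rintro ⟨p, q, r, hp, hq, hr, heq, h1, h6, h7⟩
      refine hns ⟨p, q, r, hp, hq, hr, heq, ?_⟩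
      -- size
      have hsize : ∀ x k : ℕ, ∀ y : ℕ, k ≤ 11 → lo ≤ y → y * x ≤ k * (2 ^ j * Hb) →
          (x : ℝ) ≤ (|(d : ℝ)| / m + m) * L ^ C := by
        intro x k y hk hy hxy
        have h8 : (lo : ℝ) * x ≤ 11 * ((2 ^ j * Hb : ℕ) : ℝ) := by
          have h9 : lo * x ≤ 11 * (2 ^ j * Hb) :=
            (Nat.mul_le_mul_right _ hy).trans (hxy.trans (Nat.mul_le_mul_right _ hk))
          exact_mod_cast h9
        have h9 : (m : ℝ) * x ≤ m * ((|(d : ℝ)| / m + m) * L ^ C) := by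
          calc (m : ℝ) * x ≤ lo * (12 * L ^ A) * x := by gcongr
            _ = 12 * L ^ A * (lo * x) := by ring
            _ ≤ 12 * L ^ A * (11 * (Hb + 2 * |(d : ℝ)|)) :=
                mul_le_mul_of_nonneg_left (h8.trans (by linarith)) (by positivity)
            _ ≤ 12 * L ^ A * (11 * (2 * (m ^ 2 * L ^ C') + 2 * |(d : ℝ)|)) := by gcongr
            _ = 264 * (L ^ A * (m ^ 2 * L ^ C' + |(d : ℝ)| * 1)) := by ring
            _ ≤ L * (L ^ A * (m ^ 2 * L ^ C' + |(d : ℝ)| * L ^ C')) := by gcongr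
            _ = (|(d : ℝ)| + m ^ 2) * L ^ C := by rw [hC]; ring
            _ = m * ((|(d : ℝ)| / m + m) * L ^ C) := by field_simp
        exact le_of_mul_le_mul_left h9 hm0
      have hmax : ((max p (max q r) : ℕ) : ℝ) = max (p : ℝ) (max (q : ℝ) (r : ℝ)) := by
        push_cast; rfl
      rw [hmax]
      exact max_le (hsize p 5 v.1 (by norm_num) hla h1)
        (max_le (hsize q 5 v.2.1 (by norm_num) hlb h6) (hsize r 11 v.2.2 le_rfl hlc h7))
  choose! f hf using hbad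
  have hS₁card : (S₁.card : ℝ) ≤ m ^ 3 / L ^ A * (1 / 2) := by
    have hsub : S₁ ⊆ (range (S₁.sup f + 1)).biUnion B := by
      intro v hv
      rw [Finset.mem_biUnion]
      exact ⟨f v, Finset.mem_range.2 (Nat.lt_succ_of_le (Finset.le_sup hv)), hf v hv⟩
    have h1 : (S₁.card : ℝ) ≤ ∑ j ∈ range (S₁.sup f + 1), ((B j).card : ℝ) := by
      exact_mod_cast (Finset.card_le_card hsub).trans Finset.card_biUnion_le
    refine h1.trans ((Finset.sum_le_sum fun j _ => hBcard j).trans ?_)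
    rw [← Finset.mul_sum, ← Finset.mul_sum]
    have h6 := tele_Nat (2 * L) (by linarith) (S₁.sup f + 1)
    have h7 : (0 : ℝ) ≤ 1 / (2 * L - 1 + (S₁.sup f + 1 : ℕ)) := by
      have : (0 : ℝ) ≤ ((S₁.sup f + 1 : ℕ) : ℝ) := Nat.cast_nonneg _
      have : (0 : ℝ) ≤ 2 * L - 1 + ((S₁.sup f + 1 : ℕ) : ℝ) := by linarith
      positivity
    have h8 : 1 / (2 * L - 1) ≤ 1 / 8 := by
      apply one_div_le_one_div_of_le (by norm_num); linarith
    have h9 : ∑ j ∈ range (S₁.sup f + 1), 1 / (2 * L + (j : ℝ)) ^ 2 ≤ 1 / 8 := by linarith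
    gcongr
    linarith
  -- small triples
  have hS₂card : (((S \ S₁).card : ℕ) : ℝ) ≤ m ^ 3 / L ^ A * (1 / 2) := by
    have hsub : S \ S₁ ⊆ ((Icc 1 lo) ×ˢ (Icc 1 m) ×ˢ (Icc 1 m)) ∪
        (((Icc 1 m) ×ˢ (Icc 1 lo) ×ˢ (Icc 1 m)) ∪ ((Icc 1 m) ×ˢ (Icc 1 m) ×ˢ (Icc 1 lo))) := by
      intro v hv
      obtain ⟨hv1, hv2⟩ := Finset.mem_sdiff.1 hv
      have hv3 : ¬ (lo ≤ v.1 ∧ lo ≤ v.2.1 ∧ lo ≤ v.2.2) :=
        fun h => hv2 (by rw [hS₁]; exact Finset.mem_filter.2 ⟨hv1, h⟩)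
      rw [not_and_or, not_and_or] at hv3
      rw [hS, Finset.mem_filter, Finset.mem_product, Finset.mem_product, Finset.mem_Icc,
        Finset.mem_Icc, Finset.mem_Icc] at hv1
      simp only [Finset.mem_union, Finset.mem_product, Finset.mem_Icc]
      rcases hv3 with h | h | h <;> omega
    have h1 : (S \ S₁).card ≤ 3 * (lo * (m * m)) := by
      refine (Finset.card_le_card hsub).trans ((Finset.card_union_le _ _).trans ?_)
      refine (Nat.add_le_add_left (Finset.card_union_le _ _) _).trans ?_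
      simp only [Finset.card_product, Nat.card_Icc, Nat.add_sub_cancel]
      apply le_of_eq; ring
    have h1' : (((S \ S₁).card : ℕ) : ℝ) ≤ 3 * (lo * (m * m)) := by exact_mod_cast h1
    refine h1'.trans ?_
    calc 3 * ((lo : ℝ) * (m * m)) ≤ 3 * (m / (6 * L ^ A) * (m * m)) := by gcongr
      _ = m ^ 3 / L ^ A * (1 / 2) := by field_simp; norm_num
  have hsplit : (S.card : ℝ) = (S₁.card : ℝ) + ((S \ S₁).card : ℝ) := by
    have : S₁.card + (S \ S₁).card = S.card := by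
      rw [add_comm]
      exact Finset.card_sdiff_add_card_eq_card (Finset.filter_subset _ _)
    exact_mod_cast this.symm
  rw [hsplit]
  calc (S₁.card : ℝ) + ((S \ S₁).card : ℝ) ≤ m ^ 3 / L ^ A * (1 / 2) + m ^ 3 / L ^ A * (1 / 2) :=
        add_le_add hS₁card hS₂card
    _ = m ^ 3 / L ^ A := by ring

end Pool.Agent.Helper48.BK
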