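import Pool.Agent.Helper48.BK.StD

/-!
# Project BK: few bad triples at one height
-/

set_option autoImplicit false

namespace Pool.Agent.Helper48.BK

open Finset

/-- no prime solution: the ternary sum vanishes -/
theorem RRth_One (X H a b c : ℕ) (d : ℤ)
    (h : ¬ ∃ p q r : ℕ, p.Prime ∧ q.Prime ∧ r.Prime ∧
      (a : ℤ) * p + b * q = c * r + d ∧ a * p ≤ 5 * H ∧ b * q ≤ 5 * H ∧ c * r ≤ 11 * H) :
    RR th X H a b c d = 0 := by
  unfold RR TT
  refine Finset.sum_eq_zero fun n _ => Finset.sum_eq_zero fun k _ => Finset.sum_eq_zero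
    fun l _ => ?_
  split_ifs with he
  · by_contra hne
    have h1 : win th 4 5 H a n ≠ 0 := fun h0 => hne (by rw [h0]; ring)
    have h2 : win th 4 5 H b k ≠ 0 := fun h0 => hne (by rw [h0]; ring)
    have h3 : win th 7 11 H c l ≠ 0 := fun h0 => hne (by rw [h0]; ring)
    unfold win at h1 h2 h3
    split_ifs at h1 h2 h3 with h1' h2' h3'
    · unfold th at h1 h2 h3
      split_ifs at h1 h2 h3 with p1 p2 p3
      · refine h ⟨n, k, l, p1, p2, p3, ?_, h1'.2, h2'.2, h3'.2⟩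
        linarith
      all_goals simp_all
    all_goals simp_all
  · rfl

theorem hOne (hErr : StErr) (hMain : StMainT) (hDav : StDav) (hVz : StVz) (hTh : StTh) :
    StOne := by
  classical
  intro A
  obtain ⟨c₀, hc₀, B₁, hM⟩ := hMain
  obtain ⟨cv, hcv, hV⟩ := hVz
  set E : ℕ := 4 * A + 6 with hE
  obtain ⟨B, x₀, hD⟩ := hDav (4 * E)
  set C : ℕ := 2 * E + (B + 1) * B₁ + 1 with hC
  -- thresholds
  have hlog : Filter.Tendsto (fun n : ℕ => Real.log (n : ℝ)) Filter.atTop Filter.atTop :=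
    Real.tendsto_log_atTop.comp tendsto_natCast_atTop_atTop
  have ev1 : ∀ᶠ n : ℕ in Filter.atTop, (6 : ℝ) ≤ Real.log n := hlog.eventually_ge_atTop 6
  have ev2 : ∀ᶠ n : ℕ in Filter.atTop, (2 : ℝ) ^ ((B + 1) * B₁) ≤ Real.log n :=
    hlog.eventually_ge_atTop _
  have ev3 : ∀ᶠ n : ℕ in Filter.atTop, 622080 * 2 ^ (E + 1) / c₀ ≤ Real.log n :=
    hlog.eventually_ge_atTop _
  have ev4 : ∀ᶠ n : ℕ in Filter.atTop, (x₀ : ℝ) ^ 2 ≤ n := by
    have := tendsto_natCast_atTop_atTop (R := ℝ)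
    exact this.eventually_ge_atTop _
  -- log z is small compared with log X
  have ev5 : ∀ᶠ n : ℕ in Filter.atTop,
      ((B : ℝ) + 1) * Real.log (Real.log n) ≤ cv * Real.log n := by
    have h1 : Filter.Tendsto (fun n : ℕ => Real.log (Real.log n) / Real.log n)
        Filter.atTop (nhds 0) :=
      (Real.isLittleO_log_id_atTop.tendsto_div_nhds_zero).comp hlog
    have h2 : ∀ᶠ n : ℕ in Filter.atTop, Real.log (Real.log n) / Real.log n < cv / (B + 1) :=
      h1.eventually_lt_const (by positivity)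
    filter_upwards [h2, ev1] with n hn h6
    rw [div_lt_div_iff₀ (by linarith) (by positivity)] at hn
    nlinarith
  obtain ⟨N₅, hN₅⟩ := Filter.eventually_atTop.1 ev5
  have ev6 : ∀ᶠ n : ℕ in Filter.atTop, (N₅ : ℝ) ^ 2 ≤ n := by
    have := tendsto_natCast_atTop_atTop (R := ℝ)
    exact this.eventually_ge_atTop _
  obtain ⟨H₀, hH₀⟩ := Filter.eventually_atTop.1
    (((((ev1.and ev2).and ev3).and ev4).and ev6))
  refine ⟨C, H₀, ?_⟩
  intro H m lo K hH hlo hlom hmK hK hmH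
  obtain ⟨⟨⟨⟨h6, h2B⟩, h3⟩, hx0⟩, hn5⟩ := hH₀ H hH
  set L : ℝ := Real.log H with hL
  have hL0 : (0 : ℝ) < L := by linarith
  have hL1 : (1 : ℝ) ≤ L := by linarith
  have hHpos : (0 : ℝ) < H := by
    by_contra hcon
    have : (H : ℝ) = 0 := le_antisymm (not_lt.1 hcon) (Nat.cast_nonneg _)
    rw [hL, this, Real.log_zero] at h6
    linarith
  have hH144 : (144 : ℝ) ≤ H := by
    have : Real.exp 6 ≤ H := by
      rw [← Real.exp_log hHpos]
      exact Real.exp_le_exp.2 h6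
    have h144 : (144 : ℝ) ≤ Real.exp 6 := by
      have h27 : (2.7 : ℝ) ≤ Real.exp 1 := by
        have := Real.exp_one_gt_d9
        linarith
      have : Real.exp 6 = Real.exp 1 ^ 6 := by
        rw [← Real.exp_nat_mul]; norm_num
      rw [this]
      calc (144 : ℝ) ≤ 2.7 ^ 6 := by norm_num
        _ ≤ Real.exp 1 ^ 6 := by gcongr
    linarith
  have hmpos : (1 : ℝ) ≤ m := by exact_mod_cast hlo.trans hlom
  have hlopos : (1 : ℝ) ≤ lo := by exact_mod_cast hlo
  have hlom' : (lo : ℝ) ≤ m := by exact_mod_cast hlom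
  have hmH2 : (m : ℝ) ^ 2 ≤ H := by
    calc (m : ℝ) ^ 2 = m ^ 2 * 1 := by ring
      _ ≤ m ^ 2 * L ^ C := by gcongr; exact one_le_pow₀ hL1
      _ ≤ H := hmH
  have hmleH : (m : ℝ) ≤ H := by nlinarith
  -- X
  set X : ℕ := 11 * H / lo + 1 with hX
  have hXlo : 11 * H ≤ lo * X := by
    rw [hX]
    exact (Nat.lt_mul_div_succ (11 * H) (by omega)).le
  have hXlo' : (11 : ℝ) * H ≤ lo * X := by exact_mod_cast hXlo
  have hXle : (X : ℝ) ≤ 12 * H / lo := by
    have h1 : ((11 * H / lo : ℕ) : ℝ) ≤ (11 * H : ℕ) / (lo : ℝ) := Nat.cast_div_le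
    rw [hX]
    push_cast at h1 ⊢
    have h2 : (1 : ℝ) ≤ H / lo := by
      rw [le_div_iff₀ (by linarith)]
      linarith
    calc ((11 * H / lo : ℕ) : ℝ) + 1 ≤ 11 * H / lo + H / lo := by gcongr
      _ = 12 * H / lo := by ring
  have hXH : (X : ℝ) ≤ H ^ 2 := by
    calc (X : ℝ) ≤ 12 * H / lo := hXle
      _ ≤ 12 * H / 1 := by gcongr
      _ ≤ H ^ 2 := by nlinarith
  have hXge : (11 : ℝ) * H ≤ m * X := by
    calc (11 : ℝ) * H ≤ lo * X := hXlo'
      _ ≤ m * X := by gcongr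
  have hXpos : (0 : ℝ) < X := by
    have : (0:ℝ) < m * X := by nlinarith
    exact pos_of_mul_pos_right this (by linarith)
  -- H ≤ X^2
  have hHX2 : (H : ℝ) ≤ X ^ 2 := by
    have h1 : (H : ℝ) ^ 2 ≤ (m * X) ^ 2 := by
      gcongr
      nlinarith
    have h2 : (m * X : ℝ) ^ 2 ≤ H * X ^ 2 := by
      rw [mul_pow]; gcongr
    have h3 : (H : ℝ) * H ≤ H * X ^ 2 := by nlinarith
    exact le_of_mul_le_mul_left h3 hHpos
  have hlX1 : Real.log X ≤ 2 * L := by
    have := Real.log_le_log hXpos hXH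
    rwa [Real.log_pow, Nat.cast_ofNat] at this
  have hlX2 : L / 2 ≤ Real.log X := by
    have := Real.log_le_log hHpos hHX2
    rw [Real.log_pow, Nat.cast_ofNat] at this
    linarith
  have hlX3 : (3 : ℝ) ≤ Real.log X := by linarith
  have hmX : m ≤ X := by
    have : (m : ℝ) ≤ X := by
      by_contra hcon
      push Not at hcon
      have : (m : ℝ) * X ≤ m ^ 2 := by nlinarith
      nlinarith
    exact_mod_cast this
  have hxX : x₀ ≤ X := by
    have : (x₀ : ℝ) ^ 2 ≤ (X : ℝ) ^ 2 := hx0.trans hHX2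
    have := (pow_le_pow_iff_left₀ (by positivity) (by positivity) (by norm_num)).1 this
    exact_mod_cast this
  have hN5X : N₅ ≤ X := by
    have : (N₅ : ℝ) ^ 2 ≤ (X : ℝ) ^ 2 := hn5.trans hHX2
    have := (pow_le_pow_iff_left₀ (by positivity) (by positivity) (by norm_num)).1 this
    exact_mod_cast this
  -- z
  set z : ℕ := ⌈Real.log X ^ B⌉₊ + 1 with hz
  have hz1 : Real.log X ^ B ≤ z := by
    rw [hz]; push_cast
    have := Nat.le_ceil (Real.log X ^ B)
    linarith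
  have hlB1 : (1 : ℝ) ≤ Real.log X ^ B := one_le_pow₀ (by linarith)
  have hz2 : (z : ℝ) ≤ Real.log X ^ (B + 1) := by
    have h1 : (⌈Real.log X ^ B⌉₊ : ℝ) < Real.log X ^ B + 1 := Nat.ceil_lt_add_one (by positivity)
    rw [hz]; push_cast
    rw [pow_succ]
    nlinarith
  have hz3 : 2 ≤ z := by
    have : 1 ≤ ⌈Real.log X ^ B⌉₊ := Nat.one_le_iff_ne_zero.2 (by
      rw [Ne, Nat.ceil_eq_zero, not_le]; linarith)
    omega
  have hDX := hD X z hxX hz1 hz2
  -- the bounds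
  set δ : ℝ := (1 / Real.log X ^ (2 * E)) ^ 2 with hδ
  have hδ0 : 0 ≤ δ := by positivity
  have hδ' : (X : ℝ) / Real.log X ^ (4 * E) = δ * X := by
    rw [hδ, div_pow, one_pow, ← pow_mul]
    rw [show 2 * E * 2 = 4 * E by ring]
    ring
  have hsδ : √δ = 1 / Real.log X ^ (2 * E) := by
    rw [hδ, Real.sqrt_sq (by positivity)]
  have hthM : ∀ n ≤ X, |th n| ≤ 2 * L := by
    intro n hn
    obtain ⟨h1, _, h3⟩ := hTh.1 n
    rw [abs_of_nonneg h1]
    rcases Nat.eq_zero_or_pos n with h0 | h0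
    · subst h0; simp at h3; linarith
    · refine h3.trans (le_trans (Real.log_le_log (by exact_mod_cast h0) ?_) hlX1)
      exact_mod_cast hn
  have hVpos : 0 < Vz z := by
    have h1 := hV z hz3
    have h2 : 0 < Real.log z := Real.log_pos (by exact_mod_cast (by omega : 1 < z))
    exact lt_of_lt_of_le (by positivity) h1
  have hlzM : ∀ n ≤ X, |lz z n| ≤ 2 * L := by
    intro n _
    have h1 := hV z hz3
    have h2 : 0 < Real.log z := Real.log_pos (by exact_mod_cast (by omega : 1 < z))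
    have h3 : 1 / Vz z ≤ Real.log X := by
      have h4 : Real.log z ≤ (B + 1) * Real.log (Real.log X) := by
        have h4' := Real.log_le_log (by exact_mod_cast (by omega : 0 < z)) hz2
        rw [Real.log_pow] at h4'
        have h4'' : ((B + 1 : ℕ) : ℝ) = (B : ℝ) + 1 := by norm_num
        rw [h4''] at h4'
        exact h4'
      have h5 := hN₅ X hN5X
      rw [div_le_iff₀ hVpos]
      rw [div_le_iff₀ h2] at h1
      have h6 : Real.log z ≤ cv * Real.log X := h4.trans h5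
      have h7 : cv * 1 ≤ cv * (Real.log X * Vz z) := by
        calc cv * 1 = cv := mul_one _
          _ ≤ Vz z * Real.log z := h1
          _ ≤ Vz z * (cv * Real.log X) := by gcongr
          _ = cv * (Real.log X * Vz z) := by ring
      exact le_of_mul_le_mul_left h7 hcv
    unfold lz
    split_ifs
    · rw [abs_of_pos (by positivity)]; linarith
    · rw [abs_zero]; positivity
  have hSup : ∀ y ≤ X, ∀ α, ‖Sx (fun n => th n - lz z n) y α‖ ≤ δ * X := by
    intro y hy α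
    rw [← hδ']
    exact hDX α y hy
  set D : ℕ → ℕ → ℕ → ℤ := fun a b c => if h : Bad H a b c then h.choose else 0 with hDdef
  have key := hErr th (lz z) X H lo m K (2 * L) δ D hlo hlom hmK hmX hXlo (by linarith) hδ0
    hthM hlzM hSup
  -- lower bound
  have hlow : ∀ a ∈ Icc lo m, ∀ b ∈ Icc lo m, ∀ c ∈ Icc lo m, Bad H a b c →
      c₀ * H ^ 2 / m ^ 3 ≤ |RR th X H a b c (D a b c) - RR (lz z) X H a b c (D a b c)| := by
    intro a ha b hb c hc hbad
    rw [Finset.mem_Icc] at ha hb hc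
    have hDe : D a b c = hbad.choose := by
      rw [hDdef]; exact dif_pos hbad
    obtain ⟨hd1, hd2, hd3⟩ := hbad.choose_spec
    rw [← hDe] at hd1 hd2 hd3
    rw [RRth_One X H a b c (D a b c) hd3, zero_sub, abs_neg]
    have hle : c₀ * H ^ 2 / (a * b * c) ≤ RR (lz z) X H a b c (D a b c) := by
      refine hM H X z a b c (D a b c) (by omega) (by omega) (by omega) hd2 hd1 hz3 ?_ ?_ ?_ ?_
      · have h1 : ((max a (max b c) : ℕ) : ℝ) ≤ m := by
          exact_mod_cast max_le ha.2 (max_le hb.2 hc.2)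
        have h2 : ((max a (max b c)) ^ 2 * z ^ B₁ : ℝ) ≤ H := by
          calc (((max a (max b c) : ℕ) : ℝ) ^ 2 * (z : ℝ) ^ B₁ : ℝ)
              ≤ m ^ 2 * (Real.log X ^ (B + 1)) ^ B₁ := by gcongr
            _ ≤ m ^ 2 * ((2 * L) ^ (B + 1)) ^ B₁ := by gcongr
            _ = m ^ 2 * (2 ^ ((B + 1) * B₁) * L ^ ((B + 1) * B₁)) := by
                rw [← pow_mul, mul_pow]
            _ ≤ m ^ 2 * (L * L ^ ((B + 1) * B₁)) := by gcongr
            _ = m ^ 2 * (1 * L ^ ((B + 1) * B₁ + 1)) := by rw [pow_succ]; ring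
            _ ≤ m ^ 2 * (L ^ (2 * E) * L ^ ((B + 1) * B₁ + 1)) := by
                gcongr
                exact one_le_pow₀ hL1
            _ = m ^ 2 * L ^ C := by rw [← pow_add, hC]; ring_nf
            _ ≤ H := hmH
        exact_mod_cast h2
      · exact hXlo.trans (Nat.mul_le_mul_right _ ha.1)
      · exact hXlo.trans (Nat.mul_le_mul_right _ hb.1)
      · exact hXlo.trans (Nat.mul_le_mul_right _ hc.1)
    refine le_trans ?_ (le_abs_self _)
    refine le_trans ?_ hle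
    have ha0 : (1 : ℝ) ≤ a := by exact_mod_cast hlo.trans ha.1
    have hb0 : (1 : ℝ) ≤ b := by exact_mod_cast hlo.trans hb.1
    have hc0 : (1 : ℝ) ≤ c := by exact_mod_cast hlo.trans hc.1
    have ha1 : (a : ℝ) ≤ m := by exact_mod_cast ha.2
    have hb1 : (b : ℝ) ≤ m := by exact_mod_cast hb.2
    have hc1 : (c : ℝ) ≤ m := by exact_mod_cast hc.2
    gcongr
    calc (a : ℝ) * b * c ≤ m * m * m := by gcongr
      _ = m ^ 3 := by ring
  -- the count
  set S := ((Icc lo m) ×ˢ (Icc lo m) ×ˢ (Icc lo m)).filter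
    (fun v : ℕ × ℕ × ℕ => Bad H v.1 v.2.1 v.2.2) with hS
  have hcount : (S.card : ℝ) * (c₀ * H ^ 2 / m ^ 3) ≤
      60 * (2 * L) ^ 3 * K * (1 + Real.log X) ^ 2 * m ^ 2 * X ^ 2 * √(m / X + √δ) := by
    refine le_trans ?_ key
    rw [← nsmul_eq_mul, ← Finset.sum_const]
    calc ∑ _v ∈ S, c₀ * (H : ℝ) ^ 2 / m ^ 3
        ≤ ∑ v ∈ S, |RR th X H v.1 v.2.1 v.2.2 (D v.1 v.2.1 v.2.2) -
            RR (lz z) X H v.1 v.2.1 v.2.2 (D v.1 v.2.1 v.2.2)| := by
          refine Finset.sum_le_sum fun v hv => ?_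
          rw [hS, Finset.mem_filter, Finset.mem_product, Finset.mem_product] at hv
          exact hlow _ hv.1.1 _ hv.1.2.1 _ hv.1.2.2 hv.2
      _ ≤ ∑ v ∈ (Icc lo m) ×ˢ (Icc lo m) ×ˢ (Icc lo m),
          |RR th X H v.1 v.2.1 v.2.2 (D v.1 v.2.1 v.2.2) -
            RR (lz z) X H v.1 v.2.1 v.2.2 (D v.1 v.2.1 v.2.2)| :=
          Finset.sum_le_sum_of_subset_of_nonneg (Finset.filter_subset _ _)
            (fun _ _ _ => abs_nonneg _)
      _ = _ := by
          rw [Finset.sum_product]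
          refine Finset.sum_congr rfl fun a _ => ?_
          rw [Finset.sum_product]
  -- the square root
  have hroot : √(m / X + √δ) ≤ 2 ^ (E + 1) / L ^ E := by
    rw [Real.sqrt_le_left (by positivity), hsδ]
    have h1 : (m : ℝ) / X ≤ 1 / L ^ (2 * E) := by
      rw [div_le_div_iff₀ hXpos (by positivity), one_mul]
      have h2 : (m : ℝ) ^ 2 * L ^ (2 * E) ≤ H := by
        refine le_trans ?_ hmH
        have h2E : 2 * E ≤ C := by omega
        gcongr
      have h3 : (m : ℝ) * (m * L ^ (2 * E)) ≤ m * X := by nlinarith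
      exact le_of_mul_le_mul_left h3 (by linarith)
    have h2 : 1 / Real.log X ^ (2 * E) ≤ 2 ^ (2 * E) / L ^ (2 * E) := by
      rw [div_le_div_iff₀ (by positivity) (by positivity), one_mul, ← mul_pow]
      have : L ≤ 2 * Real.log X := by linarith
      gcongr
    have h3 : (2 ^ (E + 1) / L ^ E : ℝ) ^ 2 = 4 * 2 ^ (2 * E) / L ^ (2 * E) := by
      rw [div_pow, ← pow_mul, ← pow_mul, mul_comm E 2]
      congr 1
      rw [show (E + 1) * 2 = 2 * E + 2 by ring, pow_add]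
      ring
    rw [h3]
    have h4 : (1 : ℝ) ≤ 2 ^ (2 * E) := one_le_pow₀ (by norm_num)
    calc (m : ℝ) / X + 1 / Real.log X ^ (2 * E)
        ≤ 1 / L ^ (2 * E) + 2 ^ (2 * E) / L ^ (2 * E) := add_le_add h1 h2
      _ = (1 + 2 ^ (2 * E)) / L ^ (2 * E) := by ring
      _ ≤ 4 * 2 ^ (2 * E) / L ^ (2 * E) := by
          gcongr
          linarith
  have hmXK : (m : ℝ) * X ≤ 12 * H * K := by
    have hmK' : (m : ℝ) ≤ lo * K := by exact_mod_cast hmK
    calc (m : ℝ) * X ≤ m * (12 * H / lo) := by gcongr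
      _ ≤ (lo * K) * (12 * H / lo) := by gcongr
      _ = 12 * H * K := by field_simp
  have hlogX : (1 + Real.log X) ^ 2 ≤ 9 * L ^ 2 := by
    have : 1 + Real.log X ≤ 3 * L := by linarith
    calc (1 + Real.log X) ^ 2 ≤ (3 * L) ^ 2 := by gcongr
      _ = 9 * L ^ 2 := by ring
  have hfin : (S.card : ℝ) * (c₀ * H ^ 2 / m ^ 3) ≤
      622080 * L ^ 5 * (L ^ A) ^ 3 * H ^ 2 * (2 ^ (E + 1) / L ^ E) := by
    refine hcount.trans ?_
    have hmX2 : (m : ℝ) ^ 2 * X ^ 2 ≤ 144 * H ^ 2 * K ^ 2 := by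
      calc (m : ℝ) ^ 2 * (X : ℝ) ^ 2 = ((m : ℝ) * (X : ℝ)) ^ 2 := by ring
        _ ≤ (12 * (H : ℝ) * (K : ℝ)) ^ 2 := by gcongr
        _ = 144 * (H : ℝ) ^ 2 * (K : ℝ) ^ 2 := by ring
    calc 60 * (2 * L) ^ 3 * K * (1 + Real.log X) ^ 2 * m ^ 2 * X ^ 2 * √(m / X + √δ)
        = 60 * (2 * L) ^ 3 * K * (1 + Real.log X) ^ 2 * (m ^ 2 * X ^ 2) *
            √(m / X + √δ) := by ring
      _ ≤ 60 * (2 * L) ^ 3 * K * (9 * L ^ 2) * (144 * H ^ 2 * K ^ 2) *
            (2 ^ (E + 1) / L ^ E) := by gcongr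
      _ = 622080 * L ^ 5 * (K : ℝ) ^ 3 * H ^ 2 * (2 ^ (E + 1) / L ^ E) := by ring
      _ ≤ _ := by gcongr
  -- conclusion
  rw [le_div_iff₀ (by positivity)]
  have h4 : (S.card : ℝ) * (c₀ * H ^ 2) ≤
      m ^ 3 * (622080 * L ^ 5 * (L ^ A) ^ 3 * H ^ 2 * (2 ^ (E + 1) / L ^ E)) := by
    have := mul_le_mul_of_nonneg_left hfin (by positivity : (0:ℝ) ≤ m ^ 3)
    calc (S.card : ℝ) * (c₀ * H ^ 2) = m ^ 3 * (S.card * (c₀ * H ^ 2 / m ^ 3)) := by
          field_simp
      _ ≤ _ := this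
  have h5 : L ^ E = L ^ 5 * (L ^ A) ^ 3 * L ^ A * L := by
    rw [hE]; ring
  have h6 : (622080 * L ^ 5 * (L ^ A) ^ 3 * H ^ 2 * (2 ^ (E + 1) / L ^ E)) * L ^ A =
      (622080 * 2 ^ (E + 1) / L) * H ^ 2 := by
    rw [h5]; field_simp
  have h7 : 622080 * 2 ^ (E + 1) / L ≤ c₀ := by
    rw [div_le_iff₀ hc₀] at h3
    rw [div_le_iff₀ hL0]
    linarith
  have h8 : (S.card : ℝ) * L ^ A * (c₀ * H ^ 2) ≤ m ^ 3 * (c₀ * H ^ 2) := by
    calc (S.card : ℝ) * L ^ A * (c₀ * H ^ 2) = (S.card : ℝ) * (c₀ * H ^ 2) * L ^ A := by ring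
      _ ≤ m ^ 3 * (622080 * L ^ 5 * (L ^ A) ^ 3 * H ^ 2 * (2 ^ (E + 1) / L ^ E)) * L ^ A := by
          gcongr
      _ = m ^ 3 * ((622080 * L ^ 5 * (L ^ A) ^ 3 * H ^ 2 * (2 ^ (E + 1) / L ^ E)) * L ^ A) := by
          ring
      _ = m ^ 3 * ((622080 * 2 ^ (E + 1) / L) * H ^ 2) := by rw [h6]
      _ ≤ m ^ 3 * (c₀ * H ^ 2) := by gcongr
  exact le_of_mul_le_mul_right h8 (by positivity)

end Pool.Agent.Helper48.BK
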