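import Pool.Agent.Helper48.BK.StW

/-!
# Project BK, module Ort (helper24): orthogonality of characters
-/

set_option autoImplicit false

namespace Pool.Agent.Helper48.BK

open Finset ArithmeticFunction Complex

theorem hOrt : StOrt := by
  intro q u N _ hu
  have hunit : IsUnit (u : ZMod q) := (ZMod.isUnit_iff_coprime u q).2 hu
  have hφ : (Nat.totient q : ℂ) ≠ 0 := by
    have := Nat.totient_pos.2 (Nat.pos_of_ne_zero (NeZero.ne q))
    exact_mod_cast this.ne'
  have h1 : ((∑ n ∈ (Ioc 0 N).filter (fun n => n ≡ u [MOD q]), Λ n : ℝ) : ℂ) =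
      1 / (Nat.totient q : ℂ) * ∑ χ : DirichletCharacter ℂ q,
        χ (u : ZMod q)⁻¹ * ∑ n ∈ Ioc 0 N, ((Λ n : ℝ) : ℂ) * χ (n : ZMod q) := by
    have h2 : ∑ χ : DirichletCharacter ℂ q,
        χ (u : ZMod q)⁻¹ * ∑ n ∈ Ioc 0 N, ((Λ n : ℝ) : ℂ) * χ (n : ZMod q) =
        ∑ n ∈ Ioc 0 N, ((Λ n : ℝ) : ℂ) *
          (if (u : ZMod q) = (n : ZMod q) then (Nat.totient q : ℂ) else 0) := by
      simp_rw [mul_sum]
      rw [sum_comm]
      apply sum_congr rfl
      intro n _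
      rw [← DirichletCharacter.sum_char_inv_mul_char_eq ℂ hunit (n : ZMod q), mul_sum]
      apply sum_congr rfl
      intro χ _
      ring
    rw [h2, sum_filter]
    push_cast
    rw [mul_sum]
    apply sum_congr rfl
    intro n _
    have h3 : (u : ZMod q) = (n : ZMod q) ↔ n ≡ u [MOD q] := by
      rw [ZMod.natCast_eq_natCast_iff]
      exact ⟨fun h => h.symm, fun h => h.symm⟩
    by_cases h4 : n ≡ u [MOD q]
    · rw [if_pos h4, if_pos (h3.2 h4)]
      field_simp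
    · rw [if_neg h4, if_neg (fun h => h4 (h3.1 h))]
      simp
  have h5 : ∑ χ : DirichletCharacter ℂ q,
        χ (u : ZMod q)⁻¹ * ∑ n ∈ Ioc 0 N, ((Λ n : ℝ) : ℂ) * χ (n : ZMod q) =
      (∑ n ∈ Ioc 0 N, ((Λ n : ℝ) : ℂ) * (1 : DirichletCharacter ℂ q) n) +
        ∑ χ ∈ (univ : Finset (DirichletCharacter ℂ q)).filter (· ≠ 1),
          χ (u : ZMod q)⁻¹ * ∑ n ∈ Ioc 0 N, ((Λ n : ℝ) : ℂ) * χ (n : ZMod q) := by
    rw [← sum_filter_add_sum_filter_not univ (fun χ : DirichletCharacter ℂ q => χ ≠ 1), add_comm]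
    congr 1
    have h6 : (univ : Finset (DirichletCharacter ℂ q)).filter (fun χ => ¬ χ ≠ 1) = {1} := by
      ext χ
      simp
    rw [h6, sum_singleton]
    have h7 : IsUnit ((u : ZMod q)⁻¹) := by
      obtain ⟨v, hv⟩ := hunit
      have : (u : ZMod q)⁻¹ = ((v⁻¹ : (ZMod q)ˣ) : ZMod q) := by
        rw [← hv]
        exact ZMod.inv_coe_unit v
      rw [this]
      exact Units.isUnit _
    rw [MulChar.one_apply h7, one_mul]
  rw [h1, h5, mul_add, add_sub_cancel_left, norm_mul]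
  have h8 : ‖(1 : ℂ) / (Nat.totient q : ℂ)‖ = 1 / (Nat.totient q : ℝ) := by
    rw [norm_div, norm_one, Complex.norm_natCast]
  rw [h8]
  apply mul_le_mul_of_nonneg_left _ (by positivity)
  refine (norm_sum_le _ _).trans ?_
  apply sum_le_sum
  intro χ _
  rw [norm_mul]
  have h9 : ‖χ (u : ZMod q)⁻¹‖ ≤ 1 := χ.norm_le_one _
  exact mul_le_of_le_one_left (norm_nonneg _) h9

end Pool.Agent.Helper48.BK
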