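import Pool.Agent.Helper48.BK.StW

/-! BK module PNT. -/

set_option autoImplicit false

namespace Pool.Agent.Helper48.BK

open Finset ArithmeticFunction

theorem vM_abs_PNT (n : ℕ) (hn : 1 ≤ n) : |vonMangoldt n - 1| ≤ 1 + Real.log n := by
  have h0 : 0 ≤ vonMangoldt n := vonMangoldt_nonneg
  have h1 : vonMangoldt n ≤ Real.log n := vonMangoldt_le_log
  have h2 : 0 ≤ Real.log n := Real.log_nonneg (by exact_mod_cast hn)
  rw [abs_le]
  constructor <;> linarith

theorem hPNT (ha : StPNTs) (hb : StUns) : StPNT := by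
  intro A
  obtain ⟨C, hC, h1⟩ := ha (2 * A + 2)
  obtain ⟨C', hC', h2⟩ := hb A
  refine ⟨max 2 (C' * (2 * C + 1)), by positivity, ?_⟩
  intro N hN
  have hN0 : (0 : ℝ) < N := by exact_mod_cast (show 0 < N by omega)
  have hlog : 0 < Real.log N := Real.log_pos (by exact_mod_cast (show 1 < N by omega))
  have hsum : ∑ n ∈ Ioc 0 N, (vonMangoldt n - 1) = ∑ n ∈ Ioc 0 N, vonMangoldt n - N := by
    rw [Finset.sum_sub_distrib]
    simp
  rcases Nat.lt_or_ge N 3 with h3 | h3
  · have hN2 : N = 2 := by omega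
    subst hN2
    have hsum2 : ∑ n ∈ Ioc 0 2, vonMangoldt n = Real.log 2 := by
      have : Ioc 0 2 = ({1, 2} : Finset ℕ) := by decide
      rw [this, Finset.sum_pair (by norm_num), vonMangoldt_apply_one, zero_add,
        vonMangoldt_apply_prime Nat.prime_two]
      norm_num
    rw [hsum2]
    have hl2 : Real.log 2 ≤ 1 := by
      have := Real.log_two_lt_d9
      linarith
    have hl2' : 0 < Real.log 2 := Real.log_pos (by norm_num)
    have hpw : Real.log ((2 : ℕ) : ℝ) ^ A ≤ 1 := by
      apply pow_le_one₀ hlog.le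
      exact_mod_cast hl2
    rw [le_div_iff₀ (by positivity)]
    have hab : |Real.log 2 - ((2 : ℕ) : ℝ)| ≤ 2 := by
      rw [abs_le]
      push_cast
      constructor <;> linarith
    calc |Real.log 2 - ((2 : ℕ) : ℝ)| * Real.log ((2 : ℕ) : ℝ) ^ A ≤ 2 * 1 :=
          mul_le_mul hab hpw (by positivity) (by norm_num)
      _ ≤ 2 * ((2 : ℕ) : ℝ) := by norm_num
      _ ≤ _ := mul_le_mul_of_nonneg_right (le_max_left _ _) (by norm_num)
  · have key := h2 (fun n => ((vonMangoldt n - 1 : ℝ) : ℂ)) N (2 * C) h3 (by positivity)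
      (fun n hn => by
        rw [Complex.norm_real, Real.norm_eq_abs]
        exact vM_abs_PNT n hn)
      (fun N' hN' => by
        rw [Finset.mem_Icc] at hN'
        have h4 := h1 N' (by omega)
        have e : ∑ n ∈ Ioc 0 N', ((vonMangoldt n - 1 : ℝ) : ℂ) *
            ((Real.posLog ((N' : ℝ) / n) : ℝ) : ℂ) =
            ((∑ n ∈ Ioc 0 N', (vonMangoldt n - 1) * Real.posLog ((N' : ℝ) / n) : ℝ) : ℂ) := by
          push_cast
          rfl
        rw [e, Complex.norm_real, Real.norm_eq_abs]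
        refine h4.trans ?_
        have hNN' : (N : ℝ) ≤ N' := by exact_mod_cast hN'.1
        have hN'2 : (N' : ℝ) ≤ 2 * N := by exact_mod_cast hN'.2
        have hlog' : Real.log N ≤ Real.log N' := Real.log_le_log hN0 hNN'
        calc C * N' / Real.log N' ^ (2 * A + 2) ≤ C * (2 * N) / Real.log N ^ (2 * A + 2) := by
              gcongr
          _ = _ := by ring)
    have e : ∑ n ∈ Ioc 0 N, ((vonMangoldt n - 1 : ℝ) : ℂ) =
        ((∑ n ∈ Ioc 0 N, vonMangoldt n - N : ℝ) : ℂ) := by
      rw [← hsum]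
      push_cast
      rfl
    rw [e, Complex.norm_real, Real.norm_eq_abs] at key
    refine key.trans ?_
    gcongr
    exact le_max_right _ _

end Pool.Agent.Helper48.BK
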