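import Pool.Agent.Helper48.BK.StW
import Pool.Agent.Helper90.MT.A3i
import Pool.Agent.Helper90.MT.A4
import Pool.Agent.Helper90.MT.A5

/-!
# Project BK, module PNTs: smoothed prime number theorem
-/

set_option autoImplicit false

namespace Pool.Agent.Helper48.BK

open Finset ArithmeticFunction Complex
open Pool.Agent.Helper90.MT (Lk Dk Rg)

lemma one_apply_PNTs (n : ℕ) : (1 : DirichletCharacter ℂ 1) (n : ZMod 1) = 1 :=
  MulChar.one_apply (by
    have : (n : ZMod 1) = 1 := Subsingleton.elim _ _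
    rw [this]
    exact isUnit_one)

theorem hPNTs (ha : StZall) : StPNTs := by
  intro k
  set K := k + 1 with hK
  obtain ⟨C3, hC3, m, H3⟩ := ha K
  obtain ⟨C4, hC4, H4⟩ := Pool.Agent.Helper90.MT.a4 m
  obtain ⟨C5, hC5, H5⟩ := Pool.Agent.Helper90.MT.a5 K
  have hl2 : 0 < Real.log 2 := Real.log_pos (by norm_num)
  refine ⟨C5 * (C4 * C3 * Real.exp 1) / Real.log 2 + (K : ℝ) ^ K, by positivity, ?_⟩
  intro N hN
  have hN0 : (0 : ℝ) < N := by exact_mod_cast (by omega : 0 < N)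
  have hN2 : (2 : ℝ) ≤ N := by exact_mod_cast hN
  have hlN : Real.log 2 ≤ Real.log N := Real.log_le_log (by norm_num) hN2
  have hlN0 : 0 < Real.log N := by linarith
  set a : ℕ → ℂ := fun n => if n = 1 then 0 else ((Λ n - 1 : ℝ) : ℂ) with hadef
  have haf : ∀ n : ℕ, a n * ((Real.log n : ℝ) : ℂ) ^ K =
      (Dk (1 : DirichletCharacter ℂ 1) K - Lk (1 : DirichletCharacter ℂ 1) K) n := by
    intro n
    rw [Pi.sub_apply]
    unfold Dk Lk
    rw [one_apply_PNTs, hadef]
    simp only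
    split_ifs with h
    · subst h
      simp [hK]
    · push_cast
      ring
  have key : ∀ x : ℝ, 1 ≤ x → ‖∑ n ∈ Ioc 0 ⌊x⌋₊, a n * ((Real.log n : ℝ) : ℂ) ^ K *
      ((Real.posLog (x / n) : ℝ) : ℂ)‖ ≤ (C4 * C3 * Real.exp 1) * x := by
    intro x hx
    have main : ∀ σ : ℝ, 1 < σ → σ ≤ 2 → x ^ σ ≤ Real.exp 1 * x →
        ‖∑ n ∈ Ioc 0 ⌊x⌋₊, a n * ((Real.log n : ℝ) : ℂ) ^ K *
      ((Real.posLog (x / n) : ℝ) : ℂ)‖ ≤ (C4 * C3 * Real.exp 1) * x := by
      intro σ h1 h2 hxσ
      have hs0 : 1 < ((σ : ℝ) : ℂ).re := by simpa using h1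
      have hs := H4 (Dk (1 : DirichletCharacter ℂ 1) K - Lk (1 : DirichletCharacter ℂ 1) K) σ x 1
        C3 h1 h2 hx le_rfl hC3.le
        ((Pool.Agent.Helper90.MT.A3i_Dk (1 : DirichletCharacter ℂ 1) K _ hs0).sub
          (Pool.Agent.Helper90.MT.A3i_Lk (1 : DirichletCharacter ℂ 1) K _ hs0)) (by
            intro t
            have ht : 1 < ((σ : ℂ) + t * I).re := by simpa using h1
            rw [LSeries_sub (Pool.Agent.Helper90.MT.A3i_Dk (1 : DirichletCharacter ℂ 1) K _ ht)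
              (Pool.Agent.Helper90.MT.A3i_Lk (1 : DirichletCharacter ℂ 1) K _ ht)]
            refine (H3 σ t h1 h2).trans (mul_le_mul_of_nonneg_left ?_ hC3.le)
            have hl0 : 0 ≤ Real.log (|t| + 3) := Real.log_nonneg (by linarith [abs_nonneg t])
            exact pow_le_pow_left₀ hl0 (by linarith) m)
      have e : ∀ n ∈ Ioc 0 ⌊x⌋₊, a n * ((Real.log n : ℝ) : ℂ) ^ K *
          ((Real.posLog (x / n) : ℝ) : ℂ) =
          (Dk (1 : DirichletCharacter ℂ 1) K - Lk (1 : DirichletCharacter ℂ 1) K) n *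
          ((Real.posLog (x / n) : ℝ) : ℂ) := fun n _ => by rw [haf]
      rw [Finset.sum_congr rfl e]
      refine hs.trans ?_
      rw [one_pow, mul_one]
      calc C4 * C3 * x ^ σ ≤ C4 * C3 * (Real.exp 1 * x) := by gcongr
        _ = _ := by ring
    rcases le_or_gt (Real.exp 1) x with he | he
    · have hlog : 1 ≤ Real.log x := by
        rw [Real.le_log_iff_exp_le (by linarith)]; exact he
      have hpos : 0 < Real.log x := by linarith
      refine main (1 + 1 / Real.log x) ?_ ?_ ?_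
      · have : 0 < 1 / Real.log x := by positivity
        linarith
      · have : 1 / Real.log x ≤ 1 := by
          rw [div_le_one hpos]; exact hlog
        linarith
      · rw [Real.rpow_add (by linarith), Real.rpow_one]
        have : x ^ (1 / Real.log x) = Real.exp 1 := by
          rw [Real.rpow_def_of_pos (by linarith)]
          congr 1
          field_simp
        rw [this, mul_comm]
    · refine main 2 (by norm_num) le_rfl ?_
      rw [Real.rpow_two, pow_two]
      exact mul_le_mul_of_nonneg_right he.le (by linarith)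
  have hmain := H5 a (C4 * C3 * Real.exp 1) (by simp [hadef]) key N hN
  -- relation of the sums
  have hrel : ((∑ n ∈ Ioc 0 N, (Λ n - 1) * Real.posLog ((N : ℝ) / n) : ℝ) : ℂ) =
      ∑ n ∈ Ioc 0 N, a n * ((Real.posLog ((N : ℝ) / n) : ℝ) : ℂ) - ((Real.log N : ℝ) : ℂ) := by
    have h1 : (1 : ℕ) ∈ Ioc 0 N := by rw [mem_Ioc]; omega
    have h4 : Real.posLog ((N : ℝ) / ((1 : ℕ) : ℝ)) = Real.log N := by
      rw [Nat.cast_one, div_one, Real.posLog_eq_log]
      rw [abs_of_pos hN0]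
      linarith
    have h5 : ∑ n ∈ Ioc 0 N, (Λ n - 1) * Real.posLog ((N : ℝ) / n) =
        -Real.log N + ∑ n ∈ (Ioc 0 N).erase 1, (Λ n - 1) * Real.posLog ((N : ℝ) / n) := by
      rw [← Finset.add_sum_erase _ _ h1, h4, vonMangoldt_apply_one]
      ring
    have h6 : ∑ n ∈ Ioc 0 N, a n * ((Real.posLog ((N : ℝ) / n) : ℝ) : ℂ) =
        ∑ n ∈ (Ioc 0 N).erase 1, a n * ((Real.posLog ((N : ℝ) / n) : ℝ) : ℂ) := by
      rw [← Finset.add_sum_erase _ _ h1]
      have h3 : a 1 = 0 := by simp [hadef]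
      rw [h3, zero_mul, zero_add]
    have h2 : ∀ n ∈ (Ioc 0 N).erase 1, a n * ((Real.posLog ((N : ℝ) / n) : ℝ) : ℂ) =
        (((Λ n - 1) * Real.posLog ((N : ℝ) / n) : ℝ) : ℂ) := by
      intro n hn
      have : n ≠ 1 := Finset.ne_of_mem_erase hn
      rw [hadef]
      simp only
      rw [if_neg this, Complex.ofReal_mul]
    rw [h5, h6, Finset.sum_congr rfl h2, Complex.ofReal_add, Complex.ofReal_neg,
      Complex.ofReal_sum]
    ring
  have hnorm : |∑ n ∈ Ioc 0 N, (Λ n - 1) * Real.posLog ((N : ℝ) / n)| =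
      ‖((∑ n ∈ Ioc 0 N, (Λ n - 1) * Real.posLog ((N : ℝ) / n) : ℝ) : ℂ)‖ := by
    rw [Complex.norm_real, Real.norm_eq_abs]
  rw [hnorm, hrel]
  refine (norm_sub_le _ _).trans ?_
  have hlogb : Real.log N ≤ (K : ℝ) ^ K * N / Real.log N ^ k := by
    have hK0 : (0 : ℝ) < K := by rw [hK]; positivity
    have h1 := Real.log_le_rpow_div hN0.le (ε := 1 / (K : ℝ)) (by positivity)
    have h2 : Real.log N ^ K ≤ ((N : ℝ) ^ (1 / (K : ℝ)) / (1 / (K : ℝ))) ^ K :=
      pow_le_pow_left₀ hlN0.le h1 K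
    have h3 : ((N : ℝ) ^ (1 / (K : ℝ)) / (1 / (K : ℝ))) ^ K = (K : ℝ) ^ K * N := by
      rw [div_pow, ← Real.rpow_natCast, ← Real.rpow_mul hN0.le, one_div_mul_cancel hK0.ne',
        Real.rpow_one, one_div, inv_pow]
      field_simp
    rw [h3] at h2
    rw [le_div_iff₀ (by positivity)]
    calc Real.log N * Real.log N ^ k = Real.log N ^ K := by rw [hK, pow_succ]; ring
      _ ≤ _ := h2
  have hA : C5 * (C4 * C3 * Real.exp 1) * N / Real.log N ^ K ≤
      C5 * (C4 * C3 * Real.exp 1) / Real.log 2 * N / Real.log N ^ k := by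
    rw [div_le_div_iff₀ (by positivity) (by positivity), hK, pow_succ]
    have h1 : 0 ≤ C5 * (C4 * C3 * Real.exp 1) * N * Real.log N ^ k := by positivity
    have h2 : C5 * (C4 * C3 * Real.exp 1) / Real.log 2 * N * (Real.log N ^ k * Real.log N) =
        C5 * (C4 * C3 * Real.exp 1) * N * Real.log N ^ k * (Real.log N / Real.log 2) := by
      field_simp
    rw [h2]
    have h3 : 1 ≤ Real.log N / Real.log 2 := by rw [le_div_iff₀ hl2]; linarith
    nlinarith
  have hB : ‖((Real.log N : ℝ) : ℂ)‖ = Real.log N := by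
    rw [Complex.norm_real, Real.norm_of_nonneg hlN0.le]
  rw [hB]
  calc _ ≤ C5 * (C4 * C3 * Real.exp 1) / Real.log 2 * N / Real.log N ^ k +
        (K : ℝ) ^ K * N / Real.log N ^ k := add_le_add (hmain.trans hA) hlogb
    _ = _ := by ring

end Pool.Agent.Helper48.BK
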