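import Pool.Agent.Helper48.BK.StW

/-! # Project BK, module Pos: positivity of `L(1, χ)` for real characters -/

set_option autoImplicit false

namespace Pool.Agent.Helper48.BK

open Finset Complex Filter Topology

theorem hPos (ha : StReal) : StPos := by
  intro q _ χ hχ h2
  set f : ℝ → ℝ := fun σ => (DirichletCharacter.LFunction χ (σ : ℂ)).re with hf
  have hd := DirichletCharacter.differentiable_LFunction hχ
  have hcont : Continuous f := continuous_re.comp (hd.continuous.comp continuous_ofReal)
  have hne : ∀ σ : ℝ, 1 ≤ σ → f σ ≠ 0 := by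
    intro σ hσ h0
    refine DirichletCharacter.LFunction_ne_zero_of_one_le_re χ (s := (σ : ℂ)) (Or.inl hχ)
      (by simpa using hσ) ?_
    exact Complex.ext (by simpa [hf] using h0) (by simpa using ha q χ σ hχ h2)
  have hlim : Tendsto (fun x : ℝ => LSeries (fun n : ℕ => χ (n : ZMod q)) x) atTop (𝓝 1) := by
    have habs : LSeries.abscissaOfAbsConv (fun n : ℕ => χ (n : ZMod q)) < ⊤ := by
      rw [DirichletCharacter.absicssaOfAbsConv_eq_one (NeZero.ne q)]
      exact EReal.coe_lt_top 1
    have h := LSeries.tendsto_atTop habs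
    simpa using h
  have hlim' : Tendsto (fun x : ℝ => (LSeries (fun n : ℕ => χ (n : ZMod q)) x).re) atTop
      (𝓝 1) := by
    have h := (continuous_re.tendsto (1 : ℂ)).comp hlim
    rw [one_re] at h
    exact h
  obtain ⟨σ, hσ1, hσ2⟩ : ∃ σ : ℝ, 1 < σ ∧ 0 < f σ := by
    have h1 := (hlim'.eventually (lt_mem_nhds (zero_lt_one' ℝ))).and (eventually_gt_atTop 1)
    obtain ⟨σ, h2, h3⟩ := h1.exists
    refine ⟨σ, h3, ?_⟩
    rw [hf]
    simp only
    rw [DirichletCharacter.LFunction_eq_LSeries χ (by simpa using h3)]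
    exact h2
  have hgoal : 0 < f 1 := by
    by_contra hcon
    push Not at hcon
    obtain ⟨x, hx, hx0⟩ := intermediate_value_Icc hσ1.le hcont.continuousOn
      (show (0 : ℝ) ∈ Set.Icc (f 1) (f σ) from ⟨hcon, hσ2.le⟩)
    exact hne x hx.1 hx0
  simpa [hf] using hgoal

end Pool.Agent.Helper48.BK
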