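import Pool.Agent.Helper48.BK.StW
import Pool.Agent.Helper90.MT.A0
import Pool.Agent.Helper90.MT.A1
import Pool.Agent.Helper90.MT.A2
import Pool.Agent.Helper90.MT.A3
import Pool.Agent.Helper90.MT.A3i
import Pool.Agent.Helper90.MT.A4
import Pool.Agent.Helper90.MT.A5
import Pool.Agent.Helper90.MT.A6

/-!
# Project BK, module Psi: Siegel-Walfisz for primitive characters
-/

set_option autoImplicit false

namespace Pool.Agent.Helper48.BK

open Finset ArithmeticFunction Complex
open Pool.Agent.Helper90.MT (Lk Dk Rg)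
open Pool.Agent.Helper2 (smoothSum chFun prFun)

theorem hPsi (ha : StSie) (hb : StUns) : StPsi := by
  intro A B
  obtain ⟨C6, hC6, m, H6⟩ := Pool.Agent.Helper90.MT.a6
    (Pool.Agent.Helper90.MT.a3 Pool.Agent.Helper90.MT.a1
      (Pool.Agent.Helper90.MT.a2 Pool.Agent.Helper90.MT.a0 Pool.Agent.Helper90.MT.a1)
      Pool.Agent.Helper90.MT.a3i) Pool.Agent.Helper90.MT.a4 Pool.Agent.Helper90.MT.a5 (2 * A + 3)
  set δ : ℝ := 1 / ((m : ℝ) + 1) with hδ
  have hm1 : (0 : ℝ) < (m : ℝ) + 1 := by positivity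
  have hB1 : (0 : ℝ) < (B : ℝ) + 1 := by positivity
  have hδ0 : 0 < δ := by positivity
  set ε : ℝ := δ / ((B : ℝ) + 1) with hε
  have hε0 : 0 < ε := by positivity
  obtain ⟨c, hc, Hs⟩ := ha ε hε0
  obtain ⟨CU, hCU, HU⟩ := hb A
  set D : ℝ := 2 + 1 / c + B * (m + 1) with hD
  have hD2 : 2 ≤ D := by
    have h1 : 0 < 1 / c := by positivity
    have h2 : (0 : ℝ) ≤ B * (m + 1) := by positivity
    linarith
  have hD0 : 0 < D := by linarith
  have hDc : 1 / c ≤ D := by
    have h2 : (0 : ℝ) ≤ B * (m + 1) := by positivity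
    linarith
  refine ⟨CU * (2 * C6 * D ^ m + 1), by positivity, ?_⟩
  intro q _ χ N hN hprim hne hq
  have hN3 : (3 : ℝ) ≤ N := by exact_mod_cast hN
  have hN0 : (0 : ℝ) < N := by linarith
  set L : ℝ := Real.log N with hL
  have hL1 : 1 ≤ L := by
    rw [hL, Real.le_log_iff_exp_le hN0]
    have := Real.exp_one_lt_d9
    linarith
  have hL0 : 0 < L := by linarith
  have hLδ1 : 1 ≤ L ^ δ := Real.one_le_rpow hL1 hδ0.le
  have hq1 : (1 : ℝ) ≤ q := by exact_mod_cast Nat.one_le_iff_ne_zero.2 (NeZero.ne q)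
  have hq0 : (0 : ℝ) < q := by linarith
  set y : ℝ := D * L ^ δ with hy
  have hy0 : 0 < y := by positivity
  have hDy : D ≤ y := by rw [hy]; nlinarith
  have hy1 : 1 ≤ y := by linarith
  have hR : Rg χ y := by
    refine ⟨hne, ?_, ?_⟩
    · rw [Real.log_mul (by norm_num) hq0.ne']
      have h1 : Real.log q ≤ B * Real.log L := by
        have h2 := Real.log_le_log hq0 hq
        rwa [Real.log_pow] at h2
      have h3 : Real.log L ≤ (m + 1) * L ^ δ := by
        have h4 := Real.log_le_rpow_div hL0.le hδ0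
        have h5 : L ^ δ / δ = (m + 1) * L ^ δ := by rw [hδ]; field_simp
        rwa [h5] at h4
      have h6 : Real.log 3 ≤ 2 := by
        have := Real.log_le_sub_one_of_pos (x := 3) (by norm_num)
        linarith
      have h7 : (B : ℝ) * Real.log L ≤ B * ((m + 1) * L ^ δ) :=
        mul_le_mul_of_nonneg_left h3 (Nat.cast_nonneg B)
      have h8 : Real.log 3 ≤ 2 * L ^ δ := by linarith
      have h9 : 0 ≤ 1 / c * L ^ δ := by positivity
      have h10 : y = 2 * L ^ δ + 1 / c * L ^ δ + B * ((m + 1) * L ^ δ) := by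
        rw [hy, hD]; ring
      rw [h10]
      linarith
    · intro hsq σ hσ hσ2
      refine le_trans ?_ (Hs q χ hprim hne hsq σ hσ hσ2)
      have h1 : (L ^ δ)⁻¹ ≤ (q : ℝ) ^ (-ε) := by
        rw [Real.rpow_neg hq0.le]
        apply inv_anti₀ (by positivity)
        calc (q : ℝ) ^ ε ≤ (L ^ B) ^ ε := Real.rpow_le_rpow hq0.le hq hε0.le
          _ = L ^ ((B : ℝ) * ε) := by rw [← Real.rpow_natCast, ← Real.rpow_mul hL0.le]
          _ ≤ L ^ δ := by
              apply Real.rpow_le_rpow_of_exponent_le hL1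
              rw [hε, mul_div_assoc', div_le_iff₀ hB1]
              nlinarith
      have h2 : 1 / y ^ 6 ≤ c * (L ^ δ)⁻¹ := by
        rw [div_le_iff₀ (by positivity)]
        have h3 : y ^ 6 = (D * L ^ δ) * y ^ 5 := by rw [hy]; ring
        have h4 : 1 ≤ y ^ 5 := one_le_pow₀ hy1
        have h5 : 1 ≤ c * D := by
          have := mul_le_mul_of_nonneg_left hDc hc.le
          rwa [mul_one_div_cancel hc.ne'] at this
        calc (1 : ℝ) = 1 * 1 := by ring
          _ ≤ (c * D) * y ^ 5 := mul_le_mul h5 h4 (by norm_num) (by positivity)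
          _ = c * (L ^ δ)⁻¹ * y ^ 6 := by rw [h3]; field_simp
      exact h2.trans (mul_le_mul_of_nonneg_left h1 hc.le)
  have hym : y ^ m ≤ D ^ m * L := by
    rw [hy, mul_pow]
    apply mul_le_mul_of_nonneg_left _ (by positivity)
    rw [← Real.rpow_natCast, ← Real.rpow_mul hL0.le]
    calc L ^ (δ * (m : ℝ)) ≤ L ^ (1 : ℝ) := by
          apply Real.rpow_le_rpow_of_exponent_le hL1
          rw [hδ, one_div_mul_eq_div, div_le_one hm1]
          linarith
      _ = L := Real.rpow_one L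
  have hsm : ∀ N' : ℕ, smoothSum N' (chFun χ) = ∑ n ∈ Ioc 0 N',
      (((Λ n : ℝ) : ℂ) * χ (n : ZMod q)) * ((Real.posLog ((N' : ℝ) / n) : ℝ) : ℂ) := by
    intro N'
    unfold smoothSum chFun
    refine Finset.sum_congr rfl fun n _ => ?_
    ring
  have main := HU (fun n => ((Λ n : ℝ) : ℂ) * χ (n : ZMod q)) N (2 * C6 * D ^ m) hN (by positivity)
    (by
      intro n _
      rw [norm_mul, Complex.norm_real, Real.norm_of_nonneg vonMangoldt_nonneg]
      have h1 : Λ n ≤ Real.log n := vonMangoldt_le_log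
      have h2 : ‖χ (n : ZMod q)‖ ≤ 1 := χ.norm_le_one _
      have h3 : (Λ n : ℝ) * ‖χ (n : ZMod q)‖ ≤ Real.log n * 1 :=
        mul_le_mul h1 h2 (norm_nonneg _) (Real.log_natCast_nonneg n)
      linarith)
    (by
      intro N' hN'
      rw [mem_Icc] at hN'
      rw [← hsm N']
      refine (H6 q χ y hR N' (by omega)).trans ?_
      have h1 : (N' : ℝ) ≤ 2 * N := by exact_mod_cast hN'.2
      have h2 : L ≤ Real.log N' := Real.log_le_log hN0 (by exact_mod_cast hN'.1)
      have h3 : L ^ (2 * A + 3) ≤ Real.log N' ^ (2 * A + 3) := pow_le_pow_left₀ hL0.le h2 _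
      have hN'0 : (0 : ℝ) ≤ N' := Nat.cast_nonneg _
      calc C6 * N' * y ^ m / Real.log N' ^ (2 * A + 3)
          ≤ C6 * (2 * N) * (D ^ m * L) / L ^ (2 * A + 3) := by
            apply div_le_div₀ (by positivity) _ (by positivity) h3
            apply mul_le_mul _ hym (by positivity) (by positivity)
            exact mul_le_mul_of_nonneg_left h1 hC6.le
        _ = 2 * C6 * D ^ m * N / L ^ (2 * A + 2) := by
            rw [show 2 * A + 3 = (2 * A + 2) + 1 by ring, pow_succ]
            field_simp)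
  exact main

end Pool.Agent.Helper48.BK
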