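import Pool.Agent.Helper48.BK.StW
import Pool.Agent.Helper2.Average

/-! BK module PsiI: from primitive characters to all nonprincipal characters. -/

set_option autoImplicit false

namespace Pool.Agent.Helper48.BK

open Finset ArithmeticFunction
open Pool.Agent.Helper2 (chFun prFun)

theorem card_primeFactors_PsiI (q : ℕ) : (#q.primeFactors : ℝ) ≤ q := by
  have : #q.primeFactors ≤ q := by
    have h : q.primeFactors ⊆ Ioc 0 q := by
      intro p hp
      rw [mem_Ioc]
      exact ⟨(Nat.prime_of_mem_primeFactors hp).pos, Nat.le_of_mem_primeFactors hp⟩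
    simpa using Finset.card_le_card h
  exact_mod_cast this

theorem hPsiI (ha : StPsi) : StPsiI := by
  intro A B
  obtain ⟨C, hC, h1⟩ := ha A B
  refine ⟨C + ((A + B + 1).factorial : ℝ), by positivity, ?_⟩
  intro q _ χ N hN hχ hqB
  have hN0 : (0 : ℝ) < N := by exact_mod_cast (show 0 < N by omega)
  have hlog : 0 < Real.log N := Real.log_pos (by exact_mod_cast (show 1 < N by omega))
  have hNZ : NeZero χ.conductor := ⟨DirichletCharacter.conductor_ne_zero χ⟩
  have hcq : (χ.conductor : ℝ) ≤ q := by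
    exact_mod_cast Nat.le_of_dvd (Nat.pos_of_ne_zero (NeZero.ne q)) χ.conductor_dvd_level
  have h2 := h1 χ.conductor χ.primitiveCharacter N hN
    (DirichletCharacter.primitiveCharacter_isPrimitive χ)
    (Pool.Agent.Helper2.primitive_ne_one χ hχ) (hcq.trans hqB)
  have e : ∑ n ∈ Ioc 0 N, ((vonMangoldt n : ℝ) : ℂ) * χ (n : ZMod q) =
      ∑ n ∈ Ioc 0 N, ((vonMangoldt n : ℝ) : ℂ) * χ.primitiveCharacter (n : ZMod χ.conductor) -
      ∑ n ∈ (Ioc 0 N).filter (fun n => ¬ n.Coprime q), ((vonMangoldt n : ℝ) : ℂ) *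
        χ.primitiveCharacter (n : ZMod χ.conductor) := by
    rw [Finset.sum_filter, ← Finset.sum_sub_distrib]
    refine Finset.sum_congr rfl fun n _ => ?_
    by_cases hn : n.Coprime q
    · rw [if_neg (not_not.2 hn), sub_zero]
      have h3 : χ.primitiveCharacter (n : ZMod χ.conductor) = χ (n : ZMod q) :=
        Pool.Agent.Helper2.prFun_eq_chFun χ n hn
      rw [h3]
    · rw [if_pos hn, sub_self]
      have h3 : χ (n : ZMod q) = 0 := (Pool.Agent.Helper2.chFun_eq_zero_iff χ n).2 hn
      rw [h3, mul_zero]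
  have h4 : ‖∑ n ∈ (Ioc 0 N).filter (fun n => ¬ n.Coprime q), ((vonMangoldt n : ℝ) : ℂ) *
        χ.primitiveCharacter (n : ZMod χ.conductor)‖ ≤ q * Real.log N := by
    refine (norm_sum_le _ _).trans ?_
    calc ∑ n ∈ (Ioc 0 N).filter (fun n => ¬ n.Coprime q), ‖((vonMangoldt n : ℝ) : ℂ) *
        χ.primitiveCharacter (n : ZMod χ.conductor)‖ ≤
          ∑ n ∈ (Ioc 0 N).filter (fun n => ¬ n.Coprime q), vonMangoldt n := by
          refine Finset.sum_le_sum fun n _ => ?_
          have h5 : ‖χ.primitiveCharacter (n : ZMod χ.conductor)‖ ≤ 1 :=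
            DirichletCharacter.norm_le_one _ _
          rw [norm_mul, Complex.norm_real, Real.norm_eq_abs, abs_of_nonneg vonMangoldt_nonneg]
          calc vonMangoldt n * _ ≤ vonMangoldt n * 1 :=
                mul_le_mul_of_nonneg_left h5 vonMangoldt_nonneg
            _ = _ := mul_one _
      _ ≤ #q.primeFactors * Real.log N := Pool.Agent.Helper2.sum_noncoprime_le N q (NeZero.ne q)
      _ ≤ _ := mul_le_mul_of_nonneg_right (card_primeFactors_PsiI q) hlog.le
  have h6 : (q : ℝ) * Real.log N ≤ ((A + B + 1).factorial : ℝ) * N / Real.log N ^ A := by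
    rw [le_div_iff₀ (by positivity)]
    have h7 := Real.pow_div_factorial_le_exp (Real.log N) hlog.le (A + B + 1)
    rw [Real.exp_log hN0, div_le_iff₀ (by positivity)] at h7
    calc (q : ℝ) * Real.log N * Real.log N ^ A ≤ Real.log N ^ B * Real.log N * Real.log N ^ A := by
          gcongr
      _ = Real.log N ^ (A + B + 1) := by ring
      _ ≤ _ := by linarith
  rw [e]
  refine (norm_sub_le _ _).trans ?_
  have h8 : (C + ((A + B + 1).factorial : ℝ)) * N / Real.log N ^ A =
    C * N / Real.log N ^ A + ((A + B + 1).factorial : ℝ) * N / Real.log N ^ A := by ring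
  rw [h8]
  linarith

end Pool.Agent.Helper48.BK
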