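import Pool.Agent.Helper48.BK.StT

/-!
# Project BK, module RR
-/

set_option autoImplicit false

namespace Pool.Agent.Helper48.BK

open Finset

theorem inner_RR (f : ℕ → ℝ) (X H a b c : ℕ) (d : ℤ) (hc : 1 ≤ c) (hd : |d| ≤ H)
    (hH : 1 ≤ H) (hcX : 11 * H ≤ c * X) (n m : ℕ) :
    (∑ l ∈ Ioc 0 X, if (a : ℤ) * n + (b : ℤ) * m + (-(c : ℤ)) * l = d then
      win f 4 5 H a n * win f 4 5 H b m * win f 7 11 H c l else 0) =
    if 4 * H < a * n ∧ a * n ≤ 5 * H ∧ 4 * H < b * m ∧ b * m ≤ 5 * H ∧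
      (c : ℤ) ∣ a * n + b * m - d then f n * f m * f (thd a b c d (n, m)).toNat else 0 := by
  by_cases hn : 4 * H < a * n ∧ a * n ≤ 5 * H
  swap
  · rw [if_neg (fun h => hn ⟨h.1, h.2.1⟩)]
    apply Finset.sum_eq_zero
    intro l _
    have : win f 4 5 H a n = 0 := by rw [win, if_neg hn]
    rw [this]
    simp
  by_cases hm : 4 * H < b * m ∧ b * m ≤ 5 * H
  swap
  · rw [if_neg (fun h => hm ⟨h.2.2.1, h.2.2.2.1⟩)]
    apply Finset.sum_eq_zero
    intro l _
    have : win f 4 5 H b m = 0 := by rw [win, if_neg hm]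
    rw [this]
    simp
  have hwn : win f 4 5 H a n = f n := by rw [win, if_pos hn]
  have hwm : win f 4 5 H b m = f m := by rw [win, if_pos hm]
  obtain ⟨hd1, hd2⟩ := abs_le.mp hd
  have hn1 : (4 : ℤ) * H < a * n := by exact_mod_cast hn.1
  have hn2 : (a : ℤ) * n ≤ 5 * H := by exact_mod_cast hn.2
  have hm1 : (4 : ℤ) * H < b * m := by exact_mod_cast hm.1
  have hm2 : (b : ℤ) * m ≤ 5 * H := by exact_mod_cast hm.2
  have hcZ : (0 : ℤ) < c := by exact_mod_cast hc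
  by_cases hdv : (c : ℤ) ∣ a * n + b * m - d
  swap
  · rw [if_neg (fun h => hdv h.2.2.2.2)]
    apply Finset.sum_eq_zero
    intro l _
    rw [if_neg]
    intro h
    apply hdv
    exact ⟨l, by linear_combination h⟩
  rw [if_pos ⟨hn.1, hn.2, hm.1, hm.2, hdv⟩]
  obtain ⟨w, hw⟩ := hdv
  have hthd : thd a b c d (n, m) = w := by
    simp only [thd]
    rw [hw]
    exact Int.mul_ediv_cancel_left w hcZ.ne'
  have hwpos : 0 < w := by
    have : (0 : ℤ) < c * w := by rw [← hw]; have : (1 : ℤ) ≤ H := by exact_mod_cast hH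
                                 linarith
    exact (mul_pos_iff_of_pos_left hcZ).mp this
  obtain ⟨l0, rfl⟩ : ∃ l0 : ℕ, w = l0 := ⟨w.toNat, (Int.toNat_of_nonneg hwpos.le).symm⟩
  have hl0 : 0 < l0 := by exact_mod_cast hwpos
  have hlX : l0 ≤ X := by
    have h1 : (c : ℤ) * l0 ≤ c * X := by
      rw [← hw]
      have : (11 : ℤ) * H ≤ c * X := by exact_mod_cast hcX
      linarith
    have := le_of_mul_le_mul_left h1 hcZ
    exact_mod_cast this
  have hwl : win f 7 11 H c l0 = f l0 := by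
    rw [win, if_pos]
    have h1 : (7 : ℤ) * H < c * l0 := by rw [← hw]; linarith
    have h2 : (c : ℤ) * l0 ≤ 11 * H := by rw [← hw]; linarith
    exact ⟨by exact_mod_cast h1, by exact_mod_cast h2⟩
  rw [hthd, Int.toNat_natCast]
  rw [Finset.sum_eq_single l0]
  · rw [if_pos (by linear_combination hw), hwn, hwm, hwl]
  · intro l _ hne
    rw [if_neg]
    intro h
    apply hne
    have h1 : (c : ℤ) * l = c * l0 := by linear_combination hw - h
    have := mul_left_cancel₀ hcZ.ne' h1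
    exact_mod_cast this
  · intro h
    exact absurd (mem_Ioc.mpr ⟨hl0, hlX⟩) h

theorem hRR : StRR := by
  intro f X H a b c d ha hb hc hd hH haX hbX hcX
  have e1 : RR f X H a b c d = ∑ n ∈ Ioc 0 X, ∑ m ∈ Ioc 0 X,
      if 4 * H < a * n ∧ a * n ≤ 5 * H ∧ 4 * H < b * m ∧ b * m ≤ 5 * H ∧
      (c : ℤ) ∣ a * n + b * m - d then f n * f m * f (thd a b c d (n, m)).toNat else 0 := by
    rw [RR, TT]
    apply Finset.sum_congr rfl
    intro n _
    apply Finset.sum_congr rfl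
    intro m _
    exact inner_RR f X H a b c d hc hd hH hcX n m
  rw [e1, ← Finset.sum_product' (s := Ioc 0 X) (t := Ioc 0 X) (f := fun n m =>
      if 4 * H < a * n ∧ a * n ≤ 5 * H ∧ 4 * H < b * m ∧ b * m ≤ 5 * H ∧
      (c : ℤ) ∣ a * n + b * m - d then f n * f m * f (thd a b c d (n, m)).toNat else 0)]
  rw [← Finset.sum_filter]
  have e2 : ((Ioc 0 X) ×ˢ (Ioc 0 X)).filter (fun v : ℕ × ℕ => 4 * H < a * v.1 ∧
      a * v.1 ≤ 5 * H ∧ 4 * H < b * v.2 ∧ b * v.2 ≤ 5 * H ∧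
      (c : ℤ) ∣ a * v.1 + b * v.2 - d) = Sol H a b c d := by
    ext ⟨n, m⟩
    simp only [Sol, mem_filter, mem_product, mem_Ioc, mem_Icc]
    constructor
    · rintro ⟨⟨⟨h1, h2⟩, h3, h4⟩, h5, h6, h7, h8, h9⟩
      refine ⟨⟨⟨by omega, ?_⟩, by omega, ?_⟩, h5, h6, h7, h8, h9⟩
      · exact (Nat.le_mul_of_pos_left n ha).trans h6
      · exact (Nat.le_mul_of_pos_left m hb).trans h8
    · rintro ⟨⟨⟨h1, h2⟩, h3, h4⟩, h5, h6, h7, h8, h9⟩
      refine ⟨⟨⟨by omega, ?_⟩, by omega, ?_⟩, h5, h6, h7, h8, h9⟩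
      · exact le_of_mul_le_mul_left (by omega : a * n ≤ a * X) ha
      · exact le_of_mul_le_mul_left (by omega : b * m ≤ b * X) hb
  rw [e2]

end Pool.Agent.Helper48.BK
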