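import Pool.Agent.Helper48.BK.StW

/-! # Project BK, module Real: values of L-functions of real characters are real -/

set_option autoImplicit false

namespace Pool.Agent.Helper48.BK

open Finset Complex Filter Topology
open scoped ComplexConjugate

theorem conj_char_Real {q : ℕ} (χ : DirichletCharacter ℂ q) (h2 : χ ^ 2 = 1) (a : ZMod q) :
    conj (χ a) = χ a := by
  have h : χ⁻¹ = χ := inv_eq_of_mul_eq_one_left (by rw [← sq, h2])
  have h1 := MulChar.star_apply' χ a
  rw [h] at h1
  exact h1

theorem conj_LSeries_Real {q : ℕ} (χ : DirichletCharacter ℂ q) (h2 : χ ^ 2 = 1) (s : ℂ) :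
    conj (LSeries (fun n : ℕ => χ (n : ZMod q)) (conj s)) =
      LSeries (fun n : ℕ => χ (n : ZMod q)) s := by
  unfold LSeries
  rw [Complex.conj_tsum]
  refine tsum_congr fun n => ?_
  rcases eq_or_ne n 0 with hn | hn
  · subst hn; simp
  · rw [LSeries.term_of_ne_zero hn, LSeries.term_of_ne_zero hn, map_div₀, conj_char_Real χ h2]
    congr 1
    have harg : ((n : ℂ)).arg ≠ Real.pi := by
      rw [natCast_arg]; exact Real.pi_pos.ne
    rw [cpow_conj _ _ harg, conj_conj, conj_natCast]

theorem hReal : StReal := by
  intro q _ χ σ hχ h2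
  have hd := DirichletCharacter.differentiable_LFunction hχ
  have h1 : AnalyticOnNhd ℂ (DirichletCharacter.LFunction χ) Set.univ :=
    hd.differentiableOn.analyticOnNhd isOpen_univ
  have hd2 : Differentiable ℂ (conj ∘ DirichletCharacter.LFunction χ ∘ conj) := by
    intro z
    exact differentiableAt_conj_conj_iff.2 (hd _)
  have h3 : AnalyticOnNhd ℂ (conj ∘ DirichletCharacter.LFunction χ ∘ conj) Set.univ :=
    hd2.differentiableOn.analyticOnNhd isOpen_univ
  have hopen1 : IsOpen {z : ℂ | 1 < z.re} := isOpen_lt continuous_const continuous_re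
  have h := h1.eqOn_of_preconnected_of_eventuallyEq h3 isPreconnected_univ (z₀ := 2)
    (Set.mem_univ _) (by
      filter_upwards [hopen1.mem_nhds (by simp : (2 : ℂ) ∈ {z : ℂ | 1 < z.re})] with z hz
      have hz1 : 1 < z.re := hz
      have hz2 : 1 < (conj z).re := by rwa [conj_re]
      simp only [Function.comp]
      rw [DirichletCharacter.LFunction_eq_LSeries χ hz1,
        DirichletCharacter.LFunction_eq_LSeries χ hz2]
      exact (conj_LSeries_Real χ h2 z).symm) (Set.mem_univ (σ : ℂ))
  simp only [Function.comp, conj_ofReal] at h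
  exact conj_eq_iff_im.1 h.symm

end Pool.Agent.Helper48.BK
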