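import Pool.Agent.Helper48.BK.StW

/-!
# Project BK, module SW: Siegel-Walfisz
-/

set_option autoImplicit false

namespace Pool.Agent.Helper48.BK

open Finset ArithmeticFunction Complex

/-- the contribution of the primes dividing `q` -/
theorem bad_SW (hth : ∀ n, 0 ≤ th n ∧ th n ≤ Λ n ∧ th n ≤ Real.log n) (y q : ℕ) (hq : 1 ≤ q) :
    ∑ n ∈ (Ioc 0 y).filter (fun n => ¬ Nat.Coprime n q), th n ≤ (q : ℝ) ^ 2 := by
  have hq0 : (1 : ℝ) ≤ q := by exact_mod_cast hq
  calc ∑ n ∈ (Ioc 0 y).filter (fun n => ¬ Nat.Coprime n q), th n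
      ≤ ∑ n ∈ (Ioc 0 y).filter (fun n => ¬ Nat.Coprime n q), (if n ≤ q then (q : ℝ) else 0) := by
        refine Finset.sum_le_sum fun n hn => ?_
        rw [mem_filter, mem_Ioc] at hn
        split_ifs with h
        · refine (hth n).2.2.trans ?_
          have h1 : (n : ℝ) ≤ q := by exact_mod_cast h
          have h2 : (0 : ℝ) < n := by exact_mod_cast hn.1.1
          have := Real.log_le_sub_one_of_pos h2
          linarith
        · by_cases hp : n.Prime
          · exfalso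
            apply h
            rw [Nat.Prime.coprime_iff_not_dvd hp, not_not] at hn
            exact Nat.le_of_dvd (by omega) hn.2
          · rw [th, if_neg hp]
    _ = ∑ n ∈ ((Ioc 0 y).filter (fun n => ¬ Nat.Coprime n q)).filter (fun n => n ≤ q),
        (q : ℝ) := (Finset.sum_filter _ _).symm
    _ ≤ ∑ n ∈ Ioc 0 q, (q : ℝ) := by
        refine Finset.sum_le_sum_of_subset_of_nonneg ?_ fun _ _ _ => by linarith
        intro n hn
        rw [mem_filter, mem_filter, mem_Ioc] at hn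
        rw [mem_Ioc]
        exact ⟨hn.1.1.1, hn.2⟩
    _ = (q : ℝ) ^ 2 := by
        rw [Finset.sum_const, Nat.card_Ioc, nsmul_eq_mul, Nat.sub_zero]
        ring

/-- the sum with the principal character -/
theorem prin_SW (q y : ℕ) [NeZero q] :
    ∑ n ∈ Ioc 0 y, ((Λ n : ℝ) : ℂ) * (1 : DirichletCharacter ℂ q) n =
      ((∑ n ∈ (Ioc 0 y).filter (fun n => Nat.Coprime n q), Λ n : ℝ) : ℂ) := by
  rw [Complex.ofReal_sum, Finset.sum_filter]
  refine Finset.sum_congr rfl fun n _ => ?_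
  split_ifs with h
  · rw [MulChar.one_apply ((ZMod.isUnit_iff_coprime n q).2 h), mul_one]
  · rw [MulChar.map_nonunit _ (fun h1 => h ((ZMod.isUnit_iff_coprime n q).1 h1)), mul_zero]

theorem chars_SW (q y : ℕ) [NeZero q] (R : ℝ) (hR : 0 ≤ R)
    (h : ∀ χ : DirichletCharacter ℂ q, χ ≠ 1 →
      ‖∑ n ∈ Ioc 0 y, ((Λ n : ℝ) : ℂ) * χ (n : ZMod q)‖ ≤ R) :
    1 / (Nat.totient q : ℝ) * ∑ χ ∈ (univ : Finset (DirichletCharacter ℂ q)).filter (· ≠ 1),
      ‖∑ n ∈ Ioc 0 y, ((Λ n : ℝ) : ℂ) * χ (n : ZMod q)‖ ≤ R := by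
  have hφ : (0 : ℝ) < Nat.totient q := by
    exact_mod_cast Nat.totient_pos.2 (Nat.pos_of_ne_zero (NeZero.ne q))
  have h1 : ∑ χ ∈ (univ : Finset (DirichletCharacter ℂ q)).filter (· ≠ 1),
      ‖∑ n ∈ Ioc 0 y, ((Λ n : ℝ) : ℂ) * χ (n : ZMod q)‖ ≤ (Nat.totient q : ℝ) * R := by
    calc _ ≤ ∑ χ ∈ (univ : Finset (DirichletCharacter ℂ q)).filter (· ≠ 1), R :=
          Finset.sum_le_sum fun χ hχ => h χ (mem_filter.1 hχ).2
      _ = (((univ : Finset (DirichletCharacter ℂ q)).filter (· ≠ 1)).card : ℝ) * R := by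
          rw [Finset.sum_const, nsmul_eq_mul]
      _ ≤ (Nat.totient q : ℝ) * R := by
          apply mul_le_mul_of_nonneg_right _ hR
          have h2 : ((univ : Finset (DirichletCharacter ℂ q)).filter (· ≠ 1)).card ≤
              (univ : Finset (DirichletCharacter ℂ q)).card := Finset.card_filter_le _ _
          have h3 : (univ : Finset (DirichletCharacter ℂ q)).card = Nat.totient q := by
            rw [Finset.card_univ, ← Nat.card_eq_fintype_card]
            exact DirichletCharacter.card_eq_totient_of_hasEnoughRootsOfUnity ℂ q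
          rw [h3] at h2
          exact_mod_cast h2
  calc _ ≤ 1 / (Nat.totient q : ℝ) * ((Nat.totient q : ℝ) * R) :=
        mul_le_mul_of_nonneg_left h1 (by positivity)
    _ = R := by field_simp

theorem big_SW (K : ℕ) (ε M : ℝ) (hε : 0 < ε) : ∃ x₀ : ℕ, ∀ x : ℕ, x₀ ≤ x →
    M ≤ Real.log x ∧ Real.log x ^ K ≤ ε * √x := by
  have h1 : ∀ᶠ x : ℝ in Filter.atTop, M ≤ Real.log x := Real.tendsto_log_atTop.eventually_ge_atTop M
  have h2 : ∀ᶠ x : ℝ in Filter.atTop, ‖Real.log x ^ (K : ℝ)‖ ≤ ε * ‖x ^ (1 / 2 : ℝ)‖ :=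
    (isLittleO_log_rpow_rpow_atTop (K : ℝ) (by norm_num : (0 : ℝ) < 1 / 2)).def hε
  have h3 := (h1.and (h2.and (Filter.eventually_ge_atTop (1 : ℝ))))
  obtain ⟨X, hX⟩ := Filter.eventually_atTop.1 h3
  obtain ⟨x₀, hx₀⟩ := exists_nat_ge X
  refine ⟨x₀, fun x hx => ?_⟩
  obtain ⟨h4, h5, h6⟩ := hX x (hx₀.trans (by exact_mod_cast hx))
  refine ⟨h4, ?_⟩
  rw [Real.rpow_natCast, Real.norm_of_nonneg (pow_nonneg (Real.log_nonneg h6) _),
    Real.norm_of_nonneg (Real.rpow_nonneg (by linarith) _), ← Real.sqrt_eq_rpow] at h5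
  exact h5

theorem hSW (ha : StPsiI) (hb : StOrt) (hc : StPNT) (hd : StTh) : StSW := by
  intro A B
  obtain ⟨hth, C₂, hC₂, hT⟩ := hd
  obtain ⟨C₁, hC₁, hP⟩ := ha (A + 1) (B + 1)
  obtain ⟨C₃, hC₃, hN⟩ := hc (A + 1)
  obtain ⟨x₀, hx₀⟩ := big_SW (A + 2 * B + 2) (1 / (8 * C₂ + 8))
    (max (2 * 2 ^ B) (2 * ((C₁ + C₃) * 2 ^ (A + 1)))) (by positivity)
  refine ⟨max x₀ 16, ?_⟩
  intro x y q u hx hyx hq hqB
  obtain ⟨hM, hL⟩ := hx₀ x ((le_max_left _ _).trans hx)
  have hx16 : 16 ≤ x := (le_max_right _ _).trans hx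
  have hx16' : (16 : ℝ) ≤ x := by exact_mod_cast hx16
  have hx0 : (0 : ℝ) < x := by linarith
  set L := Real.log x with hLdef
  have hM1 : 2 * 2 ^ B ≤ L := (le_max_left _ _).trans hM
  have hM2 : 2 * ((C₁ + C₃) * 2 ^ (A + 1)) ≤ L := (le_max_right _ _).trans hM
  have hpow : (1 : ℝ) ≤ 2 ^ B := one_le_pow₀ (by norm_num)
  have hL2 : 2 ≤ L := by linarith
  have hL0 : 0 < L := by linarith
  have hs0 : 0 < √(x : ℝ) := Real.sqrt_pos.2 hx0
  have hss : √(x : ℝ) * √(x : ℝ) = x := Real.mul_self_sqrt hx0.le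
  have hs4 : 4 ≤ √(x : ℝ) := by
    rw [show (4 : ℝ) = √16 by rw [show (16 : ℝ) = 4 ^ 2 by norm_num]; simp]
    exact Real.sqrt_le_sqrt hx16'
  have hsx : √(x : ℝ) ≤ x := by nlinarith
  have hLA : 0 < L ^ A := by positivity
  -- `L ^ (A+2B+2) ≤ √x / (8 C₂ + 8)`
  have hmono : ∀ j : ℕ, j ≤ A + 2 * B + 2 → L ^ j ≤ L ^ (A + 2 * B + 2) := fun j hj =>
    pow_le_pow_right₀ (by linarith) hj
  have hK : (8 * C₂ + 8) * L ^ (A + 2 * B + 2) ≤ √x := by
    have := mul_le_mul_of_nonneg_left hL (show (0 : ℝ) ≤ 8 * C₂ + 8 by positivity)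
    calc _ ≤ (8 * C₂ + 8) * (1 / (8 * C₂ + 8) * √x) := this
      _ = √x := by field_simp
  have hKp : 0 < L ^ (A + 2 * B + 2) := by positivity
  have hK8 : 8 * L ^ (A + 2 * B + 2) ≤ √x := by nlinarith
  have hKC : 8 * C₂ * L ^ (A + 2 * B + 2) ≤ √x := by nlinarith
  have hq0 : (1 : ℝ) ≤ q := by exact_mod_cast hq
  -- the bound for `q ^ 2`
  have hq2 : (q : ℝ) ^ 2 ≤ x / L ^ A / 8 := by
    have e1 : (q : ℝ) ^ 2 ≤ L ^ (2 * B) := by
      rw [mul_comm, pow_mul]
      exact pow_le_pow_left₀ (by linarith) hqB 2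
    have e2 : L ^ (2 * B) * L ^ A ≤ L ^ (A + 2 * B + 2) := by
      rw [← pow_add]
      exact hmono _ (by omega)
    rw [div_div, le_div_iff₀ (by positivity)]
    calc (q : ℝ) ^ 2 * (L ^ A * 8) ≤ L ^ (2 * B) * (L ^ A * 8) :=
          mul_le_mul_of_nonneg_right e1 (by positivity)
      _ = 8 * (L ^ (2 * B) * L ^ A) := by ring
      _ ≤ 8 * L ^ (A + 2 * B + 2) := by linarith
      _ ≤ √x := hK8
      _ ≤ x := hsx
  have htarget : 0 < x / L ^ A := by positivity
  by_cases hcop : Nat.Coprime u q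
  swap
  · -- not coprime
    rw [if_neg hcop, sub_zero, abs_of_nonneg (Finset.sum_nonneg fun n _ => (hth n).1)]
    calc ∑ n ∈ (Ioc 0 y).filter (fun n => n ≡ u [MOD q]), th n
        ≤ ∑ n ∈ (Ioc 0 y).filter (fun n => ¬ Nat.Coprime n q), th n := by
          refine Finset.sum_le_sum_of_subset_of_nonneg ?_ fun n _ _ => (hth n).1
          intro n hn
          rw [mem_filter] at hn ⊢
          refine ⟨hn.1, fun h => hcop ?_⟩
          rw [Nat.Coprime, ← hn.2.gcd_eq]
          exact h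
      _ ≤ (q : ℝ) ^ 2 := bad_SW hth y q hq
      _ ≤ x / L ^ A := by linarith
  rw [if_pos hcop]
  have : NeZero q := ⟨by omega⟩
  have hφ1 : (1 : ℝ) ≤ Nat.totient q := by
    exact_mod_cast Nat.totient_pos.2 (by omega)
  have hyx' : (y : ℝ) ≤ x := by exact_mod_cast hyx
  by_cases hys : (y : ℝ) < √x
  · -- small `y`
    have hS0 : 0 ≤ ∑ n ∈ (Ioc 0 y).filter (fun n => n ≡ u [MOD q]), th n :=
      Finset.sum_nonneg fun n _ => (hth n).1
    have hS1 : ∑ n ∈ (Ioc 0 y).filter (fun n => n ≡ u [MOD q]), th n ≤ √x * L := by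
      calc _ ≤ ∑ n ∈ Ioc 0 y, th n :=
            Finset.sum_le_sum_of_subset_of_nonneg (filter_subset _ _) fun n _ _ => (hth n).1
        _ ≤ ∑ n ∈ Ioc 0 y, L := by
            refine Finset.sum_le_sum fun n hn => (hth n).2.2.trans ?_
            rw [mem_Ioc] at hn
            exact Real.log_le_log (by exact_mod_cast hn.1) (by exact_mod_cast hn.2.trans hyx)
        _ = y * L := by rw [Finset.sum_const, Nat.card_Ioc, nsmul_eq_mul, Nat.sub_zero]
        _ ≤ √x * L := mul_le_mul_of_nonneg_right hys.le hL0.le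
    have hy1 : (y : ℝ) / Nat.totient q ≤ √x * L := by
      calc (y : ℝ) / Nat.totient q ≤ y := div_le_self (Nat.cast_nonneg y) hφ1
        _ ≤ √x := hys.le
        _ ≤ √x * L := by nlinarith
    have hy0 : 0 ≤ (y : ℝ) / Nat.totient q := by positivity
    have e1 : √x * L ≤ x / L ^ A := by
      rw [le_div_iff₀ hLA]
      calc √x * L * L ^ A = √x * L ^ (A + 1) := by ring
        _ ≤ √x * √x := by
            apply mul_le_mul_of_nonneg_left _ hs0.le
            have := hmono (A + 1) (by omega)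
            linarith
        _ = x := hss
    rw [abs_le]
    constructor <;> linarith
  · -- large `y`
    push Not at hys
    have hy4 : (4 : ℝ) ≤ y := hs4.trans hys
    have hy4' : 4 ≤ y := by exact_mod_cast hy4
    have hly : L / 2 ≤ Real.log y := by
      have := Real.log_le_log hs0 hys
      rwa [Real.log_sqrt hx0.le] at this
    have hly0 : 0 < Real.log y := by linarith
    have hqy : (q : ℝ) ≤ Real.log y ^ (B + 1) := by
      calc (q : ℝ) ≤ L ^ B := hqB
        _ ≤ (2 * Real.log y) ^ B := pow_le_pow_left₀ hL0.le (by linarith) B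
        _ = 2 ^ B * Real.log y ^ B := mul_pow _ _ _
        _ ≤ Real.log y * Real.log y ^ B := by
            apply mul_le_mul_of_nonneg_right _ (by positivity)
            linarith
        _ = Real.log y ^ (B + 1) := by ring
    have hY : (y : ℝ) / Real.log y ^ (A + 1) ≤ 2 ^ (A + 1) * (x / L ^ (A + 1)) := by
      calc (y : ℝ) / Real.log y ^ (A + 1) ≤ x / (L / 2) ^ (A + 1) :=
            div_le_div₀ hx0.le hyx' (by positivity) (pow_le_pow_left₀ (by linarith) hly _)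
        _ = 2 ^ (A + 1) * (x / L ^ (A + 1)) := by
            rw [div_pow]
            field_simp
    set T := ∑ n ∈ (Ioc 0 y).filter (fun n => n ≡ u [MOD q]), th n with hTdef
    set S := ∑ n ∈ (Ioc 0 y).filter (fun n => n ≡ u [MOD q]), Λ n with hSdef
    set S₀ := ∑ n ∈ (Ioc 0 y).filter (fun n => Nat.Coprime n q), Λ n with hS₀def
    set W := C₂ * √x * L ^ 2 with hWdef
    have hTx : ∑ n ∈ Ioc 0 y, (Λ n - th n) ≤ W :=
      (Finset.sum_le_sum_of_subset_of_nonneg (Ioc_subset_Ioc_right hyx)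
        fun n _ _ => sub_nonneg.2 (hth n).2.1).trans (hT x (by omega))
    have f1 : |T - S| ≤ W := by
      rw [abs_sub_comm, hTdef, hSdef, ← Finset.sum_sub_distrib,
        abs_of_nonneg (Finset.sum_nonneg fun n _ => sub_nonneg.2 (hth n).2.1)]
      exact (Finset.sum_le_sum_of_subset_of_nonneg (filter_subset _ _)
        fun n _ _ => sub_nonneg.2 (hth n).2.1).trans hTx
    have f2 : |S - 1 / (Nat.totient q : ℝ) * S₀| ≤ C₁ * y / Real.log y ^ (A + 1) := by
      have g1 := hb q u y hcop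
      rw [prin_SW] at g1
      have g2 : ((S : ℝ) : ℂ) - 1 / (Nat.totient q : ℂ) * ((S₀ : ℝ) : ℂ) =
          ((S - 1 / (Nat.totient q : ℝ) * S₀ : ℝ) : ℂ) := by push_cast; ring
      rw [g2, Complex.norm_real, Real.norm_eq_abs] at g1
      refine g1.trans (chars_SW q y _ (by positivity) fun χ hχ => ?_)
      exact hP q χ y (by omega) hχ hqy
    have f3 : |S₀ - ∑ n ∈ Ioc 0 y, Λ n| ≤ W + (q : ℝ) ^ 2 := by
      have g1 : ∑ n ∈ Ioc 0 y, Λ n - S₀ =
          ∑ n ∈ (Ioc 0 y).filter (fun n => ¬ Nat.Coprime n q), Λ n := by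
        rw [hS₀def, ← Finset.sum_filter_add_sum_filter_not (Ioc 0 y) (fun n => Nat.Coprime n q)]
        ring
      rw [abs_sub_comm, g1, abs_of_nonneg (Finset.sum_nonneg fun n _ => vonMangoldt_nonneg)]
      have g2 : ∑ n ∈ (Ioc 0 y).filter (fun n => ¬ Nat.Coprime n q), Λ n =
          ∑ n ∈ (Ioc 0 y).filter (fun n => ¬ Nat.Coprime n q), (Λ n - th n) +
          ∑ n ∈ (Ioc 0 y).filter (fun n => ¬ Nat.Coprime n q), th n := by
        rw [← Finset.sum_add_distrib]
        exact Finset.sum_congr rfl fun n _ => by ring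
      rw [g2]
      exact add_le_add ((Finset.sum_le_sum_of_subset_of_nonneg (filter_subset _ _)
        fun n _ _ => sub_nonneg.2 (hth n).2.1).trans hTx) (bad_SW hth y q hq)
    have f4 : |∑ n ∈ Ioc 0 y, Λ n - y| ≤ C₃ * y / Real.log y ^ (A + 1) := hN y (by omega)
    have hsplit : T - (y : ℝ) / Nat.totient q = (T - S) + (S - 1 / (Nat.totient q : ℝ) * S₀) +
        1 / (Nat.totient q : ℝ) * (S₀ - ∑ n ∈ Ioc 0 y, Λ n) +
        1 / (Nat.totient q : ℝ) * (∑ n ∈ Ioc 0 y, Λ n - y) := by ring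
    have hφ' : (1 : ℝ) / Nat.totient q ≤ 1 := by
      rw [div_le_one (by linarith)]; exact hφ1
    have hφ'' : (0 : ℝ) ≤ 1 / Nat.totient q := by positivity
    have f3' : |1 / (Nat.totient q : ℝ) * (S₀ - ∑ n ∈ Ioc 0 y, Λ n)| ≤ W + (q : ℝ) ^ 2 := by
      rw [abs_mul, abs_of_nonneg hφ'']
      calc _ ≤ 1 * |S₀ - ∑ n ∈ Ioc 0 y, Λ n| :=
            mul_le_mul_of_nonneg_right hφ' (abs_nonneg _)
        _ ≤ _ := by rw [one_mul]; exact f3
    have f4' : |1 / (Nat.totient q : ℝ) * (∑ n ∈ Ioc 0 y, Λ n - y)| ≤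
        C₃ * y / Real.log y ^ (A + 1) := by
      rw [abs_mul, abs_of_nonneg hφ'']
      calc _ ≤ 1 * |∑ n ∈ Ioc 0 y, Λ n - y| :=
            mul_le_mul_of_nonneg_right hφ' (abs_nonneg _)
        _ ≤ _ := by rw [one_mul]; exact f4
    have hW : W ≤ x / L ^ A / 8 := by
      rw [div_div, le_div_iff₀ (by positivity), hWdef]
      calc C₂ * √x * L ^ 2 * (L ^ A * 8) = √x * (8 * C₂ * L ^ (A + 2)) := by ring
        _ ≤ √x * √x := by
            apply mul_le_mul_of_nonneg_left _ hs0.le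
            refine le_trans ?_ hKC
            apply mul_le_mul_of_nonneg_left (hmono _ (by omega)) (by positivity)
        _ = x := hss
    have hmain : C₁ * y / Real.log y ^ (A + 1) + C₃ * y / Real.log y ^ (A + 1) ≤
        x / L ^ A / 2 := by
      calc C₁ * y / Real.log y ^ (A + 1) + C₃ * y / Real.log y ^ (A + 1)
          = (C₁ + C₃) * (y / Real.log y ^ (A + 1)) := by ring
        _ ≤ (C₁ + C₃) * (2 ^ (A + 1) * (x / L ^ (A + 1))) :=
            mul_le_mul_of_nonneg_left hY (by positivity)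
        _ = ((C₁ + C₃) * 2 ^ (A + 1)) * (x / L ^ (A + 1)) := by ring
        _ ≤ (L / 2) * (x / L ^ (A + 1)) := by
            apply mul_le_mul_of_nonneg_right _ (by positivity)
            linarith
        _ = x / L ^ A / 2 := by
            rw [pow_succ]
            field_simp
    rw [hsplit]
    have g := abs_add_le ((T - S) + (S - 1 / (Nat.totient q : ℝ) * S₀) +
        1 / (Nat.totient q : ℝ) * (S₀ - ∑ n ∈ Ioc 0 y, Λ n))
        (1 / (Nat.totient q : ℝ) * (∑ n ∈ Ioc 0 y, Λ n - y))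
    have g' := abs_add_le ((T - S) + (S - 1 / (Nat.totient q : ℝ) * S₀))
        (1 / (Nat.totient q : ℝ) * (S₀ - ∑ n ∈ Ioc 0 y, Λ n))
    have g'' := abs_add_le (T - S) (S - 1 / (Nat.totient q : ℝ) * S₀)
    linarith

end Pool.Agent.Helper48.BK
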