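import Pool.Agent.Helper48.BK.M_Sg1
import Pool.Agent.Helper90.MT.A7

/-! BK module Sg: Siegel's theorem. -/

set_option autoImplicit false

namespace Pool.Agent.Helper48.BK

open Complex
open Pool.Agent.Helper2 (chFun)
open Pool.Agent.Helper90.MT (a7_ne a7_mul)

theorem zeta_neg_Sg : ∃ δ : ℝ, 0 < δ ∧ ∀ σ : ℝ, 1 - δ < σ → σ < 1 → (riemannZeta σ).re ≤ 0 := by
  have hcont : Continuous fun σ : ℝ => (zh_Sg1 (σ : ℂ)).re :=
    Complex.continuous_re.comp (zh_Sg1_diff.continuous.comp Complex.continuous_ofReal)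
  have h1 : (0 : ℝ) < (zh_Sg1 ((1 : ℝ) : ℂ)).re := by
    rw [Complex.ofReal_one, zh_Sg1_one]
    simp
  have hev := hcont.continuousAt.eventually (lt_mem_nhds h1)
  obtain ⟨δ, hδ, hball⟩ := Metric.eventually_nhds_iff.1 hev
  refine ⟨δ, hδ, fun σ hσ hσ1 => ?_⟩
  have h2 := hball (y := σ) (by rw [Real.dist_eq, abs_lt]; constructor <;> linarith)
  have hne : (σ : ℂ) ≠ 1 := by
    intro h
    have : σ = 1 := by exact_mod_cast h
    linarith
  rw [zh_Sg1_ne hne] at h2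
  have h3 : (((σ : ℂ) - 1) * riemannZeta σ).re = (σ - 1) * (riemannZeta σ).re := by
    have : ((σ : ℂ) - 1) = ((σ - 1 : ℝ) : ℂ) := by push_cast; ring
    rw [this, Complex.re_ofReal_mul]
  rw [h3] at h2
  by_contra hcon
  push Not at hcon
  nlinarith

theorem L_cont_Sg {q : ℕ} [NeZero q] (χ : DirichletCharacter ℂ q) (hχ : χ ≠ 1) :
    Continuous fun σ : ℝ => DirichletCharacter.LFunction χ (σ : ℂ) :=
  (DirichletCharacter.differentiable_LFunction hχ).continuous.comp Complex.continuous_ofReal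

theorem L_eq_of_chFun_Sg {q r : ℕ} [NeZero q] [NeZero r] (χ : DirichletCharacter ℂ q)
    (ψ : DirichletCharacter ℂ r) (hχ : χ ≠ 1) (hψ : ψ ≠ 1) (h : chFun χ = chFun ψ) :
    DirichletCharacter.LFunction χ 1 = DirichletCharacter.LFunction ψ 1 := by
  have h1 : ∀ σ : ℝ, 1 < σ → DirichletCharacter.LFunction χ (σ : ℂ) =
      DirichletCharacter.LFunction ψ (σ : ℂ) := by
    intro σ hσ
    have hre : 1 < ((σ : ℝ) : ℂ).re := by simpa using hσ
    rw [DirichletCharacter.LFunction_eq_LSeries χ hre, DirichletCharacter.LFunction_eq_LSeries ψ hre]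
    have : (fun n : ℕ => χ (n : ZMod q)) = fun n : ℕ => ψ (n : ZMod r) := h
    rw [this]
  have ev : (fun σ : ℝ => DirichletCharacter.LFunction χ (σ : ℂ)) =ᶠ[nhdsWithin 1 (Set.Ioi 1)]
      fun σ : ℝ => DirichletCharacter.LFunction ψ (σ : ℂ) := by
    filter_upwards [self_mem_nhdsWithin] with σ hσ
    exact h1 σ hσ
  have t1 : Filter.Tendsto (fun σ : ℝ => DirichletCharacter.LFunction χ (σ : ℂ))
      (nhdsWithin 1 (Set.Ioi 1)) (nhds (DirichletCharacter.LFunction χ ((1 : ℝ) : ℂ))) :=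
    ((L_cont_Sg χ hχ).tendsto 1).mono_left nhdsWithin_le_nhds
  have t2 : Filter.Tendsto (fun σ : ℝ => DirichletCharacter.LFunction ψ (σ : ℂ))
      (nhdsWithin 1 (Set.Ioi 1)) (nhds (DirichletCharacter.LFunction ψ ((1 : ℝ) : ℂ))) :=
    ((L_cont_Sg ψ hψ).tendsto 1).mono_left nhdsWithin_le_nhds
  have := tendsto_nhds_unique t1 (t2.congr' ev.symm)
  simpa using this

theorem hSg (ha : StSg1) (hb : StSg2) (hc : StReal) (hd : StPos) (he : StL1up) : StSg := by
  intro ε hε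
  obtain ⟨C₁, hC₁, h1⟩ := ha
  obtain ⟨C₂, hC₂, h2⟩ := hb
  obtain ⟨C₃, hC₃, h3⟩ := he
  obtain ⟨δ, hδ, hz⟩ := zeta_neg_Sg
  obtain ⟨e, he⟩ : ∃ e : ℝ, e = min (1 / 8) (min (δ / 2) (ε / 32)) := ⟨_, rfl⟩
  have he0 : 0 < e := by rw [he]; positivity
  have he1 : e ≤ 1 / 8 := by rw [he]; exact min_le_left _ _
  have he2 : e ≤ δ / 2 := by rw [he]; exact (min_le_right _ _).trans (min_le_left _ _)
  have he3 : e ≤ ε / 32 := by rw [he]; exact (min_le_right _ _).trans (min_le_right _ _)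
  by_cases H : ∃ (q₁ : ℕ) (_ : NeZero q₁) (χ₁ : DirichletCharacter ℂ q₁), χ₁.IsPrimitive ∧ χ₁ ≠ 1 ∧
      χ₁ ^ 2 = 1 ∧ (DirichletCharacter.LFunction χ₁ ((1 - e : ℝ) : ℂ)).re < 0
  · obtain ⟨q₁, hq₁, χ₁, hp₁, hn₁, hs₁, hneg⟩ := H
    -- a zero between `1 - e` and `1`
    obtain ⟨β, hβ1, hβ2, hβ⟩ : ∃ β : ℝ, 1 - e ≤ β ∧ β < 1 ∧
        DirichletCharacter.LFunction χ₁ (β : ℂ) = 0 := by
      have hcont : ContinuousOn (fun σ : ℝ => (DirichletCharacter.LFunction χ₁ (σ : ℂ)).re)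
          (Set.Icc (1 - e) 1) := (Complex.continuous_re.comp (L_cont_Sg χ₁ hn₁)).continuousOn
      have hpos : 0 < (DirichletCharacter.LFunction χ₁ ((1 : ℝ) : ℂ)).re := by
        rw [Complex.ofReal_one]; exact hd q₁ χ₁ hn₁ hs₁
      obtain ⟨β, hβm, hβ⟩ := intermediate_value_Icc (by linarith) hcont ⟨hneg.le, hpos.le⟩
      refine ⟨β, hβm.1, lt_of_le_of_ne hβm.2 ?_, ?_⟩
      · rintro rfl
        exact hpos.ne' hβ
      · exact Complex.ext hβ (hc q₁ χ₁ β hn₁ hs₁)
    have hL₁ : 0 < (DirichletCharacter.LFunction χ₁ 1).re := hd q₁ χ₁ hn₁ hs₁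
    have hq₁' : (1 : ℝ) ≤ q₁ := by exact_mod_cast NeZero.one_le
    obtain ⟨D, hD⟩ : ∃ D : ℝ, D = C₂ * (DirichletCharacter.LFunction χ₁ 1).re * C₃ *
      ((3 * q₁ : ℝ) ^ (ε / 2) / (ε / 2)) * (q₁ : ℝ) ^ (ε / 2) / (1 - β) := ⟨_, rfl⟩
    have h1β : 0 < 1 - β := by linarith
    have hD0 : 0 < D := by rw [hD]; positivity
    refine ⟨min (1 / (2 * D)) (DirichletCharacter.LFunction χ₁ 1).re, lt_min (by positivity) hL₁, ?_⟩
    intro q _ χ hp hn hs
    have hq : (1 : ℝ) ≤ q := by exact_mod_cast NeZero.one_le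
    have hqε : 0 < (q : ℝ) ^ (-ε) := by positivity
    refine le_trans ?_ (Complex.re_le_norm _)
    by_cases hch : chFun χ = chFun χ₁
    · rw [L_eq_of_chFun_Sg χ χ₁ hn hn₁ hch]
      have h4 : (q : ℝ) ^ (-ε) ≤ 1 := Real.rpow_le_one_of_one_le_of_nonpos hq (by linarith)
      calc _ ≤ (DirichletCharacter.LFunction χ₁ 1).re * 1 :=
            mul_le_mul (min_le_right _ _) h4 hqε.le hL₁.le
        _ = _ := mul_one _
    · have hNZ : NeZero (q * q₁) := ⟨Nat.mul_ne_zero (NeZero.ne q) (NeZero.ne q₁)⟩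
      obtain ⟨ω, hω⟩ : ∃ ω : DirichletCharacter ℂ (q * q₁), ω =
        DirichletCharacter.changeLevel (Dvd.intro q₁ rfl : q ∣ q * q₁) χ *
        DirichletCharacter.changeLevel (Dvd.intro_left q rfl : q₁ ∣ q * q₁) χ₁ := ⟨_, rfl⟩
      have hω1 : ω ≠ 1 := by
        intro h
        rw [hω] at h
        exact hch (a7_ne χ χ₁ hp hp₁ hs₁ h)
      have hω2 : ω ^ 2 = 1 := by
        rw [hω, mul_pow, ← map_pow, ← map_pow, hs, hs₁, map_one, map_one, mul_one]
      have hprod : ∀ n : ℕ, ω (n : ZMod (q * q₁)) = χ (n : ZMod q) * χ₁ (n : ZMod q₁) := by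
        intro n
        rw [hω]
        exact a7_mul χ χ₁ n
      have key := h2 q q₁ (q * q₁) χ χ₁ ω β hn hn₁ hω1 hs hs₁ hω2 le_rfl hprod (by linarith) hβ2
      rw [hβ, mul_zero, zero_mul, Complex.zero_re] at key
      have hx : 0 < (DirichletCharacter.LFunction χ 1).re := hd q χ hn hs
      have hy : 0 < (DirichletCharacter.LFunction ω 1).re := hd (q * q₁) ω hω1 hω2
      have hyb : (DirichletCharacter.LFunction ω 1).re ≤
          C₃ * ((3 * q₁ : ℝ) ^ (ε / 2) * (q : ℝ) ^ (ε / 2) / (ε / 2)) := by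
        refine (Complex.re_le_norm _).trans ((h3 (q * q₁) ω hω1).trans ?_)
        refine mul_le_mul_of_nonneg_left ?_ hC₃.le
        have h5 := Real.log_le_rpow_div (x := 3 * ((q * q₁ : ℕ) : ℝ)) (by positivity)
          (show 0 < ε / 2 by positivity)
        refine h5.trans (le_of_eq ?_)
        congr 1
        rw [← Real.mul_rpow (by positivity) (by positivity)]
        congr 1
        push_cast
        ring
      have hpw : ((q : ℝ) * q₁) ^ (16 * (1 - β)) ≤ (q : ℝ) ^ (ε / 2) * (q₁ : ℝ) ^ (ε / 2) := by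
        rw [← Real.mul_rpow (by positivity) (by positivity)]
        refine Real.rpow_le_rpow_of_exponent_le ?_ (by linarith)
        exact one_le_mul_of_one_le_of_one_le hq hq₁'
      have hbig : C₂ * ((DirichletCharacter.LFunction χ 1).re *
          (DirichletCharacter.LFunction χ₁ 1).re * (DirichletCharacter.LFunction ω 1).re) *
          ((q : ℝ) * q₁) ^ (16 * (1 - β)) / (1 - β) ≤
          (DirichletCharacter.LFunction χ 1).re * D * (q : ℝ) ^ ε := by
        have hqe : (q : ℝ) ^ ε = (q : ℝ) ^ (ε / 2) * (q : ℝ) ^ (ε / 2) := by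
          rw [← Real.rpow_add (by positivity)]
          congr 1
          ring
        calc _ ≤ C₂ * ((DirichletCharacter.LFunction χ 1).re *
            (DirichletCharacter.LFunction χ₁ 1).re *
            (C₃ * ((3 * q₁ : ℝ) ^ (ε / 2) * (q : ℝ) ^ (ε / 2) / (ε / 2)))) *
            ((q : ℝ) ^ (ε / 2) * (q₁ : ℝ) ^ (ε / 2)) / (1 - β) := by
              gcongr
          _ = _ := by
              rw [hD, hqe]
              field_simp
      have hfin : 1 / 2 ≤ (DirichletCharacter.LFunction χ 1).re * D * (q : ℝ) ^ ε := by linarith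
      have hqq : (q : ℝ) ^ (-ε) * (q : ℝ) ^ ε = 1 := by
        rw [← Real.rpow_add (by positivity), neg_add_cancel, Real.rpow_zero]
      have hqe0 : 0 < (q : ℝ) ^ ε := by positivity
      calc min (1 / (2 * D)) (DirichletCharacter.LFunction χ₁ 1).re * (q : ℝ) ^ (-ε) ≤
            1 / (2 * D) * (q : ℝ) ^ (-ε) := mul_le_mul_of_nonneg_right (min_le_left _ _) hqε.le
        _ = (1 / 2) * ((q : ℝ) ^ (-ε) / D) := by field_simp
        _ ≤ ((DirichletCharacter.LFunction χ 1).re * D * (q : ℝ) ^ ε) * ((q : ℝ) ^ (-ε) / D) :=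
            mul_le_mul_of_nonneg_right hfin (by positivity)
        _ = (DirichletCharacter.LFunction χ 1).re * ((q : ℝ) ^ (-ε) * (q : ℝ) ^ ε) := by
            field_simp
        _ = _ := by rw [hqq, mul_one]
  · push Not at H
    refine ⟨e / (2 * C₁), by positivity, ?_⟩
    intro q hNZ χ hp hn hs
    have hq : (1 : ℝ) ≤ q := by exact_mod_cast NeZero.one_le
    refine le_trans ?_ (Complex.re_le_norm _)
    have hx : 0 < (DirichletCharacter.LFunction χ 1).re := hd q χ hn hs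
    have h4 := H q hNZ χ hp hn hs
    have key := h1 q χ (1 - e) hn hs (by linarith) (by linarith)
    have h5 : (riemannZeta ((1 - e : ℝ) : ℂ) *
        DirichletCharacter.LFunction χ ((1 - e : ℝ) : ℂ)).re ≤ 0 := by
      rw [Complex.mul_re, hc q χ (1 - e) hn hs, mul_zero, sub_zero]
      exact mul_nonpos_of_nonpos_of_nonneg (hz _ (by linarith) (by linarith)) h4
    have h6 : (1 : ℝ) - (1 - e) = e := by ring
    rw [h6] at key
    have h7 : (q : ℝ) ^ (16 * e) ≤ (q : ℝ) ^ ε := Real.rpow_le_rpow_of_exponent_le hq (by linarith)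
    have h8 : C₁ * (DirichletCharacter.LFunction χ 1).re * (q : ℝ) ^ (16 * e) / e ≤
        C₁ * (DirichletCharacter.LFunction χ 1).re * (q : ℝ) ^ ε / e := by gcongr
    have h9 : 1 / 2 ≤ C₁ * (DirichletCharacter.LFunction χ 1).re * (q : ℝ) ^ ε / e := by linarith
    have hqq : (q : ℝ) ^ (-ε) * (q : ℝ) ^ ε = 1 := by
      rw [← Real.rpow_add (by positivity), neg_add_cancel, Real.rpow_zero]
    have hqε : 0 < (q : ℝ) ^ (-ε) := by positivity
    calc e / (2 * C₁) * (q : ℝ) ^ (-ε) = (1 / 2) * (e / C₁ * (q : ℝ) ^ (-ε)) := by ring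
      _ ≤ (C₁ * (DirichletCharacter.LFunction χ 1).re * (q : ℝ) ^ ε / e) *
          (e / C₁ * (q : ℝ) ^ (-ε)) := mul_le_mul_of_nonneg_right h9 (by positivity)
      _ = (DirichletCharacter.LFunction χ 1).re * ((q : ℝ) ^ (-ε) * (q : ℝ) ^ ε) := by
          field_simp
      _ = _ := by rw [hqq, mul_one]

end Pool.Agent.Helper48.BK
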