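import Pool.Agent.Helper48.BK.StW

/-! BK modules Sg1 and Sg2: lower bounds for products of L-functions to the left of `1`. -/

set_option autoImplicit false

namespace Pool.Agent.Helper48.BK

open Complex

/-- the entire function `(s - 1) ζ(s)` -/
noncomputable def zh_Sg1 : ℂ → ℂ := DirichletCharacter.LFunctionTrivChar₁ 1

theorem zh_Sg1_diff : Differentiable ℂ zh_Sg1 := DirichletCharacter.differentiable_LFunctionTrivChar₁ 1

theorem zh_Sg1_one : zh_Sg1 1 = 1 := by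
  simp [zh_Sg1, DirichletCharacter.LFunctionTrivChar₁]

theorem zh_Sg1_ne {s : ℂ} (hs : s ≠ 1) : zh_Sg1 s = (s - 1) * riemannZeta s := by
  simp only [zh_Sg1, DirichletCharacter.LFunctionTrivChar₁]
  rw [Function.update_of_ne hs, DirichletCharacter.LFunctionTrivChar,
    DirichletCharacter.LFunction_modOne_eq]

theorem zh_Sg1_bd : ∃ H : ℝ, 1 ≤ H ∧ ∀ s : ℂ, ‖s - 2‖ ≤ 3 / 2 → ‖zh_Sg1 s‖ ≤ H := by
  have hK : IsCompact (Metric.closedBall (2 : ℂ) (3 / 2)) := isCompact_closedBall _ _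
  obtain ⟨C, hC⟩ := hK.exists_bound_of_continuousOn zh_Sg1_diff.continuous.continuousOn
  refine ⟨max 1 C, le_max_left _ _, fun s hs => (hC s ?_).trans (le_max_right _ _)⟩
  rwa [Metric.mem_closedBall, dist_eq_norm]

/-- the common part of Sg1 and Sg2 -/
theorem core_Sg1 (hb : StEst) : ∃ C : ℝ, 1 ≤ C ∧ ∀ (P : ℂ → ℂ) (a : ℕ → ℝ) (K Q : ℝ),
    Differentiable ℂ P → (∀ n, 0 ≤ a n) → 1 ≤ a 1 →
    (∀ s : ℂ, 1 < s.re → LSeriesSummable (fun n => (a n : ℂ)) s ∧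
      LSeries (fun n => (a n : ℂ)) s = riemannZeta s * P s) →
    (P 1).im = 0 → 0 ≤ (P 1).re → 1 ≤ K → 1 ≤ Q → (∀ s : ℂ, ‖s - 2‖ ≤ 3 / 2 → ‖P s‖ ≤ K * Q ^ 2) →
    ∀ σ : ℝ, 7 / 8 ≤ σ → σ < 1 →
      1 / 2 - C * K * (P 1).re * Q ^ (16 * (1 - σ)) / (1 - σ) ≤ (riemannZeta σ * P σ).re := by
  obtain ⟨C₀, hC₀, hest⟩ := hb
  obtain ⟨H, hH1, hH⟩ := zh_Sg1_bd
  refine ⟨C₀ * (2 * (H + 1)), by nlinarith, ?_⟩
  intro P a K Q hP ha ha1 hL him hre hK hQ hbd σ hσ hσ1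
  obtain ⟨F, hF⟩ : ∃ F : ℂ → ℂ, F = fun s => zh_Sg1 s * P s := ⟨_, rfl⟩
  have hFd : Differentiable ℂ F := by rw [hF]; exact zh_Sg1_diff.mul hP
  have hF1 : F 1 = P 1 := by rw [hF]; dsimp only; rw [zh_Sg1_one, one_mul]
  have hP1 : P 1 = ((P 1).re : ℂ) := by
    apply Complex.ext
    · simp
    · simp [him]
  obtain ⟨G, hG⟩ : ∃ G : ℂ → ℂ, G = dslope F 1 := ⟨_, rfl⟩
  have hGd : Differentiable ℂ G := by
    rw [hG, ← differentiableOn_univ]
    exact (Complex.differentiableOn_dslope Filter.univ_mem).2 hFd.differentiableOn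
  have hGs : ∀ s : ℂ, s ≠ 1 → G s = (F s - P 1) / (s - 1) := by
    intro s hs
    rw [hG, dslope_of_ne _ hs, slope_def_field, hF1]
  have hzP : ∀ s : ℂ, s ≠ 1 → riemannZeta s * P s = G s + ((P 1).re : ℂ) / (s - 1) := by
    intro s hs
    have hs' : s - 1 ≠ 0 := sub_ne_zero.2 hs
    rw [hGs s hs, ← hP1, ← add_div, sub_add_cancel, hF]
    dsimp only
    rw [zh_Sg1_ne hs]
    field_simp
  obtain ⟨M, hM⟩ : ∃ M : ℝ, M = 2 * (H + 1) * K * Q ^ 2 := ⟨_, rfl⟩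
  have hQ2 : 1 ≤ Q ^ 2 := one_le_pow₀ hQ
  have hA1 : 1 ≤ 2 * (H + 1) * K := by nlinarith
  have hM1 : 1 ≤ M := by
    rw [hM]
    exact one_le_mul_of_one_le_of_one_le hA1 hQ2
  have hGM : ∀ s : ℂ, ‖s - 2‖ = 3 / 2 → ‖G s‖ ≤ M := by
    intro s hs
    have h1 : 1 / 2 ≤ ‖s - 1‖ := by
      have := norm_sub_norm_le (s - 2) (-1)
      have h2 : s - 2 - -1 = s - 1 := by ring
      rw [h2, hs, norm_neg, norm_one] at this
      linarith
    have hs1 : s ≠ 1 := by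
      rintro rfl
      rw [sub_self, norm_zero] at h1
      linarith
    have h3 : ‖F s‖ ≤ H * (K * Q ^ 2) := by
      rw [hF]
      dsimp only
      rw [norm_mul]
      exact mul_le_mul (hH s hs.le) (hbd s hs.le) (norm_nonneg _) (by linarith)
    have h4 : ‖P 1‖ ≤ K * Q ^ 2 := hbd 1 (by norm_num)
    have h5 : ‖F s - P 1‖ ≤ (H + 1) * (K * Q ^ 2) := by
      refine (norm_sub_le _ _).trans ?_
      linarith
    rw [hGs s hs1, norm_div, div_le_iff₀ (by linarith), hM]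
    have h6 : 0 ≤ (H + 1) * (K * Q ^ 2) := (norm_nonneg _).trans h5
    nlinarith
  have key := hest a G (P 1).re M ha ha1 hre hM1 (fun s hs => ⟨(hL s hs).1, by
    rw [(hL s hs).2, hzP s (by rintro rfl; simp at hs)]⟩) hGd hGM σ hσ hσ1
  have hσne : (σ : ℂ) ≠ 1 := by
    intro h
    have : σ = 1 := by exact_mod_cast h
    linarith
  have hR : (riemannZeta σ * P σ).re = (G σ).re + (P 1).re / (σ - 1) := by
    rw [hzP _ hσne, Complex.add_re]
    congr 1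
    have : ((P 1).re : ℂ) / ((σ : ℂ) - 1) = (((P 1).re / (σ - 1) : ℝ) : ℂ) := by push_cast; ring
    rw [this, Complex.ofReal_re]
  rw [hR]
  refine le_trans ?_ key
  have h1σ : 0 < 1 - σ := by linarith
  have hMp : M ^ (8 * (1 - σ)) ≤ 2 * (H + 1) * K * Q ^ (16 * (1 - σ)) := by
    rw [hM, Real.mul_rpow (by linarith) (by linarith)]
    refine mul_le_mul ?_ ?_ (Real.rpow_nonneg (by linarith) _) (by linarith)
    · calc (2 * (H + 1) * K) ^ (8 * (1 - σ)) ≤ (2 * (H + 1) * K) ^ (1 : ℝ) :=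
          Real.rpow_le_rpow_of_exponent_le hA1 (by linarith)
        _ = _ := Real.rpow_one _
    · rw [← Real.rpow_natCast Q 2, ← Real.rpow_mul (by linarith)]
      apply le_of_eq
      congr 1
      push_cast
      ring
  have h2 : C₀ * (P 1).re * M ^ (8 * (1 - σ)) / (1 - σ) ≤
      C₀ * (2 * (H + 1)) * K * (P 1).re * Q ^ (16 * (1 - σ)) / (1 - σ) := by
    apply div_le_div_of_nonneg_right _ h1σ.le
    calc C₀ * (P 1).re * M ^ (8 * (1 - σ)) ≤
        C₀ * (P 1).re * (2 * (H + 1) * K * Q ^ (16 * (1 - σ))) :=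
          mul_le_mul_of_nonneg_left hMp (mul_nonneg (by linarith) hre)
      _ = _ := by ring
  linarith

theorem hSg1 (ha : StLdisc) (hb : StEst) (hc : StReal) (hd : StPos) (he : StNN) : StSg1 := by
  obtain ⟨C₁, hC₁, hbd⟩ := ha
  obtain ⟨C, hC, hcore⟩ := core_Sg1 hb
  refine ⟨C * C₁, one_le_mul_of_one_le_of_one_le hC hC₁, ?_⟩
  intro q _ χ σ hχ hχ2 hσ hσ1
  have hq : (1 : ℝ) ≤ q := by exact_mod_cast NeZero.one_le
  obtain ⟨⟨a, ha0, ha1, haL⟩, -⟩ := he q q q χ χ (χ * χ) hχ2 hχ2 (fun n => MulChar.mul_apply _ _ _)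
  have := hcore (DirichletCharacter.LFunction χ) a C₁ q (DirichletCharacter.differentiable_LFunction hχ)
    ha0 ha1 haL (by simpa using hc q χ 1 hχ hχ2) (hd q χ hχ hχ2).le hC₁ hq (fun s hs => by
      refine (hbd q χ s hχ hs).trans ?_
      have : (q : ℝ) ≤ (q : ℝ) ^ 2 := by nlinarith
      nlinarith) σ hσ hσ1
  refine le_trans (le_of_eq ?_) this
  ring

end Pool.Agent.Helper48.BK
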