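import Pool.Agent.Helper48.BK.M_Sg1

/-! BK module Sg2: lower bounds for products of L-functions to the left of `1`, two characters. -/

set_option autoImplicit false

namespace Pool.Agent.Helper48.BK

open Complex

theorem hSg2 (ha : StLdisc) (hb : StEst) (hc : StReal) (hd : StPos) (he : StNN) : StSg2 := by
  obtain ⟨C₁, hC₁, hbd⟩ := ha
  obtain ⟨C, hC, hcore⟩ := core_Sg1 hb
  refine ⟨C * C₁ ^ 3, one_le_mul_of_one_le_of_one_le hC (one_le_pow₀ hC₁), ?_⟩
  intro q r m _ _ _ χ ψ ω σ hχ hψ hω hχ2 hψ2 hω2 hm hprod hσ hσ1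
  have hq : (1 : ℝ) ≤ q := by exact_mod_cast NeZero.one_le
  have hr : (1 : ℝ) ≤ r := by exact_mod_cast NeZero.one_le
  have hm1 : (1 : ℝ) ≤ m := by exact_mod_cast NeZero.one_le
  have hm' : (m : ℝ) ≤ q * r := by exact_mod_cast hm
  obtain ⟨-, a, ha0, ha1, haL⟩ := he q r m χ ψ ω hχ2 hψ2 hprod
  obtain ⟨P, hP⟩ : ∃ P : ℂ → ℂ, P = fun s => DirichletCharacter.LFunction χ s *
    DirichletCharacter.LFunction ψ s * DirichletCharacter.LFunction ω s := ⟨_, rfl⟩
  have hre : ∀ (n : ℕ) [NeZero n] (η : DirichletCharacter ℂ n), η ≠ 1 → η ^ 2 = 1 →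
      DirichletCharacter.LFunction η 1 = ((DirichletCharacter.LFunction η 1).re : ℂ) := by
    intro n _ η hη hη2
    apply Complex.ext
    · simp
    · simpa using hc n η 1 hη hη2
  have hP1 : P 1 = (((DirichletCharacter.LFunction χ 1).re * (DirichletCharacter.LFunction ψ 1).re *
      (DirichletCharacter.LFunction ω 1).re : ℝ) : ℂ) := by
    rw [hP]
    dsimp only
    rw [hre q χ hχ hχ2, hre r ψ hψ hψ2, hre m ω hω hω2]
    push_cast
    simp
  have hqr : (1 : ℝ) ≤ q * r := one_le_mul_of_one_le_of_one_le hq hr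
  have := hcore P a (C₁ ^ 3) (q * r) (by
      rw [hP]
      exact ((DirichletCharacter.differentiable_LFunction hχ).mul
        (DirichletCharacter.differentiable_LFunction hψ)).mul
        (DirichletCharacter.differentiable_LFunction hω))
    ha0 ha1 (fun s hs => ⟨(haL s hs).1, by rw [(haL s hs).2, hP]; dsimp only; ring⟩)
    (by rw [hP1, Complex.ofReal_im])
    (by
      rw [hP1, Complex.ofReal_re]
      exact mul_nonneg (mul_nonneg (hd q χ hχ hχ2).le (hd r ψ hψ hψ2).le) (hd m ω hω hω2).le)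
    (one_le_pow₀ hC₁) hqr (fun s hs => by
      have h1 := hbd q χ s hχ hs
      have h2 := hbd r ψ s hψ hs
      have h3 := hbd m ω s hω hs
      rw [hP]
      dsimp only
      rw [norm_mul, norm_mul]
      calc ‖DirichletCharacter.LFunction χ s‖ * ‖DirichletCharacter.LFunction ψ s‖ *
            ‖DirichletCharacter.LFunction ω s‖ ≤ (C₁ * q) * (C₁ * r) * (C₁ * m) :=
            mul_le_mul (mul_le_mul h1 h2 (norm_nonneg _) (by positivity)) h3 (norm_nonneg _)
              (by positivity)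
        _ ≤ (C₁ * q) * (C₁ * r) * (C₁ * (q * r)) := by gcongr
        _ = _ := by ring) σ hσ hσ1
  rw [hP1, Complex.ofReal_re] at this
  refine le_trans (le_of_eq ?_) (this.trans (le_of_eq ?_))
  · ring
  · rw [hP]
    dsimp only
    congr 1
    ring

end Pool.Agent.Helper48.BK
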