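import Pool.Agent.Helper48.BK.StW
import Pool.Agent.Helper52.MTC
import Pool.Agent.Helper90.MT.A1

/-! BK module Sie: Siegel's theorem to the right of `1`. -/

set_option autoImplicit false

namespace Pool.Agent.Helper48.BK

open Finset Complex
open Pool.Agent.Helper90.MT (Lk)
open Pool.Agent.Helper52.MTC

/-- Lipschitz bound up to the point `1` -/
theorem lip_Sie {q : ℕ} [NeZero q] (χ : DirichletCharacter ℂ q) (hχ : χ ≠ 1) (D : ℝ)
    (hD : ∀ σ : ℝ, 1 < σ → σ ≤ 2 → ‖LSeries (Lk χ 1) (σ + (0 : ℝ) * I)‖ ≤ D) (σ : ℝ)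
    (hσ : 1 < σ) (hσ2 : σ ≤ 2) :
    ‖LSeries (Lk χ 0) (σ : ℂ) - DirichletCharacter.LFunction χ 1‖ ≤ D * (σ - 1) := by
  have hc : Continuous (DirichletCharacter.LFunction χ) :=
    (DirichletCharacter.differentiable_LFunction hχ).continuous
  have h1 : Filter.Tendsto (fun τ : ℝ => ‖LSeries (Lk χ 0) (σ : ℂ) -
      DirichletCharacter.LFunction χ (τ : ℂ)‖) (nhdsWithin 1 (Set.Ioi 1))
      (nhds ‖LSeries (Lk χ 0) (σ : ℂ) - DirichletCharacter.LFunction χ ((1 : ℝ) : ℂ)‖) := by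
    have h : Continuous fun τ : ℝ => ‖LSeries (Lk χ 0) (σ : ℂ) -
        DirichletCharacter.LFunction χ (τ : ℂ)‖ :=
      (continuous_const.sub (hc.comp continuous_ofReal)).norm
    exact h.continuousAt.tendsto.mono_left nhdsWithin_le_nhds
  have h2 : Filter.Tendsto (fun τ : ℝ => D * |σ - τ|) (nhdsWithin 1 (Set.Ioi 1))
      (nhds (D * |σ - 1|)) := by
    have h : Continuous fun τ : ℝ => D * |σ - τ| :=
      continuous_const.mul (continuous_const.sub continuous_id).abs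
    exact h.continuousAt.tendsto.mono_left nhdsWithin_le_nhds
  have h3 := le_of_tendsto_of_tendsto h1 h2 (by
    filter_upwards [Ioc_mem_nhdsGT (show (1 : ℝ) < 2 by norm_num)] with τ hτ
    have h4 := lip_sigma χ 0 D hD τ σ hτ.1 hτ.2 hσ hσ2
    simp only [ofReal_zero, zero_mul, add_zero] at h4
    have h5 : DirichletCharacter.LFunction χ (τ : ℂ) = LSeries (Lk χ 0) (τ : ℂ) := by
      rw [Lk_zero]
      exact DirichletCharacter.LFunction_eq_LSeries χ (by simpa using hτ.1)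
    rw [h5]
    exact h4)
  rwa [ofReal_one, abs_of_pos (by linarith)] at h3

theorem hSie (ha : StSg) : StSie := by
  intro ε hε
  obtain ⟨c', hc', H⟩ := ha (ε / 2) (by linarith)
  obtain ⟨C1, hC1, H1⟩ := Pool.Agent.Helper90.MT.a1 1
  set K : ℝ := (4 / ε) ^ 2 * (3 : ℝ) ^ (ε / 2) with hK
  have hK0 : 0 < K := by positivity
  refine ⟨min (c' / 2) (c' / (4 * C1 * K)), by positivity, ?_⟩
  intro q _ χ hprim hχ hχ2 σ hσ hσ2
  have hq1 : (1 : ℝ) ≤ q := by exact_mod_cast Nat.one_le_iff_ne_zero.2 (NeZero.ne q)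
  have hq0 : (0 : ℝ) < q := by linarith
  have hlog : Real.log (q * 3) ^ 2 ≤ K * (q : ℝ) ^ (ε / 2) := by
    have h1 := Real.log_le_rpow_div (show (0 : ℝ) ≤ q * 3 by positivity)
      (show 0 < ε / 4 by linarith)
    have h2 : 0 ≤ Real.log (q * 3) := Real.log_nonneg (by linarith)
    calc Real.log (q * 3) ^ 2 ≤ (((q : ℝ) * 3) ^ (ε / 4) / (ε / 4)) ^ 2 :=
          pow_le_pow_left₀ h2 h1 2
      _ = (4 / ε) ^ 2 * (((q : ℝ) * 3) ^ (ε / 4)) ^ 2 := by
          field_simp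
      _ = K * (q : ℝ) ^ (ε / 2) := by
          rw [← Real.rpow_natCast (((q : ℝ) * 3) ^ (ε / 4)) 2,
            ← Real.rpow_mul (by positivity), hK]
          have e : ε / 4 * ((2 : ℕ) : ℝ) = ε / 2 := by push_cast; ring
          rw [e, Real.mul_rpow hq0.le (by norm_num)]
          ring
  have hD : ∀ u : ℝ, 1 < u → u ≤ 2 → ‖LSeries (Lk χ 1) (u + (0 : ℝ) * I)‖ ≤
      C1 * (K * (q : ℝ) ^ (ε / 2)) := by
    intro u hu hu2
    refine (H1 q χ u 0 hχ hu hu2).trans ?_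
    rw [abs_zero, zero_add]
    exact mul_le_mul_of_nonneg_left hlog hC1.le
  have hlip := lip_Sie χ hχ _ hD σ hσ hσ2
  have hL1 := H q χ hprim hχ hχ2
  have hlow := le_norm_Lk_zero χ (σ : ℂ) (by simpa using hσ) (by simpa using hσ2)
  rw [ofReal_re] at hlow
  have hneg : (q : ℝ) ^ (-ε) = (q : ℝ) ^ (-(ε / 2)) * (q : ℝ) ^ (-(ε / 2)) := by
    rw [← Real.rpow_add hq0]
    congr 1
    ring
  have hpos : 0 < (q : ℝ) ^ (-(ε / 2)) := Real.rpow_pos_of_pos hq0 _
  have hle1 : (q : ℝ) ^ (-(ε / 2)) ≤ 1 :=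
    Real.rpow_le_one_of_one_le_of_nonpos hq1 (by linarith)
  have hinv : (q : ℝ) ^ (ε / 2) * (q : ℝ) ^ (-(ε / 2)) = 1 := by
    rw [← Real.rpow_add hq0, add_neg_cancel, Real.rpow_zero]
  set A := (q : ℝ) ^ (-(ε / 2)) with hA
  set B := (q : ℝ) ^ (ε / 2) with hB
  have hB0 : 0 < B := Real.rpow_pos_of_pos hq0 _
  rw [hneg]
  have hrev : ‖DirichletCharacter.LFunction χ 1‖ - C1 * (K * B) * (σ - 1) ≤
      ‖LSeries (Lk χ 0) (σ : ℂ)‖ := by
    have h1 := norm_sub_norm_le (DirichletCharacter.LFunction χ 1) (LSeries (Lk χ 0) (σ : ℂ))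
    rw [norm_sub_rev] at h1
    linarith
  rcases le_or_gt (C1 * (K * B) * (σ - 1)) (c' * A / 2) with h | h
  · have h1 : min (c' / 2) (c' / (4 * C1 * K)) * (A * A) ≤ c' / 2 * A := by
      have h2 : min (c' / 2) (c' / (4 * C1 * K)) ≤ c' / 2 := min_le_left _ _
      have h3 : A * A ≤ A := by nlinarith
      exact mul_le_mul h2 h3 (by positivity) (by positivity)
    linarith
  · have h1 : c' / 2 * (A * A) < C1 * K * (σ - 1) := by
      have h2 := mul_lt_mul_of_pos_right h hpos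
      calc c' / 2 * (A * A) = c' * A / 2 * A := by ring
        _ < C1 * (K * B) * (σ - 1) * A := h2
        _ = C1 * K * (σ - 1) * (B * A) := by ring
        _ = C1 * K * (σ - 1) := by rw [hinv, mul_one]
    have h3 : c' / (4 * C1 * K) * (A * A) ≤ (σ - 1) / 2 := by
      rw [div_mul_eq_mul_div, div_le_div_iff₀ (by positivity) (by norm_num)]
      nlinarith
    have h4 : min (c' / 2) (c' / (4 * C1 * K)) * (A * A) ≤ c' / (4 * C1 * K) * (A * A) :=
      mul_le_mul_of_nonneg_right (min_le_right _ _) (by positivity)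
    linarith

end Pool.Agent.Helper48.BK
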