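import Pool.Agent.Helper48.BK.StD

/-!
# Project BK, module TI: type one sums
-/

set_option autoImplicit false

namespace Pool.Agent.Helper48.BK

open Finset

theorem nd_ge_TI {α : ℝ} {h : ℤ} {q : ℕ} (hα : Apx α h q) {j : ℕ} (h1 : 1 ≤ j)
    (h2 : 2 * j ≤ q) : 1 / (2 * (q : ℝ)) ≤ nd (j * α) := by
  obtain ⟨hq, hc, ha⟩ := hα
  have hq0 : (0 : ℝ) < q := by exact_mod_cast hq
  set n := round ((j : ℝ) * α) with hn
  have hne : (j : ℤ) * h - n * q ≠ 0 := by
    intro h0
    have hd : (q : ℤ) ∣ j * h := ⟨n, by linarith⟩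
    have hd2 : (q : ℤ) ∣ j := (hc.symm.dvd_of_dvd_mul_right hd)
    have := Int.le_of_dvd (by exact_mod_cast h1) hd2
    omega
  have h3 : (1 : ℝ) ≤ |(j : ℝ) * h - n * q| := by
    have := Int.one_le_abs hne
    exact_mod_cast this
  have h4 : |(j : ℝ) * (α - h / q)| ≤ 1 / (2 * q) := by
    rw [abs_mul, abs_of_nonneg (Nat.cast_nonneg j)]
    calc (j : ℝ) * |α - h / q| ≤ j * (1 / (q : ℝ) ^ 2) :=
          mul_le_mul_of_nonneg_left ha (Nat.cast_nonneg j)
      _ ≤ (q / 2 : ℝ) * (1 / (q : ℝ) ^ 2) := by
          apply mul_le_mul_of_nonneg_right _ (by positivity)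
          have : (2 : ℝ) * j ≤ q := by exact_mod_cast h2
          linarith
      _ = 1 / (2 * q) := by field_simp
  have h5 : (j : ℝ) * α - n = ((j : ℝ) * h - n * q) / q + j * (α - h / q) := by
    field_simp
    ring
  have h6 : 1 / (q : ℝ) ≤ |((j : ℝ) * h - n * q) / q| := by
    rw [abs_div, abs_of_pos hq0]
    exact div_le_div_of_nonneg_right h3 hq0.le
  have h7 : |((j : ℝ) * h - n * q) / q| ≤ |(j : ℝ) * α - n| + |(j : ℝ) * (α - h / q)| := by
    have : ((j : ℝ) * h - n * q) / q = ((j : ℝ) * α - n) - j * (α - h / q) := by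
      rw [h5]; ring
    rw [this]
    exact abs_sub _ _
  have h8 : nd (j * α) = |(j : ℝ) * α - n| := rfl
  rw [h8]
  have h9 : 1 / (q : ℝ) - 1 / (2 * q) = 1 / (2 * q) := by field_simp; ring
  linarith

theorem gs_le_TI {N t : ℝ} (q : ℝ) (hq : 0 < q) (h : 1 / (2 * q) ≤ nd t) :
    gs N t ≤ gs (2 * q) t := by
  have hδ : 0 < nd t := lt_of_lt_of_le (by positivity) h
  have h1 : gs N t ≤ 1 / nd t := by
    unfold gs
    split_ifs with h0
    · rwa [le_div_iff₀ hδ]
    · exact le_rfl
  refine h1.trans ?_
  unfold gs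
  split_ifs with h0
  · rw [div_le_iff₀ hδ]
    have := mul_le_mul_of_nonneg_left h (show (0 : ℝ) ≤ 2 * q by positivity)
    rwa [mul_one_div_cancel (by positivity)] at this
  · exact le_rfl

theorem hTI (ha : StGeo1) (hb : StGeo2) : StTI := by
  obtain ⟨-, hmono, hnn, -⟩ := ha
  obtain ⟨C, hC, hG⟩ := hb
  refine ⟨24 * C, by positivity, ?_⟩
  intro x J q h α hx hqx hα hJ hJx
  have hq1 : 1 ≤ q := hα.1
  have hq0 : (0 : ℝ) < q := by exact_mod_cast hq1
  have hx0 : (0 : ℝ) < x := by exact_mod_cast (by omega : 0 < x)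
  have hx3 : (3 : ℝ) ≤ x := by exact_mod_cast hx
  have hl1 : 1 ≤ Real.log x := by
    rw [Real.le_log_iff_exp_le hx0]
    exact Real.exp_one_lt_three.le.trans hx3
  have hlq : Real.log q ≤ Real.log x := Real.log_le_log hq0 (by exact_mod_cast hqx)
  have hlq0 : 0 ≤ Real.log q := Real.log_nonneg (by exact_mod_cast hq1)
  have hJ0 : (1 : ℝ) ≤ J := by exact_mod_cast hJ
  set A : ℝ := (x : ℝ) / q + J + q with hA
  have hxq : 0 ≤ (x : ℝ) / q := by positivity
  have hA0 : 0 ≤ A := by positivity
  have hqA : (q : ℝ) ≤ A := by rw [hA]; linarith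
  -- part one
  have P1 : ∑ j ∈ (Icc 1 J).filter (fun j => 2 * j ≤ q), gs ((x : ℝ) / j) (j * α) ≤
      6 * C * A * Real.log x ^ 2 := by
    calc ∑ j ∈ (Icc 1 J).filter (fun j => 2 * j ≤ q), gs ((x : ℝ) / j) (j * α)
        ≤ ∑ j ∈ (Icc 1 J).filter (fun j => 2 * j ≤ q), gs (2 * q) (j * α) := by
          refine Finset.sum_le_sum fun j hj => ?_
          rw [mem_filter, mem_Icc] at hj
          exact gs_le_TI q hq0 (nd_ge_TI hα hj.1.1 hj.2)
      _ ≤ ∑ j ∈ Icc 1 (q / 2), gs (2 * q) (j * α) := by
          refine Finset.sum_le_sum_of_subset_of_nonneg ?_ fun j _ _ => hnn _ _ (by positivity)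
          intro j hj
          rw [mem_filter, mem_Icc] at hj
          rw [mem_Icc]
          exact ⟨hj.1.1, by omega⟩
      _ ≤ C * (((q / 2 : ℕ) : ℝ) / q + 1) * (2 * q + q * (1 + Real.log q)) :=
          hG (q / 2) q (2 * q) h α (by
            have : (1 : ℝ) ≤ q := by exact_mod_cast hq1
            linarith) hα
      _ ≤ C * (3 / 2) * (q * (4 * Real.log x)) := by
          have e1 : (((q / 2 : ℕ) : ℝ)) / q + 1 ≤ 3 / 2 := by
            have : ((q / 2 : ℕ) : ℝ) ≤ (q : ℝ) / 2 := Nat.cast_div_le
            have h2 : ((q / 2 : ℕ) : ℝ) / q ≤ 1 / 2 := by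
              rw [div_le_iff₀ hq0]; linarith
            linarith
          have e2 : 2 * (q : ℝ) + q * (1 + Real.log q) ≤ q * (4 * Real.log x) := by
            nlinarith
          apply mul_le_mul (mul_le_mul_of_nonneg_left e1 hC.le) e2 (by positivity) (by positivity)
      _ = 6 * C * q * Real.log x := by ring
      _ ≤ 6 * C * A * Real.log x := by
          apply mul_le_mul_of_nonneg_right _ (by linarith)
          apply mul_le_mul_of_nonneg_left hqA (by positivity)
      _ ≤ 6 * C * A * Real.log x ^ 2 := by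
          apply mul_le_mul_of_nonneg_left _ (by positivity)
          nlinarith
  -- part two
  have P2 : ∑ j ∈ (Icc 1 J).filter (fun j => ¬ 2 * j ≤ q), gs ((x : ℝ) / j) (j * α) ≤
      18 * C * A * Real.log x ^ 2 := by
    have hmaps : ∀ j ∈ (Icc 1 J).filter (fun j => ¬ 2 * j ≤ q),
        Nat.log 2 j ∈ range (Nat.log 2 J + 1) := by
      intro j hj
      rw [mem_filter, mem_Icc] at hj
      rw [mem_range]
      exact Nat.lt_succ_of_le (Nat.log_mono_right hj.1.2)
    rw [← Finset.sum_fiberwise_of_maps_to hmaps]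
    have hblock : ∀ i ∈ range (Nat.log 2 J + 1),
        ∑ j ∈ ((Icc 1 J).filter (fun j => ¬ 2 * j ≤ q)).filter (fun j => Nat.log 2 j = i),
          gs ((x : ℝ) / j) (j * α) ≤ 6 * C * A * Real.log x := by
      intro i _
      rcases (((Icc 1 J).filter (fun j => ¬ 2 * j ≤ q)).filter
        (fun j => Nat.log 2 j = i)).eq_empty_or_nonempty with h0 | ⟨j₀, hj₀⟩
      · rw [h0, Finset.sum_empty]
        have : 0 ≤ Real.log x := by linarith
        positivity
      · rw [mem_filter, mem_filter, mem_Icc] at hj₀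
        obtain ⟨⟨⟨a1, a2⟩, a3⟩, a4⟩ := hj₀
        have b1 : 2 ^ i ≤ j₀ := by
          rw [← a4]; exact Nat.pow_log_le_self 2 (by omega)
        have b2 : j₀ < 2 ^ (i + 1) := by
          rw [← a4]; exact Nat.lt_pow_succ_log_self (by norm_num) j₀
        set D : ℕ := 2 ^ i with hD
        have b3 : q < 4 * D := by rw [pow_succ] at b2; omega
        have b4 : D ≤ J := by omega
        have hD1 : 1 ≤ D := Nat.one_le_two_pow
        have hD0 : (0 : ℝ) < D := by exact_mod_cast hD1
        have b5 : (q : ℝ) < 4 * D := by exact_mod_cast b3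
        have b6 : (D : ℝ) ≤ J := by exact_mod_cast b4
        have b7 : (D : ℝ) ≤ x := by exact_mod_cast b4.trans hJx
        calc ∑ j ∈ ((Icc 1 J).filter (fun j => ¬ 2 * j ≤ q)).filter (fun j => Nat.log 2 j = i),
              gs ((x : ℝ) / j) (j * α)
            ≤ ∑ j ∈ ((Icc 1 J).filter (fun j => ¬ 2 * j ≤ q)).filter (fun j => Nat.log 2 j = i),
              gs ((x : ℝ) / D) (j * α) := by
              refine Finset.sum_le_sum fun j hj => ?_
              rw [mem_filter, mem_filter, mem_Icc] at hj
              have c1 : D ≤ j := by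
                rw [hD, ← hj.2]; exact Nat.pow_log_le_self 2 (by omega)
              refine hmono _ _ _ (by positivity) ?_
              apply div_le_div_of_nonneg_left hx0.le hD0
              exact_mod_cast c1
          _ ≤ ∑ j ∈ Icc 1 (2 * D), gs ((x : ℝ) / D) (j * α) := by
              refine Finset.sum_le_sum_of_subset_of_nonneg ?_ fun j _ _ => hnn _ _ (by positivity)
              intro j hj
              rw [mem_filter, mem_filter, mem_Icc] at hj
              have c2 : j < 2 ^ (i + 1) := by
                rw [← hj.2]; exact Nat.lt_pow_succ_log_self (by norm_num) j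
              rw [mem_Icc]
              rw [pow_succ] at c2
              exact ⟨hj.1.1.1, by omega⟩
          _ ≤ C * (((2 * D : ℕ) : ℝ) / q + 1) * ((x : ℝ) / D + q * (1 + Real.log q)) :=
              hG (2 * D) q ((x : ℝ) / D) h α (by rwa [le_div_iff₀ hD0, one_mul]) hα
          _ = C * (2 * ((x : ℝ) / q) + 2 * D * (1 + Real.log q) + (x : ℝ) / D +
                q * (1 + Real.log q)) := by
              push_cast
              field_simp
              ring
          _ ≤ C * (6 * A * Real.log x) := by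
              apply mul_le_mul_of_nonneg_left _ hC.le
              have c3 : (x : ℝ) / D ≤ 4 * ((x : ℝ) / q) := by
                rw [← mul_div_assoc, div_le_div_iff₀ hD0 hq0]
                nlinarith
              have c4 : 1 + Real.log q ≤ 2 * Real.log x := by linarith
              have c5 : 2 * (D : ℝ) * (1 + Real.log q) ≤ 2 * J * (2 * Real.log x) :=
                mul_le_mul (by linarith) c4 (by linarith) (by linarith)
              have c6 : (q : ℝ) * (1 + Real.log q) ≤ q * (2 * Real.log x) :=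
                mul_le_mul_of_nonneg_left c4 hq0.le
              have c7 : (x : ℝ) / q ≤ (x : ℝ) / q * Real.log x :=
                le_mul_of_one_le_right hxq hl1
              have c8 : 0 ≤ (J : ℝ) * Real.log x := by nlinarith
              have c9 : 0 ≤ (q : ℝ) * Real.log x := by nlinarith
              rw [hA]
              nlinarith
          _ = 6 * C * A * Real.log x := by ring
    calc ∑ i ∈ range (Nat.log 2 J + 1),
        ∑ j ∈ ((Icc 1 J).filter (fun j => ¬ 2 * j ≤ q)).filter (fun j => Nat.log 2 j = i),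
          gs ((x : ℝ) / j) (j * α) ≤ ∑ i ∈ range (Nat.log 2 J + 1), 6 * C * A * Real.log x :=
          Finset.sum_le_sum hblock
      _ = ((Nat.log 2 J : ℝ) + 1) * (6 * C * A * Real.log x) := by
          rw [Finset.sum_const, card_range, nsmul_eq_mul]
          push_cast
          ring
      _ ≤ (3 * Real.log x) * (6 * C * A * Real.log x) := by
          apply mul_le_mul_of_nonneg_right _ (by positivity)
          have d1 : (Nat.log 2 J : ℝ) * Real.log 2 ≤ Real.log x := by
            have e1 : (2 : ℝ) ^ Nat.log 2 J ≤ x := by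
              have : 2 ^ Nat.log 2 J ≤ x := (Nat.pow_log_le_self 2 (by omega)).trans hJx
              exact_mod_cast this
            have e2 := Real.log_le_log (by positivity) e1
            rwa [Real.log_pow] at e2
          have d2 : (1 / 2 : ℝ) ≤ Real.log 2 := by
            have := Real.log_two_gt_d9
            linarith
          have d3 : (0 : ℝ) ≤ (Nat.log 2 J : ℝ) := Nat.cast_nonneg _
          nlinarith
      _ = 18 * C * A * Real.log x ^ 2 := by ring
  rw [← Finset.sum_filter_add_sum_filter_not (Icc 1 J) (fun j => 2 * j ≤ q)]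
  calc _ ≤ 6 * C * A * Real.log x ^ 2 + 18 * C * A * Real.log x ^ 2 := add_le_add P1 P2
    _ = 24 * C * A * Real.log x ^ 2 := by ring

end Pool.Agent.Helper48.BK
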