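import Pool.Agent.Helper48.BK.StD

/-! BK module TII: type two sums. -/

set_option autoImplicit false

namespace Pool.Agent.Helper48.BK

open Finset

theorem ex_mul_conj_TII (s t : ℝ) : ex s * (starRingEnd ℂ) (ex t) = ex (s - t) := by
  unfold ex
  rw [← Complex.exp_conj, ← Complex.exp_add]
  congr 1
  simp only [map_mul, Complex.conj_ofReal, Complex.conj_I, map_ofNat]
  push_cast
  ring

/-- the inner sum over `u` -/
theorem inner_TII (ha : StGeo1) (P y V : ℕ) (hP : 1 ≤ P) (α : ℝ) (b : ℕ → ℝ) (v v' : ℕ)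
    (hv : 0 < v) (hv' : 0 < v') :
    ‖∑ u ∈ Ioc P (2 * P), (if V < v ∧ u * v ≤ y then (b v : ℂ) * ex (u * v * α) else 0) *
      (starRingEnd ℂ) (if V < v' ∧ u * v' ≤ y then (b v' : ℂ) * ex (u * v' * α) else 0)‖ ≤
      |b v| * |b v'| * gs P (((v : ℝ) - v') * α) := by
  obtain ⟨h1, h2, h3, -⟩ := ha
  have hP0 : (0 : ℝ) ≤ P := Nat.cast_nonneg P
  have hrhs : 0 ≤ |b v| * |b v'| * gs P (((v : ℝ) - v') * α) :=
    mul_nonneg (mul_nonneg (abs_nonneg _) (abs_nonneg _)) (h3 _ _ hP0)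
  by_cases hV : V < v ∧ V < v'
  swap
  · rw [Finset.sum_eq_zero, norm_zero]
    · exact hrhs
    · intro u _
      by_cases h4 : V < v
      · have h5 : ¬ V < v' := fun h5 => hV ⟨h4, h5⟩
        have e : ¬ (V < v' ∧ u * v' ≤ y) := fun h => h5 h.1
        rw [if_neg e, map_zero, mul_zero]
      · have e : ¬ (V < v ∧ u * v ≤ y) := fun h => h4 h.1
        rw [if_neg e, zero_mul]
  set N : ℕ := min (2 * P) (min (y / v) (y / v')) - P with hN
  have hNP : (N : ℝ) ≤ P := by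
    have : N ≤ P := by omega
    exact_mod_cast this
  have hset : (Ioc P (2 * P)).filter (fun u => u * v ≤ y ∧ u * v' ≤ y) = Ioc P (P + N) := by
    ext u
    rw [mem_filter, mem_Ioc, mem_Ioc, ← Nat.le_div_iff_mul_le hv, ← Nat.le_div_iff_mul_le hv']
    omega
  have hsum : ∑ u ∈ Ioc P (2 * P),
      (if V < v ∧ u * v ≤ y then (b v : ℂ) * ex (u * v * α) else 0) *
      (starRingEnd ℂ) (if V < v' ∧ u * v' ≤ y then (b v' : ℂ) * ex (u * v' * α) else 0) =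
      ((b v * b v' : ℝ) : ℂ) * ∑ u ∈ Ioc P (P + N), ex (u * (((v : ℝ) - v') * α)) := by
    rw [← hset, sum_filter, mul_sum]
    refine sum_congr rfl fun u _ => ?_
    by_cases h4 : u * v ≤ y
    · by_cases h5 : u * v' ≤ y
      · rw [if_pos ⟨hV.1, h4⟩, if_pos ⟨hV.2, h5⟩, if_pos ⟨h4, h5⟩, map_mul, Complex.conj_ofReal]
        have h6 := ex_mul_conj_TII (u * v * α) (u * v' * α)
        have h7 : (u : ℝ) * v * α - u * v' * α = u * (((v : ℝ) - v') * α) := by ring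
        rw [h7] at h6
        rw [← h6]
        push_cast
        ring
      · have e1 : ¬ (V < v' ∧ u * v' ≤ y) := fun h => h5 h.2
        have e2 : ¬ (u * v ≤ y ∧ u * v' ≤ y) := fun h => h5 h.2
        rw [if_pos ⟨hV.1, h4⟩, if_neg e1, if_neg e2, map_zero, mul_zero, mul_zero]
    · have e1 : ¬ (V < v ∧ u * v ≤ y) := fun h => h4 h.2
      have e2 : ¬ (u * v ≤ y ∧ u * v' ≤ y) := fun h => h4 h.1
      rw [if_neg e1, if_neg e2, zero_mul, mul_zero]
  rw [hsum, norm_mul, Complex.norm_real, Real.norm_eq_abs, abs_mul]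
  refine mul_le_mul_of_nonneg_left ?_ (mul_nonneg (abs_nonneg _) (abs_nonneg _))
  exact (h1 P N _).trans (h2 _ _ _ (Nat.cast_nonneg N) hNP)

theorem gs_zero_TII (N : ℝ) : gs N 0 = N := by
  simp [gs, nd]

/-- the sum over one variable -/
theorem row_TII (ha : StGeo1) (P M : ℕ) (α : ℝ) (v : ℕ) (hv : v ∈ Ioc 0 M) :
    ∑ v' ∈ Ioc 0 M, gs P (((v : ℝ) - v') * α) ≤ P + 2 * ∑ k ∈ Icc 1 M, gs P (k * α) := by
  obtain ⟨h1, h2, h3, h4⟩ := ha
  have hP0 : (0 : ℝ) ≤ P := Nat.cast_nonneg P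
  rw [mem_Ioc] at hv
  have hsplit : Ioc 0 M = (Ioc 0 (v - 1) ∪ {v}) ∪ Ioc v M := by
    ext n
    simp only [mem_union, mem_Ioc, mem_singleton]
    omega
  have hd1 : Disjoint (Ioc 0 (v - 1) ∪ {v}) (Ioc v M) := by
    rw [disjoint_left]
    intro n hn hn'
    simp only [mem_union, mem_Ioc, mem_singleton] at hn hn'
    omega
  have hd2 : Disjoint (Ioc 0 (v - 1)) {v} := by
    rw [disjoint_left]
    intro n hn hn'
    simp only [mem_Ioc, mem_singleton] at hn hn'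
    omega
  have e1 : ∑ v' ∈ Ioc 0 (v - 1), gs P (((v : ℝ) - v') * α) ≤ ∑ k ∈ Icc 1 M, gs P (k * α) := by
    have e : ∑ v' ∈ Ioc 0 (v - 1), gs P (((v : ℝ) - v') * α) =
        ∑ k ∈ (Ioc 0 (v - 1)).image (fun v' => v - v'), gs P (k * α) := by
      rw [sum_image]
      · refine sum_congr rfl fun n hn => ?_
        rw [mem_Ioc] at hn
        rw [Nat.cast_sub (by omega)]
      · intro n hn m hm hnm
        have h5 := mem_Ioc.1 (mem_coe.1 hn)
        have h6 := mem_Ioc.1 (mem_coe.1 hm)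
        have h7 : v - n = v - m := hnm
        omega
    rw [e]
    refine sum_le_sum_of_subset_of_nonneg ?_ fun k _ _ => h3 _ _ hP0
    intro k hk
    obtain ⟨n, hn, rfl⟩ := mem_image.1 hk
    rw [mem_Ioc] at hn
    rw [mem_Icc]
    omega
  have e2 : ∑ v' ∈ Ioc v M, gs P (((v : ℝ) - v') * α) ≤ ∑ k ∈ Icc 1 M, gs P (k * α) := by
    have e : ∑ v' ∈ Ioc v M, gs P (((v : ℝ) - v') * α) =
        ∑ k ∈ (Ioc v M).image (fun v' => v' - v), gs P (k * α) := by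
      rw [sum_image]
      · refine sum_congr rfl fun n hn => ?_
        rw [mem_Ioc] at hn
        rw [Nat.cast_sub (by omega), ← h4 _ _ hP0]
        congr 1
        ring
      · intro n hn m hm hnm
        have h5 := mem_Ioc.1 (mem_coe.1 hn)
        have h6 := mem_Ioc.1 (mem_coe.1 hm)
        have h7 : n - v = m - v := hnm
        omega
    rw [e]
    refine sum_le_sum_of_subset_of_nonneg ?_ fun k _ _ => h3 _ _ hP0
    intro k hk
    obtain ⟨n, hn, rfl⟩ := mem_image.1 hk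
    rw [mem_Ioc] at hn
    rw [mem_Icc]
    omega
  rw [hsplit, sum_union hd1, sum_union hd2, sum_singleton, sub_self, zero_mul, gs_zero_TII]
  linarith

theorem hTII (ha : StGeo1) (hb : StGeo2) : StTII := by
  obtain ⟨C, hC, hgeo⟩ := hb
  refine ⟨1 + 4 * C, by positivity, ?_⟩
  intro x y P V q h α a b hx hyx hP hPx hqx hap
  have hlog : 1 ≤ Real.log x := by
    rw [Real.le_log_iff_exp_le (by positivity)]
    have h3 : (3 : ℝ) ≤ x := by exact_mod_cast hx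
    linarith [Real.exp_one_lt_d9]
  have hP1 : (1 : ℝ) ≤ P := by exact_mod_cast hP
  have hq1 : 1 ≤ q := hap.1
  have hq1' : (1 : ℝ) ≤ q := by exact_mod_cast hq1
  have hqx' : (q : ℝ) ≤ x := by exact_mod_cast hqx
  have hlogq : Real.log q ≤ Real.log x := Real.log_le_log (by linarith) hqx'
  set M : ℕ := x / P with hM
  let c : ℕ → ℕ → ℂ := fun u v => if V < v ∧ u * v ≤ y then (b v : ℂ) * ex (u * v * α) else 0
  let T : ℕ → ℂ := fun u => ∑ v ∈ Ioc 0 M, c u v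
  have hT : ∑ u ∈ Ioc P (2 * P), ∑ v ∈ Ioc V (y / u), ((a u * b v : ℝ) : ℂ) * ex (u * v * α) =
      ∑ u ∈ Ioc P (2 * P), (a u : ℂ) * T u := by
    refine sum_congr rfl fun u hu => ?_
    rw [mem_Ioc] at hu
    have hu0 : 0 < u := by omega
    have hset : Ioc V (y / u) = (Ioc 0 M).filter (fun v => V < v ∧ u * v ≤ y) := by
      ext v
      rw [mem_Ioc, mem_filter, mem_Ioc, Nat.le_div_iff_mul_le hu0, mul_comm v u]
      constructor
      · rintro ⟨h1, h2⟩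
        refine ⟨⟨by omega, ?_⟩, h1, h2⟩
        rw [hM, Nat.le_div_iff_mul_le (by omega)]
        calc v * P ≤ v * u := Nat.mul_le_mul_left _ hu.1.le
          _ = u * v := Nat.mul_comm _ _
          _ ≤ x := h2.trans hyx
      · rintro ⟨_, h1, h2⟩
        exact ⟨h1, h2⟩
    rw [hset, sum_filter, mul_sum]
    refine sum_congr rfl fun v _ => ?_
    simp only [c]
    split_ifs
    · push_cast
      ring
    · rw [mul_zero]
  -- Cauchy-Schwarz
  have hCS : ‖∑ u ∈ Ioc P (2 * P), (a u : ℂ) * T u‖ ^ 2 ≤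
      (∑ u ∈ Ioc P (2 * P), a u ^ 2) * ∑ u ∈ Ioc P (2 * P), ‖T u‖ ^ 2 := by
    have h1 : ‖∑ u ∈ Ioc P (2 * P), (a u : ℂ) * T u‖ ≤ ∑ u ∈ Ioc P (2 * P), |a u| * ‖T u‖ := by
      refine (norm_sum_le _ _).trans (le_of_eq (sum_congr rfl fun u _ => ?_))
      rw [norm_mul, Complex.norm_real, Real.norm_eq_abs]
    have h2 := Finset.sum_mul_sq_le_sq_mul_sq (Ioc P (2 * P)) (fun u => |a u|) (fun u => ‖T u‖)
    simp only [sq_abs] at h2
    exact (pow_le_pow_left₀ (norm_nonneg _) h1 2).trans h2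
  -- the square
  have hsq : ∑ u ∈ Ioc P (2 * P), ‖T u‖ ^ 2 ≤
      ∑ v ∈ Ioc 0 M, ∑ v' ∈ Ioc 0 M, |b v| * |b v'| * gs P (((v : ℝ) - v') * α) := by
    have e1 : ((∑ u ∈ Ioc P (2 * P), ‖T u‖ ^ 2 : ℝ) : ℂ) = ∑ v ∈ Ioc 0 M, ∑ v' ∈ Ioc 0 M,
        ∑ u ∈ Ioc P (2 * P), c u v * (starRingEnd ℂ) (c u v') := by
      push_cast
      have : ∀ u, ((‖T u‖ : ℝ) : ℂ) ^ 2 = ∑ v ∈ Ioc 0 M, ∑ v' ∈ Ioc 0 M,
          c u v * (starRingEnd ℂ) (c u v') := by
        intro u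
        rw [← Complex.mul_conj', map_sum, sum_mul_sum]
      simp only [this]
      rw [sum_comm]
      refine sum_congr rfl fun v _ => ?_
      rw [sum_comm]
    have e2 : ∑ u ∈ Ioc P (2 * P), ‖T u‖ ^ 2 =
        ‖((∑ u ∈ Ioc P (2 * P), ‖T u‖ ^ 2 : ℝ) : ℂ)‖ := by
      rw [Complex.norm_real, Real.norm_of_nonneg (sum_nonneg fun u _ => sq_nonneg _)]
    rw [e2, e1]
    refine (norm_sum_le _ _).trans (sum_le_sum fun v hv => ?_)
    refine (norm_sum_le _ _).trans (sum_le_sum fun v' hv' => ?_)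
    rw [mem_Ioc] at hv hv'
    exact inner_TII ha P y V hP α b v v' hv.1 hv'.1
  have hgs0 : ∀ t, 0 ≤ gs P t := fun t => ha.2.2.1 _ _ (Nat.cast_nonneg P)
  have hsym : ∑ v ∈ Ioc 0 M, ∑ v' ∈ Ioc 0 M, |b v| * |b v'| * gs P (((v : ℝ) - v') * α) ≤
      ∑ v ∈ Ioc 0 M, b v ^ 2 * ∑ v' ∈ Ioc 0 M, gs P (((v : ℝ) - v') * α) := by
    have e1 : ∑ v ∈ Ioc 0 M, ∑ v' ∈ Ioc 0 M, |b v| * |b v'| * gs P (((v : ℝ) - v') * α) ≤
        ∑ v ∈ Ioc 0 M, ∑ v' ∈ Ioc 0 M, (b v ^ 2 / 2 * gs P (((v : ℝ) - v') * α) +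
          b v' ^ 2 / 2 * gs P (((v : ℝ) - v') * α)) := by
      refine sum_le_sum fun v _ => sum_le_sum fun v' _ => ?_
      rw [← add_mul]
      refine mul_le_mul_of_nonneg_right ?_ (hgs0 _)
      nlinarith [sq_nonneg (|b v| - |b v'|), sq_abs (b v), sq_abs (b v')]
    have e2 : ∑ v ∈ Ioc 0 M, ∑ v' ∈ Ioc 0 M, b v' ^ 2 / 2 * gs P (((v : ℝ) - v') * α) =
        ∑ v ∈ Ioc 0 M, ∑ v' ∈ Ioc 0 M, b v ^ 2 / 2 * gs P (((v : ℝ) - v') * α) := by
      rw [sum_comm]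
      refine sum_congr rfl fun v _ => sum_congr rfl fun v' _ => ?_
      rw [← ha.2.2.2 _ _ (Nat.cast_nonneg P)]
      congr 2
      ring
    refine e1.trans (le_of_eq ?_)
    simp only [sum_add_distrib]
    rw [e2, ← sum_add_distrib]
    refine sum_congr rfl fun v _ => ?_
    rw [← sum_add_distrib, mul_sum]
    refine sum_congr rfl fun v' _ => ?_
    ring
  have hrow : ∑ v ∈ Ioc 0 M, b v ^ 2 * ∑ v' ∈ Ioc 0 M, gs P (((v : ℝ) - v') * α) ≤
      (∑ v ∈ Ioc 0 M, b v ^ 2) * (P + 2 * ∑ k ∈ Icc 1 M, gs P (k * α)) := by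
    rw [sum_mul]
    exact sum_le_sum fun v hv => mul_le_mul_of_nonneg_left (row_TII ha P M α v hv) (sq_nonneg _)
  have hg := hgeo M q P h α hP1 hap
  -- the final bound
  have hMx : (M : ℝ) ≤ x / P := Nat.cast_div_le
  have hMP : (M : ℝ) * P ≤ x := by
    rw [← le_div_iff₀ (by linarith)]
    exact hMx
  set L := Real.log x with hL
  have hx0 : (0 : ℝ) ≤ x := Nat.cast_nonneg x
  have hlq0 : 0 ≤ Real.log q := Real.log_nonneg hq1'
  have hfin : (P : ℝ) + 2 * ∑ k ∈ Icc 1 M, gs P (k * α) ≤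
      (1 + 4 * C) * ((P : ℝ) + (x : ℝ) / q + (x : ℝ) / P + q) * L := by
    have h1 : ((M : ℝ) / q + 1) * (P + q * (1 + Real.log q)) ≤
        2 * L * ((P : ℝ) + (x : ℝ) / q + (x : ℝ) / P + q) := by
      have e : ((M : ℝ) / q + 1) * (P + q * (1 + Real.log q)) =
          M * P / q + M * (1 + Real.log q) + P + q * (1 + Real.log q) := by
        field_simp
        ring
      rw [e]
      have f1 : (M : ℝ) * P / q ≤ x / q := div_le_div_of_nonneg_right hMP (by linarith)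
      have f2 : (M : ℝ) * (1 + Real.log q) ≤ x / P * (2 * L) :=
        mul_le_mul hMx (by linarith) (by linarith) (by positivity)
      have f3 : (q : ℝ) * (1 + Real.log q) ≤ q * (2 * L) :=
        mul_le_mul_of_nonneg_left (by linarith) (by linarith)
      have f4 : (x : ℝ) / q ≤ 2 * L * (x / q) := by
        have : 0 ≤ (x : ℝ) / q := by positivity
        nlinarith
      have f5 : (P : ℝ) ≤ 2 * L * P := by nlinarith
      nlinarith
    have h2 : ∑ k ∈ Icc 1 M, gs P (k * α) ≤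
        C * (2 * L * ((P : ℝ) + (x : ℝ) / q + (x : ℝ) / P + q)) := by
      refine hg.trans ?_
      rw [mul_assoc]
      exact mul_le_mul_of_nonneg_left h1 hC.le
    have h3 : (P : ℝ) ≤ ((P : ℝ) + (x : ℝ) / q + (x : ℝ) / P + q) * L := by
      have g1 : 0 ≤ (x : ℝ) / q := by positivity
      have g2 : 0 ≤ (x : ℝ) / P := by positivity
      nlinarith
    nlinarith
  rw [hT]
  have hA : 0 ≤ ∑ u ∈ Ioc P (2 * P), a u ^ 2 := sum_nonneg fun u _ => sq_nonneg _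
  have hB : 0 ≤ ∑ v ∈ Ioc 0 M, b v ^ 2 := sum_nonneg fun u _ => sq_nonneg _
  calc ‖∑ u ∈ Ioc P (2 * P), (a u : ℂ) * T u‖ ^ 2
      ≤ (∑ u ∈ Ioc P (2 * P), a u ^ 2) * ∑ u ∈ Ioc P (2 * P), ‖T u‖ ^ 2 := hCS
    _ ≤ (∑ u ∈ Ioc P (2 * P), a u ^ 2) *
        ((∑ v ∈ Ioc 0 M, b v ^ 2) *
          ((1 + 4 * C) * ((P : ℝ) + (x : ℝ) / q + (x : ℝ) / P + q) * L)) := by
        refine mul_le_mul_of_nonneg_left ?_ hA
        exact ((hsq.trans hsym).trans hrow).trans (mul_le_mul_of_nonneg_left hfin hB)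
    _ = _ := by ring

end Pool.Agent.Helper48.BK
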