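import Pool.Agent.Helper48.BK.StD

/-!
# Project BK, module Tail (helper24): elementary symmetric functions of `1/p`
-/

set_option autoImplicit false

namespace Pool.Agent.Helper48.BK

open Finset ArithmeticFunction

theorem pow_Tail {s f : ℝ} (hs : 0 ≤ s) (hf : 0 ≤ f) (n : ℕ) :
    s ^ (n + 1) + (n + 1) * f * s ^ n ≤ (f + s) ^ (n + 1) := by
  induction n with
  | zero => simp; linarith
  | succ n ih =>
    have h1 : (f + s) * (s ^ (n + 1) + (n + 1) * f * s ^ n) ≤ (f + s) * (f + s) ^ (n + 1) :=
      mul_le_mul_of_nonneg_left ih (by positivity)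
    have h2 : 0 ≤ ((n : ℝ) + 1) * f * f * s ^ n := by positivity
    calc s ^ (n + 1 + 1) + (((n + 1 : ℕ) : ℝ) + 1) * f * s ^ (n + 1)
        ≤ (f + s) * (s ^ (n + 1) + (n + 1) * f * s ^ n) := by
          have e : (f + s) * (s ^ (n + 1) + (n + 1) * f * s ^ n) =
              s ^ (n + 1 + 1) + (((n + 1 : ℕ) : ℝ) + 1) * f * s ^ (n + 1) +
                ((n : ℝ) + 1) * f * f * s ^ n := by
            push_cast
            ring
          linarith
      _ ≤ (f + s) * (f + s) ^ (n + 1) := h1
      _ = (f + s) ^ (n + 1 + 1) := by ring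

theorem sum_Tail (S : Finset ℕ) (f : ℕ → ℝ) (hf : ∀ n, 0 ≤ f n) (r : ℕ) :
    ∑ T ∈ S.powersetCard r, ∏ p ∈ T, f p ≤ (∑ p ∈ S, f p) ^ r / r.factorial := by
  classical
  induction S using Finset.induction_on generalizing r with
  | empty =>
    rcases Nat.eq_zero_or_pos r with rfl | hr
    · simp
    · rw [powersetCard_eq_empty.2 (by simpa using hr)]
      simp only [sum_empty]
      positivity
  | insert a S ha ih =>
    rcases r with _ | r
    · simp
    · rw [powersetCard_succ_insert ha, sum_union, sum_image]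
      · have h1 := ih (r + 1)
        have h2 := ih r
        have hs : 0 ≤ ∑ p ∈ S, f p := sum_nonneg fun p _ => hf p
        have h3 : ∑ T ∈ S.powersetCard r, ∏ p ∈ insert a T, f p =
            f a * ∑ T ∈ S.powersetCard r, ∏ p ∈ T, f p := by
          rw [mul_sum]
          apply sum_congr rfl
          intro T hT
          rw [prod_insert]
          intro hc
          exact ha ((mem_powersetCard.1 hT).1 hc)
        rw [h3, sum_insert ha]
        have h4 := pow_Tail hs (hf a) r
        have h5 : f a * ∑ T ∈ S.powersetCard r, ∏ p ∈ T, f p ≤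
            f a * ((∑ p ∈ S, f p) ^ r / r.factorial) := mul_le_mul_of_nonneg_left h2 (hf a)
        have h6 : (0 : ℝ) < ((r + 1).factorial : ℝ) := by exact_mod_cast Nat.factorial_pos _
        have h7 : (0 : ℝ) < (r.factorial : ℝ) := by exact_mod_cast Nat.factorial_pos _
        have h8 : f a * ((∑ p ∈ S, f p) ^ r / r.factorial) =
            (((r : ℝ) + 1) * f a * (∑ p ∈ S, f p) ^ r) / (r + 1).factorial := by
          rw [Nat.factorial_succ]
          push_cast
          field_simp
        calc _ ≤ (∑ p ∈ S, f p) ^ (r + 1) / (r + 1).factorial +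
              f a * ((∑ p ∈ S, f p) ^ r / r.factorial) := add_le_add h1 h5
          _ = ((∑ p ∈ S, f p) ^ (r + 1) + ((r : ℝ) + 1) * f a * (∑ p ∈ S, f p) ^ r) /
              (r + 1).factorial := by rw [h8]; ring
          _ ≤ _ := by gcongr
      · intro T hT T' hT' he
        have h1 : a ∉ T := fun hc => ha ((mem_powersetCard.1 hT).1 hc)
        have h2 : a ∉ T' := fun hc => ha ((mem_powersetCard.1 hT').1 hc)
        rw [← erase_insert h1, ← erase_insert h2, he]
      · rw [disjoint_left]
        intro T hT hT'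
        obtain ⟨T', -, rfl⟩ := mem_image.1 hT'
        exact ha ((mem_powersetCard.1 hT).1 (mem_insert_self a T'))

theorem hTail : StTail := by
  intro z r hz
  have h1 : (Pz z).powerset.filter (fun T => T.card = r) = (Pz z).powersetCard r := by
    rw [powersetCard_eq_filter]
  rw [h1]
  have h2 : ∀ T ∈ (Pz z).powersetCard r, (1 : ℝ) / ((∏ p ∈ T, p : ℕ) : ℝ) =
      ∏ p ∈ T, (1 : ℝ) / (p : ℝ) := by
    intro T _
    push_cast
    rw [prod_div_distrib]
    simp
  rw [sum_congr rfl h2]
  refine (sum_Tail (Pz z) (fun p => (1 : ℝ) / (p : ℝ)) (fun n => by positivity) r).trans ?_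
  have h3 : ∑ p ∈ Pz z, (1 : ℝ) / (p : ℝ) ≤ 1 + Real.log z := by
    have h4 := harmonic_le_one_add_log z
    have h5 : ((harmonic z : ℚ) : ℝ) = ∑ i ∈ range z, (1 : ℝ) / ((i + 1 : ℕ) : ℝ) := by
      unfold harmonic
      push_cast
      apply sum_congr rfl
      intro i _
      rw [one_div]
    rw [h5] at h4
    refine le_trans ?_ h4
    have h6 : ∑ i ∈ range z, (1 : ℝ) / ((i + 1 : ℕ) : ℝ) =
        ∑ p ∈ (range z).image (fun i : ℕ => i + 1), (1 : ℝ) / ((p : ℕ) : ℝ) := by
      rw [sum_image]
      intro i _ j _ hij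
      exact Nat.succ_injective hij
    rw [h6]
    apply sum_le_sum_of_subset_of_nonneg
    · intro p hp
      unfold Pz at hp
      rw [mem_filter, mem_range] at hp
      rw [mem_image]
      exact ⟨p - 1, by rw [mem_range]; have := hp.2.pos; omega, by have := hp.2.pos; omega⟩
    · intro p _ _
      positivity
  have h7 : 0 ≤ ∑ p ∈ Pz z, (1 : ℝ) / (p : ℝ) := sum_nonneg fun p _ => by positivity
  gcongr

end Pool.Agent.Helper48.BK
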