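import Pool.Agent.Helper48.BK.StD
import Pool.Agent.Helper2.MeanValueFamily

/-! # Module Vau: minor arcs for the von Mangoldt function (Vaughan's identity) -/

set_option autoImplicit false

namespace Pool.Agent.Helper48.BK

open Finset ArithmeticFunction
open Pool.Agent.Helper2 (lo hi mob zet vaughan sum_conv lo_apply hi_apply abs_mob_le zet_apply
  lo_mul_lo_eq_zero abs_lo_mul_lo_le hi_mob_zet_eq_zero hi_mob_zet_sq_le)

/-- the truncated exponential -/
noncomputable def G_Vau (y : ℕ) (α : ℝ) (n : ℕ) : ℂ := if n ≤ y then ex (n * α) else 0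

theorem restrict_Vau (y : ℕ) (α : ℝ) (f : ℕ → ℂ) (a : ℕ) (ha : 1 ≤ a) :
    ∑ b ∈ Ioc 0 y, f b * G_Vau y α (a * b) = ∑ b ∈ Ioc 0 (y / a), f b * ex (b * (a * α)) := by
  have hs : (Ioc 0 y).filter (fun b => a * b ≤ y) = Ioc 0 (y / a) := by
    ext b
    simp only [mem_filter, mem_Ioc]
    constructor
    · rintro ⟨⟨h1, _⟩, h3⟩
      exact ⟨h1, (Nat.le_div_iff_mul_le ha).2 (by rwa [mul_comm])⟩
    · rintro ⟨h1, h2⟩
      have h3 := (Nat.le_div_iff_mul_le ha).1 h2
      exact ⟨⟨h1, h2.trans (Nat.div_le_self _ _)⟩, by rwa [mul_comm]⟩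
  rw [← hs, sum_filter]
  refine Finset.sum_congr rfl fun b _ => ?_
  unfold G_Vau
  split_ifs with h
  · congr 2
    push_cast; ring
  · rw [mul_zero]

theorem sumlog_Vau (hg : StGeo1) (N : ℕ) (t : ℝ) :
    ‖∑ b ∈ Ioc 0 N, ((Real.log b : ℝ) : ℂ) * ex (b * t)‖ ≤ Real.log N * gs N t := by
  obtain ⟨g1, g2, g3, _⟩ := hg
  rcases Nat.eq_zero_or_pos N with rfl | hN
  · simp
  set δ : ℕ → ℝ := fun k => Real.log ((k + 1 : ℕ) : ℝ) - Real.log (k : ℝ) with hδ
  have e1 : ∑ b ∈ Ioc 0 N, ((Real.log b : ℝ) : ℂ) * ex (b * t) =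
      ∑ k ∈ Ico 1 N, (δ k : ℂ) * ∑ b ∈ Ioc k N, ex (b * t) := by
    have h1 : ∀ b ∈ Ioc 0 N, ((Real.log b : ℝ) : ℂ) * ex (b * t) =
        ∑ k ∈ Ico 1 b, (δ k : ℂ) * ex (b * t) := by
      intro b hb
      rw [← Finset.sum_mul]
      congr 1
      have h2 : ∑ k ∈ Ico 1 b, δ k = Real.log b := by
        have := Finset.sum_Ico_sub (fun k : ℕ => Real.log (k : ℝ)) (m := 1) (n := b)
          (mem_Ioc.1 hb).1
        simp only [Nat.cast_one, Real.log_one, sub_zero] at this
        rw [← this]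
      rw [← h2]
      push_cast
      rfl
    rw [Finset.sum_congr rfl h1]
    simp_rw [Finset.mul_sum]
    apply Finset.sum_comm'
    intro b k
    simp only [mem_Ioc, mem_Ico]
    omega
  rw [e1]
  have hδ0 : ∀ k ∈ Ico 1 N, 0 ≤ δ k := by
    intro k hk
    have hk1 := (mem_Ico.1 hk).1
    simp only [hδ]
    rw [sub_nonneg]
    exact Real.log_le_log (by exact_mod_cast hk1) (by push_cast; linarith)
  calc ‖∑ k ∈ Ico 1 N, (δ k : ℂ) * ∑ b ∈ Ioc k N, ex (b * t)‖
      ≤ ∑ k ∈ Ico 1 N, ‖(δ k : ℂ) * ∑ b ∈ Ioc k N, ex (b * t)‖ := norm_sum_le _ _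
    _ ≤ ∑ k ∈ Ico 1 N, δ k * gs N t := by
        refine Finset.sum_le_sum fun k hk => ?_
        rw [norm_mul, Complex.norm_real, Real.norm_of_nonneg (hδ0 k hk)]
        refine mul_le_mul_of_nonneg_left ?_ (hδ0 k hk)
        have hkN := (mem_Ico.1 hk).2
        have h3 := g1 k (N - k) t
        rw [Nat.add_sub_cancel' hkN.le] at h3
        refine h3.trans (g2 _ _ t (Nat.cast_nonneg _) ?_)
        exact_mod_cast Nat.sub_le _ _
    _ = Real.log N * gs N t := by
        rw [← Finset.sum_mul]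
        congr 1
        have := Finset.sum_Ico_sub (fun k : ℕ => Real.log (k : ℝ)) (m := 1) (n := N) hN
        simp only [Nat.cast_one, Real.log_one, sub_zero] at this
        rw [← this]

theorem dyadic_Vau (W : ℕ → ℂ) (U K : ℕ) :
    ∑ u ∈ Ioc U (U * 2 ^ K), W u = ∑ i ∈ range K, ∑ u ∈ Ioc (U * 2 ^ i) (2 * (U * 2 ^ i)), W u := by
  induction K with
  | zero => simp
  | succ K ih =>
    rw [Finset.sum_range_succ, ← ih]
    have h1 : U * 2 ^ (K + 1) = 2 * (U * 2 ^ K) := by ring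
    rw [h1]
    rw [Finset.sum_Ioc_consecutive]
    · exact Nat.le_mul_of_pos_right _ (by positivity)
    · omega

theorem log3_Vau {x : ℕ} (hx : 3 ≤ x) : 1 ≤ Real.log x := by
  have h1 : (3 : ℝ) ≤ x := by exact_mod_cast hx
  rw [Real.le_log_iff_exp_le (by linarith)]
  have := Real.exp_one_lt_d9
  linarith

theorem K_Vau {x : ℕ} (hx : 3 ≤ x) : ((Nat.log 2 x + 1 : ℕ) : ℝ) ≤ 3 * Real.log x := by
  have hL := log3_Vau hx
  have h1 : 2 ^ Nat.log 2 x ≤ x := Nat.pow_log_le_self 2 (by omega)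
  have h2 : ((2 : ℝ)) ^ Nat.log 2 x ≤ x := by exact_mod_cast h1
  have h3 := Real.log_le_log (by positivity) h2
  rw [Real.log_pow] at h3
  have h4 := Real.log_two_gt_d9
  have h5 : (0 : ℝ) ≤ Nat.log 2 x := Nat.cast_nonneg _
  push_cast
  nlinarith

/-- a dyadic block of the bilinear part -/
theorem block_Vau (C : ℝ) (hC : 0 < C) (hII : ∀ (x y P V q : ℕ) (h : ℤ) (α : ℝ) (a b : ℕ → ℝ),
    3 ≤ x → y ≤ x → 1 ≤ P → P ≤ x → q ≤ x → Apx α h q →
    ‖∑ u ∈ Ioc P (2 * P), ∑ v ∈ Ioc V (y / u), ((a u * b v : ℝ) : ℂ) * ex (u * v * α)‖ ^ 2 ≤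
      C * (∑ u ∈ Ioc P (2 * P), a u ^ 2) * (∑ v ∈ Ioc 0 (x / P), b v ^ 2) *
        ((P : ℝ) + (x : ℝ) / q + (x : ℝ) / P + q) * Real.log x)
    (x y U q : ℕ) (h : ℤ) (α : ℝ) (hx : 3 ≤ x) (hy : y ≤ x) (hU : 1 ≤ U) (hq : q ≤ x)
    (hα : Apx α h q) (P : ℕ) (hP : U ≤ P) :
    ‖∑ u ∈ Ioc P (2 * P), ∑ v ∈ Ioc 0 (y / u),
      ((hi vonMangoldt U u * (hi mob U * zet) v : ℝ) : ℂ) * ex (u * v * α)‖ ≤
      8 * √C * ((x : ℝ) / √q + x / √U + √((x : ℝ) * q)) * Real.log x ^ 3 := by
  have hL := log3_Vau hx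
  have hq1 : 1 ≤ q := hα.1
  have hqr : (1 : ℝ) ≤ q := by exact_mod_cast hq1
  have hUr : (1 : ℝ) ≤ U := by exact_mod_cast hU
  have hxr : (3 : ℝ) ≤ x := by exact_mod_cast hx
  have hP1 : 1 ≤ P := hU.trans hP
  have hPr : (1 : ℝ) ≤ P := by exact_mod_cast hP1
  set E : ℝ := (x : ℝ) / √q + x / √U + √((x : ℝ) * q) with hE
  have hE0 : 0 ≤ E := by positivity
  by_cases hUP : U * P ≤ x
  · have hPx : P ≤ x := (Nat.le_mul_of_pos_left P hU).trans hUP
    have h1 := hII x y P 0 q h α (fun u => hi vonMangoldt U u) (fun v => (hi mob U * zet) v)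
      hx hy hP1 hPx hq hα
    have h2 : ∑ u ∈ Ioc P (2 * P), (hi vonMangoldt U u) ^ 2 ≤ P * (4 * Real.log x ^ 2) := by
      calc ∑ u ∈ Ioc P (2 * P), (hi vonMangoldt U u) ^ 2
          ≤ ∑ u ∈ Ioc P (2 * P), 4 * Real.log x ^ 2 := by
            refine Finset.sum_le_sum fun u hu => ?_
            have hu1 := (mem_Ioc.1 hu).1
            have hu2 := (mem_Ioc.1 hu).2
            rw [hi_apply]
            split_ifs
            · simp only [ne_eq, OfNat.ofNat_ne_zero, not_false_eq_true, zero_pow]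
              positivity
            · have h3 : vonMangoldt u ≤ 2 * Real.log x := by
                refine vonMangoldt_le_log.trans ?_
                have h4 : (u : ℝ) ≤ x * x := by
                  have : u ≤ x * x := by nlinarith
                  exact_mod_cast this
                calc Real.log u ≤ Real.log (x * x) :=
                      Real.log_le_log (by exact_mod_cast (by omega : 0 < u)) h4
                  _ = 2 * Real.log x := by
                      rw [Real.log_mul (by positivity) (by positivity)]; ring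
              have h5 : (0 : ℝ) ≤ vonMangoldt u := vonMangoldt_nonneg
              nlinarith
        _ = P * (4 * Real.log x ^ 2) := by
            rw [Finset.sum_const, nsmul_eq_mul, Nat.card_Ioc]
            congr 2
            omega
    have h3 : ∑ v ∈ Ioc 0 (x / P), ((hi mob U * zet) v) ^ 2 ≤ 8 * Real.log x ^ 3 * (x / P) := by
      have h4 := hi_mob_zet_sq_le U (x / P) x (Nat.div_le_self _ _)
      simp only [Complex.norm_real, Real.norm_eq_abs, sq_abs] at h4
      refine h4.trans ?_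
      have h5 : ((x / P : ℕ) : ℝ) ≤ (x : ℝ) / P := Nat.cast_div_le
      have h6 : (1 + Real.log x) ^ 3 ≤ 8 * Real.log x ^ 3 := by
        have : (1 + Real.log x) ^ 3 ≤ (2 * Real.log x) ^ 3 :=
          pow_le_pow_left₀ (by linarith) (by linarith) 3
        linarith [this, mul_pow 2 (Real.log x) 3]
      exact mul_le_mul h6 h5 (Nat.cast_nonneg _) (by positivity)
    have hPU : (P : ℝ) ≤ x / U := by
      rw [le_div_iff₀ (by linarith)]
      have : ((U * P : ℕ) : ℝ) ≤ x := by exact_mod_cast hUP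
      push_cast at this
      linarith
    have hxP : (x : ℝ) / P ≤ x / U :=
      div_le_div_of_nonneg_left (by linarith) (by linarith) (by exact_mod_cast hP)
    have h4 : ‖∑ u ∈ Ioc P (2 * P), ∑ v ∈ Ioc 0 (y / u),
      ((hi vonMangoldt U u * (hi mob U * zet) v : ℝ) : ℂ) * ex (u * v * α)‖ ^ 2 ≤
        C * (P * (4 * Real.log x ^ 2)) * (8 * Real.log x ^ 3 * (x / P)) *
          (2 * (x / U) + x / q + q) * Real.log x := by
      refine h1.trans ?_
      have hs0 : 0 ≤ ∑ v ∈ Ioc 0 (x / P), ((hi mob U * zet) v) ^ 2 :=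
        Finset.sum_nonneg fun _ _ => sq_nonneg _
      have hs1 : 0 ≤ ∑ u ∈ Ioc P (2 * P), (hi vonMangoldt U u) ^ 2 :=
        Finset.sum_nonneg fun _ _ => sq_nonneg _
      have h9 : (P : ℝ) + (x : ℝ) / q + (x : ℝ) / P + q ≤ 2 * (x / U) + x / q + q := by linarith
      refine mul_le_mul_of_nonneg_right ?_ (by linarith)
      refine mul_le_mul ?_ h9 (by positivity) (by positivity)
      gcongr
    have h5 : C * (P * (4 * Real.log x ^ 2)) * (8 * Real.log x ^ 3 * (x / P)) *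
          (2 * (x / U) + x / q + q) * Real.log x =
        32 * C * (x * (2 * (x / U) + x / q + q)) * Real.log x ^ 6 := by
      field_simp
      ring
    have h6 : (x : ℝ) * (2 * (x / U) + x / q + q) ≤ 2 * E ^ 2 := by
      have hsq : (√(q : ℝ)) ^ 2 = q := Real.sq_sqrt (by linarith)
      have hsU : (√(U : ℝ)) ^ 2 = U := Real.sq_sqrt (by linarith)
      have hsx : (√((x : ℝ) * q)) ^ 2 = x * q := Real.sq_sqrt (by positivity)
      have e1 : ((x : ℝ) / √q) ^ 2 = x ^ 2 / q := by rw [div_pow, hsq]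
      have e2 : ((x : ℝ) / √U) ^ 2 = x ^ 2 / U := by rw [div_pow, hsU]
      have p1 : 0 ≤ (x : ℝ) / √q := by positivity
      have p2 : 0 ≤ (x : ℝ) / √U := by positivity
      have p3 : 0 ≤ √((x : ℝ) * q) := Real.sqrt_nonneg _
      have h7 : (x : ℝ) ^ 2 / q + x ^ 2 / U + x * q ≤ E ^ 2 := by
        rw [← e1, ← e2, ← hsx, hE]
        nlinarith [mul_nonneg p1 p2, mul_nonneg p1 p3, mul_nonneg p2 p3]
      have h8 : (x : ℝ) * (2 * (x / U) + x / q + q) = 2 * (x ^ 2 / U) + x ^ 2 / q + x * q := by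
        field_simp
      rw [h8]
      have p4 : 0 ≤ (x : ℝ) ^ 2 / q := by positivity
      have p5 : 0 ≤ (x : ℝ) * q := by positivity
      linarith
    have h7 : ‖∑ u ∈ Ioc P (2 * P), ∑ v ∈ Ioc 0 (y / u),
      ((hi vonMangoldt U u * (hi mob U * zet) v : ℝ) : ℂ) * ex (u * v * α)‖ ^ 2 ≤
        (8 * √C * E * Real.log x ^ 3) ^ 2 := by
      refine h4.trans ?_
      rw [h5]
      have hsC : (√C) ^ 2 = C := Real.sq_sqrt hC.le
      calc 32 * C * (x * (2 * (x / U) + x / q + q)) * Real.log x ^ 6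
          ≤ 32 * C * (2 * E ^ 2) * Real.log x ^ 6 := by gcongr
        _ = (8 * √C * E * Real.log x ^ 3) ^ 2 := by
            rw [mul_pow, mul_pow, mul_pow, hsC]; ring
    exact (sq_le_sq₀ (norm_nonneg _) (by positivity)).1 h7
  · have h0 : ∑ u ∈ Ioc P (2 * P), ∑ v ∈ Ioc 0 (y / u),
      ((hi vonMangoldt U u * (hi mob U * zet) v : ℝ) : ℂ) * ex (u * v * α) = 0 := by
      refine Finset.sum_eq_zero fun u hu => Finset.sum_eq_zero fun v hv => ?_
      have hu1 := (mem_Ioc.1 hu).1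
      have hv2 := (mem_Ioc.1 hv).2
      have hvU : v ≤ U := by
        have h8 : v * u ≤ y := (Nat.le_div_iff_mul_le (by omega)).1 hv2
        by_contra hc
        push Not at hc hUP
        have : U * P ≤ v * u := Nat.mul_le_mul hc.le hu1.le
        omega
      rw [hi_mob_zet_eq_zero U v hvU]
      simp
    rw [h0, norm_zero]
    positivity

theorem hVau (ha : StTI) (hb : StTII) (hc : StGeo1) (_ : StDiv) : StVau := by
  obtain ⟨C1, hC1, hTI⟩ := ha
  obtain ⟨C2, hC2, hII⟩ := hb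
  refine ⟨1 + 2 * C1 + 24 * √C2, by positivity, ?_⟩
  intro x y U q h α hx hy hU hU2 hq hα
  have hL := log3_Vau hx
  have hq1 : 1 ≤ q := hα.1
  have hqr : (1 : ℝ) ≤ q := by exact_mod_cast hq1
  have hUr : (1 : ℝ) ≤ U := by exact_mod_cast hU
  have hxr : (3 : ℝ) ≤ x := by exact_mod_cast hx
  obtain ⟨g1, g2, g3, _⟩ := id hc
  set G := G_Vau y α with hG
  have hG0 : ∀ n, y < n → G n = 0 := by
    intro n hn
    rw [hG]; unfold G_Vau
    rw [if_neg (by omega)]
  have hexn : ∀ t : ℝ, ‖ex t‖ = 1 := by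
    intro t
    unfold ex
    rw [Complex.norm_exp]
    simp
  have hG1 : ∀ n, ‖G n‖ ≤ 1 := by
    intro n
    rw [hG]; unfold G_Vau
    split_ifs
    · rw [hexn]
    · simp
  have hS : Sx (fun n => Λ n) y α = ∑ n ∈ Ioc 0 y, ((lo vonMangoldt U n : ℝ) : ℂ) * G n +
      ∑ n ∈ Ioc 0 y, (((lo mob U * log) n : ℝ) : ℂ) * G n -
      ∑ n ∈ Ioc 0 y, ((((lo vonMangoldt U * lo mob U) * zet) n : ℝ) : ℂ) * G n +
      ∑ n ∈ Ioc 0 y, (((hi vonMangoldt U * (hi mob U * zet)) n : ℝ) : ℂ) * G n := by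
    rw [← Finset.sum_add_distrib, ← Finset.sum_sub_distrib, ← Finset.sum_add_distrib]
    unfold Sx
    refine Finset.sum_congr rfl fun n hn => ?_
    have h := congrArg (fun f : ArithmeticFunction ℝ => f n) (vaughan U)
    simp only [sub_eq_add_neg, ArithmeticFunction.add_apply, ArithmeticFunction.neg_apply] at h
    have hGn : G n = ex (n * α) := by
      rw [hG]; unfold G_Vau
      rw [if_pos (mem_Ioc.1 hn).2]
    rw [← hGn]
    show ((vonMangoldt n : ℝ) : ℂ) * G n = _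
    rw [h]
    push_cast
    ring
  set F : ℝ := (x : ℝ) / √q + x / √U + √((x : ℝ) * q) + (U : ℝ) ^ 2 with hF
  have hsq1 : (1 : ℝ) ≤ √q := by
    rw [Real.one_le_sqrt]; exact hqr
  have hxq : (x : ℝ) / q ≤ x / √q := by
    apply div_le_div_of_nonneg_left (by linarith) (by linarith)
    have := Real.sq_sqrt (show (0 : ℝ) ≤ q by linarith)
    nlinarith
  have hqx : (q : ℝ) ≤ √((x : ℝ) * q) := by
    apply Real.le_sqrt_of_sq_le
    have : (q : ℝ) ≤ x := by exact_mod_cast hq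
    nlinarith
  have hxU : 0 ≤ (x : ℝ) / √U := by positivity
  have hFU : (x : ℝ) / q + (U : ℝ) ^ 2 + q ≤ F := by rw [hF]; linarith
  have hUF : (U : ℝ) ^ 2 ≤ F := by
    have : 0 ≤ (x : ℝ) / q := by positivity
    linarith
  have hF0 : 0 ≤ F := by positivity
  have hUU : (U : ℝ) ≤ (U : ℝ) ^ 2 := by nlinarith
  have hL3 : Real.log x ^ 3 ≤ Real.log x ^ 6 := pow_le_pow_right₀ hL (by norm_num)
  have hL4 : Real.log x ^ 4 ≤ Real.log x ^ 6 := pow_le_pow_right₀ hL (by norm_num)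
  have hL1 : Real.log x ≤ Real.log x ^ 6 := by
    calc Real.log x = Real.log x ^ 1 := (pow_one _).symm
      _ ≤ Real.log x ^ 6 := pow_le_pow_right₀ hL (by norm_num)
  have hlog : ∀ n : ℕ, 0 < n → n ≤ x → Real.log n ≤ Real.log x := by
    intro n h1 h2
    exact Real.log_le_log (by exact_mod_cast h1) (by exact_mod_cast h2)
  have hlog0 : ∀ n : ℕ, 0 ≤ Real.log n := fun n => Real.log_natCast_nonneg n
  have hgs : ∀ a : ℕ, 0 < a → gs ((y / a : ℕ) : ℝ) (a * α) ≤ gs ((x : ℝ) / a) (a * α) := by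
    intro a ha
    refine g2 _ _ _ (Nat.cast_nonneg _) ?_
    refine (Nat.cast_div_le).trans ?_
    have : (y : ℝ) ≤ x := by exact_mod_cast hy
    gcongr
  have hgs0 : ∀ a : ℕ, 0 ≤ gs ((x : ℝ) / a) (a * α) := by
    intro a
    exact g3 _ _ (by positivity)
  -- first term
  have t1 : ‖∑ n ∈ Ioc 0 y, ((lo vonMangoldt U n : ℝ) : ℂ) * G n‖ ≤ F * Real.log x ^ 6 := by
    calc ‖∑ n ∈ Ioc 0 y, ((lo vonMangoldt U n : ℝ) : ℂ) * G n‖
        ≤ ∑ n ∈ Ioc 0 y, ‖((lo vonMangoldt U n : ℝ) : ℂ) * G n‖ := norm_sum_le _ _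
      _ ≤ ∑ n ∈ Ioc 0 y, (if n ≤ U then Real.log x else 0) := by
          refine Finset.sum_le_sum fun n hn => ?_
          rw [norm_mul, Complex.norm_real, lo_apply]
          split_ifs with h
          · rw [Real.norm_of_nonneg vonMangoldt_nonneg]
            calc vonMangoldt n * ‖G n‖ ≤ Real.log x * 1 := by
                  refine mul_le_mul ?_ (hG1 n) (norm_nonneg _) (by linarith)
                  exact vonMangoldt_le_log.trans (hlog n (mem_Ioc.1 hn).1
                    ((mem_Ioc.1 hn).2.trans hy))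
              _ = Real.log x := mul_one _
          · simp
      _ = #((Ioc 0 y).filter (· ≤ U)) * Real.log x := by
          rw [← Finset.sum_filter, Finset.sum_const, nsmul_eq_mul]
      _ ≤ (U : ℝ) * Real.log x := by
          refine mul_le_mul_of_nonneg_right ?_ (by linarith)
          exact_mod_cast Pool.Agent.Helper2.card_Ioc_filter_le y U
      _ ≤ F * Real.log x ^ 6 := mul_le_mul (hUU.trans hUF) hL1 (by linarith) hF0
  -- the sum of the type one bounds
  have hT : ∀ J : ℕ, 1 ≤ J → J ≤ U * U →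
      ∑ a ∈ Ioc 0 y, (if a ≤ J then Real.log x * gs ((x : ℝ) / a) (a * α) else 0) ≤
        C1 * F * Real.log x ^ 6 := by
    intro J hJ1 hJU
    have hJx : J ≤ x := hJU.trans (by rw [← sq]; exact hU2)
    have h1 := hTI x J q h α hx hq hα hJ1 hJx
    have hJr : (J : ℝ) ≤ (U : ℝ) ^ 2 := by
      have : (J : ℝ) ≤ ((U * U : ℕ) : ℝ) := by exact_mod_cast hJU
      push_cast at this
      nlinarith
    calc ∑ a ∈ Ioc 0 y, (if a ≤ J then Real.log x * gs ((x : ℝ) / a) (a * α) else 0)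
        = ∑ a ∈ (Ioc 0 y).filter (· ≤ J), Real.log x * gs ((x : ℝ) / a) (a * α) := by
          rw [← Finset.sum_filter]
      _ ≤ ∑ a ∈ Icc 1 J, Real.log x * gs ((x : ℝ) / a) (a * α) := by
          apply Finset.sum_le_sum_of_subset_of_nonneg
          · intro a ha
            rw [mem_filter, mem_Ioc] at ha
            exact mem_Icc.2 ⟨ha.1.1, ha.2⟩
          · intro a _ _
            exact mul_nonneg (by linarith) (hgs0 a)
      _ = Real.log x * ∑ a ∈ Icc 1 J, gs ((x : ℝ) / a) (a * α) := by rw [Finset.mul_sum]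
      _ ≤ Real.log x * (C1 * ((x : ℝ) / q + J + q) * Real.log x ^ 2) :=
          mul_le_mul_of_nonneg_left h1 (by linarith)
      _ ≤ Real.log x * (C1 * F * Real.log x ^ 2) := by
          have : (x : ℝ) / q + J + q ≤ F := by linarith
          gcongr
      _ = C1 * F * Real.log x ^ 3 := by ring
      _ ≤ C1 * F * Real.log x ^ 6 := mul_le_mul_of_nonneg_left hL3 (by positivity)
  -- second term
  have t2 : ‖∑ n ∈ Ioc 0 y, (((lo mob U * log) n : ℝ) : ℂ) * G n‖ ≤
      C1 * F * Real.log x ^ 6 := by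
    rw [sum_conv _ _ y G hG0]
    refine (norm_sum_le _ _).trans (le_trans ?_ (hT U hU (Nat.le_mul_of_pos_left U hU)))
    refine Finset.sum_le_sum fun a ha => ?_
    have ha1 := (mem_Ioc.1 ha).1
    have e : ∑ b ∈ Ioc 0 y, ((lo mob U a : ℝ) : ℂ) * ((log b : ℝ) : ℂ) * G (a * b) =
        ((lo mob U a : ℝ) : ℂ) * ∑ b ∈ Ioc 0 (y / a), ((Real.log b : ℝ) : ℂ) *
          ex (b * (a * α)) := by
      rw [← restrict_Vau y α (fun b => ((Real.log b : ℝ) : ℂ)) a ha1, Finset.mul_sum]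
      refine Finset.sum_congr rfl fun b _ => ?_
      rw [log_apply, hG]
      ring
    rw [e, norm_mul, Complex.norm_real, lo_apply]
    split_ifs with h
    · have h1 : ‖mob a‖ ≤ 1 := by rw [Real.norm_eq_abs]; exact abs_mob_le a
      have h2 := sumlog_Vau hc (y / a) (a * α)
      have h3 : Real.log ((y / a : ℕ) : ℝ) ≤ Real.log x := by
        rcases Nat.eq_zero_or_pos (y / a) with h0 | h0
        · rw [h0]; simp; linarith
        · exact hlog _ h0 ((Nat.div_le_self _ _).trans hy)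
      calc ‖mob a‖ * ‖∑ b ∈ Ioc 0 (y / a), ((Real.log b : ℝ) : ℂ) * ex (b * (a * α))‖
          ≤ 1 * (Real.log x * gs ((x : ℝ) / a) (a * α)) := by
            refine mul_le_mul h1 (h2.trans ?_) (norm_nonneg _) zero_le_one
            exact mul_le_mul h3 (hgs a ha1) (g3 _ _ (Nat.cast_nonneg _)) (by linarith)
        _ = _ := one_mul _
    · simp
  -- third term
  have t3 : ‖∑ n ∈ Ioc 0 y, ((((lo vonMangoldt U * lo mob U) * zet) n : ℝ) : ℂ) * G n‖ ≤
      C1 * F * Real.log x ^ 6 := by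
    rw [sum_conv _ _ y G hG0]
    refine (norm_sum_le _ _).trans (le_trans ?_ (hT (U * U) (Nat.mul_pos hU hU) le_rfl))
    refine Finset.sum_le_sum fun a ha => ?_
    have ha1 := (mem_Ioc.1 ha).1
    have e : ∑ b ∈ Ioc 0 y,
        (((lo vonMangoldt U * lo mob U) a : ℝ) : ℂ) * ((zet b : ℝ) : ℂ) * G (a * b) =
        (((lo vonMangoldt U * lo mob U) a : ℝ) : ℂ) * ∑ b ∈ Ioc 0 (y / a),
          ex (b * (a * α)) := by
      have e2 : ∑ b ∈ Ioc 0 (y / a), ex (b * (a * α)) =
          ∑ b ∈ Ioc 0 (y / a), (fun _ : ℕ => (1 : ℂ)) b * ex (b * (a * α)) :=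
        Finset.sum_congr rfl fun b _ => (one_mul _).symm
      rw [e2, ← restrict_Vau y α (fun _ => 1) a ha1, Finset.mul_sum]
      refine Finset.sum_congr rfl fun b hb => ?_
      rw [zet_apply (mem_Ioc.1 hb).1, hG]
      push_cast
      ring
    rw [e, norm_mul, Complex.norm_real]
    split_ifs with h
    · have h1 : ‖(lo vonMangoldt U * lo mob U) a‖ ≤ Real.log x := by
        rw [Real.norm_eq_abs]
        exact (abs_lo_mul_lo_le U a).trans (hlog a ha1 ((mem_Ioc.1 ha).2.trans hy))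
      have h2 := g1 0 (y / a) (a * α)
      rw [Nat.zero_add] at h2
      refine mul_le_mul h1 (h2.trans (hgs a ha1)) (norm_nonneg _) (by linarith)
    · rw [lo_mul_lo_eq_zero _ _ U a (by omega)]
      simp
  -- fourth term
  have t4 : ‖∑ n ∈ Ioc 0 y, (((hi vonMangoldt U * (hi mob U * zet)) n : ℝ) : ℂ) * G n‖ ≤
      24 * √C2 * F * Real.log x ^ 6 := by
    rw [sum_conv _ _ y G hG0]
    set W : ℕ → ℂ := fun u => ∑ v ∈ Ioc 0 (y / u),
      ((hi vonMangoldt U u * (hi mob U * zet) v : ℝ) : ℂ) * ex (u * v * α) with hW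
    set K := Nat.log 2 x + 1 with hK
    have hxK : x < 2 ^ K := Nat.lt_pow_succ_log_self (by norm_num) x
    have hyK : y ≤ U * 2 ^ K := by
      have : 2 ^ K ≤ U * 2 ^ K := Nat.le_mul_of_pos_left _ hU
      omega
    have e1 : ∑ a ∈ Ioc 0 y, ∑ b ∈ Ioc 0 y, ((hi vonMangoldt U a : ℝ) : ℂ) *
        (((hi mob U * zet) b : ℝ) : ℂ) * G (a * b) = ∑ u ∈ Ioc 0 y, W u := by
      refine Finset.sum_congr rfl fun a ha => ?_
      have ha1 := (mem_Ioc.1 ha).1
      have h5 := restrict_Vau y α (fun b => ((hi vonMangoldt U a : ℝ) : ℂ) *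
        (((hi mob U * zet) b : ℝ) : ℂ)) a ha1
      rw [← hG] at h5
      rw [h5]
      simp only [hW]
      refine Finset.sum_congr rfl fun b _ => ?_
      have e3 : (b : ℝ) * (a * α) = a * b * α := by ring
      rw [e3]
      push_cast
      ring
    have e2 : ∑ u ∈ Ioc 0 y, W u = ∑ u ∈ Ioc 0 (U * 2 ^ K), W u := by
      apply Finset.sum_subset
      · exact Finset.Ioc_subset_Ioc_right hyK
      · intro u _ hu
        simp only [hW]
        have : y / u = 0 := by
          apply Nat.div_eq_of_lt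
          simp only [mem_Ioc, not_and, not_le] at hu
          by_contra hc
          rename_i hmem
          have := hu (mem_Ioc.1 hmem).1
          omega
        rw [this]
        simp
    have e3 : ∑ u ∈ Ioc U (U * 2 ^ K), W u = ∑ u ∈ Ioc 0 (U * 2 ^ K), W u := by
      apply Finset.sum_subset
      · exact Finset.Ioc_subset_Ioc_left (Nat.zero_le _)
      · intro u hmem hu
        simp only [hW]
        have : u ≤ U := by
          simp only [mem_Ioc, not_and, not_le] at hu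
          by_contra hc
          push Not at hc
          have h9 := hu hc
          have := (mem_Ioc.1 hmem).2
          omega
        refine Finset.sum_eq_zero fun v _ => ?_
        rw [hi_apply, if_pos this]
        simp
    rw [e1, e2, ← e3, dyadic_Vau W U K]
    calc ‖∑ i ∈ range K, ∑ u ∈ Ioc (U * 2 ^ i) (2 * (U * 2 ^ i)), W u‖
        ≤ ∑ i ∈ range K, ‖∑ u ∈ Ioc (U * 2 ^ i) (2 * (U * 2 ^ i)), W u‖ := norm_sum_le _ _
      _ ≤ ∑ i ∈ range K, 8 * √C2 * ((x : ℝ) / √q + x / √U + √((x : ℝ) * q)) *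
            Real.log x ^ 3 := by
          refine Finset.sum_le_sum fun i _ => ?_
          simp only [hW]
          exact block_Vau C2 hC2 hII x y U q h α hx hy hU hq hα (U * 2 ^ i)
            (Nat.le_mul_of_pos_right _ (by positivity))
      _ = K * (8 * √C2 * ((x : ℝ) / √q + x / √U + √((x : ℝ) * q)) * Real.log x ^ 3) := by
          rw [Finset.sum_const, nsmul_eq_mul, card_range]
      _ ≤ (3 * Real.log x) * (8 * √C2 * F * Real.log x ^ 3) := by
          have hk := K_Vau hx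
          have h6 : (x : ℝ) / √q + x / √U + √((x : ℝ) * q) ≤ F := by
            rw [hF]; nlinarith
          gcongr
      _ = 24 * √C2 * F * Real.log x ^ 4 := by ring
      _ ≤ 24 * √C2 * F * Real.log x ^ 6 := mul_le_mul_of_nonneg_left hL4 (by positivity)
  rw [hS]
  refine (norm_add_le _ _).trans ?_
  have h5 := norm_sub_le (∑ n ∈ Ioc 0 y, ((lo vonMangoldt U n : ℝ) : ℂ) * G n +
      ∑ n ∈ Ioc 0 y, (((lo mob U * log) n : ℝ) : ℂ) * G n)
      (∑ n ∈ Ioc 0 y, ((((lo vonMangoldt U * lo mob U) * zet) n : ℝ) : ℂ) * G n)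
  have h6 := norm_add_le (∑ n ∈ Ioc 0 y, ((lo vonMangoldt U n : ℝ) : ℂ) * G n)
      (∑ n ∈ Ioc 0 y, (((lo mob U * log) n : ℝ) : ℂ) * G n)
  have h7 : (1 + 2 * C1 + 24 * √C2) * F * Real.log x ^ 6 =
      F * Real.log x ^ 6 + 2 * (C1 * F * Real.log x ^ 6) + 24 * √C2 * F * Real.log x ^ 6 := by
    ring
  rw [h7]
  linarith

end Pool.Agent.Helper48.BK
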