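import Pool.Agent.Helper48.BK.StB
import Pool.Agent.Helper96.TR.VL

/-!
# Project BK, module Vz
-/

set_option autoImplicit false

namespace Pool.Agent.Helper48.BK

open Finset

theorem hVz : StVz := by
  obtain ⟨c, hc, h⟩ := Pool.Agent.Helper18.TR.pf_Vlow
  refine ⟨c, hc, fun z hz => ?_⟩
  have h1 := h 1 z hz
  have e : Pool.Agent.Helper18.TR.V 1 z = Vz z := by
    rw [Pool.Agent.Helper18.TR.V, Vz]
    apply Finset.prod_congr _ (fun _ _ => rfl)
    ext p
    simp only [Pool.Agent.Helper18.TR.PW, Pz, mem_filter, mem_Icc, mem_range]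
    constructor
    · rintro ⟨⟨_, h2⟩, h3, _⟩
      exact ⟨by omega, h3⟩
    · rintro ⟨h1, h2⟩
      refine ⟨⟨h2.one_lt.le, by omega⟩, h2, ?_⟩
      intro h3
      exact h2.one_lt.ne' (Nat.dvd_one.mp h3)
  rwa [e] at h1

end Pool.Agent.Helper48.BK
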