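import Pool.Agent.Helper48.BK.StW
import Pool.Agent.Helper90.MT.A3i

/-!
# Project BK, module Zall: bounds for `∑ (Λ(n) - 1) (log n)^k n^{-s}`
-/

set_option autoImplicit false

namespace Pool.Agent.Helper48.BK

open Finset ArithmeticFunction Complex
open Pool.Agent.Helper90.MT (Lk Dk Rg)

theorem zetaD_Zall (ha : StZup) (hb : StZlow) : ∀ k : ℕ, ∃ C : ℝ, 0 < C ∧ ∃ m : ℕ, ∀ σ t : ℝ,
    1 < σ → σ ≤ 2 → 1 ≤ |t| →
    ‖LSeries (Dk (1 : DirichletCharacter ℂ 1) k) (σ + t * I)‖ ≤ C * Real.log (|t| + 3) ^ m := by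
  obtain ⟨c, hc, m0, h2⟩ := hb
  choose CA hCA hA using ha
  intro k
  induction k using Nat.strong_induction_on with
  | _ k ih =>
  have ih' : ∀ i : ℕ, ∃ C : ℝ, 0 < C ∧ ∃ m : ℕ, i < k → ∀ (σ t : ℝ), 1 < σ → σ ≤ 2 → 1 ≤ |t| →
      ‖LSeries (Dk (1 : DirichletCharacter ℂ 1) i) (σ + t * I)‖ ≤
        C * Real.log (|t| + 3) ^ m := by
    intro i
    by_cases h : i < k
    · obtain ⟨C, hC, m, hm⟩ := ih i h
      exact ⟨C, hC, m, fun _ => hm⟩
    · exact ⟨1, one_pos, 0, fun h' => absurd h' h⟩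
  choose CD hCD mD hD using ih'
  set M : ℕ := (k + 2) + ∑ i ∈ range k, (mD i + (k - i + 1)) with hM
  set S : ℝ := CA (k + 1) + ∑ i ∈ range k, (k.choose i : ℝ) * CD i * CA (k - i) with hS
  have hS0 : 0 < S := by
    have : 0 ≤ ∑ i ∈ range k, (k.choose i : ℝ) * CD i * CA (k - i) :=
      sum_nonneg fun i _ => mul_nonneg (mul_nonneg (Nat.cast_nonneg _) (hCD i).le) (hCA _).le
    have := hCA (k + 1)
    linarith
  refine ⟨S / c, div_pos hS0 hc, M + m0, ?_⟩
  intro σ t hσ hσ2 ht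
  set Y : ℝ := Real.log (|t| + 3) with hY
  have hl3 : (1 : ℝ) ≤ Real.log 3 := by
    rw [Real.le_log_iff_exp_le (by norm_num)]
    have := Real.exp_one_lt_d9
    linarith
  have hY1 : 1 ≤ Y := by
    refine hl3.trans (Real.log_le_log (by norm_num) ?_)
    have := abs_nonneg t
    linarith
  set s : ℂ := σ + t * I with hs
  have hre : 1 < s.re := by
    rw [hs]
    simpa using hσ
  have hLj : ∀ j : ℕ, ‖LSeries (Lk (1 : DirichletCharacter ℂ 1) j) s‖ ≤ CA j * Y ^ (j + 1) :=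
    fun j => hA j σ t hσ hσ2 ht
  have hL0 : c / Y ^ m0 ≤ ‖LSeries (Lk (1 : DirichletCharacter ℂ 1) 0) s‖ := h2 σ t hσ hσ2 ht
  have hYm : 0 < Y ^ m0 := pow_pos (by linarith) _
  have hid := Pool.Agent.Helper90.MT.a3i 1 (1 : DirichletCharacter ℂ 1) k s hre
  rw [sum_range_succ, Nat.choose_self, Nat.sub_self, Nat.cast_one, one_mul] at hid
  have hDL : LSeries (Dk (1 : DirichletCharacter ℂ 1) k) s *
      LSeries (Lk (1 : DirichletCharacter ℂ 1) 0) s =
      LSeries (Lk (1 : DirichletCharacter ℂ 1) (k + 1)) s -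
      ∑ i ∈ range k, (k.choose i : ℂ) * LSeries (Dk (1 : DirichletCharacter ℂ 1) i) s *
        LSeries (Lk (1 : DirichletCharacter ℂ 1) (k - i)) s := by
    rw [hid]
    ring
  have hbound : ‖LSeries (Dk (1 : DirichletCharacter ℂ 1) k) s‖ *
      ‖LSeries (Lk (1 : DirichletCharacter ℂ 1) 0) s‖ ≤ S * Y ^ M := by
    rw [← norm_mul, hDL]
    refine (norm_sub_le _ _).trans ?_
    have e1 : ‖LSeries (Lk (1 : DirichletCharacter ℂ 1) (k + 1)) s‖ ≤ CA (k + 1) * Y ^ M := by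
      refine (hLj (k + 1)).trans (mul_le_mul_of_nonneg_left ?_ (hCA _).le)
      exact pow_le_pow_right₀ hY1 (by omega)
    have e2 : ‖∑ i ∈ range k, (k.choose i : ℂ) * LSeries (Dk (1 : DirichletCharacter ℂ 1) i) s *
        LSeries (Lk (1 : DirichletCharacter ℂ 1) (k - i)) s‖ ≤
        (∑ i ∈ range k, (k.choose i : ℝ) * CD i * CA (k - i)) * Y ^ M := by
      rw [sum_mul]
      refine (norm_sum_le _ _).trans (sum_le_sum fun i hi => ?_)
      have hik : i < k := mem_range.1 hi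
      rw [norm_mul, norm_mul, Complex.norm_natCast]
      have f1 := hD i hik σ t hσ hσ2 ht
      have f2 := hLj (k - i)
      have f3 : mD i + (k - i + 1) ≤ M := by
        have := single_le_sum (f := fun i => mD i + (k - i + 1)) (fun _ _ => Nat.zero_le _) hi
        omega
      have f4 : Y ^ mD i * Y ^ (k - i + 1) ≤ Y ^ M := by
        rw [← pow_add]
        exact pow_le_pow_right₀ hY1 f3
      have f5 : ‖LSeries (Dk (1 : DirichletCharacter ℂ 1) i) s‖ *
          ‖LSeries (Lk (1 : DirichletCharacter ℂ 1) (k - i)) s‖ ≤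
          (CD i * Y ^ mD i) * (CA (k - i) * Y ^ (k - i + 1)) :=
        mul_le_mul f1 f2 (norm_nonneg _) (mul_nonneg (hCD i).le (pow_nonneg (by linarith) _))
      have f6 : (CD i * Y ^ mD i) * (CA (k - i) * Y ^ (k - i + 1)) ≤
          CD i * CA (k - i) * Y ^ M := by
        have : (CD i * Y ^ mD i) * (CA (k - i) * Y ^ (k - i + 1)) =
            (CD i * CA (k - i)) * (Y ^ mD i * Y ^ (k - i + 1)) := by ring
        rw [this]
        exact mul_le_mul_of_nonneg_left f4 (mul_nonneg (hCD i).le (hCA _).le)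
      calc (k.choose i : ℝ) * ‖LSeries (Dk (1 : DirichletCharacter ℂ 1) i) s‖ *
            ‖LSeries (Lk (1 : DirichletCharacter ℂ 1) (k - i)) s‖
          = (k.choose i : ℝ) * (‖LSeries (Dk (1 : DirichletCharacter ℂ 1) i) s‖ *
            ‖LSeries (Lk (1 : DirichletCharacter ℂ 1) (k - i)) s‖) := by ring
        _ ≤ (k.choose i : ℝ) * (CD i * CA (k - i) * Y ^ M) :=
            mul_le_mul_of_nonneg_left (f5.trans f6) (Nat.cast_nonneg _)
        _ = _ := by ring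
    calc _ ≤ CA (k + 1) * Y ^ M +
          (∑ i ∈ range k, (k.choose i : ℝ) * CD i * CA (k - i)) * Y ^ M := add_le_add e1 e2
      _ = S * Y ^ M := by rw [hS]; ring
  have h4 : ‖LSeries (Dk (1 : DirichletCharacter ℂ 1) k) s‖ * (c / Y ^ m0) ≤ S * Y ^ M :=
    (mul_le_mul_of_nonneg_left hL0 (norm_nonneg _)).trans hbound
  rw [mul_div_assoc', div_le_iff₀ hYm] at h4
  rw [pow_add, div_mul_eq_mul_div, le_div_iff₀ hc]
  linarith

theorem hZall (ha : StZup) (hb : StZlow) (hc : StZcpt) : StZall := by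
  intro k
  obtain ⟨C1, hC1, m1, H1⟩ := zetaD_Zall ha hb k
  obtain ⟨C2, hC2, H2⟩ := ha k
  obtain ⟨C3, hC3, H3⟩ := hc k
  refine ⟨C1 + C2 + C3, by positivity, m1 + (k + 1), ?_⟩
  intro σ t hσ hσ2
  have hl3 : (1 : ℝ) ≤ Real.log 3 := by
    rw [Real.le_log_iff_exp_le (by norm_num)]
    have := Real.exp_one_lt_d9
    linarith
  set Y : ℝ := Real.log (|t| + 3) with hY
  have hY1 : 1 ≤ Y := by
    refine hl3.trans (Real.log_le_log (by norm_num) ?_)
    have := abs_nonneg t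
    linarith
  have p1 : 1 ≤ Y ^ (m1 + (k + 1)) := one_le_pow₀ hY1
  have p2 : Y ^ m1 ≤ Y ^ (m1 + (k + 1)) := pow_le_pow_right₀ hY1 (by omega)
  have p3 : Y ^ (k + 1) ≤ Y ^ (m1 + (k + 1)) := pow_le_pow_right₀ hY1 (by omega)
  rcases le_or_gt 1 |t| with ht | ht
  · have h1 := H1 σ t hσ hσ2 ht
    have h2 := H2 σ t hσ hσ2 ht
    refine (norm_sub_le _ _).trans ?_
    have h3 := mul_le_mul_of_nonneg_left p2 hC1.le
    have h4 := mul_le_mul_of_nonneg_left p3 hC2.le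
    have h5 : 0 ≤ C3 * Y ^ (m1 + (k + 1)) := by positivity
    linarith
  · have h1 := H3 σ t hσ hσ2 ht.le
    have h2 := mul_le_mul_of_nonneg_left p1 hC3.le
    have h5 : 0 ≤ (C1 + C2) * Y ^ (m1 + (k + 1)) := by positivity
    linarith

end Pool.Agent.Helper48.BK
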