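import Pool.Agent.Helper48.BK.StW
import Pool.Agent.Helper90.MT.A3i

/-!
# Project BK, module Zcpt: the compact part
-/

set_option autoImplicit false

namespace Pool.Agent.Helper48.BK

open Finset ArithmeticFunction Complex
open Pool.Agent.Helper90.MT (Lk Dk Rg)
open DirichletCharacter (LFunctionTrivChar₁ LFunctionTrivChar)

namespace Zcpt

/-- `(s - 1) ζ(s)` -/
noncomputable def h (s : ℂ) : ℂ := LFunctionTrivChar₁ 1 s

lemma diff_h : Differentiable ℂ h := DirichletCharacter.differentiable_LFunctionTrivChar₁ 1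

lemma h_one : h 1 = 1 := by
  unfold h
  simp [LFunctionTrivChar₁]

lemma h_of_ne {s : ℂ} (hs : s ≠ 1) : h s = (s - 1) * riemannZeta s := by
  unfold h
  rw [LFunctionTrivChar₁, Function.update_of_ne hs, LFunctionTrivChar,
    DirichletCharacter.LFunction_modOne_eq]

lemma deriv_h {s : ℂ} (hs : s ≠ 1) :
    deriv h s = (s - 1) * deriv riemannZeta s + riemannZeta s := by
  have := DirichletCharacter.deriv_LFunctionTrivChar₁_apply_of_ne_one 1 hs
  rw [LFunctionTrivChar, DirichletCharacter.LFunction_modOne_eq] at this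
  exact this

lemma h_ne_zero {s : ℂ} (hs : 1 ≤ s.re) : h s ≠ 0 := by
  rcases eq_or_ne s 1 with rfl | hs1
  · rw [h_one]
    exact one_ne_zero
  · rw [h_of_ne hs1]
    exact mul_ne_zero (sub_ne_zero.2 hs1) (riemannZeta_ne_zero_of_one_le_re hs)

/-- analytic continuation of `-ζ'/ζ - ζ` -/
noncomputable def H (s : ℂ) : ℂ := -(deriv h s / h s) - dslope h 1 s

lemma analytic_H : AnalyticOnNhd ℂ H {s | h s ≠ 0} := by
  have h1 : AnalyticOnNhd ℂ h Set.univ := diff_h.differentiableOn.analyticOnNhd isOpen_univ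
  have h2 : AnalyticOnNhd ℂ (deriv h) Set.univ := h1.deriv
  have h3 : AnalyticOnNhd ℂ (dslope h 1) Set.univ := by
    refine DifferentiableOn.analyticOnNhd ?_ isOpen_univ
    exact (Complex.differentiableOn_dslope Filter.univ_mem).2 diff_h.differentiableOn
  have h4 : AnalyticOnNhd ℂ (fun s => deriv h s / h s) {s | h s ≠ 0} :=
    (h2.mono (Set.subset_univ _)).div (h1.mono (Set.subset_univ _)) (fun s hs => hs)
  exact h4.neg.sub (h3.mono (Set.subset_univ _))

lemma one_apply (n : ℕ) : (1 : DirichletCharacter ℂ 1) (n : ZMod 1) = 1 :=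
  MulChar.one_apply (by
    have : (n : ZMod 1) = 1 := Subsingleton.elim _ _
    rw [this]
    exact isUnit_one)

lemma H_eq {s : ℂ} (hs : 1 < s.re) :
    H s = LSeries (Dk (1 : DirichletCharacter ℂ 1) 0 - Lk (1 : DirichletCharacter ℂ 1) 0) s := by
  have hs1 : s ≠ 1 := by
    rintro rfl
    simp at hs
  have hz : riemannZeta s ≠ 0 := riemannZeta_ne_zero_of_one_le_re hs.le
  rw [LSeries_sub (Pool.Agent.Helper90.MT.A3i_Dk (1 : DirichletCharacter ℂ 1) 0 _ hs)
    (Pool.Agent.Helper90.MT.A3i_Lk (1 : DirichletCharacter ℂ 1) 0 _ hs)]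
  have e1 : LSeries (Dk (1 : DirichletCharacter ℂ 1) 0) s = -deriv riemannZeta s / riemannZeta s := by
    rw [← LSeries_vonMangoldt_eq_deriv_riemannZeta_div hs]
    refine LSeries_congr (fun {n} _ => ?_) s
    unfold Dk
    rw [one_apply]
    simp
  have e2 : LSeries (Lk (1 : DirichletCharacter ℂ 1) 0) s = riemannZeta s := by
    rw [← LSeries_one_eq_riemannZeta hs]
    refine LSeries_congr (fun {n} _ => ?_) s
    unfold Lk
    rw [one_apply]
    simp
  rw [e1, e2]
  unfold H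
  rw [dslope_of_ne _ hs1, slope_def_field, h_one, deriv_h hs1, h_of_ne hs1]
  have h1 : s - 1 ≠ 0 := sub_ne_zero.2 hs1
  field_simp
  ring

lemma logMul_iter (k : ℕ) (f : ℕ → ℂ) (n : ℕ) :
    (LSeries.logMul^[k] f) n = ((Real.log n : ℝ) : ℂ) ^ k * f n := by
  induction k with
  | zero => simp
  | succ k ih =>
    rw [Function.iterate_succ_apply', LSeries.logMul, ih, ← Complex.natCast_log]
    ring

lemma abscissa_lt {s : ℂ} (hs : 1 < s.re) : LSeries.abscissaOfAbsConv
    (Dk (1 : DirichletCharacter ℂ 1) 0 - Lk (1 : DirichletCharacter ℂ 1) 0) < s.re := by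
  have hx : 1 < (((1 + s.re) / 2 : ℝ) : ℂ).re := by
    rw [Complex.ofReal_re]
    linarith
  have h1 := (Pool.Agent.Helper90.MT.A3i_Dk (1 : DirichletCharacter ℂ 1) 0 _ hx).sub
    (Pool.Agent.Helper90.MT.A3i_Lk (1 : DirichletCharacter ℂ 1) 0 _ hx)
  have h2 := h1.abscissaOfAbsConv_le
  refine lt_of_le_of_lt h2 ?_
  rw [Complex.ofReal_re]
  exact_mod_cast (by linarith : (1 + s.re) / 2 < s.re)

lemma iter_eq (k : ℕ) {s : ℂ} (hs : 1 < s.re) :
    iteratedDeriv k H s = (-1) ^ k * (LSeries (Dk (1 : DirichletCharacter ℂ 1) k) s -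
      LSeries (Lk (1 : DirichletCharacter ℂ 1) k) s) := by
  have h1 : H =ᶠ[nhds s]
      LSeries (Dk (1 : DirichletCharacter ℂ 1) 0 - Lk (1 : DirichletCharacter ℂ 1) 0) := by
    have h2 : {z : ℂ | 1 < z.re} ∈ nhds s :=
      (isOpen_lt continuous_const Complex.continuous_re).mem_nhds hs
    filter_upwards [h2] with z hz
    exact H_eq hz
  rw [Filter.EventuallyEq.iteratedDeriv_eq k h1, LSeries_iteratedDeriv k (abscissa_lt hs)]
  congr 1
  rw [← LSeries_sub (Pool.Agent.Helper90.MT.A3i_Dk (1 : DirichletCharacter ℂ 1) k _ hs)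
    (Pool.Agent.Helper90.MT.A3i_Lk (1 : DirichletCharacter ℂ 1) k _ hs)]
  refine LSeries_congr (fun {n} _ => ?_) s
  rw [logMul_iter, Pi.sub_apply, Pi.sub_apply]
  unfold Dk Lk
  ring

end Zcpt

open Zcpt in
theorem hZcpt : StZcpt := by
  intro k
  set K : Set ℂ := Set.Icc (1 : ℝ) 2 ×ℂ Set.Icc (-1 : ℝ) 1 with hK
  have hKc : IsCompact K := isCompact_Icc.reProdIm isCompact_Icc
  have hKU : K ⊆ {s | h s ≠ 0} := by
    intro s hs
    exact h_ne_zero hs.1.1
  have hcont : ContinuousOn (iteratedDeriv k H) K := by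
    rw [iteratedDeriv_eq_iterate]
    exact ((analytic_H.iterated_deriv k).mono hKU).continuousOn
  obtain ⟨C, hC⟩ := hKc.exists_bound_of_continuousOn hcont
  refine ⟨max C 1, by positivity, ?_⟩
  intro σ t hσ hσ2 ht
  have hre : ((σ : ℂ) + t * I).re = σ := by simp
  have him : ((σ : ℂ) + t * I).im = t := by simp
  have hs : 1 < ((σ : ℂ) + t * I).re := by rw [hre]; exact hσ
  have hmem : ((σ : ℂ) + t * I) ∈ K := by
    rw [hK, Complex.mem_reProdIm, hre, him]
    exact ⟨⟨hσ.le, hσ2⟩, abs_le.1 ht⟩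
  have h1 := hC _ hmem
  rw [iter_eq k hs, norm_mul, norm_pow, norm_neg, norm_one, one_pow, one_mul] at h1
  exact h1.trans (le_max_left _ _)

end Pool.Agent.Helper48.BK
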