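import Pool.Agent.Helper48.BK.StW
import Pool.Agent.Helper90.MT.A2

/-!
# Project BK, module Zlow: lower bound for `ζ` on `|t| ≥ 1`
-/

set_option autoImplicit false

namespace Pool.Agent.Helper48.BK

open Finset ArithmeticFunction Complex
open Pool.Agent.Helper90.MT (Lk Dk Rg)

theorem hZlow (ha : StZup) : StZlow := by
  obtain ⟨C0, hC0, H0⟩ := ha 0
  obtain ⟨C1, hC1, H1⟩ := ha 1
  set K0 := max 1 (2 * C0) with hK0
  set K1 := max 1 C1 with hK1
  have k0 : 1 ≤ K0 := le_max_left _ _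
  have k1 : 1 ≤ K1 := le_max_left _ _
  have c0 : 2 * C0 ≤ K0 := le_max_right _ _
  have c1 : C1 ≤ K1 := le_max_right _ _
  have p0 : 0 < K0 := by linarith
  have p1 : 0 < K1 := by linarith
  refine ⟨1 / (128 * K1 ^ 3 * K0), by positivity, 7, ?_⟩
  intro σ t hσ hσ2 ht
  have hlog3 : (1 : ℝ) ≤ Real.log 3 := by
    rw [Real.le_log_iff_exp_le (by norm_num)]
    linarith [Real.exp_one_lt_d9]
  have ht0 := abs_nonneg t
  set Y := Real.log (|t| + 3) with hY
  have hY1 : 1 ≤ Y := hlog3.trans (Real.log_le_log (by norm_num) (by linarith))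
  have hY0 : 0 < Y := by linarith
  have B1 : ∀ u : ℝ, 1 < u → u ≤ 2 →
      ‖LSeries (Lk (1 : DirichletCharacter ℂ 1) 1) (u + t * I)‖ ≤ K1 * Y ^ 2 := by
    intro u hu hu2
    refine (H1 u t hu hu2 ht).trans ?_
    exact mul_le_mul_of_nonneg_right c1 (by positivity)
  have B2 : ∀ δ : ℝ, 0 < δ → δ ≤ 1 →
      ‖LSeries (Lk ((1 : DirichletCharacter ℂ 1) ^ 2) 0)
        (((1 + δ : ℝ) : ℂ) + ((2 * t : ℝ) : ℂ) * I)‖ ≤ K0 * Y := by
    intro δ hδ hδ1
    rw [one_pow]
    have h2t : |2 * t| = 2 * |t| := by rw [abs_mul, abs_two]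
    refine (H0 (1 + δ) (2 * t) (by linarith) (by linarith) (by rw [h2t]; linarith)).trans ?_
    have h1 : Real.log (|2 * t| + 3) ≤ 2 * Y := by
      have h2 : |2 * t| + 3 ≤ (|t| + 3) * (|t| + 3) := by rw [h2t]; nlinarith
      have h3 := Real.log_le_log (by positivity) h2
      rw [Real.log_mul (by positivity) (by positivity)] at h3
      linarith
    rw [zero_add, pow_one]
    calc C0 * Real.log (|2 * t| + 3) ≤ C0 * (2 * Y) := mul_le_mul_of_nonneg_left h1 hC0.le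
      _ = (2 * C0) * Y := by ring
      _ ≤ K0 * Y := mul_le_mul_of_nonneg_right c0 hY0.le
  have h := Pool.Agent.Helper90.MT.a2_core (1 : DirichletCharacter ℂ 1) t K1 (K0 * Y) Y k1
    (one_le_mul_of_one_le_of_one_le k0 hY1) hY1 B1 B2 σ hσ hσ2
  refine le_trans (le_of_eq ?_) h
  field_simp

end Pool.Agent.Helper48.BK
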