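import Pool.Agent.Helper48.BK.StW
import Pool.Agent.Helper90.MT.A1

/-!
# Project BK, module Zup: upper bounds for `ζ` and its derivatives on `|t| ≥ 1`
-/

set_option autoImplicit false

namespace Pool.Agent.Helper48.BK

open Finset ArithmeticFunction Complex
open Pool.Agent.Helper90.MT (Lk Dk Rg)

namespace Zup

/-- the smooth factor as a function of a real variable -/
noncomputable def g (j : ℕ) (s : ℂ) (u : ℝ) : ℂ := ((Real.log u ^ j : ℝ) : ℂ) * (u : ℂ) ^ (-s)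

/-- primitive of `g` -/
noncomputable def G (s : ℂ) : ℕ → ℝ → ℂ
  | 0, u => (u : ℂ) ^ (1 - s) / (1 - s)
  | (j + 1), u => ((Real.log u ^ (j + 1) : ℝ) : ℂ) * ((u : ℂ) ^ (1 - s) / (1 - s)) -
      ((j + 1 : ℕ) : ℂ) / (1 - s) * G s j u

lemma hasDerivAt_pow_div {s : ℂ} (hs1 : 1 - s ≠ 0) {x : ℝ} (hx : 0 < x) :
    HasDerivAt (fun x : ℝ => ((x : ℂ) ^ (1 - s)) / (1 - s)) ((x : ℂ) ^ (-s)) x := by
  have h := (hasDerivAt_ofReal_cpow_const hx.ne' (r := 1 - s) hs1).div_const (1 - s)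
  rwa [show (1 - s - 1 : ℂ) = -s by ring, mul_div_cancel_left₀ _ hs1] at h

lemma hasDerivAt_G {s : ℂ} (hs1 : 1 - s ≠ 0) (j : ℕ) {x : ℝ} (hx : 0 < x) :
    HasDerivAt (G s j) (g j s x) x := by
  induction j with
  | zero =>
    have h := hasDerivAt_pow_div hs1 hx
    have e : g 0 s x = (x : ℂ) ^ (-s) := by simp [g]
    rw [e]
    exact h
  | succ j ih =>
    have h := hasDerivAt_pow_div hs1 hx
    have hl : HasDerivAt (fun x : ℝ => ((Real.log x ^ (j + 1) : ℝ) : ℂ))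
        (((((j + 1 : ℕ) : ℝ) * Real.log x ^ j * x⁻¹ : ℝ)) : ℂ) x := by
      have h1 : HasDerivAt (fun x : ℝ => Real.log x ^ (j + 1))
          (((j + 1 : ℕ) : ℝ) * Real.log x ^ j * x⁻¹) x :=
        (Real.hasDerivAt_log hx.ne').pow (j + 1)
      exact h1.ofReal_comp
    have h2 := (hl.mul h).sub (ih.const_mul (((j + 1 : ℕ) : ℂ) / (1 - s)))
    have hx0 : (x : ℂ) ≠ 0 := by exact_mod_cast hx.ne'
    have hpow : (x : ℂ) ^ (1 - s) = x * (x : ℂ) ^ (-s) := by
      rw [show (1 - s : ℂ) = 1 + -s by ring, Complex.cpow_add _ _ hx0, Complex.cpow_one]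
    refine h2.congr_deriv ?_
    rw [hpow]
    unfold g
    push_cast
    field_simp
    ring

lemma norm_cpow {u : ℝ} (hu : 1 ≤ u) {s : ℂ} (hs : 1 < s.re) : ‖(u : ℂ) ^ (-s)‖ ≤ 1 / u := by
  have hu0 : 0 < u := by linarith
  rw [Complex.norm_cpow_eq_rpow_re_of_pos hu0, Complex.neg_re, Real.rpow_neg hu0.le, one_div]
  apply inv_anti₀ hu0
  calc u = u ^ (1 : ℝ) := (Real.rpow_one _).symm
    _ ≤ _ := Real.rpow_le_rpow_of_exponent_le hu hs.le

lemma g_sub_le (j : ℕ) {n : ℕ} (hn : 3 ≤ n) {s : ℂ} (hs : 1 < s.re) {u : ℝ} (hu : (n : ℝ) ≤ u)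
    (hu1 : u ≤ n + 1) :
    ‖g j s u - g j s n‖ ≤ (j + ‖s‖) * (Real.log ((n + 1 : ℕ) : ℝ) ^ j / (n : ℝ) ^ 2) := by
  have hn0 : (0 : ℝ) < n := by exact_mod_cast (by omega : 0 < n)
  have hn3 : (3 : ℝ) ≤ n := by exact_mod_cast hn
  have hu0 : 0 < u := by linarith
  have hl0 : 0 ≤ Real.log (n : ℝ) := Real.log_natCast_nonneg n
  have hle : Real.log (n : ℝ) ≤ Real.log u := Real.log_le_log hn0 hu
  have hle2 : Real.log u ≤ Real.log ((n + 1 : ℕ) : ℝ) :=
    Real.log_le_log hu0 (by push_cast; linarith)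
  have hl1 : 1 ≤ Real.log u := by
    rw [Real.le_log_iff_exp_le hu0]
    have := Real.exp_one_lt_d9
    linarith
  have hd : Real.log u - Real.log (n : ℝ) ≤ 1 / n := by
    rw [← Real.log_div hu0.ne' hn0.ne']
    have h1 := Real.log_le_sub_one_of_pos (x := u / n) (by positivity)
    have h2 : u / n - 1 ≤ 1 / n := by
      rw [div_sub_one hn0.ne']
      exact div_le_div_of_nonneg_right (by linarith) hn0.le
    linarith
  have h1 := Pool.Agent.Helper90.MT.A1.pow_sub_le j hl0 hle hl1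
  have h2 := Pool.Agent.Helper90.MT.A0.cpow_sub_le (n := n) (by omega) hs hu hu1
  have e : g j s u - g j s n =
      ((Real.log u ^ j - Real.log (n : ℝ) ^ j : ℝ) : ℂ) * (u : ℂ) ^ (-s) +
      ((Real.log (n : ℝ) ^ j : ℝ) : ℂ) * ((u : ℂ) ^ (-s) - (n : ℂ) ^ (-s)) := by
    unfold g
    push_cast
    ring
  rw [e]
  have hpow : Real.log (n : ℝ) ^ j ≤ Real.log u ^ j := pow_le_pow_left₀ hl0 hle j
  have hpow2 : Real.log u ^ j ≤ Real.log ((n + 1 : ℕ) : ℝ) ^ j :=
    pow_le_pow_left₀ (by linarith) hle2 j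
  set P : ℝ := Real.log ((n + 1 : ℕ) : ℝ) ^ j with hP
  have hP0 : 0 ≤ P := by
    have : 0 ≤ Real.log u ^ j := by positivity
    linarith
  have h3 : ‖((Real.log u ^ j - Real.log (n : ℝ) ^ j : ℝ) : ℂ) * (u : ℂ) ^ (-s)‖ ≤
      j * (P / (n : ℝ) ^ 2) := by
    rw [norm_mul, Complex.norm_real, Real.norm_of_nonneg (by linarith)]
    have h4 := norm_cpow (u := u) (by linarith) hs
    have h5 : 1 / u ≤ 1 / n := one_div_le_one_div_of_le hn0 hu
    calc (Real.log u ^ j - Real.log (n : ℝ) ^ j) * ‖(u : ℂ) ^ (-s)‖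
        ≤ (j * P * (1 / n)) * (1 / n) := by
          apply mul_le_mul _ (h4.trans h5) (norm_nonneg _) (by positivity)
          refine h1.trans ?_
          have h6 : (j : ℝ) * Real.log u ^ j ≤ j * P :=
            mul_le_mul_of_nonneg_left hpow2 (Nat.cast_nonneg j)
          exact mul_le_mul h6 hd (by linarith) (by positivity)
      _ = _ := by field_simp
  have h6 : ‖((Real.log (n : ℝ) ^ j : ℝ) : ℂ) * ((u : ℂ) ^ (-s) - (n : ℂ) ^ (-s))‖ ≤
      ‖s‖ * (P / (n : ℝ) ^ 2) := by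
    rw [norm_mul, Complex.norm_real, Real.norm_of_nonneg (pow_nonneg hl0 j)]
    calc Real.log (n : ℝ) ^ j * ‖(u : ℂ) ^ (-s) - (n : ℂ) ^ (-s)‖
        ≤ P * (‖s‖ * (1 / (n : ℝ) ^ 2)) :=
          mul_le_mul (hpow.trans hpow2) h2 (norm_nonneg _) hP0
      _ = _ := by ring
  calc _ ≤ _ := norm_add_le _ _
    _ ≤ j * (P / (n : ℝ) ^ 2) + ‖s‖ * (P / (n : ℝ) ^ 2) := add_le_add h3 h6
    _ = _ := by ring

lemma term_le (j : ℕ) {n : ℕ} (hn : 3 ≤ n) {s : ℂ} (hs : 1 < s.re) :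
    ‖g j s n - (G s j ((n + 1 : ℕ) : ℝ) - G s j n)‖ ≤
      (j + ‖s‖) * (Real.log ((n + 1 : ℕ) : ℝ) ^ j / (n : ℝ) ^ 2) := by
  have hn0 : (0 : ℝ) < n := by exact_mod_cast (by omega : 0 < n)
  have hs1 : (1 - s) ≠ 0 := by
    intro h
    have : (1 - s).re = 0 := by rw [h]; simp
    simp at this
    linarith
  have hder : ∀ x ∈ Set.Icc (n : ℝ) (n + 1), HasDerivWithinAt
      (fun x : ℝ => G s j x - (x : ℂ) * g j s n)
      (g j s x - g j s n) (Set.Icc (n : ℝ) (n + 1)) x := by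
    intro x hx
    have hx0 : (0 : ℝ) < x := lt_of_lt_of_le hn0 hx.1
    have h4 : HasDerivAt (fun x : ℝ => (x : ℂ) * g j s n) (1 * g j s n) x :=
      (Complex.ofRealCLM.hasDerivAt (x := x)).mul_const _
    rw [one_mul] at h4
    exact ((hasDerivAt_G hs1 j hx0).sub h4).hasDerivWithinAt
  have hmem : (n : ℝ) ∈ Set.Icc (n : ℝ) (n + 1) := ⟨le_rfl, by linarith⟩
  have hmem1 : ((n : ℝ) + 1) ∈ Set.Icc (n : ℝ) (n + 1) := ⟨by linarith, le_rfl⟩
  have := (convex_Icc (n : ℝ) (n + 1)).norm_image_sub_le_of_norm_hasDerivWithin_le hder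
    (fun x hx => g_sub_le j hn hs hx.1 hx.2) hmem hmem1
  have e : (G s j ((n : ℝ) + 1) - (((n : ℝ) + 1 : ℝ) : ℂ) * g j s n) -
      (G s j (n : ℝ) - ((n : ℝ) : ℂ) * g j s n) =
      -(g j s n - (G s j ((n + 1 : ℕ) : ℝ) - G s j n)) := by
    push_cast
    ring
  rw [e, norm_neg] at this
  refine le_trans this ?_
  simp

lemma norm_pow_div_le {s : ℂ} (hs1 : 1 ≤ ‖1 - s‖) {u : ℝ} (hu : 1 ≤ u) :
    ‖(u : ℂ) ^ (1 - s) / (1 - s)‖ ≤ u ^ (1 - s.re) := by
  rw [norm_div, Complex.norm_cpow_eq_rpow_re_of_pos (by linarith)]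
  have e : (1 - s).re = 1 - s.re := by simp
  rw [e]
  have h0 : 0 ≤ u ^ (1 - s.re) := by positivity
  exact div_le_self h0 hs1

lemma norm_G_le (j : ℕ) {s : ℂ} (hs1 : 1 ≤ ‖1 - s‖) {u : ℝ} (hu : 1 ≤ u)
    (hlu : 1 ≤ Real.log u) :
    ‖G s j u‖ ≤ ((j + 1).factorial : ℝ) * (Real.log u ^ j * u ^ (1 - s.re)) := by
  have h0 : 0 ≤ u ^ (1 - s.re) := by positivity
  induction j with
  | zero => simpa [G] using norm_pow_div_le hs1 hu
  | succ j ih =>
    have h1 := norm_pow_div_le hs1 hu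
    have h2 : ‖((Real.log u ^ (j + 1) : ℝ) : ℂ) * ((u : ℂ) ^ (1 - s) / (1 - s))‖ ≤
        Real.log u ^ (j + 1) * u ^ (1 - s.re) := by
      rw [norm_mul, Complex.norm_real, Real.norm_of_nonneg (by positivity)]
      exact mul_le_mul_of_nonneg_left h1 (by positivity)
    have h3 : ‖((j + 1 : ℕ) : ℂ) / (1 - s) * G s j u‖ ≤
        (j + 1 : ℕ) * (((j + 1).factorial : ℝ) * (Real.log u ^ (j + 1) * u ^ (1 - s.re))) := by
      rw [norm_mul, norm_div, Complex.norm_natCast]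
      have h4 : ((j + 1 : ℕ) : ℝ) / ‖1 - s‖ ≤ (j + 1 : ℕ) := div_le_self (Nat.cast_nonneg _) hs1
      have h5 : ‖G s j u‖ ≤ ((j + 1).factorial : ℝ) * (Real.log u ^ (j + 1) * u ^ (1 - s.re)) := by
        refine ih.trans ?_
        have h6 : Real.log u ^ j ≤ Real.log u ^ (j + 1) := pow_le_pow_right₀ hlu (by omega)
        gcongr
      exact mul_le_mul h4 h5 (norm_nonneg _) (Nat.cast_nonneg _)
    have h7 : (1 : ℝ) ≤ ((j + 1).factorial : ℝ) := by exact_mod_cast Nat.factorial_pos _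
    have h8 : (((j + 1 + 1).factorial : ℕ) : ℝ) = (j + 1 + 1 : ℕ) * ((j + 1).factorial : ℝ) := by
      rw [Nat.factorial_succ]; push_cast; ring
    have h9 : 0 ≤ Real.log u ^ (j + 1) * u ^ (1 - s.re) := by positivity
    rw [h8]
    unfold G
    refine (norm_sub_le _ _).trans ((add_le_add h2 h3).trans ?_)
    push_cast
    nlinarith

lemma tendsto_G (j : ℕ) {s : ℂ} (hs : 1 < s.re) (hs1 : 1 ≤ ‖1 - s‖) :
    Filter.Tendsto (fun M : ℕ => G s j (M : ℝ)) Filter.atTop (nhds 0) := by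
  have h1 : Filter.Tendsto (fun u : ℝ => Real.log u ^ j * u ^ (1 - s.re)) Filter.atTop (nhds 0) := by
    have h2 := (isLittleO_log_rpow_rpow_atTop (j : ℝ)
      (by linarith : (0 : ℝ) < s.re - 1)).tendsto_div_nhds_zero
    refine h2.congr' ?_
    filter_upwards [Filter.eventually_gt_atTop (0 : ℝ)] with u hu
    rw [Real.rpow_natCast, div_eq_mul_inv, ← Real.rpow_neg hu.le]
    congr 2
    ring
  have h3 := (h1.comp tendsto_natCast_atTop_atTop).const_mul (((j + 1).factorial : ℝ))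
  rw [mul_zero] at h3
  refine squeeze_zero_norm' ?_ h3
  filter_upwards [Filter.eventually_ge_atTop 3] with M hM
  have hM3 : (3 : ℝ) ≤ M := by exact_mod_cast hM
  refine norm_G_le j hs1 (by linarith) ?_
  rw [Real.le_log_iff_exp_le (by linarith)]
  have := Real.exp_one_lt_d9
  linarith

end Zup

open Zup in
theorem hZup : StZup := by
  intro j
  set K : ℝ := (2 * (j : ℝ) + 3) ^ j with hK
  have hK0 : 0 < K := by positivity
  have hfac : (0 : ℝ) < ((j + 1).factorial : ℝ) := by exact_mod_cast Nat.factorial_pos _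
  refine ⟨2 + 8 * K * (j + 1) + ((j + 1).factorial : ℝ) * 2 ^ j, by positivity, ?_⟩
  intro σ t hσ1 hσ2 ht1
  set s : ℂ := σ + t * I with hs
  have hsre : s.re = σ := by simp [hs]
  have hsim : s.im = t := by simp [hs]
  have hs1 : 1 < s.re := by rw [hsre]; exact hσ1
  have hs2 : 1 ≤ ‖1 - s‖ := by
    have := Complex.abs_im_le_norm (1 - s)
    rw [Complex.sub_im, Complex.one_im, zero_sub, abs_neg, hsim] at this
    linarith
  set Y : ℝ := |t| + 3 with hY
  have ht := abs_nonneg t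
  have hY3 : 3 ≤ Y := by rw [hY]; linarith
  have hY0 : 0 < Y := by linarith
  have hl1 : 1 ≤ Real.log Y := by
    rw [Real.le_log_iff_exp_le hY0]
    have := Real.exp_one_lt_d9
    linarith
  have hsn : ‖s‖ ≤ 2 + |t| := by
    calc ‖s‖ ≤ ‖(σ : ℂ)‖ + ‖(t : ℂ) * I‖ := norm_add_le _ _
      _ = |σ| + |t| := by rw [norm_mul, Complex.norm_I, mul_one, Complex.norm_real,
          Complex.norm_real, Real.norm_eq_abs, Real.norm_eq_abs]
      _ ≤ 2 + |t| := by rw [abs_of_pos (by linarith)]; linarith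
  have hqs : (j : ℝ) + ‖s‖ ≤ (j + 1) * Y := by
    rw [hY]
    have : (0 : ℝ) ≤ j := Nat.cast_nonneg j
    nlinarith
  set L : ℝ := Real.log Y with hL
  set N : ℕ := ⌊Y⌋₊ with hN
  have hN3 : 3 ≤ N := Nat.le_floor (by exact_mod_cast hY3)
  have hN3' : (3 : ℝ) ≤ N := by exact_mod_cast hN3
  have hNY : (N : ℝ) ≤ Y := Nat.floor_le hY0.le
  have hYN : Y < N + 1 := Nat.lt_floor_add_one Y
  -- differences
  have hdiff : ∀ M : ℕ, N ≤ M → ∑ n ∈ Ioc N M, (j + ‖s‖) *
      (Real.log ((n + 1 : ℕ) : ℝ) ^ j / (n : ℝ) ^ 2) ≤ 8 * K * (j + 1) * L ^ j := by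
    intro M hM
    have h1 : ∀ n ∈ Ioc N M, (j + ‖s‖) * (Real.log ((n + 1 : ℕ) : ℝ) ^ j / (n : ℝ) ^ 2) ≤
        (j + 1) * Y * (2 * K * L ^ j / √Y) * (1 / ((n : ℝ) * √n)) := by
      intro n hn
      rw [mem_Ioc] at hn
      have hn3 : 3 ≤ n := by omega
      have hnY : Y ≤ n := by
        have : (N : ℝ) + 1 ≤ n := by exact_mod_cast hn.1
        linarith
      have hn0 : (0 : ℝ) < n := by linarith
      have h3 := Pool.Agent.Helper90.MT.A1.logpow j hY0 hl1 (u := ((n + 1 : ℕ) : ℝ))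
        (by push_cast; linarith)
      have h4 : √(((n + 1 : ℕ) : ℝ) / Y) ≤ 2 * √n / √Y := by
        rw [Real.sqrt_div (by positivity)]
        apply div_le_div_of_nonneg_right _ (Real.sqrt_nonneg _)
        rw [Real.sqrt_le_left (by positivity), mul_pow, Real.sq_sqrt hn0.le]
        push_cast
        linarith
      have h5 : Real.log ((n + 1 : ℕ) : ℝ) ^ j / (n : ℝ) ^ 2 ≤
          (2 * K * L ^ j / √Y) * (1 / ((n : ℝ) * √n)) := by
        have hsn : √(n : ℝ) * √n = n := Real.mul_self_sqrt hn0.le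
        have hsn0 : 0 < √(n : ℝ) := Real.sqrt_pos.2 hn0
        have hsY0 : 0 < √Y := Real.sqrt_pos.2 hY0
        calc Real.log ((n + 1 : ℕ) : ℝ) ^ j / (n : ℝ) ^ 2
            ≤ (K * L ^ j * (2 * √n / √Y)) / (n : ℝ) ^ 2 := by
              apply div_le_div_of_nonneg_right _ (by positivity)
              exact h3.trans (mul_le_mul_of_nonneg_left h4 (by positivity))
          _ = _ := by
              have hn2 : (n : ℝ) ^ 2 = n * (√(n : ℝ) * √n) := by rw [hsn]; ring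
              rw [hn2]
              field_simp
      calc (j + ‖s‖) * (Real.log ((n + 1 : ℕ) : ℝ) ^ j / (n : ℝ) ^ 2)
          ≤ ((j + 1) * Y) * ((2 * K * L ^ j / √Y) * (1 / ((n : ℝ) * √n))) := by
            apply mul_le_mul hqs h5 _ (by positivity)
            exact div_nonneg (pow_nonneg (Real.log_natCast_nonneg _) _) (by positivity)
        _ = _ := by ring
    have h6 : ∑ n ∈ Ioc N M, 1 / ((n : ℝ) * √n) ≤ 4 / √Y := by
      have h7 := Pool.Agent.Helper90.MT.A1.sum_le N M (by omega) hM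
      have h8 : 0 ≤ 2 / √(M : ℝ) := by positivity
      have h9 : 2 / √(N : ℝ) ≤ 4 / √Y := by
        have hN0 : (0 : ℝ) < N := by linarith
        rw [div_le_div_iff₀ (Real.sqrt_pos.2 hN0) (Real.sqrt_pos.2 hY0)]
        have h10 : √Y ≤ 2 * √(N : ℝ) := by
          rw [Real.sqrt_le_left (by positivity), mul_pow, Real.sq_sqrt hN0.le]
          linarith
        linarith
      linarith
    calc _ ≤ ∑ n ∈ Ioc N M, (j + 1) * Y * (2 * K * L ^ j / √Y) * (1 / ((n : ℝ) * √n)) :=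
          Finset.sum_le_sum h1
      _ = (j + 1) * Y * (2 * K * L ^ j / √Y) * ∑ n ∈ Ioc N M, 1 / ((n : ℝ) * √n) := by
          rw [Finset.mul_sum]
      _ ≤ (j + 1) * Y * (2 * K * L ^ j / √Y) * (4 / √Y) :=
          mul_le_mul_of_nonneg_left h6 (by positivity)
      _ = 8 * K * (j + 1) * L ^ j * (Y / (√Y * √Y)) := by
          field_simp
          ring
      _ = 8 * K * (j + 1) * L ^ j := by
          rw [Real.mul_self_sqrt hY0.le, div_self hY0.ne', mul_one]
  -- tail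
  have htel : ∀ M : ℕ, N ≤ M → ∑ n ∈ Ioc N M, (G s j ((n + 1 : ℕ) : ℝ) - G s j (n : ℝ)) =
      G s j ((M + 1 : ℕ) : ℝ) - G s j ((N + 1 : ℕ) : ℝ) := by
    intro M hM
    induction M, hM using Nat.le_induction with
    | base => simp
    | succ M hM ih =>
      rw [Finset.sum_Ioc_succ_top (by omega), ih]
      ring
  have hGN : ‖G s j ((N + 1 : ℕ) : ℝ)‖ ≤ ((j + 1).factorial : ℝ) * 2 ^ j * L ^ j := by
    have h1 : Real.log ((N + 1 : ℕ) : ℝ) ≤ 2 * L := by
      have h2 : ((N + 1 : ℕ) : ℝ) ≤ Y * Y := by push_cast; nlinarith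
      have h3 := Real.log_le_log (by positivity) h2
      rw [Real.log_mul hY0.ne' hY0.ne'] at h3
      linarith
    have h4 : 1 ≤ Real.log ((N + 1 : ℕ) : ℝ) := by
      refine hl1.trans (Real.log_le_log hY0 ?_)
      push_cast
      linarith
    have h5 := norm_G_le j hs2 (u := ((N + 1 : ℕ) : ℝ)) (by push_cast; linarith) h4
    have h6 : (((N + 1 : ℕ) : ℝ)) ^ (1 - s.re) ≤ 1 :=
      Real.rpow_le_one_of_one_le_of_nonpos (by push_cast; linarith) (by linarith)
    have h7 : Real.log ((N + 1 : ℕ) : ℝ) ^ j ≤ (2 * L) ^ j := pow_le_pow_left₀ (by linarith) h1 j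
    calc _ ≤ _ := h5
      _ ≤ ((j + 1).factorial : ℝ) * ((2 * L) ^ j * 1) := by
          gcongr
      _ = _ := by rw [mul_pow]; ring
  have htail : ∀ M : ℕ, N ≤ M → ‖∑ n ∈ Ioc N M, g j s n - G s j ((M + 1 : ℕ) : ℝ)‖ ≤
      (8 * K * (j + 1) + ((j + 1).factorial : ℝ) * 2 ^ j) * L ^ j := by
    intro M hM
    have e : ∑ n ∈ Ioc N M, g j s n - G s j ((M + 1 : ℕ) : ℝ) =
        ∑ n ∈ Ioc N M, (g j s n - (G s j ((n + 1 : ℕ) : ℝ) - G s j (n : ℝ))) -
          G s j ((N + 1 : ℕ) : ℝ) := by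
      rw [Finset.sum_sub_distrib (fun n : ℕ => g j s n), htel M hM]
      ring
    rw [e]
    refine (norm_sub_le _ _).trans ?_
    have h1 : ‖∑ n ∈ Ioc N M, (g j s n - (G s j ((n + 1 : ℕ) : ℝ) - G s j (n : ℝ)))‖ ≤
        8 * K * (j + 1) * L ^ j := by
      refine (norm_sum_le _ _).trans (le_trans ?_ (hdiff M hM))
      refine Finset.sum_le_sum fun n hn => ?_
      rw [mem_Ioc] at hn
      exact term_le j (by omega) hs1
    calc _ ≤ 8 * K * (j + 1) * L ^ j + ((j + 1).factorial : ℝ) * 2 ^ j * L ^ j :=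
          add_le_add h1 hGN
      _ = _ := by ring
  -- head
  have hhead : ‖∑ n ∈ Ioc 0 N, g j s n‖ ≤ 2 * L ^ (j + 1) := by
    have h1 : ∀ n ∈ Ioc 0 N, ‖g j s n‖ ≤ L ^ j * (1 / (n : ℝ)) := by
      intro n hn
      rw [mem_Ioc] at hn
      have hn0 : (0 : ℝ) < n := by exact_mod_cast hn.1
      have hn1 : (1 : ℝ) ≤ n := by exact_mod_cast hn.1
      have h3 : Real.log (n : ℝ) ^ j ≤ L ^ j := by
        apply pow_le_pow_left₀ (Real.log_natCast_nonneg n)
        apply Real.log_le_log hn0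
        have : (n : ℝ) ≤ N := by exact_mod_cast hn.2
        linarith
      unfold g
      rw [norm_mul, Complex.norm_real,
        Real.norm_of_nonneg (pow_nonneg (Real.log_natCast_nonneg n) j)]
      exact mul_le_mul h3 (norm_cpow hn1 hs1) (norm_nonneg _) (by positivity)
    have h4 := Pool.Agent.Helper2.harmonic_sum_le N
    have h5 : Real.log (N : ℝ) ≤ L := by
      apply Real.log_le_log _ hNY
      linarith
    calc _ ≤ ∑ n ∈ Ioc 0 N, ‖g j s n‖ := norm_sum_le _ _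
      _ ≤ ∑ n ∈ Ioc 0 N, L ^ j * (1 / (n : ℝ)) := Finset.sum_le_sum h1
      _ = L ^ j * ∑ n ∈ Ioc 0 N, (1 : ℝ) / n := by rw [Finset.mul_sum]
      _ ≤ L ^ j * (2 * L) := by
          apply mul_le_mul_of_nonneg_left _ (by positivity)
          linarith
      _ = 2 * L ^ (j + 1) := by ring
  have hfin : ∀ M : ℕ, N ≤ M → ‖∑ n ∈ Ioc 0 M, g j s n - G s j ((M + 1 : ℕ) : ℝ)‖ ≤
      (2 + 8 * K * (j + 1) + ((j + 1).factorial : ℝ) * 2 ^ j) * L ^ (j + 1) := by
    intro M hM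
    rw [← Finset.sum_Ioc_consecutive _ (Nat.zero_le N) hM, add_sub_assoc]
    have h1 : L ^ j ≤ L ^ (j + 1) := pow_le_pow_right₀ hl1 (by omega)
    calc _ ≤ 2 * L ^ (j + 1) + (8 * K * (j + 1) + ((j + 1).factorial : ℝ) * 2 ^ j) * L ^ j :=
          (norm_add_le _ _).trans (add_le_add hhead (htail M hM))
      _ ≤ 2 * L ^ (j + 1) + (8 * K * (j + 1) + ((j + 1).factorial : ℝ) * 2 ^ j) * L ^ (j + 1) := by
          have := mul_le_mul_of_nonneg_left h1
            (by positivity : 0 ≤ 8 * K * ((j : ℝ) + 1) + ((j + 1).factorial : ℝ) * 2 ^ j)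
          linarith
      _ = _ := by ring
  -- the series
  have hone : ∀ n : ℕ, (1 : DirichletCharacter ℂ 1) (n : ZMod 1) = 1 := by
    intro n
    exact MulChar.one_apply (by
      have : (n : ZMod 1) = 1 := Subsingleton.elim _ _
      rw [this]
      exact isUnit_one)
  have hterm : ∀ n : ℕ, LSeries.term (Lk (1 : DirichletCharacter ℂ 1) j) s n =
      if n = 0 then 0 else g j s n := by
    intro n
    rw [LSeries.term_def]
    split_ifs with h
    · rfl
    · unfold Lk g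
      rw [Complex.cpow_neg, hone]
      push_cast
      ring
  by_cases hsum : Summable (LSeries.term (Lk (1 : DirichletCharacter ℂ 1) j) s)
  · have h1 := (hsum.hasSum.tendsto_sum_nat.sub (tendsto_G j hs1 hs2)).norm
    rw [sub_zero] at h1
    refine le_of_tendsto h1 ?_
    filter_upwards [Filter.eventually_ge_atTop (N + 1)] with M hM
    obtain ⟨M', rfl⟩ : ∃ M', M = M' + 1 := ⟨M - 1, by omega⟩
    have h3 : ∑ n ∈ range (M' + 1), LSeries.term (Lk (1 : DirichletCharacter ℂ 1) j) s n =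
        ∑ n ∈ Ioc 0 M', g j s n := by
      rw [Finset.sum_range_succ', hterm 0, if_pos rfl, add_zero]
      refine Finset.sum_bij' (fun n _ => n + 1) (fun n _ => n - 1) ?_ ?_ ?_ ?_ ?_
      · intro n hn; rw [mem_range] at hn; rw [mem_Ioc]; omega
      · intro n hn; rw [mem_Ioc] at hn; rw [mem_range]; omega
      · intro n _; simp
      · intro n hn
        rw [mem_Ioc] at hn
        exact Nat.sub_add_cancel hn.1
      · intro n _
        rw [hterm, if_neg (by omega)]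
    rw [h3]
    exact hfin M' (by omega)
  · unfold LSeries
    rw [tsum_eq_zero_of_not_summable hsum, norm_zero]
    positivity

end Pool.Agent.Helper48.BK
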