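import Pool.Agent.Helper48.BK.M_Par
import Pool.Agent.Helper48.BK.M_Cor
import Pool.Agent.Helper48.BK.M_Div
import Pool.Agent.Helper48.BK.M_Bil
import Pool.Agent.Helper48.BK.M_Cnt
import Pool.Agent.Helper48.BK.M_Gcd
import Pool.Agent.Helper48.BK.M_Dual
import Pool.Agent.Helper48.BK.M_Err
import Pool.Agent.Helper48.BK.M_MainT
import Pool.Agent.Helper48.BK.M_Dav
import Pool.Agent.Helper48.BK.M_Vz
import Pool.Agent.Helper48.BK.M_Lat
import Pool.Agent.Helper48.BK.M_RR
import Pool.Agent.Helper48.BK.M_Res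
import Pool.Agent.Helper48.BK.M_Cls
import Pool.Agent.Helper48.BK.M_Loc
import Pool.Agent.Helper48.BK.M_C30
import Pool.Agent.Helper48.BK.M_EP
import Pool.Agent.Helper48.BK.M_Cnt7
import Pool.Agent.Helper48.BK.M_Geo1
import Pool.Agent.Helper48.BK.M_Geo2
import Pool.Agent.Helper48.BK.M_TI
import Pool.Agent.Helper48.BK.M_TII
import Pool.Agent.Helper48.BK.M_Vau
import Pool.Agent.Helper48.BK.M_Brun
import Pool.Agent.Helper48.BK.M_Tail
import Pool.Agent.Helper48.BK.M_MinZ
import Pool.Agent.Helper48.BK.M_APZ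
import Pool.Agent.Helper48.BK.M_PS
import Pool.Agent.Helper48.BK.M_Th
import Pool.Agent.Helper48.BK.M_Zup
import Pool.Agent.Helper48.BK.M_Zlow
import Pool.Agent.Helper48.BK.M_Zcpt
import Pool.Agent.Helper48.BK.M_Zall
import Pool.Agent.Helper48.BK.M_PNTs
import Pool.Agent.Helper48.BK.M_Uns
import Pool.Agent.Helper48.BK.M_PNT
import Pool.Agent.Helper48.BK.M_Ldisc
import Pool.Agent.Helper48.BK.M_Est
import Pool.Agent.Helper48.BK.M_Real
import Pool.Agent.Helper48.BK.M_Pos
import Pool.Agent.Helper48.BK.M_L1up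
import Pool.Agent.Helper48.BK.M_NN
import Pool.Agent.Helper48.BK.M_Sg1
import Pool.Agent.Helper48.BK.M_Sg2
import Pool.Agent.Helper48.BK.M_Sg
import Pool.Agent.Helper48.BK.M_Sie
import Pool.Agent.Helper48.BK.M_Psi
import Pool.Agent.Helper48.BK.M_PsiI
import Pool.Agent.Helper48.BK.M_Ort
import Pool.Agent.Helper48.BK.M_SW
import Pool.Agent.Helper48.BK.M_One
import Pool.Agent.Helper48.BK.M_Nat
import Pool.Agent.Helper48.BK.M_Int
import Pool.Agent.Helper48.BK.M_Mu
import Pool.Agent.Helper48.BK.M_Fin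

/-!
# Project BK: assembly

Unconditional theorems: bilinear part, main term, Vinogradov's estimate, the prime number theorem
with error term, Siegel's theorem, the Siegel-Walfisz theorem, and the theorem on the
Liu-Tsang conjecture for almost all coefficient triples.
-/

set_option autoImplicit false

namespace Pool.Agent.Helper48.BK

/-! bilinear part -/
theorem tBil : StBil := hBil hPar hCor hDiv
theorem tDual : StDual := hDual hCor hCnt hGcd
theorem tErr : StErr := hErr hCor tBil tDual

/-! main term -/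
theorem tRes : StRes := hRes hLat
theorem tC30 : StC30 := hC30 hLoc
theorem tCnt7 : StCnt7 := hCnt7 tRes hCls
theorem tMainT : StMainT := hMainT hRR tCnt7 hLoc tC30 hEP hVz

/-! exponential sums -/
theorem tTI : StTI := hTI hGeo1 hGeo2
theorem tTII : StTII := hTII hGeo1 hGeo2
theorem tVau : StVau := hVau tTI tTII hGeo1 hDiv
theorem tMinZ : StMinZ := hMinZ hBrun hTail hVz tTI hGeo1
theorem tAPZ : StAPZ := hAPZ hBrun hTail hVz

/-! prime number theorem with error term -/
theorem tZlow : StZlow := hZlow hZup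
theorem tZall : StZall := hZall hZup tZlow hZcpt
theorem tPNTs : StPNTs := hPNTs tZall
/-- prime number theorem: `ψ(N) = N + O_A(N / (log N)^A)` -/
theorem tPNT : StPNT := hPNT tPNTs hUns

/-! Siegel's theorem -/
theorem tPos : StPos := hPos hReal
theorem tSg1 : StSg1 := hSg1 hLdisc hEst hReal tPos hNN
theorem tSg2 : StSg2 := hSg2 hLdisc hEst hReal tPos hNN
/-- Siegel's theorem -/
theorem tSg : StSg := hSg tSg1 tSg2 hReal tPos hL1up
theorem tSie : StSie := hSie tSg

/-! Siegel-Walfisz theorem -/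
theorem tPsi : StPsi := hPsi tSie hUns
theorem tPsiI : StPsiI := hPsiI tPsi
/-- the Siegel-Walfisz theorem -/
theorem tSW : StSW := hSW tPsiI hOrt tPNT hTh

/-! the theorem -/
theorem tDav : StDav := hDav tVau tMinZ tAPZ tSW hPS hTh
theorem tOne : StOne := hOne tErr tMainT tDav hVz hTh
theorem tNat : StNat := hNat tOne
theorem tInt : StInt := hInt tNat
theorem tMu : StMu := hMu tInt

end Pool.Agent.Helper48.BK
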