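import Pool.Agent.Helper48.BK.StD
import Pool.Agent.Helper90.MT.StA

/-!
# Project BK: statements, prime number theorem (P), Siegel's theorem (S), Siegel-Walfisz (W)
-/

set_option autoImplicit false

namespace Pool.Agent.Helper48.BK

open Finset ArithmeticFunction Complex
open Pool.Agent.Helper90.MT (Lk Dk Rg)
open Pool.Agent.Helper2 (smoothSum chFun prFun)

/-! ### P: prime number theorem -/

/-- P1: upper bounds for `ζ` and its derivatives -/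
def StZup : Prop := ∀ j : ℕ, ∃ C : ℝ, 0 < C ∧ ∀ σ t : ℝ, 1 < σ → σ ≤ 2 → 1 ≤ |t| →
  ‖LSeries (Lk (1 : DirichletCharacter ℂ 1) j) (σ + t * I)‖ ≤ C * Real.log (|t| + 3) ^ (j + 1)

/-- P2: lower bound for `ζ` -/
def StZlow : Prop := ∃ c : ℝ, 0 < c ∧ ∃ m : ℕ, ∀ σ t : ℝ, 1 < σ → σ ≤ 2 → 1 ≤ |t| →
  c / Real.log (|t| + 3) ^ m ≤ ‖LSeries (Lk (1 : DirichletCharacter ℂ 1) 0) (σ + t * I)‖

/-- P3: the compact part -/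
def StZcpt : Prop := ∀ k : ℕ, ∃ C : ℝ, 0 < C ∧ ∀ σ t : ℝ, 1 < σ → σ ≤ 2 → |t| ≤ 1 →
  ‖LSeries (Dk (1 : DirichletCharacter ℂ 1) k) (σ + t * I) -
    LSeries (Lk (1 : DirichletCharacter ℂ 1) k) (σ + t * I)‖ ≤ C

/-- P4: `∑ (Λ(n) - 1) (log n)^k n^{-s}` -/
def StZall : Prop := ∀ k : ℕ, ∃ C : ℝ, 0 < C ∧ ∃ m : ℕ, ∀ σ t : ℝ, 1 < σ → σ ≤ 2 →
  ‖LSeries (Dk (1 : DirichletCharacter ℂ 1) k) (σ + t * I) -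
    LSeries (Lk (1 : DirichletCharacter ℂ 1) k) (σ + t * I)‖ ≤ C * Real.log (|t| + 3) ^ m

/-- P5: smoothed prime number theorem -/
def StPNTs : Prop := ∀ k : ℕ, ∃ C : ℝ, 0 < C ∧ ∀ N : ℕ, 2 ≤ N →
  |∑ n ∈ Ioc 0 N, (Λ n - 1) * Real.posLog ((N : ℝ) / n)| ≤ C * N / Real.log N ^ k

/-- U: removing the smooth weight -/
def StUns : Prop := ∀ A : ℕ, ∃ C : ℝ, 0 < C ∧ ∀ (f : ℕ → ℂ) (N : ℕ) (K : ℝ), 3 ≤ N → 0 ≤ K →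
  (∀ n, 1 ≤ n → ‖f n‖ ≤ 1 + Real.log n) →
  (∀ N' ∈ Icc N (2 * N), ‖∑ n ∈ Ioc 0 N', f n * ((Real.posLog ((N' : ℝ) / n) : ℝ) : ℂ)‖ ≤
    K * N / Real.log N ^ (2 * A + 2)) →
  ‖∑ n ∈ Ioc 0 N, f n‖ ≤ C * (K + 1) * N / Real.log N ^ A

/-- P6: prime number theorem -/
def StPNT : Prop := ∀ A : ℕ, ∃ C : ℝ, 0 < C ∧ ∀ N : ℕ, 2 ≤ N →
  |∑ n ∈ Ioc 0 N, Λ n - N| ≤ C * N / Real.log N ^ A

/-! ### S: Siegel's theorem -/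

/-- SA: Dirichlet L-functions on the disc `|s - 2| ≤ 3/2` -/
def StLdisc : Prop := ∃ C : ℝ, 1 ≤ C ∧ ∀ (q : ℕ) [NeZero q] (χ : DirichletCharacter ℂ q) (s : ℂ),
  χ ≠ 1 → ‖s - 2‖ ≤ 3 / 2 → ‖DirichletCharacter.LFunction χ s‖ ≤ C * q

/-- SB: Estermann's lemma -/
def StEst : Prop := ∃ C : ℝ, 1 ≤ C ∧ ∀ (a : ℕ → ℝ) (G : ℂ → ℂ) (lam M : ℝ), (∀ n, 0 ≤ a n) →
  1 ≤ a 1 → 0 ≤ lam → 1 ≤ M →
  (∀ s : ℂ, 1 < s.re → LSeriesSummable (fun n => (a n : ℂ)) s ∧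
    LSeries (fun n => (a n : ℂ)) s = G s + lam / (s - 1)) →
  Differentiable ℂ G → (∀ s : ℂ, ‖s - 2‖ = 3 / 2 → ‖G s‖ ≤ M) →
  ∀ σ : ℝ, 7 / 8 ≤ σ → σ < 1 →
    1 / 2 - C * lam * M ^ (8 * (1 - σ)) / (1 - σ) ≤ (G σ).re + lam / (σ - 1)

/-- SR: values of real characters are real -/
def StReal : Prop := ∀ (q : ℕ) [NeZero q] (χ : DirichletCharacter ℂ q) (σ : ℝ), χ ≠ 1 →
  χ ^ 2 = 1 → (DirichletCharacter.LFunction χ σ).im = 0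

/-- SP: positivity at `1` -/
def StPos : Prop := ∀ (q : ℕ) [NeZero q] (χ : DirichletCharacter ℂ q), χ ≠ 1 → χ ^ 2 = 1 →
  0 < (DirichletCharacter.LFunction χ 1).re

/-- SU: upper bound at `1` -/
def StL1up : Prop := ∃ C : ℝ, 0 < C ∧ ∀ (q : ℕ) [NeZero q] (χ : DirichletCharacter ℂ q), χ ≠ 1 →
  ‖DirichletCharacter.LFunction χ 1‖ ≤ C * Real.log (3 * q)

/-- SN: nonnegative coefficients -/
def StNN : Prop := ∀ (q r m : ℕ) [NeZero q] [NeZero r] [NeZero m] (χ : DirichletCharacter ℂ q)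
  (ψ : DirichletCharacter ℂ r) (ω : DirichletCharacter ℂ m), χ ^ 2 = 1 → ψ ^ 2 = 1 →
  (∀ n : ℕ, ω (n : ZMod m) = χ (n : ZMod q) * ψ (n : ZMod r)) →
  (∃ a : ℕ → ℝ, (∀ n, 0 ≤ a n) ∧ 1 ≤ a 1 ∧ ∀ s : ℂ, 1 < s.re →
    LSeriesSummable (fun n => (a n : ℂ)) s ∧ LSeries (fun n => (a n : ℂ)) s =
      riemannZeta s * DirichletCharacter.LFunction χ s) ∧
  (∃ a : ℕ → ℝ, (∀ n, 0 ≤ a n) ∧ 1 ≤ a 1 ∧ ∀ s : ℂ, 1 < s.re →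
    LSeriesSummable (fun n => (a n : ℂ)) s ∧ LSeries (fun n => (a n : ℂ)) s =
      riemannZeta s * DirichletCharacter.LFunction χ s * DirichletCharacter.LFunction ψ s *
        DirichletCharacter.LFunction ω s)

/-- S1: one character -/
def StSg1 : Prop := ∃ C : ℝ, 1 ≤ C ∧ ∀ (q : ℕ) [NeZero q] (χ : DirichletCharacter ℂ q) (σ : ℝ),
  χ ≠ 1 → χ ^ 2 = 1 → 7 / 8 ≤ σ → σ < 1 →
  1 / 2 - C * (DirichletCharacter.LFunction χ 1).re * (q : ℝ) ^ (16 * (1 - σ)) / (1 - σ) ≤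
    (riemannZeta σ * DirichletCharacter.LFunction χ σ).re

/-- S2: two characters -/
def StSg2 : Prop := ∃ C : ℝ, 1 ≤ C ∧ ∀ (q r m : ℕ) [NeZero q] [NeZero r] [NeZero m]
  (χ : DirichletCharacter ℂ q) (ψ : DirichletCharacter ℂ r) (ω : DirichletCharacter ℂ m)
  (σ : ℝ), χ ≠ 1 → ψ ≠ 1 → ω ≠ 1 → χ ^ 2 = 1 → ψ ^ 2 = 1 → ω ^ 2 = 1 → m ≤ q * r →
  (∀ n : ℕ, ω (n : ZMod m) = χ (n : ZMod q) * ψ (n : ZMod r)) → 7 / 8 ≤ σ → σ < 1 →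
  1 / 2 - C * ((DirichletCharacter.LFunction χ 1).re * (DirichletCharacter.LFunction ψ 1).re *
      (DirichletCharacter.LFunction ω 1).re) * ((q : ℝ) * r) ^ (16 * (1 - σ)) / (1 - σ) ≤
    (riemannZeta σ * DirichletCharacter.LFunction χ σ * DirichletCharacter.LFunction ψ σ *
      DirichletCharacter.LFunction ω σ).re

/-- S3: Siegel's theorem -/
def StSg : Prop := ∀ ε : ℝ, 0 < ε → ∃ c : ℝ, 0 < c ∧ ∀ (q : ℕ) [NeZero q]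
  (χ : DirichletCharacter ℂ q), χ.IsPrimitive → χ ≠ 1 → χ ^ 2 = 1 →
  c * (q : ℝ) ^ (-ε) ≤ ‖DirichletCharacter.LFunction χ 1‖

/-- S4: Siegel's theorem to the right of `1` -/
def StSie : Prop := ∀ ε : ℝ, 0 < ε → ∃ c : ℝ, 0 < c ∧ ∀ (q : ℕ) [NeZero q]
  (χ : DirichletCharacter ℂ q), χ.IsPrimitive → χ ≠ 1 → χ ^ 2 = 1 → ∀ σ : ℝ, 1 < σ → σ ≤ 2 →
  c * (q : ℝ) ^ (-ε) ≤ ‖LSeries (Lk χ 0) (σ : ℂ)‖

/-! ### W: Siegel-Walfisz -/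

/-- W1: primitive characters -/
def StPsi : Prop := ∀ A B : ℕ, ∃ C : ℝ, 0 < C ∧ ∀ (q : ℕ) [NeZero q] (χ : DirichletCharacter ℂ q)
  (N : ℕ), 3 ≤ N → χ.IsPrimitive → χ ≠ 1 → (q : ℝ) ≤ Real.log N ^ B →
  ‖∑ n ∈ Ioc 0 N, ((Λ n : ℝ) : ℂ) * χ (n : ZMod q)‖ ≤ C * N / Real.log N ^ A

/-- W2: all nonprincipal characters -/
def StPsiI : Prop := ∀ A B : ℕ, ∃ C : ℝ, 0 < C ∧ ∀ (q : ℕ) [NeZero q]
  (χ : DirichletCharacter ℂ q) (N : ℕ), 3 ≤ N → χ ≠ 1 → (q : ℝ) ≤ Real.log N ^ B →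
  ‖∑ n ∈ Ioc 0 N, ((Λ n : ℝ) : ℂ) * χ (n : ZMod q)‖ ≤ C * N / Real.log N ^ A

/-- W3: orthogonality -/
def StOrt : Prop := ∀ (q u N : ℕ) [NeZero q], Nat.Coprime u q →
  ‖((∑ n ∈ (Ioc 0 N).filter (fun n => n ≡ u [MOD q]), Λ n : ℝ) : ℂ) -
    1 / (Nat.totient q : ℂ) * ∑ n ∈ Ioc 0 N, ((Λ n : ℝ) : ℂ) * (1 : DirichletCharacter ℂ q) n‖ ≤
  1 / (Nat.totient q : ℝ) * ∑ χ ∈ (univ : Finset (DirichletCharacter ℂ q)).filter (· ≠ 1),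
    ‖∑ n ∈ Ioc 0 N, ((Λ n : ℝ) : ℂ) * χ (n : ZMod q)‖

end Pool.Agent.Helper48.BK
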