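import Pool.Agent.Helper48.BK.StW
import Pool.Agent.Helper90.MT.A1

/-! # Project BK, module L1up: upper bound for `L(1, χ)` -/

set_option autoImplicit false

namespace Pool.Agent.Helper48.BK

open Finset Complex Filter Topology
open Pool.Agent.Helper90.MT (Lk)

theorem hL1up : StL1up := by
  obtain ⟨C, hC, h⟩ := Pool.Agent.Helper90.MT.a1 0
  refine ⟨C, hC, ?_⟩
  intro q _ χ hχ
  have hd := DirichletCharacter.differentiable_LFunction hχ
  have hcont : Continuous fun σ : ℝ => ‖DirichletCharacter.LFunction χ (σ : ℂ)‖ :=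
    (hd.continuous.comp continuous_ofReal).norm
  have hlim : Tendsto (fun σ : ℝ => ‖DirichletCharacter.LFunction χ (σ : ℂ)‖) (𝓝[>] 1)
      (𝓝 ‖DirichletCharacter.LFunction χ ((1 : ℝ) : ℂ)‖) :=
    (hcont.tendsto 1).mono_left nhdsWithin_le_nhds
  rw [ofReal_one] at hlim
  refine le_of_tendsto hlim ?_
  have hmem : Set.Ioc (1 : ℝ) 2 ∈ 𝓝[>] (1 : ℝ) := Ioc_mem_nhdsGT (by norm_num)
  filter_upwards [hmem] with σ hσ
  have h1 := h q χ σ 0 hχ hσ.1 hσ.2
  have e1 : Lk χ 0 = fun n : ℕ => χ (n : ZMod q) := by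
    funext n
    simp [Lk]
  have e2 : ((σ : ℂ) + ((0 : ℝ) : ℂ) * I) = (σ : ℂ) := by simp
  rw [e1, e2, zero_add, pow_one, abs_zero, zero_add] at h1
  rw [DirichletCharacter.LFunction_eq_LSeries χ (by simpa using hσ.1)]
  rw [mul_comm (3 : ℝ)]
  exact h1

end Pool.Agent.Helper48.BK
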