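import Pool.Agent.Helper48.BK.StB

/-!
# Project BK: statements, main term (T)
-/

set_option autoImplicit false

namespace Pool.Agent.Helper48.BK

open Finset

/-- T1: points of a box with `c ∣ a t + b u - D` -/
def StLat : Prop := ∀ (a b c : ℕ) (D i j : ℤ) (I J : ℕ), 1 ≤ c → Nat.gcd a (Nat.gcd b c) = 1 →
  |((((Ico i (i + I)) ×ˢ (Ico j (j + J))).filter
      (fun v : ℤ × ℤ => (c : ℤ) ∣ a * v.1 + b * v.2 - D)).card : ℝ) - (I : ℝ) * J / c| ≤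
    I + J + 1

/-- the pairs `(n, m)` in the windows for which `a n + b m - d` is divisible by `c` -/
def Sol (H a b c : ℕ) (d : ℤ) : Finset (ℕ × ℕ) :=
  ((Icc 1 (5 * H)) ×ˢ (Icc 1 (5 * H))).filter (fun v => 4 * H < a * v.1 ∧ a * v.1 ≤ 5 * H ∧
    4 * H < b * v.2 ∧ b * v.2 ≤ 5 * H ∧ (c : ℤ) ∣ a * v.1 + b * v.2 - d)

/-- the third coordinate -/
def thd (a b c : ℕ) (d : ℤ) (v : ℕ × ℕ) : ℤ := ((a : ℤ) * v.1 + b * v.2 - d) / c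

/-- T0: the ternary sum as a sum over pairs -/
def StRR : Prop := ∀ (f : ℕ → ℝ) (X H a b c : ℕ) (d : ℤ), 1 ≤ a → 1 ≤ b → 1 ≤ c → |d| ≤ H →
  1 ≤ H → 11 * H ≤ a * X → 11 * H ≤ b * X → 11 * H ≤ c * X →
  RR f X H a b c d = ∑ v ∈ Sol H a b c d, f v.1 * f v.2 * f (thd a b c d v).toNat

/-- T2: solutions in a residue class -/
def StRes : Prop := ∀ (H a b c M : ℕ) (d u₁ u₂ u₃ : ℤ), 1 ≤ a → 1 ≤ b → 1 ≤ c → 1 ≤ M →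
  Nat.gcd a (Nat.gcd b c) = 1 → (M : ℤ) ∣ a * u₁ + b * u₂ - c * u₃ - d →
  |(((Sol H a b c d).filter (fun v => (M : ℤ) ∣ (v.1 : ℤ) - u₁ ∧ (M : ℤ) ∣ (v.2 : ℤ) - u₂ ∧
      (M : ℤ) ∣ thd a b c d v - u₃)).card : ℝ) -
    (H / a : ℝ) * (H / b : ℝ) / (c * (M : ℝ) ^ 2)| ≤
    4 * ((H : ℝ) / (a * M) + (H : ℝ) / (b * M) + 1)

/-- residue triples modulo `M` solving `a u + b v = c w + d` -/
def Cl (a b c : ℕ) (d : ℤ) (M : ℕ) : Finset (ℕ × ℕ × ℕ) :=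
  ((range M) ×ˢ (range M) ×ˢ (range M)).filter
    (fun u => (M : ℤ) ∣ a * u.1 + b * u.2.1 - c * u.2.2 - d)

/-- number of classes modulo `p` with a coordinate divisible by `p` -/
def kp (a b c : ℕ) (d : ℤ) (p : ℕ) : ℕ :=
  ((Cl a b c d p).filter (fun u => p ∣ u.1 * u.2.1 * u.2.2)).card

/-- T3: Chinese remainder theorem for the classes -/
def StCls : Prop := ∀ (a b c : ℕ) (d : ℤ) (T : Finset ℕ), (∀ p ∈ T, p.Prime) →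
  ((Cl a b c d (∏ p ∈ T, p)).filter (fun u => ∀ p ∈ T, p ∣ u.1 * u.2.1 * u.2.2)).card =
    ∏ p ∈ T, kp a b c d p

/-- T4: local densities -/
def StLoc : Prop := ∀ (a b c : ℕ) (d : ℤ) (p : ℕ), AdN a b c d → p.Prime → 3 ≤ p →
  kp a b c d p + (p - 1) * (p - 2) ≤ p ^ 2 ∧ kp a b c d p ≤ 3 * p ∧
  (p - 1) * (p - 2) ≤
    ((Cl a b c d p).filter (fun u => ¬ p ∣ u.1 * u.2.1 * u.2.2)).card

/-- T5: a class modulo `30` -/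
def StC30 : Prop := ∀ (a b c : ℕ) (d : ℤ), AdN a b c d → ∃ u₁ u₂ u₃ : ℕ,
  Nat.Coprime u₁ 30 ∧ Nat.Coprime u₂ 30 ∧ Nat.Coprime u₃ 30 ∧
  (30 : ℤ) ∣ a * u₁ + b * u₂ - c * u₃ - d

/-- T6: the Euler product -/
def StEP : Prop := ∀ z : ℕ, 1 / 2 ≤ (1 / Vz z) ^ 3 *
  ∏ p ∈ (Pz z).filter (fun p => 7 ≤ p), ((1 - 1 / (p : ℝ)) * (1 - 2 / (p : ℝ)))

/-- T7: solutions whose coordinates are divisible by given primes -/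
def StCnt7 : Prop := ∀ (H a b c : ℕ) (d : ℤ) (u₁ u₂ u₃ : ℕ) (T : Finset ℕ), 1 ≤ a → 1 ≤ b →
  1 ≤ c → AdN a b c d → (30 : ℤ) ∣ a * u₁ + b * u₂ - c * u₃ - d →
  (∀ p ∈ T, p.Prime ∧ 7 ≤ p) →
  |(((Sol H a b c d).filter (fun v => ((30 : ℤ) ∣ (v.1 : ℤ) - u₁ ∧ (30 : ℤ) ∣ (v.2 : ℤ) - u₂ ∧
      (30 : ℤ) ∣ thd a b c d v - u₃) ∧ ∀ p ∈ T, (p : ℤ) ∣ v.1 * v.2 * thd a b c d v)).card : ℝ) -
    (H / a : ℝ) * (H / b : ℝ) / (c * 900) * ∏ p ∈ T, ((kp a b c d p : ℝ) / (p : ℝ) ^ 2)| ≤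
    4 * ((∏ p ∈ T, p : ℕ) : ℝ) ^ 2 * ((H : ℝ) / a + (H : ℝ) / b + 1)

end Pool.Agent.Helper48.BK
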