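import Pool.Agent.Helper48.BK.Defs

/-!
# Project BK: statements, bilinear part (B) and top level (A)
-/

set_option autoImplicit false

namespace Pool.Agent.Helper48.BK

open Finset

/-! ### B: bilinear part -/

/-- B1: fourth moment of an exponential sum -/
def StPar : Prop := ∀ (f : ℕ → ℝ) (X : ℕ) (D : ℝ), (∀ α, ‖Sx f X α‖ ≤ D) →
  rr f X 0 ^ 2 + 2 * ∑ h ∈ Icc 1 X, rr f X h ^ 2 ≤ D ^ 2 * ∑ n ∈ Ioc 0 X, f n ^ 2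

/-- B2: the second moment of a binary form in terms of correlations -/
def StCor : Prop := ∀ (f g : ℕ → ℝ) (X a b : ℕ) (σ : ℤ), 1 ≤ a → 1 ≤ b → (σ = 1 ∨ σ = -1) →
  0 ≤ QQ f g X a b σ ∧
  QQ f g X a b σ ≤ rr f X 0 * rr g X 0 +
    2 * ∑ k ∈ Icc 1 X, |rr f X (b / Nat.gcd a b * k)| * |rr g X (a / Nat.gcd a b * k)|

/-- B3: moments of the divisor function -/
def StDiv : Prop := ∀ X : ℕ, 1 ≤ X →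
  ∑ h ∈ Icc 1 X, (h.divisors.card : ℝ) ≤ X * (1 + Real.log X) ∧
  ∑ h ∈ Icc 1 X, (h.divisors.card : ℝ) ^ 2 ≤ X * (1 + Real.log X) ^ 3

/-- B4: average of the second moments -/
def StBil : Prop := ∀ (F G : ℕ → ℕ → ℝ) (X m : ℕ) (M δ : ℝ) (σ : ℤ), 1 ≤ X → m ≤ X → 1 ≤ M →
  0 ≤ δ → (σ = 1 ∨ σ = -1) → (∀ a n, |F a n| ≤ M) → (∀ a n, |G a n| ≤ M) →
  (∀ a ∈ Icc 1 m, ∀ α, ‖Sx (F a) X α‖ ≤ δ * X) →
  ∑ a ∈ Icc 1 m, ∑ b ∈ Icc 1 m, QQ (F a) (G b) X a b σ ≤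
    M ^ 4 * (m ^ 2 * X ^ 2 + 2 * m * X ^ 3 * (1 + Real.log X) ^ 3 * √δ)

/-- B5: the dual count -/
def StCnt : Prop := ∀ (X c c' : ℕ) (D : ℤ), 1 ≤ c → 1 ≤ c' →
  ((((Ioc 0 X) ×ˢ (Ioc 0 X)).filter (fun v => (c : ℤ) * v.1 - c' * v.2 = D)).card : ℝ) ≤
    X * Nat.gcd c c' / c' + 1

/-- B5': sums of greatest common divisors -/
def StGcd : Prop := ∀ m : ℕ, 1 ≤ m →
  ∑ c ∈ Icc 1 m, ∑ c' ∈ Icc 1 m, (Nat.gcd c c' : ℝ) ≤ m ^ 2 * (1 + Real.log m)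

/-- B6: duality -/
def StDual : Prop := ∀ (F G H : ℕ → ℕ → ℝ) (X lo m : ℕ) (M : ℝ) (s t : ℤ)
  (D : ℕ → ℕ → ℕ → ℤ), 1 ≤ lo → lo ≤ m → 0 ≤ M → (s = 1 ∨ s = -1) → (t = 1 ∨ t = -1) →
  (∀ c n, |H c n| ≤ M) →
  ∑ a ∈ Icc lo m, ∑ b ∈ Icc lo m, ∑ c ∈ Icc lo m,
    |TT (F a) (G b) (H c) X a (s * b) (t * c) (D a b c)| ≤
    √(m ^ 2 * ∑ a ∈ Icc lo m, ∑ b ∈ Icc lo m, QQ (F a) (G b) X a b s) *
      (M * √(m ^ 2 * (1 + Real.log m) * X / lo + m ^ 2))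

/-- B7: comparison of two functions with close exponential sums -/
def StErr : Prop := ∀ (f g : ℕ → ℝ) (X H lo m K : ℕ) (M δ : ℝ) (D : ℕ → ℕ → ℕ → ℤ),
  1 ≤ lo → lo ≤ m → m ≤ lo * K → m ≤ X → 11 * H ≤ lo * X → 1 ≤ M → 0 ≤ δ →
  (∀ n ≤ X, |f n| ≤ M) → (∀ n ≤ X, |g n| ≤ M) →
  (∀ y ≤ X, ∀ α, ‖Sx (fun n => f n - g n) y α‖ ≤ δ * X) →
  ∑ a ∈ Icc lo m, ∑ b ∈ Icc lo m, ∑ c ∈ Icc lo m,
    |RR f X H a b c (D a b c) - RR g X H a b c (D a b c)| ≤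
    60 * M ^ 3 * K * (1 + Real.log X) ^ 2 * m ^ 2 * X ^ 2 * √(m / X + √δ)

/-! ### T: main term -/

/-- T: lower bound for the model -/
def StMainT : Prop := ∃ c₀ : ℝ, 0 < c₀ ∧ ∃ B : ℕ, ∀ (H X z a b c : ℕ) (d : ℤ), 1 ≤ a → 1 ≤ b →
  1 ≤ c → AdN a b c d → |d| ≤ H → 2 ≤ z → (max a (max b c)) ^ 2 * z ^ B ≤ H →
  11 * H ≤ a * X → 11 * H ≤ b * X → 11 * H ≤ c * X →
  c₀ * H ^ 2 / (a * b * c) ≤ RR (lz z) X H a b c d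

/-! ### D: the Davenport type bound -/

/-- D: exponential sums of `θ - λ_z` -/
def StDav : Prop := ∀ A : ℕ, ∃ B x₀ : ℕ, ∀ x z : ℕ, x₀ ≤ x → Real.log x ^ B ≤ z →
  (z : ℝ) ≤ Real.log x ^ (B + 1) → ∀ (α : ℝ) (y : ℕ), y ≤ x →
  ‖Sx (fun n => th n - lz z n) y α‖ ≤ x / Real.log x ^ A

/-- `V(z)` is at least `c / log z` -/
def StVz : Prop := ∃ c : ℝ, 0 < c ∧ ∀ z : ℕ, 2 ≤ z → c / Real.log z ≤ Vz z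

/-! ### A: top level -/

open Classical in
/-- A1: few bad triples at one height -/
def StOne : Prop := ∀ A : ℕ, ∃ C H₀ : ℕ, ∀ H m lo K : ℕ, H₀ ≤ H → 1 ≤ lo → lo ≤ m →
  m ≤ lo * K → (K : ℝ) ≤ Real.log H ^ A → (m : ℝ) ^ 2 * Real.log H ^ C ≤ H →
  ((((Icc lo m) ×ˢ (Icc lo m) ×ˢ (Icc lo m)).filter
    (fun v : ℕ × ℕ × ℕ => Bad H v.1 v.2.1 v.2.2)).card : ℝ) ≤ (m : ℝ) ^ 3 / Real.log H ^ A

/-- a triple of naturals is exceptional: some admissible `d` has no small solution of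
`a p + b q = c r + d` -/
def ExN (C m a b c : ℕ) : Prop :=
  ∃ d : ℤ, AdN a b c d ∧ ¬ ∃ p q r : ℕ, p.Prime ∧ q.Prime ∧ r.Prime ∧
    (a : ℤ) * p + b * q = c * r + d ∧
    ((max p (max q r) : ℕ) : ℝ) ≤ (|(d : ℝ)| / m + m) * Real.log m ^ C

open Classical in
/-- A2: few exceptional triples -/
def StNat : Prop := ∀ A : ℕ, ∃ C m₀ : ℕ, ∀ m : ℕ, m₀ ≤ m →
  ((((Icc 1 m) ×ˢ (Icc 1 m) ×ˢ (Icc 1 m)).filter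
    (fun v : ℕ × ℕ × ℕ => ExN C m v.1 v.2.1 v.2.2)).card : ℝ) ≤ (m : ℝ) ^ 3 / Real.log m ^ A

/-- the set of integer triples with entries at most `m` in absolute value -/
noncomputable def Box (m : ℕ) : Finset (ℤ × ℤ × ℤ) :=
  (Icc (-(m : ℤ)) m) ×ˢ (Icc (-(m : ℤ)) m) ×ˢ (Icc (-(m : ℤ)) m)

open Classical in
/-- A3: the theorem for integer triples -/
def StInt : Prop := ∀ A : ℕ, ∃ C m₀ : ℕ, ∀ m : ℕ, m₀ ≤ m →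
  (((Box m).filter (fun v : ℤ × ℤ × ℤ => ∃ d : ℤ, Admissible v.1 v.2.1 v.2.2 d ∧
    ¬ Solv v.1 v.2.1 v.2.2 d ((|(d : ℝ)| / m + m) * Real.log m ^ C))).card : ℝ) ≤
    (m : ℝ) ^ 3 / Real.log m ^ A

open Classical in
/-- A4: in terms of Baker's constant -/
def StMu : Prop := ∀ (A : ℕ) (μ : ℝ), 1 < μ → ∃ m₀ : ℕ, ∀ m : ℕ, m₀ ≤ m →
  (((Box m).filter (fun v : ℤ × ℤ × ℤ => ∃ d : ℤ, Admissible v.1 v.2.1 v.2.2 d ∧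
    ¬ Solv v.1 v.2.1 v.2.2 d (3 * |(d : ℝ)| +
      ((max 3 (max |v.1| (max |v.2.1| |v.2.2|)) : ℤ) : ℝ) ^ μ))).card : ℝ) ≤
    (m : ℝ) ^ 3 / Real.log m ^ A

end Pool.Agent.Helper48.BK
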