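import Mathlib

/-!
# Project BK (MP_3923f3_nt): the Liu-Tsang conjecture for almost all coefficient triples

Definitions.
-/

set_option autoImplicit false

namespace Pool.Agent.Helper48.BK

open Finset

/-! ### integers -/

/-- Admissible quadruples: `a, b, c` nonzero and not all of the same sign, `a + b + c - d` even,
and each of `gcd(a,b,c)`, `gcd(d,a,b)`, `gcd(d,a,c)`, `gcd(d,b,c)` equal to `1`. -/
def Admissible (a b c d : ℤ) : Prop :=
  a ≠ 0 ∧ b ≠ 0 ∧ c ≠ 0 ∧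
  ¬ (0 < a ∧ 0 < b ∧ 0 < c) ∧ ¬ (a < 0 ∧ b < 0 ∧ c < 0) ∧
  Even (a + b + c - d) ∧
  gcd a (gcd b c) = 1 ∧ gcd d (gcd a b) = 1 ∧ gcd d (gcd a c) = 1 ∧ gcd d (gcd b c) = 1

/-- the prime equation has a solution with `max (p,q,r) ≤ B` -/
def Solv (a b c d : ℤ) (B : ℝ) : Prop :=
  ∃ p q r : ℕ, p.Prime ∧ q.Prime ∧ r.Prime ∧ a * p + b * q + c * r = d ∧
    ((max p (max q r) : ℕ) : ℝ) ≤ B

/-- admissibility for the equation `a p + b q = c r + d` with natural coefficients -/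
def AdN (a b c : ℕ) (d : ℤ) : Prop :=
  Even ((a : ℤ) + b + c + d) ∧ Nat.gcd a (Nat.gcd b c) = 1 ∧
    Nat.gcd d.natAbs (Nat.gcd a b) = 1 ∧ Nat.gcd d.natAbs (Nat.gcd a c) = 1 ∧
    Nat.gcd d.natAbs (Nat.gcd b c) = 1

/-- `(a, b, c)` is bad at height `H`: some admissible `d` with `|d| ≤ H` has no prime solution of
`a p + b q = c r + d` with `a p, b q ≤ 5 H`, `c r ≤ 11 H` -/
def Bad (H a b c : ℕ) : Prop :=
  ∃ d : ℤ, |d| ≤ H ∧ AdN a b c d ∧ ¬ ∃ p q r : ℕ, p.Prime ∧ q.Prime ∧ r.Prime ∧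
    (a : ℤ) * p + b * q = c * r + d ∧ a * p ≤ 5 * H ∧ b * q ≤ 5 * H ∧ c * r ≤ 11 * H

/-! ### analysis -/

/-- additive character `exp(2πit)` -/
noncomputable def ex (t : ℝ) : ℂ := Complex.exp (2 * Real.pi * t * Complex.I)

open Classical in
/-- `log p` on primes -/
noncomputable def th (n : ℕ) : ℝ := if n.Prime then Real.log n else 0

/-- primes up to `z` -/
def Pz (z : ℕ) : Finset ℕ := (range (z + 1)).filter Nat.Prime

/-- `∏_{p ≤ z} (1 - 1/p)` -/
noncomputable def Vz (z : ℕ) : ℝ := ∏ p ∈ Pz z, (1 - 1 / (p : ℝ))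

open Classical in
/-- the model of the primes: `1 / V(z)` on integers without prime factor up to `z` -/
noncomputable def lz (z n : ℕ) : ℝ := if ∀ p ∈ Pz z, ¬ p ∣ n then 1 / Vz z else 0

/-- exponential sum over `(0, y]` -/
noncomputable def Sx (f : ℕ → ℝ) (y : ℕ) (α : ℝ) : ℂ := ∑ n ∈ Ioc 0 y, (f n : ℂ) * ex (n * α)

/-- distance to the nearest integer -/
noncomputable def nd (t : ℝ) : ℝ := |t - round t|

open Classical in
/-- `min (N, 1 / ‖t‖)` -/
noncomputable def gs (N t : ℝ) : ℝ := if N * nd t ≤ 1 then N else 1 / nd t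

/-! ### bilinear sums -/

/-- correlation of `f` on `(0, X]` at distance `h` -/
noncomputable def rr (f : ℕ → ℝ) (X h : ℕ) : ℝ := ∑ n ∈ Ioc 0 (X - h), f n * f (n + h)

/-- the second moment of the binary form `a n + σ b m` -/
noncomputable def QQ (f g : ℕ → ℝ) (X a b : ℕ) (σ : ℤ) : ℝ :=
  ∑ n ∈ Ioc 0 X, ∑ m ∈ Ioc 0 X, ∑ n' ∈ Ioc 0 X, ∑ m' ∈ Ioc 0 X,
    if (a : ℤ) * n + σ * (b * m) = a * n' + σ * (b * m') then f n * g m * (f n' * g m') else 0

/-- the ternary sum over `u n + v m + w l = D` -/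
noncomputable def TT (f g h : ℕ → ℝ) (X : ℕ) (u v w D : ℤ) : ℝ :=
  ∑ n ∈ Ioc 0 X, ∑ m ∈ Ioc 0 X, ∑ l ∈ Ioc 0 X,
    if u * n + v * m + w * l = D then f n * g m * h l else 0

/-- restriction to the window `p H < a n ≤ q H` -/
noncomputable def win (f : ℕ → ℝ) (p q H a n : ℕ) : ℝ :=
  if p * H < a * n ∧ a * n ≤ q * H then f n else 0

/-- weighted number of solutions of `a n + b m = c l + d` in the windows -/
noncomputable def RR (f : ℕ → ℝ) (X H a b c : ℕ) (d : ℤ) : ℝ :=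
  TT (win f 4 5 H a) (win f 4 5 H b) (win f 7 11 H c) X a b (-c) d

end Pool.Agent.Helper48.BK
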