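import Pool.Agent.Helper48.BK.M_Mu

/-!
# Project BK: size conditions used in the final statement
-/

set_option autoImplicit false

namespace Pool.Agent.Helper48.BK

open Finset

theorem ev_Fin (A C : ℕ) (μ : ℝ) (hμ : 1 < μ) : ∀ᶠ n : ℕ in Filter.atTop,
    (128 : ℝ) ≤ Real.log n ∧
    (n : ℝ) * Real.log n ^ C ≤ ((n : ℝ) / Real.log n ^ (A + 1)) ^ μ ∧
    Real.log n ^ C ≤ n ∧ Real.log n ^ (A + 1) ≤ n := by
  have hlog : Filter.Tendsto (fun n : ℕ => Real.log (n : ℝ)) Filter.atTop Filter.atTop :=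
    Real.tendsto_log_atTop.comp tendsto_natCast_atTop_atTop
  have ev1 : ∀ᶠ n : ℕ in Filter.atTop, (128 : ℝ) ≤ Real.log n := hlog.eventually_ge_atTop _
  have ev2 : ∀ᶠ n : ℕ in Filter.atTop, (n : ℝ) * Real.log n ^ C ≤
      ((n : ℝ) / Real.log n ^ (A + 1)) ^ μ := by
    have h1 : ∀ᶠ x : ℝ in Filter.atTop, Real.log x ^ ((C : ℝ) + (A + 1) * μ) ≤ x ^ (μ - 1) := by
      have := isLittleO_log_rpow_rpow_atTop ((C : ℝ) + (A + 1) * μ) (show 0 < μ - 1 by linarith)
      have h2 := this.bound (show (0 : ℝ) < 1 by norm_num)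
      filter_upwards [h2, Filter.eventually_ge_atTop (3 : ℝ)] with x hx h3
      rw [one_mul, Real.norm_of_nonneg (Real.rpow_nonneg (Real.log_nonneg (by linarith)) _),
        Real.norm_of_nonneg (Real.rpow_nonneg (by linarith) _)] at hx
      exact hx
    have h2 := tendsto_natCast_atTop_atTop (R := ℝ) |>.eventually h1
    filter_upwards [h2, ev1, Filter.eventually_ge_atTop 3] with n hn h6 h3
    have hn0 : (0 : ℝ) < n := by exact_mod_cast (by omega : 0 < n)
    have hL0 : (0 : ℝ) < Real.log n := by linarith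
    rw [Real.div_rpow hn0.le (by positivity), le_div_iff₀ (by positivity)]
    have e1 : (Real.log n ^ (A + 1)) ^ μ = Real.log n ^ (((A : ℝ) + 1) * μ) := by
      rw [← Real.rpow_natCast, ← Real.rpow_mul hL0.le]; push_cast; rfl
    have e2 : Real.log n ^ C = Real.log n ^ (C : ℝ) := (Real.rpow_natCast _ _).symm
    have e3 : (n : ℝ) ^ μ = n * n ^ (μ - 1) := by
      rw [Real.rpow_sub hn0, Real.rpow_one]; field_simp
    rw [e1, e2, e3, mul_assoc, ← Real.rpow_add hL0]
    gcongr
  have evp : ∀ k : ℕ, ∀ᶠ n : ℕ in Filter.atTop, Real.log n ^ k ≤ n := by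
    intro k
    have h1 : ∀ᶠ x : ℝ in Filter.atTop, Real.log x ^ k ≤ x := by
      have := isLittleO_log_rpow_rpow_atTop ((k : ℕ) : ℝ) (show (0 : ℝ) < 1 by linarith)
      have h2 := this.bound (show (0 : ℝ) < 1 by norm_num)
      filter_upwards [h2, Filter.eventually_ge_atTop (3 : ℝ)] with x hx h3
      rw [one_mul, Real.norm_of_nonneg (Real.rpow_nonneg (Real.log_nonneg (by linarith)) _),
        Real.norm_of_nonneg (Real.rpow_nonneg (by linarith) _), Real.rpow_natCast,
        Real.rpow_one] at hx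
      exact hx
    exact tendsto_natCast_atTop_atTop (R := ℝ) |>.eventually h1
  filter_upwards [ev1, ev2, evp C, evp (A + 1)] with n h1 h2 h3 h4
  exact ⟨h1, h2, h3, h4⟩

end Pool.Agent.Helper48.BK
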