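import Pool.Agent.Helper48.BK.StT

/-!
# Project BK, module Res
-/

set_option autoImplicit false

namespace Pool.Agent.Helper48.BK

open Finset

/-- the window `4H < a (u + M t) ≤ 5H` is an integer interval of the right length -/
theorem win_Res (H a M : ℕ) (u : ℤ) (ha : 1 ≤ a) (hM : 1 ≤ M) : ∃ (i : ℤ) (I : ℕ),
    |(I : ℝ) - (H : ℝ) / (a * M)| ≤ 1 ∧ ∀ t : ℤ, t ∈ Ico i (i + I) ↔
      (4 * (H : ℤ) < a * (u + M * t) ∧ a * (u + M * t) ≤ 5 * (H : ℤ)) := by
  have haM : (0 : ℤ) < a * M := by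
    have h1 : (0 : ℤ) < a := by exact_mod_cast ha
    have h2 : (0 : ℤ) < M := by exact_mod_cast hM
    exact mul_pos h1 h2
  set A : ℤ := (4 * (H : ℤ) - a * u) / (a * M) with hA
  set B : ℤ := (5 * (H : ℤ) - a * u) / (a * M) with hB
  have hAB : A ≤ B := by
    apply Int.ediv_le_ediv haM
    have : (0 : ℤ) ≤ H := by positivity
    linarith
  have a1 := Int.mul_ediv_self_le (x := 4 * (H : ℤ) - a * u) (k := a * M) haM.ne'
  have a2 := Int.lt_mul_ediv_self_add (x := 4 * (H : ℤ) - a * u) (k := a * M) haM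
  have b1 := Int.mul_ediv_self_le (x := 5 * (H : ℤ) - a * u) (k := a * M) haM.ne'
  have b2 := Int.lt_mul_ediv_self_add (x := 5 * (H : ℤ) - a * u) (k := a * M) haM
  rw [← hA] at a1 a2
  rw [← hB] at b1 b2
  refine ⟨A + 1, (B - A).toNat, ?_, ?_⟩
  · have e : (((B - A).toNat : ℕ) : ℝ) = (B : ℝ) - A := by
      have : (((B - A).toNat : ℕ) : ℤ) = B - A := Int.toNat_of_nonneg (by linarith)
      have h2 : ((((B - A).toNat : ℕ) : ℤ) : ℝ) = ((B - A : ℤ) : ℝ) := by rw [this]
      push_cast at h2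
      exact h2
    rw [e]
    have haMr : (0 : ℝ) < a * M := by exact_mod_cast haM
    have a1r : ((a : ℝ) * M) * A ≤ 4 * H - a * u := by exact_mod_cast a1
    have a2r : 4 * (H : ℝ) - a * u < ((a : ℝ) * M) * A + a * M := by exact_mod_cast a2
    have b1r : ((a : ℝ) * M) * B ≤ 5 * H - a * u := by exact_mod_cast b1
    have b2r : 5 * (H : ℝ) - a * u < ((a : ℝ) * M) * B + a * M := by exact_mod_cast b2
    have hq : (H : ℝ) = (a * M) * ((H : ℝ) / (a * M)) := by field_simp
    set q : ℝ := (H : ℝ) / (a * M) with hqdef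
    rw [abs_le]
    constructor
    · by_contra hcon
      push Not at hcon
      have h3 : ((a : ℝ) * M) * ((B : ℝ) - A - q) < (a * M) * (-1) :=
        mul_lt_mul_of_pos_left hcon haMr
      nlinarith
    · by_contra hcon
      push Not at hcon
      have h3 : ((a : ℝ) * M) * 1 < (a * M) * ((B : ℝ) - A - q) :=
        mul_lt_mul_of_pos_left hcon haMr
      nlinarith
  · intro t
    rw [mem_Ico, Int.toNat_of_nonneg (by linarith : 0 ≤ B - A)]
    have e1 : A + 1 ≤ t ↔ 4 * (H : ℤ) < a * (u + M * t) := by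
      constructor
      · intro h
        have : (a * M : ℤ) * (A + 1) ≤ (a * M) * t := mul_le_mul_of_nonneg_left h haM.le
        nlinarith
      · intro h
        by_contra hcon
        have h2 : t ≤ A := by omega
        have : (a * M : ℤ) * t ≤ (a * M) * A := mul_le_mul_of_nonneg_left h2 haM.le
        nlinarith
    have e2 : t < A + 1 + (B - A) ↔ a * (u + M * t) ≤ 5 * (H : ℤ) := by
      constructor
      · intro h
        have h2 : t ≤ B := by omega
        have : (a * M : ℤ) * t ≤ (a * M) * B := mul_le_mul_of_nonneg_left h2 haM.le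
        nlinarith
      · intro h
        by_contra hcon
        have h2 : B + 1 ≤ t := by omega
        have : (a * M : ℤ) * (B + 1) ≤ (a * M) * t := mul_le_mul_of_nonneg_left h2 haM.le
        nlinarith
    rw [e1, e2]

theorem dv_Res (c M X u : ℤ) (hc : 0 < c) :
    (c ∣ X ∧ M ∣ X / c - u) ↔ c * M ∣ X - c * u := by
  constructor
  · rintro ⟨⟨w, rfl⟩, h⟩
    rw [Int.mul_ediv_cancel_left w hc.ne'] at h
    rw [← mul_sub]
    exact mul_dvd_mul_left c h
  · intro h
    have h1 : c ∣ X := by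
      have h2 : c ∣ X - c * u := (Dvd.intro _ rfl : c ∣ c * M).trans h
      have h3 := dvd_add h2 (Dvd.intro u rfl : c ∣ c * u)
      simpa using h3
    obtain ⟨w, rfl⟩ := h1
    refine ⟨Dvd.intro _ rfl, ?_⟩
    rw [Int.mul_ediv_cancel_left w hc.ne']
    rw [← mul_sub] at h
    exact (mul_dvd_mul_iff_left hc.ne').mp h

theorem hRes (hlat : StLat) : StRes := by
  intro H a b c M d u₁ u₂ u₃ ha hb hc hM hg hdv
  obtain ⟨K, hK⟩ := hdv
  obtain ⟨i, I, hI, hIt⟩ := win_Res H a M u₁ ha hM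
  obtain ⟨j, J, hJ, hJt⟩ := win_Res H b M u₂ hb hM
  have hL := hlat a b c (-K) i j I J hc hg
  have haZ : (0 : ℤ) < a := by exact_mod_cast ha
  have hbZ : (0 : ℤ) < b := by exact_mod_cast hb
  have hcZ : (0 : ℤ) < c := by exact_mod_cast hc
  have hMZ : (0 : ℤ) < M := by exact_mod_cast hM
  have hcard : ((Sol H a b c d).filter (fun v => (M : ℤ) ∣ (v.1 : ℤ) - u₁ ∧
      (M : ℤ) ∣ (v.2 : ℤ) - u₂ ∧ (M : ℤ) ∣ thd a b c d v - u₃)).card =
      ((((Ico i (i + I)) ×ˢ (Ico j (j + J))).filter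
      (fun v : ℤ × ℤ => (c : ℤ) ∣ a * v.1 + b * v.2 - (-K))).card) := by
    symm
    have key : ∀ s t : ℤ, ((c : ℤ) ∣ a * s + b * t - (-K)) ↔
        ((c : ℤ) ∣ a * (u₁ + M * s) + b * (u₂ + M * t) - d ∧
          (M : ℤ) ∣ (a * (u₁ + M * s) + b * (u₂ + M * t) - d) / c - u₃) := by
      intro s t
      rw [dv_Res _ _ _ _ hcZ]
      have e : a * (u₁ + M * s) + b * (u₂ + M * t) - d - c * u₃ =
          M * (a * s + b * t - (-K)) := by linear_combination hK
      rw [e, mul_comm (c : ℤ) M]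
      exact (mul_dvd_mul_iff_left hMZ.ne').symm
    apply Finset.card_bij' (i := fun (v : ℤ × ℤ) _ => ((u₁ + M * v.1).toNat, (u₂ + M * v.2).toNat))
      (j := fun (v : ℕ × ℕ) _ => (((v.1 : ℤ) - u₁) / M, ((v.2 : ℤ) - u₂) / M))
    · rintro ⟨s, t⟩ h
      simp only [mem_filter, mem_product] at h
      obtain ⟨⟨hs, ht⟩, hc2⟩ := h
      rw [hIt] at hs
      rw [hJt] at ht
      have hsp : 0 < u₁ + M * s := by
        have h1 : (0 : ℤ) ≤ 4 * H := by positivity
        exact (mul_pos_iff_of_pos_left haZ).mp (lt_of_le_of_lt h1 hs.1)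
      have htp : 0 < u₂ + M * t := by
        have h1 : (0 : ℤ) ≤ 4 * H := by positivity
        exact (mul_pos_iff_of_pos_left hbZ).mp (lt_of_le_of_lt h1 ht.1)
      have es : (((u₁ + M * s).toNat : ℕ) : ℤ) = u₁ + M * s := Int.toNat_of_nonneg hsp.le
      have et : (((u₂ + M * t).toNat : ℕ) : ℤ) = u₂ + M * t := Int.toNat_of_nonneg htp.le
      have hk := (key s t).mp hc2
      simp only [Sol, mem_filter, mem_product, mem_Icc]
      simp only [thd]
      have g1 : 4 * H < a * (u₁ + M * s).toNat := by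
        zify; rw [es]; exact hs.1
      have g2 : a * (u₁ + M * s).toNat ≤ 5 * H := by
        zify; rw [es]; exact hs.2
      have g3 : 4 * H < b * (u₂ + M * t).toNat := by
        zify; rw [et]; exact ht.1
      have g4 : b * (u₂ + M * t).toNat ≤ 5 * H := by
        zify; rw [et]; exact ht.2
      have g5 : 1 ≤ (u₁ + M * s).toNat := by omega
      have g6 : 1 ≤ (u₂ + M * t).toNat := by omega
      have g7 : (u₁ + M * s).toNat ≤ 5 * H := (Nat.le_mul_of_pos_left _ ha).trans g2
      have g8 : (u₂ + M * t).toNat ≤ 5 * H := (Nat.le_mul_of_pos_left _ hb).trans g4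
      refine ⟨⟨⟨⟨g5, g7⟩, g6, g8⟩, g1, g2, g3, g4, ?_⟩, ?_, ?_, ?_⟩
      · rw [es, et]; exact hk.1
      · rw [es]; exact ⟨s, by ring⟩
      · rw [et]; exact ⟨t, by ring⟩
      · rw [es, et]; exact hk.2
    · rintro ⟨n, m⟩ h
      simp only [Sol, mem_filter, mem_product, mem_Icc] at h
      simp only [thd] at h
      obtain ⟨⟨⟨⟨g5, g7⟩, g6, g8⟩, g1, g2, g3, g4, h5⟩, ⟨s, hs⟩, ⟨t, ht⟩, h6⟩ := h
      have es : (n : ℤ) = u₁ + M * s := by linarith
      have et : (m : ℤ) = u₂ + M * t := by linarith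
      have es2 : ((n : ℤ) - u₁) / M = s := by
        rw [hs]; exact Int.mul_ediv_cancel_left s hMZ.ne'
      have et2 : ((m : ℤ) - u₂) / M = t := by
        rw [ht]; exact Int.mul_ediv_cancel_left t hMZ.ne'
      simp only [mem_filter, mem_product]
      rw [es2, et2, hIt, hJt, key, ← es, ← et]
      refine ⟨⟨⟨by exact_mod_cast g1, by exact_mod_cast g2⟩, by exact_mod_cast g3,
        by exact_mod_cast g4⟩, h5, h6⟩
    · rintro ⟨s, t⟩ h
      simp only [mem_filter, mem_product] at h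
      obtain ⟨⟨hs, ht⟩, hc2⟩ := h
      rw [hIt] at hs
      rw [hJt] at ht
      have hsp : 0 < u₁ + M * s := by
        have h1 : (0 : ℤ) ≤ 4 * H := by positivity
        exact (mul_pos_iff_of_pos_left haZ).mp (lt_of_le_of_lt h1 hs.1)
      have htp : 0 < u₂ + M * t := by
        have h1 : (0 : ℤ) ≤ 4 * H := by positivity
        exact (mul_pos_iff_of_pos_left hbZ).mp (lt_of_le_of_lt h1 ht.1)
      have es : (((u₁ + M * s).toNat : ℕ) : ℤ) = u₁ + M * s := Int.toNat_of_nonneg hsp.le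
      have et : (((u₂ + M * t).toNat : ℕ) : ℤ) = u₂ + M * t := Int.toNat_of_nonneg htp.le
      simp only
      rw [es, et]
      ext
      · simp only
        rw [add_sub_cancel_left]
        exact Int.mul_ediv_cancel_left s hMZ.ne'
      · simp only
        rw [add_sub_cancel_left]
        exact Int.mul_ediv_cancel_left t hMZ.ne'
    · rintro ⟨n, m⟩ h
      simp only [Sol, mem_filter, mem_product, mem_Icc] at h
      simp only [thd] at h
      obtain ⟨⟨⟨⟨g5, g7⟩, g6, g8⟩, g1, g2, g3, g4, h5⟩, hs, ht, h6⟩ := h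
      simp only
      rw [Int.mul_ediv_cancel' hs, Int.mul_ediv_cancel' ht]
      ext
      · simp
      · simp
  rw [hcard]
  have haR : (0 : ℝ) < a := by exact_mod_cast ha
  have hbR : (0 : ℝ) < b := by exact_mod_cast hb
  have hcR : (1 : ℝ) ≤ c := by exact_mod_cast hc
  have hMR : (0 : ℝ) < M := by exact_mod_cast hM
  set x : ℝ := (H : ℝ) / (a * M) with hx
  set y : ℝ := (H : ℝ) / (b * M) with hy
  have hx0 : 0 ≤ x := by positivity
  have hy0 : 0 ≤ y := by positivity
  have emain : (H / a : ℝ) * (H / b : ℝ) / (c * (M : ℝ) ^ 2) = x * y / c := by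
    rw [hx, hy]; field_simp
  rw [emain]
  obtain ⟨hI1, hI2⟩ := abs_le.mp hI
  obtain ⟨hJ1, hJ2⟩ := abs_le.mp hJ
  have hI0 : (0 : ℝ) ≤ I := by positivity
  have hJ0 : (0 : ℝ) ≤ J := by positivity
  have hd : |(I : ℝ) * J / c - x * y / c| ≤ x + y + 1 := by
    have e : (I : ℝ) * J / c - x * y / c = (((I : ℝ) - x) * J + x * (J - y)) / c := by ring
    rw [e, abs_div, abs_of_pos (lt_of_lt_of_le one_pos hcR)]
    have h1 : |((I : ℝ) - x) * J + x * (J - y)| ≤ x + y + 1 := by
      calc |((I : ℝ) - x) * J + x * (J - y)| ≤ |((I : ℝ) - x) * J| + |x * (J - y)| := abs_add_le _ _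
        _ = |(I : ℝ) - x| * J + x * |J - y| := by
            rw [abs_mul, abs_mul, abs_of_nonneg hJ0, abs_of_nonneg hx0]
        _ ≤ 1 * J + x * 1 := by
            apply add_le_add
            · exact mul_le_mul_of_nonneg_right hI hJ0
            · exact mul_le_mul_of_nonneg_left hJ hx0
        _ ≤ x + y + 1 := by linarith
    calc _ ≤ (x + y + 1) / c := by
          apply div_le_div_of_nonneg_right h1 (by linarith)
      _ ≤ x + y + 1 := div_le_self (by linarith) hcR
  obtain ⟨hd1, hd2⟩ := abs_le.mp hd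
  obtain ⟨hL1, hL2⟩ := abs_le.mp hL
  rw [abs_le]
  constructor <;> linarith

end Pool.Agent.Helper48.BK
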